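import Pool.Agent.H64.LK.Defs

/-!
# R2: the loop space is a homotopy associative H-space up to translation

Statement: for a loop `l` at `v` there is `m : C(Path v v × Path v v, Path v v)` with `m(·, l)` and
`m(l, ·)` homotopic to the identity.

Proof. `m(a, b) = a · (l⁻¹ · b)` (`Path.trans`, `Path.symm`). Continuity: Mathlib has
`Continuous.path_trans`/`Path.continuous_trans`, `Path.continuous_symm` (search in
Mathlib/Topology/Path.lean and Mathlib/Topology/Connected/PathConnected.lean); continuity into `Path v v` can be
checked after uncurrying (`Path.continuous_uncurry_iff`), `I` being compact.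
* `m(a, l) = a · (l⁻¹ · l)`. The path homotopy `K : l⁻¹ · l ≃ refl v` (`Path.Homotopy.reflSymmTrans`
or its symmetric) gives a continuous map `I → Path v v`, `τ ↦ K.eval τ`
(`Path.Homotopy.eval`), so `(τ, a) ↦ a · K(τ)` is a homotopy from `m(·, l)` to `a ↦ a · refl`. And
`a · refl` is a reparametrisation of `a` by a fixed map `I → I` (see the proof of
`Path.Homotopy.transRefl`, auxiliary function `transReflReparamAux`): `(τ, a) ↦ (t ↦ a ((1-τ) φ(t) + τ t))`
is a homotopy to the identity.
* `m(l, b) = l · (l⁻¹ · b)` is a reparametrisation by a fixed map of `(l · l⁻¹) · b`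
(see `Path.Homotopy.transAssoc`), hence homotopic to `b ↦ (l · l⁻¹) · b`, which by `K' : l · l⁻¹ ≃ refl`
is homotopic to `b ↦ refl · b`, a reparametrisation of `b`, hence homotopic to the identity.
A general lemma is useful: if `φ : C(I, I)` with `φ 0 = 0`, `φ 1 = 1`, then `a ↦ a.reparam φ` is homotopic to the
identity of `Path v v`.
-/

/-!
# R2: the loop space is a homotopy associative H-space up to translation
-/

open scoped ContDiff unitInterval
open Topology Set

namespace LK

/-- The point `(1 - τ) s + τ t` of the unit interval. -/
def R2_mix (τ s t : I) : I := ⟨(1 - (τ : ℝ)) * s + τ * t, by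
  have h1 := τ.2
  have h2 := s.2
  have h3 := t.2
  rw [Set.mem_Icc] at h1 h2 h3 ⊢
  constructor
  · have a1 : 0 ≤ (1 - (τ : ℝ)) * s := mul_nonneg (by linarith) h2.1
    have a2 : 0 ≤ (τ : ℝ) * t := mul_nonneg h1.1 h3.1
    linarith
  · have a1 : (1 - (τ : ℝ)) * s ≤ (1 - τ) * 1 := mul_le_mul_of_nonneg_left h2.2 (by linarith)
    have a2 : (τ : ℝ) * t ≤ τ * 1 := mul_le_mul_of_nonneg_left h3.2 h1.1
    linarith⟩

theorem R2_mix_zero (s t : I) : R2_mix 0 s t = s := by
  apply Subtype.ext
  simp [R2_mix]

theorem R2_mix_one (s t : I) : R2_mix 1 s t = t := by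
  apply Subtype.ext
  simp [R2_mix]

theorem R2_mix_self (τ s : I) : R2_mix τ s s = s := by
  apply Subtype.ext
  simp only [R2_mix]
  ring

theorem R2_mix_cont : Continuous fun p : I × I × I => R2_mix p.1 p.2.1 p.2.2 := by
  unfold R2_mix
  fun_prop

/-- Reparametrisation by a fixed map is continuous. -/
theorem R2_reparam_cont {W : Type*} [TopologicalSpace W] {v w : W} (φ : I → I) (hφ : Continuous φ)
    (h0 : φ 0 = 0) (h1 : φ 1 = 1) : Continuous fun a : Path v w => a.reparam φ hφ h0 h1 := by
  apply Path.continuous_uncurry_iff.mp
  change Continuous fun p : Path v w × I => p.1 (φ p.2)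
  exact Path.continuous_uncurry_iff.mpr continuous_id |>.comp
    (continuous_fst.prodMk (hφ.comp continuous_snd))

/-- Reparametrisation by a fixed map is homotopic to the identity. -/
theorem R2_reparam {W : Type*} [TopologicalSpace W] {v w : W} (f : C(Path v w, Path v w))
    (φ : I → I) (hφ : Continuous φ) (h0 : φ 0 = 0) (h1 : φ 1 = 1)
    (hf : ∀ (a : Path v w) (t : I), f a t = a (φ t)) :
    f.Homotopic (ContinuousMap.id _) := by
  have key : ∀ τ : I, Continuous fun t => R2_mix τ (φ t) t := fun τ =>
    R2_mix_cont.comp (continuous_const.prodMk (hφ.prodMk continuous_id))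
  let H : I × Path v w → Path v w := fun p => p.2.reparam (fun t => R2_mix p.1 (φ t) t)
      (key p.1) (by rw [h0, R2_mix_self]) (by rw [h1, R2_mix_self])
  have hc : Continuous H := by
    apply Path.continuous_uncurry_iff.mp
    change Continuous fun q : (I × Path v w) × I => q.1.2 (R2_mix q.1.1 (φ q.2) q.2)
    have e1 : Continuous fun q : Path v w × I => q.1 q.2 :=
      Path.continuous_uncurry_iff.mpr continuous_id
    have e2 : Continuous fun q : (I × Path v w) × I => R2_mix q.1.1 (φ q.2) q.2 :=
      R2_mix_cont.comp ((continuous_fst.comp continuous_fst).prodMk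
        ((hφ.comp continuous_snd).prodMk continuous_snd))
    exact e1.comp ((continuous_snd.comp continuous_fst).prodMk e2)
  refine ⟨{ toFun := H
            continuous_toFun := hc
            map_zero_left := ?_
            map_one_left := ?_ }⟩
  · intro a
    ext t
    change a (R2_mix 0 (φ t) t) = f a t
    rw [R2_mix_zero, hf]
  · intro a
    ext t
    change a (R2_mix 1 (φ t) t) = a t
    rw [R2_mix_one]

theorem R2_eval_cont {W : Type*} [TopologicalSpace W] {v w : W} {p q : Path v w}
    (K : p.Homotopy q) : Continuous fun τ : I => K.eval τ := by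
  apply Path.continuous_uncurry_iff.mp
  change Continuous fun s : I × I => K (s.1, s.2)
  exact K.continuous

theorem R2_refl_trans {W : Type*} [TopologicalSpace W] {v : W} (b : Path v v) (t : I) :
    (Path.refl v).trans b t = b (Set.projIcc (0 : ℝ) 1 zero_le_one (2 * (t : ℝ) - 1)) := by
  rw [Path.trans_apply]
  split_ifs with h
  · rw [Set.projIcc_of_le_left _ (by linarith)]
    exact b.source.symm
  · congr 1
    have h2 := t.2.2
    rw [Set.projIcc_of_mem]

theorem R2 {W : Type*} [TopologicalSpace W] (v : W) (l : Path v v) :
    ∃ m : C(Path v v × Path v v, Path v v),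
      (m.comp ((ContinuousMap.id _).prodMk (ContinuousMap.const _ l))).Homotopic
        (ContinuousMap.id _) ∧
      (m.comp ((ContinuousMap.const _ l).prodMk (ContinuousMap.id _))).Homotopic
        (ContinuousMap.id _) := by
  have hm : Continuous fun p : Path v v × Path v v => p.1.trans (l.symm.trans p.2) :=
    continuous_fst.path_trans (continuous_const.path_trans continuous_snd)
  refine ⟨⟨_, hm⟩, ?_, ?_⟩
  · have K := (Path.Homotopy.reflSymmTrans l).symm
    have hH : Continuous fun p : I × Path v v => p.2.trans (K.eval p.1) :=
      continuous_snd.path_trans ((R2_eval_cont K).comp continuous_fst)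
    have hr : Continuous fun a : Path v v => a.trans (Path.refl v) :=
      continuous_id.path_trans continuous_const
    have s1 : ((⟨_, hm⟩ : C(Path v v × Path v v, Path v v)).comp
        ((ContinuousMap.id _).prodMk (ContinuousMap.const _ l))).Homotopic ⟨_, hr⟩ := by
      refine ⟨{ toFun := fun p => p.2.trans (K.eval p.1)
                continuous_toFun := hH
                map_zero_left := ?_
                map_one_left := ?_ }⟩
      · intro a
        change a.trans (K.eval 0) = a.trans (l.symm.trans l)
        rw [Path.Homotopy.eval_zero]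
      · intro a
        change a.trans (K.eval 1) = a.trans (Path.refl v)
        rw [Path.Homotopy.eval_one]
    refine s1.trans (R2_reparam _
      (fun t => ⟨Path.Homotopy.transReflReparamAux t, Path.Homotopy.transReflReparamAux_mem_I t⟩)
      (by fun_prop) (Subtype.ext Path.Homotopy.transReflReparamAux_zero)
      (Subtype.ext Path.Homotopy.transReflReparamAux_one) fun a t => ?_)
    exact congrArg (fun p : Path v v => p t) (Path.Homotopy.trans_refl_reparam a)
  · have K := (Path.Homotopy.reflTransSymm l).symm
    have h1 : Continuous fun b : Path v v => l.trans (l.symm.trans b) :=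
      continuous_const.path_trans (continuous_const.path_trans continuous_id)
    have h2 : Continuous fun b : Path v v => (l.trans l.symm).trans b :=
      continuous_const.path_trans continuous_id
    have h3 : Continuous fun b : Path v v => (Path.refl v).trans b :=
      continuous_const.path_trans continuous_id
    have hH : Continuous fun p : I × Path v v => (K.eval p.1).trans p.2 :=
      ((R2_eval_cont K).comp continuous_fst).path_trans continuous_snd
    have hψ : Continuous fun t : I => (⟨Path.Homotopy.transAssocReparamAux t,
        Path.Homotopy.transAssocReparamAux_mem_I t⟩ : I) := by fun_prop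
    have h4 : Continuous fun a : Path v v => a.reparam (fun t =>
        ⟨Path.Homotopy.transAssocReparamAux t, Path.Homotopy.transAssocReparamAux_mem_I t⟩) hψ
        (Subtype.ext Path.Homotopy.transAssocReparamAux_zero)
        (Subtype.ext Path.Homotopy.transAssocReparamAux_one) := R2_reparam_cont _ _ _ _
    have s4 : (⟨_, h4⟩ : C(Path v v, Path v v)).Homotopic (ContinuousMap.id _) :=
      R2_reparam _ _ hψ (Subtype.ext Path.Homotopy.transAssocReparamAux_zero)
        (Subtype.ext Path.Homotopy.transAssocReparamAux_one) fun a t => rfl
    have s3 : ((⟨_, h4⟩ : C(Path v v, Path v v)).comp ⟨_, h1⟩).Homotopic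
        ((ContinuousMap.id _).comp ⟨_, h1⟩) :=
      ContinuousMap.Homotopic.comp s4 (ContinuousMap.Homotopic.refl _)
    have e3 : ((⟨_, h4⟩ : C(Path v v, Path v v)).comp ⟨_, h1⟩) = ⟨_, h2⟩ := by
      ext1 b
      exact (Path.Homotopy.trans_assoc_reparam l l.symm b).symm
    rw [e3] at s3
    have s2 : (⟨_, h2⟩ : C(Path v v, Path v v)).Homotopic ⟨_, h3⟩ := by
      refine ⟨{ toFun := fun p => (K.eval p.1).trans p.2
                continuous_toFun := hH
                map_zero_left := ?_
                map_one_left := ?_ }⟩
      · intro a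
        change (K.eval 0).trans a = (l.trans l.symm).trans a
        rw [Path.Homotopy.eval_zero]
      · intro a
        change (K.eval 1).trans a = (Path.refl v).trans a
        rw [Path.Homotopy.eval_one]
    have s1 : (⟨_, h3⟩ : C(Path v v, Path v v)).Homotopic (ContinuousMap.id _) := by
      refine R2_reparam _ (fun t => Set.projIcc (0 : ℝ) 1 zero_le_one (2 * (t : ℝ) - 1))
        (by fun_prop) ?_ ?_ fun b t => R2_refl_trans b t
      · apply Subtype.ext
        simp [Set.projIcc]
      · apply Subtype.ext
        simp [Set.projIcc]
        norm_num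
    exact s3.symm.trans (s2.trans s1)

end LK
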