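import Pool.Agent.H64.LK.R1
import Pool.Agent.H64.LK.R2

/-!
# R3: a homotopy retract of a space homotopy equivalent to a loop space has abelian fundamental
groups

Proof. `e : Z ≃ₕ Path v v`, `i : X → Z`, `r : Z → X`, `r ∘ i ≃ id`. Put `i' = e ∘ i`,
`r' = r ∘ e⁻¹`; `r' ∘ i' ≃ r ∘ i ≃ id`. For `x : X` let `l = i' x` and `m` from R2; put
`M(a, b) = r'(m(i' a, i' b))`. Then `M(·, x) = r' ∘ m(·, l) ∘ i' ≃ r' ∘ i' ≃ id`, same on the other
side; apply R1.
-/

open scoped ContDiff unitInterval
open Topology Set

namespace LK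

theorem R3 {W Z X : Type*} [TopologicalSpace W] [TopologicalSpace Z] [TopologicalSpace X] (v : W)
    (e : ContinuousMap.HomotopyEquiv Z (Path v v)) (h : HRetract X Z) (x : X) : AbAt x := by
  obtain ⟨i, r, hir⟩ := h
  let i' : C(X, Path v v) := e.toFun.comp i
  let r' : C(Path v v, X) := r.comp e.invFun
  have hri : (r'.comp i').Homotopic (ContinuousMap.id X) := by
    have h1 : (r'.comp i') = r.comp ((e.invFun.comp e.toFun).comp i) := rfl
    rw [h1]
    have h2 : (r.comp ((e.invFun.comp e.toFun).comp i)).Homotopic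
        (r.comp ((ContinuousMap.id Z).comp i)) :=
      (ContinuousMap.Homotopic.refl r).comp (e.left_inv.comp (ContinuousMap.Homotopic.refl i))
    exact h2.trans hir
  obtain ⟨m, hm1, hm2⟩ := R2 v (i' x)
  let M : C(X × X, X) := r'.comp (m.comp (i'.prodMap i'))
  apply R1 x M
  · have h1 : M.comp ((ContinuousMap.id X).prodMk (ContinuousMap.const X x))
        = r'.comp ((m.comp ((ContinuousMap.id _).prodMk (ContinuousMap.const _ (i' x)))).comp i') :=
      rfl
    rw [h1]
    exact ((ContinuousMap.Homotopic.refl r').comp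
      (hm1.comp (ContinuousMap.Homotopic.refl i'))).trans hri
  · have h1 : M.comp ((ContinuousMap.const X x).prodMk (ContinuousMap.id X))
        = r'.comp ((m.comp ((ContinuousMap.const _ (i' x)).prodMk (ContinuousMap.id _))).comp i') :=
      rfl
    rw [h1]
    exact ((ContinuousMap.Homotopic.refl r').comp
      (hm2.comp (ContinuousMap.Homotopic.refl i'))).trans hri

end LK
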