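import Pool.Agent.H64.LK.Defs

/-!
# The space `Z_n` with short terms (helper64, MP_fbf562_gt)

Bundled versions (objects of `TopCat`) of the reduced suspension and of the loop space, so that the
terms stay short.
-/

open scoped ContDiff unitInterval
open Topology Set

namespace LK

/-- The reduced suspension of `(X, x)` as a bundled space. -/
def susp (X : TopCat.{0}) (x : X) : TopCat.{0} := TopCat.of (RSusp x)

/-- The base point of the reduced suspension. -/
def suspPt (X : TopCat.{0}) (x : X) : susp X x := suspBase x

/-- The loop space of `(X, x)` (with the compact-open topology) as a bundled space. -/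
def loops (X : TopCat.{0}) (x : X) : TopCat.{0} := TopCat.of (Path x x)

/-- The constant loop. -/
def loopPt (X : TopCat.{0}) (x : X) : loops X x := Path.refl x

/-- The double suspension `Σ²(X, x)`. -/
def susp2 (X : TopCat.{0}) (x : X) : TopCat.{0} := susp (susp X x) (suspPt X x)

/-- Its base point. -/
def susp2Pt (X : TopCat.{0}) (x : X) : susp2 X x := suspPt (susp X x) (suspPt X x)

/-- The double loop space `Ω²(X, x)`. -/
def loops2 (X : TopCat.{0}) (x : X) : TopCat.{0} := loops (loops X x) (loopPt X x)

/-- The ordered configuration space of `q` distinct points of `ℝ^m` as a bundled space. -/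
def confT (m q : ℕ) : TopCat.{0} := TopCat.of (Conf (E m) q)

/-- The base configuration: the points `(j, 0, ..., 0)`, `0 ≤ j < q`. -/
noncomputable def confPt (m : ℕ) [NeZero m] (q : ℕ) : confT m q := baseConf m q

/-- `Y_{m+1}`: the disjoint union, over `q ≥ 2`, of the loop spaces of the configuration spaces of
`q` points of `ℝ^m`. -/
noncomputable def YT (m : ℕ) [NeZero m] : TopCat.{0} :=
  TopCat.of (Σ q : {q : ℕ // 2 ≤ q}, loops (confT m q.1) (confPt m q.1))

/-- `Z_{m+1} = Ω²Σ²(Y_{m+1})`, for the base point `y` of `Y_{m+1}`. -/
noncomputable def ZT (m : ℕ) [NeZero m] (y : YT m) : TopCat.{0} :=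
  loops2 (susp2 (YT m) y) (susp2Pt (YT m) y)

theorem ZT_eq (m : ℕ) [NeZero m] (y : YY m) : ZT m y = TopCat.of (O2S2 y) := rfl

end LK
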