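import Pool.Agent.H64.LK.CDefs

/-!
# C0: elementary facts on the building blocks of the curve

`st s = smoothTransition ((s+1)/2)`: `0` for `s ≤ -1`, `1` for `s ≥ 1`. `hh c = c + 2 smoothTransition ((9/10 - c) 5/2)`.
* `hh c ≥ 1/2` for `c ≥ -1`: for `c ≥ 1/2`, `hh c ≥ c`; for `c ≤ 1/2` the transition is `1` and `hh c = c + 2 ≥ 1`.
* `hh c = c` for `c ≥ 9/10`; conversely `hh c ≤ c` forces the transition to vanish, i.e. `c ≥ 9/10`
  (`Real.smoothTransition.pos_of_pos`). `hh c = c + 2` for `c ≤ 1/2`.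
* `-π/2 < Psi t < 5π/2` (arctan bounds and `0 ≤ st ≤ 1`); `Psi` is strictly increasing (arctan strictly, `st`
  monotone: `Real.smoothTransition.monotone` or via its definition; if monotonicity is missing in Mathlib, prove it: it is
  `expNegInvGlue x / (expNegInvGlue x + expNegInvGlue (1 - x))` with `expNegInvGlue` monotone) and takes every value in
  `(-π/2, 5π/2)` (intermediate value theorem, limits at infinity of arctan).
* `C0_A`: for `-π/2 < ψ < arccos (9/10)`, `Gam ψ = GA ψ`: by definition for `ψ ≤ arctan (1/4)`; otherwise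
  `ψ < π - ..` so `Gam ψ = GB ψ`, `cos ψ > 9/10`, `hh (cos ψ) = cos ψ`, so `GB ψ = (8 tan ψ, 2)`, and
  `8 tan ψ > 2`, `ph = 3π`, `exp (3π i) = -1`, `GA ψ = (8 tan ψ, 2)`.
* `C0_B`: for `arctan (1/8) < ψ < 2π - arctan (1/8)`, `Gam ψ = GB ψ`: nontrivial only for `ψ ≤ arctan (1/4)` or
  `ψ ≥ 2π - arctan (1/4)`. In the first case `8 tan ψ > 1` so `GA ψ = (8 tan ψ, 2)` and
  `cos ψ ≥ cos (arctan (1/4)) = 1 / sqrt (1 + 1/16) > 9/10` so `GB ψ = (8 tan ψ, 2)`. In the second case, `8 tan ψ < -1`, `ph = 0`,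
  `GC ψ = (8 tan ψ, 2) = GB ψ`.
* `C0_C`: for `2π - arccos (9/10) < ψ < 5π/2`, `Gam ψ = GC ψ`, same.
* numerical: `arctan (1/8) < arctan (1/4) < arccos (9/10) < π/2`.
-/

open scoped ContDiff unitInterval
open Topology Set

namespace LK

theorem C0_st0 (s : ℝ) (h : s ≤ -1) : st s = 0 :=
  Real.smoothTransition.zero_of_nonpos (by linarith)

theorem C0_st1 (s : ℝ) (h : 1 ≤ s) : st s = 1 :=
  Real.smoothTransition.one_of_one_le (by linarith)

theorem C0_st_mem (s : ℝ) : 0 ≤ st s ∧ st s ≤ 1 :=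
  ⟨Real.smoothTransition.nonneg _, Real.smoothTransition.le_one _⟩

theorem C0_st_mono : Monotone st := by
  intro a b hab
  exact Real.smoothTransition.monotone (by linarith)

theorem C0_exp0 (s : ℝ) (h : s ≤ -1) : Complex.exp (ph s * Complex.I) = 1 := by
  simp [ph, C0_st0 s h]

theorem C0_exp1 (s : ℝ) (h : 1 ≤ s) : Complex.exp (ph s * Complex.I) = -1 := by
  have h1 : ((ph s : ℝ) : ℂ) * Complex.I = Real.pi * Complex.I + 2 * Real.pi * Complex.I := by
    simp only [ph, C0_st1 s h]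
    push_cast
    ring
  rw [h1, Complex.exp_add, Complex.exp_pi_mul_I, Complex.exp_two_pi_mul_I]
  ring

theorem C0_hle (c : ℝ) : c ≤ hh c := by
  have := Real.smoothTransition.nonneg ((9 / 10 - c) * (5 / 2))
  unfold hh
  linarith

theorem C0_h9 (c : ℝ) (h : 9 / 10 ≤ c) : hh c = c := by
  unfold hh
  rw [Real.smoothTransition.zero_of_nonpos (by linarith)]
  ring

theorem C0_h5 (c : ℝ) (h : c ≤ 1 / 2) : hh c = c + 2 := by
  unfold hh
  rw [Real.smoothTransition.one_of_one_le (by linarith)]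
  ring

theorem C0_hpos (c : ℝ) (h : -1 ≤ c) : 1 / 2 ≤ hh c := by
  rcases le_total c (1 / 2) with h1 | h1
  · rw [C0_h5 c h1]; linarith
  · exact h1.trans (C0_hle c)

theorem C0_h_conv (c : ℝ) (h : hh c ≤ c) : 9 / 10 ≤ c := by
  have h0 := Real.smoothTransition.nonneg ((9 / 10 - c) * (5 / 2))
  unfold hh at h
  have h1 : Real.smoothTransition ((9 / 10 - c) * (5 / 2)) = 0 := le_antisymm (by linarith) h0
  have h2 := Real.smoothTransition.zero_iff_nonpos.1 h1
  linarith

theorem C0_cos_quarter : 9 / 10 < Real.cos (Real.arctan (1 / 4)) := by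
  have h1 := Real.cos_sq_arctan (1 / 4)
  have h2 := Real.cos_arctan_pos (1 / 4)
  have h3 : Real.cos (Real.arctan (1 / 4)) ^ 2 = 16 / 17 := by rw [h1]; norm_num
  by_contra hcon
  push Not at hcon
  have h4 : Real.cos (Real.arctan (1 / 4)) ^ 2 ≤ (9 / 10) ^ 2 :=
    pow_le_pow_left₀ h2.le hcon 2
  rw [h3] at h4
  norm_num at h4

theorem C0_arctan_pos {x : ℝ} (hx : 0 < x) : 0 < Real.arctan x := by
  have := Real.arctan_strictMono hx
  rwa [Real.arctan_zero] at this

theorem C0_num : Real.arctan (1 / 8) < Real.arctan (1 / 4) ∧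
    Real.arctan (1 / 4) < Real.arccos (9 / 10) ∧ Real.arccos (9 / 10) < Real.pi / 2 := by
  refine ⟨Real.arctan_strictMono (by norm_num), ?_, Real.arccos_lt_pi_div_two.2 (by norm_num)⟩
  by_contra hcon
  push Not at hcon
  have h1 : Real.cos (Real.arctan (1 / 4)) ≤ Real.cos (Real.arccos (9 / 10)) :=
    Real.cos_le_cos_of_nonneg_of_le_pi (Real.arccos_nonneg _)
      ((Real.arctan_lt_pi_div_two _).le.trans (by linarith [Real.pi_pos])) hcon
  rw [Real.cos_arccos (by norm_num) (by norm_num)] at h1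
  linarith [C0_cos_quarter]

theorem C0_Psi_range (t : ℝ) : -(Real.pi / 2) < Psi t ∧ Psi t < 5 * Real.pi / 2 := by
  have h1 := Real.arctan_lt_pi_div_two (t / 8)
  have h2 := Real.neg_pi_div_two_lt_arctan (t / 8)
  obtain ⟨h3, h4⟩ := C0_st_mem t
  have hpi := Real.pi_pos
  have h5 : 0 ≤ 2 * Real.pi * st t := by positivity
  have h6 : 2 * Real.pi * st t ≤ 2 * Real.pi * 1 :=
    mul_le_mul_of_nonneg_left h4 (by positivity)
  unfold Psi
  constructor <;> linarith

theorem C0_Psi_mono : StrictMono Psi := by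
  intro a b hab
  have h1 : Real.arctan (a / 8) < Real.arctan (b / 8) := Real.arctan_strictMono (by linarith)
  have h2 : 2 * Real.pi * st a ≤ 2 * Real.pi * st b :=
    mul_le_mul_of_nonneg_left (C0_st_mono hab.le) (by positivity)
  unfold Psi
  linarith

theorem C0_Psi_cont : Continuous Psi := by
  unfold Psi st
  have h1 : Continuous (fun t : ℝ => Real.smoothTransition ((t + 1) / 2)) :=
    Real.smoothTransition.continuous.comp (by fun_prop)
  have h2 : Continuous (fun t : ℝ => Real.arctan (t / 8)) :=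
    Real.continuous_arctan.comp (by fun_prop)
  exact h2.add (continuous_const.mul h1)

theorem C0_Psi_surj (ψ : ℝ) (h1 : -(Real.pi / 2) < ψ) (h2 : ψ < 5 * Real.pi / 2) :
    ∃ t, Psi t = ψ := by
  have hpi := Real.pi_pos
  have ha : ∃ a : ℝ, a ≤ -1 ∧ Psi a ≤ ψ := by
    rcases le_total 0 ψ with h | h
    · refine ⟨-1, le_rfl, ?_⟩
      unfold Psi
      rw [C0_st0 _ le_rfl]
      have : Real.arctan (-1 / 8) < 0 := by
        have := Real.arctan_strictMono (show (-1 / 8 : ℝ) < 0 by norm_num)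
        rwa [Real.arctan_zero] at this
      linarith
    · refine ⟨min (-1) (8 * Real.tan ψ), min_le_left _ _, ?_⟩
      unfold Psi
      rw [C0_st0 _ (min_le_left _ _)]
      have h3 : Real.arctan (min (-1) (8 * Real.tan ψ) / 8) ≤ Real.arctan (Real.tan ψ) := by
        apply Real.arctan_strictMono.monotone
        have := min_le_right (-1) (8 * Real.tan ψ)
        linarith
      rw [Real.arctan_tan h1 (by linarith)] at h3
      linarith
  have hb : ∃ b : ℝ, 1 ≤ b ∧ ψ ≤ Psi b := by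
    rcases le_total ψ (2 * Real.pi) with h | h
    · refine ⟨1, le_rfl, ?_⟩
      unfold Psi
      rw [C0_st1 _ le_rfl]
      have := C0_arctan_pos (show (0 : ℝ) < 1 / 8 by norm_num)
      linarith
    · refine ⟨max 1 (8 * Real.tan (ψ - 2 * Real.pi)), le_max_left _ _, ?_⟩
      unfold Psi
      rw [C0_st1 _ (le_max_left _ _)]
      have h3 : Real.arctan (Real.tan (ψ - 2 * Real.pi))
          ≤ Real.arctan (max 1 (8 * Real.tan (ψ - 2 * Real.pi)) / 8) := by
        apply Real.arctan_strictMono.monotone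
        have := le_max_right 1 (8 * Real.tan (ψ - 2 * Real.pi))
        linarith
      rw [Real.arctan_tan (by linarith) (by linarith)] at h3
      linarith
  obtain ⟨a, ha1, ha2⟩ := ha
  obtain ⟨b, hb1, hb2⟩ := hb
  have hab : a ≤ b := by linarith
  obtain ⟨t, _, ht⟩ := intermediate_value_Icc hab C0_Psi_cont.continuousOn ⟨ha2, hb2⟩
  exact ⟨t, ht⟩

theorem C0_GBeq {ψ : ℝ} (h : 9 / 10 ≤ Real.cos ψ) : GB ψ = (8 * Real.tan ψ, 2) := by
  have hc : Real.cos ψ ≠ 0 := by
    intro h0; rw [h0] at h; norm_num at h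
  unfold GB
  rw [C0_h9 _ h]
  refine Prod.ext ?_ ?_
  · show 8 / Real.cos ψ * Real.sin ψ = 8 * Real.tan ψ
    rw [Real.tan_eq_sin_div_cos]; ring
  · show ((10 - 8 / Real.cos ψ * Real.cos ψ : ℝ) : ℂ) = 2
    have : (10 - 8 / Real.cos ψ * Real.cos ψ : ℝ) = 2 := by
      rw [div_mul_cancel₀ _ hc]; norm_num
    rw [this]; norm_num

theorem C0_GAeq {ψ : ℝ} (h : 1 ≤ 8 * Real.tan ψ) : GA ψ = (8 * Real.tan ψ, 2) := by
  unfold GA
  rw [C0_exp1 _ h]
  refine Prod.ext rfl ?_
  show (1 : ℂ) - -1 = 2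
  norm_num

theorem C0_GCeq {ψ : ℝ} (h : 8 * Real.tan ψ ≤ -1) : GC ψ = (8 * Real.tan ψ, 2) := by
  unfold GC
  rw [C0_exp0 _ h]
  refine Prod.ext rfl ?_
  show (1 : ℂ) + 1 = 2
  norm_num

/-- Above `arctan y` the tangent is larger than `y`. -/
theorem C0_tan_gt {y ψ : ℝ} (h1 : Real.arctan y < ψ) (h2 : ψ < Real.pi / 2) : y < Real.tan ψ := by
  have h3 := Real.tan_lt_tan_of_lt_of_lt_pi_div_two (Real.neg_pi_div_two_lt_arctan y) h2 h1
  rwa [Real.tan_arctan] at h3

theorem C0_A (ψ : ℝ) (h1 : -(Real.pi / 2) < ψ) (h2 : ψ < Real.arccos (9 / 10)) :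
    Gam ψ = GA ψ := by
  obtain ⟨n1, n2, n3⟩ := C0_num
  have hpi := Real.pi_pos
  unfold Gam
  split_ifs with ha hb
  · rfl
  · exfalso
    linarith [Real.arctan_lt_pi_div_two (1 / 4)]
  · push Not at ha
    have h0 : 0 < Real.arctan (1 / 4) := C0_arctan_pos (by norm_num)
    have hc : 9 / 10 ≤ Real.cos ψ := by
      have := Real.cos_le_cos_of_nonneg_of_le_pi (by linarith : 0 ≤ ψ)
        (Real.arccos_le_pi (9 / 10)) h2.le
      rwa [Real.cos_arccos (by norm_num) (by norm_num)] at this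
    have ht := C0_tan_gt ha (by linarith)
    rw [C0_GBeq hc, C0_GAeq (by linarith)]

theorem C0_B (ψ : ℝ) (h1 : Real.arctan (1 / 8) < ψ) (h2 : ψ < 2 * Real.pi - Real.arctan (1 / 8)) :
    Gam ψ = GB ψ := by
  obtain ⟨n1, n2, n3⟩ := C0_num
  have hpi := Real.pi_pos
  have h80 : 0 < Real.arctan (1 / 8) := C0_arctan_pos (by norm_num)
  have h4 := Real.arctan_lt_pi_div_two (1 / 4)
  unfold Gam
  split_ifs with ha hb
  · have hc : 9 / 10 ≤ Real.cos ψ := by
      have := Real.cos_le_cos_of_nonneg_of_le_pi (by linarith : 0 ≤ ψ) (by linarith) ha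
      linarith [C0_cos_quarter]
    have ht := C0_tan_gt h1 (by linarith)
    rw [C0_GBeq hc, C0_GAeq (by linarith)]
  · have hc : 9 / 10 ≤ Real.cos ψ := by
      have := Real.cos_le_cos_of_nonneg_of_le_pi (by linarith : 0 ≤ 2 * Real.pi - ψ)
        (by linarith) (by linarith : 2 * Real.pi - ψ ≤ Real.arctan (1 / 4))
      rw [Real.cos_two_pi_sub] at this
      linarith [C0_cos_quarter]
    have ht := C0_tan_gt (by linarith : Real.arctan (1 / 8) < 2 * Real.pi - ψ) (by linarith)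
    have ht2 : Real.tan (2 * Real.pi - ψ) = -Real.tan ψ := by
      rw [Real.tan_eq_sin_div_cos, Real.tan_eq_sin_div_cos, Real.cos_two_pi_sub,
        Real.sin_two_pi_sub, neg_div]
    rw [ht2] at ht
    rw [C0_GBeq hc, C0_GCeq (by linarith)]
  · rfl

theorem C0_C (ψ : ℝ) (h1 : 2 * Real.pi - Real.arccos (9 / 10) < ψ) (h2 : ψ < 5 * Real.pi / 2) :
    Gam ψ = GC ψ := by
  obtain ⟨n1, n2, n3⟩ := C0_num
  have hpi := Real.pi_pos
  have h40 : 0 < Real.arctan (1 / 4) := C0_arctan_pos (by norm_num)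
  unfold Gam
  split_ifs with ha hb
  · exfalso
    linarith [Real.arctan_lt_pi_div_two (1 / 4)]
  · rfl
  · push Not at hb
    have hc : 9 / 10 ≤ Real.cos ψ := by
      have := Real.cos_le_cos_of_nonneg_of_le_pi (by linarith : 0 ≤ 2 * Real.pi - ψ)
        (Real.arccos_le_pi (9 / 10)) (by linarith : 2 * Real.pi - ψ ≤ Real.arccos (9 / 10))
      rw [Real.cos_two_pi_sub, Real.cos_arccos (by norm_num) (by norm_num)] at this
      exact this
    have ht := C0_tan_gt (by linarith : Real.arctan (1 / 4) < 2 * Real.pi - ψ) (by linarith)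
    have ht2 : Real.tan (2 * Real.pi - ψ) = -Real.tan ψ := by
      rw [Real.tan_eq_sin_div_cos, Real.tan_eq_sin_div_cos, Real.cos_two_pi_sub,
        Real.sin_two_pi_sub, neg_div]
    rw [ht2] at ht
    rw [C0_GBeq hc, C0_GCeq (by linarith)]

end LK
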