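import Pool.Agent.H64.LK.C0

/-!
# C1: the curve is smooth with nonvanishing derivative

`curve = Gam ∘ Psi`. `Psi` is smooth (`Real.contDiff_arctan`, `Real.smoothTransition.contDiff`), with
`Psi' > 0` (the derivative of `arctan (t/8)` is positive, that of the monotone function `st` is `≥ 0`).
The open intervals `(-π/2, arccos (9/10))`, `(arctan (1/8), 2π - arctan (1/8))`, `(2π - arccos (9/10), 5π/2)` cover
`(-π/2, 5π/2)` (C0_num) and on them `Gam` equals `GA`, `GB`, `GC` (C0_A, C0_B, C0_C), so at each point `Gam` is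
eventually equal to one of them.
`GA` is smooth at `ψ` if `cos ψ ≠ 0` (`Real.contDiffAt_tan`), with first coordinate `8 tan ψ` of derivative
`8 / cos² ψ ≠ 0`; same for `GC` (`cos ψ > 0` on the third interval, `cos ψ = cos (ψ - 2π)`).
`GB` is smooth everywhere (`hh (cos ψ) ≥ 1/2 > 0`). With `R = 8 / hh (cos ψ) > 0` its derivative is
`(R' sin ψ + R cos ψ, -R' cos ψ + R sin ψ)`, whose scalar product with `(cos ψ, sin ψ)` is `R ≠ 0`.
Derivative of `curve` at `t`: `Psi' t • Gam' (Psi t) ≠ 0`.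
-/

open scoped ContDiff unitInterval
open Topology Set

namespace LK

private theorem C1_st : ContDiff ℝ ∞ st := by
  unfold st
  exact Real.smoothTransition.contDiff.comp (by fun_prop)

private theorem C1_ph : ContDiff ℝ ∞ ph := by
  unfold ph
  exact contDiff_const.mul C1_st

private theorem C1_hh : ContDiff ℝ ∞ hh := by
  unfold hh
  have h1 : ContDiff ℝ ∞ (fun c : ℝ => Real.smoothTransition ((9 / 10 - c) * (5 / 2))) :=
    Real.smoothTransition.contDiff.comp (by fun_prop)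
  exact contDiff_id.add (contDiff_const.mul h1)

private theorem C1_Psi : ContDiff ℝ ∞ Psi := by
  unfold Psi
  have h1 : ContDiff ℝ ∞ (fun t : ℝ => Real.arctan (t / 8)) :=
    Real.contDiff_arctan.comp (by fun_prop)
  exact h1.add (contDiff_const.mul C1_st)

private theorem C1_Psi_deriv (t : ℝ) : 0 < deriv Psi t := by
  have h1 : HasDerivAt (fun t : ℝ => Real.arctan (t / 8)) (1 / (1 + (t / 8) ^ 2) * (1 / 8)) t := by
    have h0 : HasDerivAt (fun t : ℝ => t / 8) (1 / 8) t := (hasDerivAt_id' t).div_const 8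
    exact h0.arctan
  have h2 : HasDerivAt st (deriv st t) t :=
    ((C1_st.differentiable (by simp)) t).hasDerivAt
  have h3 : HasDerivAt Psi (1 / (1 + (t / 8) ^ 2) * (1 / 8) + 2 * Real.pi * deriv st t) t := by
    unfold Psi
    exact h1.add (h2.const_mul (2 * Real.pi))
  rw [h3.deriv]
  have h4 : 0 ≤ deriv st t := C0_st_mono.deriv_nonneg
  have h5 : 0 < 1 / (1 + (t / 8) ^ 2) * (1 / 8) := by positivity
  have h6 : 0 ≤ 2 * Real.pi * deriv st t := mul_nonneg (by positivity) h4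
  linarith

private theorem C1_fst {g : ℝ → V} {ψ : ℝ} (hg : ContDiffAt ℝ ∞ g ψ) {d : ℝ}
    (hd : HasDerivAt (fun x => (g x).1) d ψ) : (deriv g ψ).1 = d := by
  have h1 : HasDerivAt g (deriv g ψ) ψ := (hg.differentiableAt (by simp)).hasDerivAt
  have h2 : HasDerivAt (fun x => (g x).1) (deriv g ψ).1 ψ :=
    (ContinuousLinearMap.fst ℝ ℝ ℂ).hasFDerivAt.comp_hasDerivAt ψ h1
  exact h2.unique hd

private theorem C1_snd {g : ℝ → V} {ψ : ℝ} (hg : ContDiffAt ℝ ∞ g ψ) {d : ℝ}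
    (hd : HasDerivAt (fun x => (g x).2.re) d ψ) : (deriv g ψ).2.re = d := by
  have h1 : HasDerivAt g (deriv g ψ) ψ := (hg.differentiableAt (by simp)).hasDerivAt
  have h2 : HasDerivAt (fun x => (g x).2.re) (deriv g ψ).2.re ψ :=
    (Complex.reCLM.comp (ContinuousLinearMap.snd ℝ ℝ ℂ)).hasFDerivAt.comp_hasDerivAt ψ h1
  exact h2.unique hd

private theorem C1_exp {ψ : ℝ} (hc : Real.cos ψ ≠ 0) :
    ContDiffAt ℝ ∞ (fun x : ℝ => Complex.exp (ph (8 * Real.tan x) * Complex.I)) ψ := by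
  have h1 : ContDiffAt ℝ ∞ (fun x : ℝ => 8 * Real.tan x) ψ :=
    contDiffAt_const.mul (Real.contDiffAt_tan.2 hc)
  have h2 : ContDiffAt ℝ ∞ (fun x : ℝ => ph (8 * Real.tan x)) ψ :=
    C1_ph.contDiffAt.comp ψ h1
  have h3 : ContDiffAt ℝ ∞ (fun x : ℝ => ((ph (8 * Real.tan x) : ℝ) : ℂ)) ψ :=
    Complex.ofRealCLM.contDiff.contDiffAt.comp ψ h2
  exact (h3.mul contDiffAt_const).cexp

private theorem C1_GA {ψ : ℝ} (hc : Real.cos ψ ≠ 0) : ContDiffAt ℝ ∞ GA ψ := by
  have h1 : ContDiffAt ℝ ∞ (fun x : ℝ => 8 * Real.tan x) ψ :=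
    contDiffAt_const.mul (Real.contDiffAt_tan.2 hc)
  exact h1.prodMk (contDiffAt_const.sub (C1_exp hc))

private theorem C1_GC {ψ : ℝ} (hc : Real.cos ψ ≠ 0) : ContDiffAt ℝ ∞ GC ψ := by
  have h1 : ContDiffAt ℝ ∞ (fun x : ℝ => 8 * Real.tan x) ψ :=
    contDiffAt_const.mul (Real.contDiffAt_tan.2 hc)
  exact h1.prodMk (contDiffAt_const.add (C1_exp hc))

private theorem C1_tan {g : ℝ → V} {ψ : ℝ} (hc : Real.cos ψ ≠ 0) (hg : ContDiffAt ℝ ∞ g ψ)
    (h : ∀ x, (g x).1 = 8 * Real.tan x) : deriv g ψ ≠ 0 := by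
  have h1 : HasDerivAt (fun x => (g x).1) (8 * (1 / Real.cos ψ ^ 2)) ψ := by
    have h2 := (Real.hasDerivAt_tan hc).const_mul 8
    refine h2.congr_of_eventuallyEq ?_
    exact Filter.Eventually.of_forall fun x => h x
  have h3 := C1_fst hg h1
  intro h0
  rw [h0] at h3
  have h4 : 0 < 8 * (1 / Real.cos ψ ^ 2) := by positivity
  rw [← h3] at h4
  exact lt_irrefl _ h4

private theorem C1_R (ψ : ℝ) : ContDiffAt ℝ ∞ (fun x : ℝ => 8 / hh (Real.cos x)) ψ := by
  have h1 : ContDiff ℝ ∞ (fun x : ℝ => hh (Real.cos x)) := C1_hh.comp Real.contDiff_cos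
  have h2 : hh (Real.cos ψ) ≠ 0 := by
    have := C0_hpos (Real.cos ψ) (Real.neg_one_le_cos ψ)
    linarith
  exact contDiffAt_const.div h1.contDiffAt h2

private theorem C1_GB (ψ : ℝ) : ContDiffAt ℝ ∞ GB ψ := by
  have h1 : ContDiffAt ℝ ∞ (fun x : ℝ => 8 / hh (Real.cos x) * Real.sin x) ψ :=
    (C1_R ψ).mul Real.contDiff_sin.contDiffAt
  have h2 : ContDiffAt ℝ ∞ (fun x : ℝ => 10 - 8 / hh (Real.cos x) * Real.cos x) ψ :=
    contDiffAt_const.sub ((C1_R ψ).mul Real.contDiff_cos.contDiffAt)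
  have h3 : ContDiffAt ℝ ∞ (fun x : ℝ => ((10 - 8 / hh (Real.cos x) * Real.cos x : ℝ) : ℂ)) ψ :=
    Complex.ofRealCLM.contDiff.contDiffAt.comp ψ h2
  exact h1.prodMk h3

private theorem C1_GB_deriv (ψ : ℝ) : deriv GB ψ ≠ 0 := by
  have hR : HasDerivAt (fun x : ℝ => 8 / hh (Real.cos x))
      (deriv (fun x : ℝ => 8 / hh (Real.cos x)) ψ) ψ :=
    ((C1_R ψ).differentiableAt (by simp)).hasDerivAt
  have h1 := hR.mul (Real.hasDerivAt_sin ψ)
  have h2 := (hR.mul (Real.hasDerivAt_cos ψ)).const_sub 10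
  have e1 := C1_fst (C1_GB ψ) (d := _) h1
  have e2 := C1_snd (C1_GB ψ) (d := _) h2
  intro h0
  rw [h0] at e1 e2
  have e1' : (0 : ℝ) = deriv (fun x : ℝ => 8 / hh (Real.cos x)) ψ * Real.sin ψ +
      8 / hh (Real.cos ψ) * Real.cos ψ := e1
  have e2' : (0 : ℝ) = -(deriv (fun x : ℝ => 8 / hh (Real.cos x)) ψ * Real.cos ψ +
      8 / hh (Real.cos ψ) * -Real.sin ψ) := e2
  have h3 : 8 / hh (Real.cos ψ) = 0 := by
    have h4 := Real.sin_sq_add_cos_sq ψ
    linear_combination (-Real.cos ψ) * e1' - Real.sin ψ * e2' - 8 / hh (Real.cos ψ) * h4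
  have h5 := C0_hpos (Real.cos ψ) (Real.neg_one_le_cos ψ)
  have h6 : 0 < 8 / hh (Real.cos ψ) := div_pos (by norm_num) (by linarith)
  linarith

private theorem C1_Gam {ψ : ℝ} (h1 : -(Real.pi / 2) < ψ) (h2 : ψ < 5 * Real.pi / 2) :
    ContDiffAt ℝ ∞ Gam ψ ∧ deriv Gam ψ ≠ 0 := by
  obtain ⟨n1, n2, n3⟩ := C0_num
  have hp := Real.pi_pos
  by_cases hA : ψ < Real.arccos (9 / 10)
  · have he : Gam =ᶠ[𝓝 ψ] GA := by
      filter_upwards [Ioo_mem_nhds h1 hA] with x hx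
      exact C0_A x hx.1 hx.2
    have hc : Real.cos ψ ≠ 0 := (Real.cos_pos_of_mem_Ioo ⟨h1, by linarith⟩).ne'
    refine ⟨(C1_GA hc).congr_of_eventuallyEq he, ?_⟩
    rw [he.deriv_eq]
    exact C1_tan hc (C1_GA hc) fun x => rfl
  · push Not at hA
    by_cases hB : ψ < 2 * Real.pi - Real.arctan (1 / 8)
    · have h3 : Real.arctan (1 / 8) < ψ := by linarith
      have he : Gam =ᶠ[𝓝 ψ] GB := by
        filter_upwards [Ioo_mem_nhds h3 hB] with x hx
        exact C0_B x hx.1 hx.2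
      refine ⟨(C1_GB ψ).congr_of_eventuallyEq he, ?_⟩
      rw [he.deriv_eq]
      exact C1_GB_deriv ψ
    · push Not at hB
      have h3 : 2 * Real.pi - Real.arccos (9 / 10) < ψ := by linarith
      have he : Gam =ᶠ[𝓝 ψ] GC := by
        filter_upwards [Ioo_mem_nhds h3 h2] with x hx
        exact C0_C x hx.1 hx.2
      have hc : Real.cos ψ ≠ 0 := by
        have h4 : 0 < Real.cos (ψ - 2 * Real.pi) :=
          Real.cos_pos_of_mem_Ioo ⟨by linarith, by linarith⟩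
        rw [Real.cos_sub_two_pi] at h4
        exact h4.ne'
      refine ⟨(C1_GC hc).congr_of_eventuallyEq he, ?_⟩
      rw [he.deriv_eq]
      exact C1_tan hc (C1_GC hc) fun x => rfl

theorem C1 : ContDiff ℝ ∞ curve := by
  rw [contDiff_iff_contDiffAt]
  intro t
  have h := C0_Psi_range t
  have h1 : ContDiffAt ℝ ∞ Gam (Psi t) := (C1_Gam h.1 h.2).1
  exact h1.comp t C1_Psi.contDiffAt

theorem C1_deriv (t : ℝ) : deriv curve t ≠ 0 := by
  have h := C0_Psi_range t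
  obtain ⟨h1, h2⟩ := C1_Gam h.1 h.2
  have h3 : HasDerivAt Gam (deriv Gam (Psi t)) (Psi t) :=
    (h1.differentiableAt (by simp)).hasDerivAt
  have h4 : HasDerivAt Psi (deriv Psi t) t :=
    ((C1_Psi.differentiable (by simp)) t).hasDerivAt
  have h5 : HasDerivAt curve (deriv Psi t • deriv Gam (Psi t)) t := h3.scomp t h4
  rw [h5.deriv]
  exact smul_ne_zero (C1_Psi_deriv t).ne' h2

end LK
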