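import Pool.Agent.H64.LK.C0

/-!
# C3: the curve is injective

`Psi` is strictly increasing with values in `(-π/2, 5π/2)`, so it suffices that `Gam` is injective on this interval. Let
`b = arctan (1/4)`. Three kinds of parameters: (A) `-π/2 < ψ ≤ b`: `Gam ψ = (s, 1 - e^{i ph s})`,
`s = 8 tan ψ ≤ 2`; (C) `2π - b ≤ ψ < 5π/2`: `Gam ψ = (s, 1 + e^{i ph s})`, `s = 8 tan ψ ≥ -2`; (B) `b < ψ < 2π - b`:
`Gam ψ = (R sin ψ, 10 - R cos ψ)` (second coordinate real), `R = 8 / hh (cos ψ) > 0`.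
(A,A), (C,C): `tan` is injective on `(-π/2, π/2)`, resp. on `(3π/2, 5π/2)` (shift by `2π`).
(A,C): equal first coordinates `s`, then `1 - e^{i ph s} = 1 + e^{i ph s}` is impossible.
(B,B): `(R sin ψ, R cos ψ) = (R' sin ψ', R' cos ψ')` with `R, R' > 0`, so `R = R'`, `sin ψ = sin ψ'`, `cos ψ = cos ψ'`, and
`ψ, ψ' ∈ (0, 2π)`, so `ψ = ψ'`.
(A,B) and (B,C): the point of (A) or (C) has `Re (second) = 1 ∓ cos (ph s) ≤ 2`. So `R cos ψ ≥ 8` for the point of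
(B), hence `cos ψ > 0` and `hh (cos ψ) ≤ cos ψ`, so `cos ψ ≥ 9/10` and `hh (cos ψ) = cos ψ` (C0_h_conv, C0_h9) and
the point is `(8 tan ψ, 2)` with `cos ψ ≥ 9/10`. As `b < ψ < 2π - b` and `cos ψ > 0`, either `b < ψ < π/2`, `8 tan ψ > 2`, or `3π/2 < ψ < 2π - b`,
`8 tan ψ < -2`: `|8 tan ψ| > 2`. In case (A): `s ≤ 2`, `s = 8 tan ψ`, so `s < -2`, `ph s = 0` and the point is
`(s, 0) ≠ (s, 2)`. In case (C): `s ≥ -2` so `s > 2`, `e^{i ph s} = -1`, the point is `(s, 0) ≠ (s, 2)`.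
-/

open scoped ContDiff unitInterval
open Topology Set

namespace LK

theorem C3_b : 0 < Real.arctan (1 / 4) ∧ Real.arctan (1 / 4) < Real.pi / 2 :=
  ⟨Real.arctan_pos.2 (by norm_num), Real.arctan_lt_pi_div_two _⟩

/-- first pass -/
theorem C3_A {ψ : ℝ} (h1 : -(Real.pi / 2) < ψ) (h2 : ψ ≤ Real.arctan (1 / 4)) :
    (Gam ψ).1 = 8 * Real.tan ψ ∧ (Gam ψ).1 ≤ 2 ∧
      (Gam ψ).2 = 1 - Complex.exp (ph (Gam ψ).1 * Complex.I) := by
  have hG : Gam ψ = GA ψ := by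
    unfold Gam
    rw [if_pos h2]
  rw [hG]
  refine ⟨rfl, ?_, rfl⟩
  show 8 * Real.tan ψ ≤ 2
  have h3 : Real.tan ψ ≤ Real.tan (Real.arctan (1 / 4)) :=
    Real.strictMonoOn_tan.monotoneOn ⟨h1, h2.trans_lt C3_b.2⟩
      ⟨by linarith [C3_b.1, Real.pi_pos], C3_b.2⟩ h2
  rw [Real.tan_arctan] at h3
  linarith

/-- third pass -/
theorem C3_C {ψ : ℝ} (h1 : 2 * Real.pi - Real.arctan (1 / 4) ≤ ψ) (h2 : ψ < 5 * Real.pi / 2) :
    (Gam ψ).1 = 8 * Real.tan (ψ - 2 * Real.pi) ∧ -2 ≤ (Gam ψ).1 ∧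
      (Gam ψ).2 = 1 + Complex.exp (ph (Gam ψ).1 * Complex.I) := by
  have hb := C3_b
  have hpi := Real.pi_pos
  have hG : Gam ψ = GC ψ := by
    unfold Gam
    rw [if_neg (by linarith), if_pos h1]
  have htan : Real.tan ψ = Real.tan (ψ - 2 * Real.pi) := by
    have := (Real.tan_periodic.nat_mul 2) (ψ - 2 * Real.pi)
    rw [← this]
    congr 1
    push_cast
    ring
  rw [hG]
  refine ⟨?_, ?_, rfl⟩
  · show 8 * Real.tan ψ = _
    rw [htan]
  · show -2 ≤ 8 * Real.tan ψ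
    rw [htan]
    have h3 : Real.tan (-Real.arctan (1 / 4)) ≤ Real.tan (ψ - 2 * Real.pi) :=
      Real.strictMonoOn_tan.monotoneOn ⟨by linarith, by linarith⟩
        ⟨by linarith, by linarith⟩ (by linarith)
    rw [Real.tan_neg, Real.tan_arctan] at h3
    linarith

/-- closing arc -/
theorem C3_B {ψ : ℝ} (h1 : Real.arctan (1 / 4) < ψ) (h2 : ψ < 2 * Real.pi - Real.arctan (1 / 4)) :
    ∃ R : ℝ, 0 < R ∧ R = 8 / hh (Real.cos ψ) ∧ (Gam ψ).1 = R * Real.sin ψ ∧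
      (Gam ψ).2 = ((10 - R * Real.cos ψ : ℝ) : ℂ) := by
  have hG : Gam ψ = GB ψ := by
    unfold Gam
    rw [if_neg (by linarith), if_neg (by linarith)]
  have hpos := C0_hpos (Real.cos ψ) (Real.neg_one_le_cos ψ)
  refine ⟨8 / hh (Real.cos ψ), by positivity, rfl, ?_, ?_⟩
  · rw [hG]
    rfl
  · rw [hG]
    rfl

theorem C3_close {ψ : ℝ} (h1 : Real.arctan (1 / 4) < ψ) (h2 : ψ < 2 * Real.pi - Real.arctan (1 / 4))
    (h3 : (Gam ψ).2.re ≤ 2) : (Gam ψ).2 = 2 ∧ (2 < (Gam ψ).1 ∨ (Gam ψ).1 < -2) := by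
  obtain ⟨R, hR, hR', hs, hw⟩ := C3_B h1 h2
  have hb := C3_b
  have hpi := Real.pi_pos
  have hpos := C0_hpos (Real.cos ψ) (Real.neg_one_le_cos ψ)
  rw [hw, Complex.ofReal_re] at h3
  have h4 : 8 ≤ 8 / hh (Real.cos ψ) * Real.cos ψ := by
    rw [← hR']
    linarith
  have h5 : hh (Real.cos ψ) ≤ Real.cos ψ := by
    rw [div_mul_eq_mul_div, le_div_iff₀ (by linarith)] at h4
    linarith
  have h6 := C0_h_conv _ h5
  have h7 := C0_h9 _ h6
  have hcos : 0 < Real.cos ψ := by linarith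
  rw [h7] at hR'
  have h8 : R * Real.cos ψ = 8 := by
    rw [hR']
    field_simp
  have h9 : R * Real.sin ψ = 8 * Real.tan ψ := by
    rw [hR', Real.tan_eq_sin_div_cos]
    ring
  refine ⟨?_, ?_⟩
  · rw [hw, h8]
    norm_num
  · rw [hs, h9]
    rcases lt_or_ge ψ (Real.pi / 2) with h | h
    · left
      have h10 : Real.tan (Real.arctan (1 / 4)) < Real.tan ψ :=
        Real.strictMonoOn_tan ⟨by linarith, by linarith⟩ ⟨by linarith, h⟩ h1
      rw [Real.tan_arctan] at h10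
      linarith
    · rcases le_or_gt ψ (3 * Real.pi / 2) with h' | h'
      · exfalso
        have := Real.cos_nonpos_of_pi_div_two_le_of_le h (by linarith)
        linarith
      · right
        have htan : Real.tan ψ = Real.tan (ψ - 2 * Real.pi) := by
          have := (Real.tan_periodic.nat_mul 2) (ψ - 2 * Real.pi)
          rw [← this]
          congr 1
          push_cast
          ring
        have h10 : Real.tan (ψ - 2 * Real.pi) < Real.tan (-Real.arctan (1 / 4)) :=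
          Real.strictMonoOn_tan ⟨by linarith, by linarith⟩ ⟨by linarith, by linarith⟩ (by linarith)
        rw [Real.tan_neg, Real.tan_arctan] at h10
        rw [htan]
        linarith

theorem C3_re_A (s : ℝ) : (1 - Complex.exp (s * Complex.I)).re ≤ 2 := by
  rw [Complex.sub_re, Complex.exp_ofReal_mul_I_re, Complex.one_re]
  linarith [Real.neg_one_le_cos s]

theorem C3_re_C (s : ℝ) : (1 + Complex.exp (s * Complex.I)).re ≤ 2 := by
  rw [Complex.add_re, Complex.exp_ofReal_mul_I_re, Complex.one_re]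
  linarith [Real.cos_le_one s]

theorem C3_AB {ψ ψ' : ℝ} (h1 : -(Real.pi / 2) < ψ) (h2 : ψ ≤ Real.arctan (1 / 4))
    (h1' : Real.arctan (1 / 4) < ψ') (h2' : ψ' < 2 * Real.pi - Real.arctan (1 / 4)) :
    Gam ψ ≠ Gam ψ' := by
  intro h
  obtain ⟨-, a2, a3⟩ := C3_A h1 h2
  have h3 : (Gam ψ').2.re ≤ 2 := by
    rw [← h, a3]
    exact C3_re_A _
  obtain ⟨b1, b2⟩ := C3_close h1' h2' h3
  rw [← h] at b1 b2
  rcases b2 with b2 | b2
  · linarith
  · rw [a3, C0_exp0 _ (by linarith)] at b1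
    norm_num at b1

theorem C3_CB {ψ ψ' : ℝ} (h1 : 2 * Real.pi - Real.arctan (1 / 4) ≤ ψ) (h2 : ψ < 5 * Real.pi / 2)
    (h1' : Real.arctan (1 / 4) < ψ') (h2' : ψ' < 2 * Real.pi - Real.arctan (1 / 4)) :
    Gam ψ ≠ Gam ψ' := by
  intro h
  obtain ⟨-, a2, a3⟩ := C3_C h1 h2
  have h3 : (Gam ψ').2.re ≤ 2 := by
    rw [← h, a3]
    exact C3_re_C _
  obtain ⟨b1, b2⟩ := C3_close h1' h2' h3
  rw [← h] at b1 b2
  rcases b2 with b2 | b2
  · rw [a3, C0_exp1 _ (by linarith)] at b1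
    norm_num at b1
  · linarith

theorem C3_AC {ψ ψ' : ℝ} (h1 : -(Real.pi / 2) < ψ) (h2 : ψ ≤ Real.arctan (1 / 4))
    (h1' : 2 * Real.pi - Real.arctan (1 / 4) ≤ ψ') (h2' : ψ' < 5 * Real.pi / 2) :
    Gam ψ ≠ Gam ψ' := by
  intro h
  obtain ⟨-, -, a3⟩ := C3_A h1 h2
  obtain ⟨-, -, b3⟩ := C3_C h1' h2'
  rw [← h, a3] at b3
  apply Complex.exp_ne_zero (ph (Gam ψ).1 * Complex.I)
  linear_combination (-1 / 2) * b3

theorem C3_AA {ψ ψ' : ℝ} (h1 : -(Real.pi / 2) < ψ) (h2 : ψ ≤ Real.arctan (1 / 4))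
    (h1' : -(Real.pi / 2) < ψ') (h2' : ψ' ≤ Real.arctan (1 / 4)) (h : Gam ψ = Gam ψ') : ψ = ψ' := by
  obtain ⟨a1, -, -⟩ := C3_A h1 h2
  obtain ⟨b1, -, -⟩ := C3_A h1' h2'
  have hb := C3_b
  rw [h, b1] at a1
  exact Real.injOn_tan ⟨h1, h2.trans_lt hb.2⟩ ⟨h1', h2'.trans_lt hb.2⟩ (by linarith)

theorem C3_CC {ψ ψ' : ℝ} (h1 : 2 * Real.pi - Real.arctan (1 / 4) ≤ ψ) (h2 : ψ < 5 * Real.pi / 2)
    (h1' : 2 * Real.pi - Real.arctan (1 / 4) ≤ ψ') (h2' : ψ' < 5 * Real.pi / 2)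
    (h : Gam ψ = Gam ψ') : ψ = ψ' := by
  obtain ⟨a1, -, -⟩ := C3_C h1 h2
  obtain ⟨b1, -, -⟩ := C3_C h1' h2'
  have hb := C3_b
  rw [h, b1] at a1
  have := Real.injOn_tan (show ψ - 2 * Real.pi ∈ Ioo (-(Real.pi / 2)) (Real.pi / 2) from
      ⟨by linarith, by linarith⟩) (show ψ' - 2 * Real.pi ∈ Ioo (-(Real.pi / 2)) (Real.pi / 2) from
      ⟨by linarith, by linarith⟩) (by linarith)
  linarith

theorem C3_BB {ψ ψ' : ℝ} (h1 : Real.arctan (1 / 4) < ψ) (h2 : ψ < 2 * Real.pi - Real.arctan (1 / 4))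
    (h1' : Real.arctan (1 / 4) < ψ') (h2' : ψ' < 2 * Real.pi - Real.arctan (1 / 4))
    (h : Gam ψ = Gam ψ') : ψ = ψ' := by
  obtain ⟨R, hR, -, a1, a2⟩ := C3_B h1 h2
  obtain ⟨R', hR', -, b1, b2⟩ := C3_B h1' h2'
  have hb := C3_b
  rw [h, b1] at a1
  rw [h, b2] at a2
  have a3 : 10 - R' * Real.cos ψ' = 10 - R * Real.cos ψ := by exact_mod_cast a2
  have hsq : R ^ 2 = R' ^ 2 := by
    have e1 : R ^ 2 = (R * Real.sin ψ) ^ 2 + (R * Real.cos ψ) ^ 2 := by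
      have := Real.sin_sq_add_cos_sq ψ
      nlinarith
    have e2 : R' ^ 2 = (R' * Real.sin ψ') ^ 2 + (R' * Real.cos ψ') ^ 2 := by
      have := Real.sin_sq_add_cos_sq ψ'
      nlinarith
    have e3 : R' * Real.cos ψ' = R * Real.cos ψ := by linarith
    rw [e1, e2, e3, a1]
  have hRR : R = R' := (pow_left_inj₀ hR.le hR'.le two_ne_zero).1 hsq
  subst hRR
  have hsin : Real.sin ψ' = Real.sin ψ := mul_left_cancel₀ hR.ne' a1
  have hcos : Real.cos ψ' = Real.cos ψ := mul_left_cancel₀ hR.ne' (by linarith)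
  have hc1 : Real.cos (ψ - ψ') = 1 := by
    rw [Real.cos_sub, hsin, hcos]
    have := Real.sin_sq_add_cos_sq ψ
    nlinarith
  have := (Real.cos_eq_one_iff_of_lt_of_lt (by linarith) (by linarith)).1 hc1
  linarith

theorem C3_inj {ψ ψ' : ℝ} (h1 : -(Real.pi / 2) < ψ) (h2 : ψ < 5 * Real.pi / 2)
    (h1' : -(Real.pi / 2) < ψ') (h2' : ψ' < 5 * Real.pi / 2) (h : Gam ψ = Gam ψ') : ψ = ψ' := by
  have hcase : ∀ x : ℝ, x ≤ Real.arctan (1 / 4) ∨
      (Real.arctan (1 / 4) < x ∧ x < 2 * Real.pi - Real.arctan (1 / 4)) ∨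
      2 * Real.pi - Real.arctan (1 / 4) ≤ x := by
    intro x
    rcases le_or_gt x (Real.arctan (1 / 4)) with h | h
    · exact Or.inl h
    · rcases lt_or_ge x (2 * Real.pi - Real.arctan (1 / 4)) with h' | h'
      · exact Or.inr (Or.inl ⟨h, h'⟩)
      · exact Or.inr (Or.inr h')
  rcases hcase ψ with c | ⟨c, d⟩ | c <;> rcases hcase ψ' with c' | ⟨c', d'⟩ | c'
  · exact C3_AA h1 c h1' c' h
  · exact absurd h (C3_AB h1 c c' d')
  · exact absurd h (C3_AC h1 c c' h2')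
  · exact absurd h.symm (C3_AB h1' c' c d)
  · exact C3_BB c d c' d' h
  · exact absurd h.symm (C3_CB c' h2' c d)
  · exact absurd h.symm (C3_AC h1' c' c h2)
  · exact absurd h (C3_CB c h2 c' d')
  · exact C3_CC c h2 c' h2' h

theorem C3 : Function.Injective curve := by
  intro t t' h
  have h1 := C0_Psi_range t
  have h2 := C0_Psi_range t'
  exact C0_Psi_mono.injective (C3_inj h1.1 h1.2 h2.1 h2.2 h)

end LK
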