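import Pool.Agent.H64.LK.C0

/-!
# C4: standard ends and bounds

`t ≤ -1`: `st t = 0`, `Psi t = arctan (t/8) < 0`, so `Gam = GA`, `8 tan (arctan (t/8)) = t`, `e^{i ph t} = 1`, `curve t = (t, 0)`.
`t ≥ 1`: `st t = 1`, `Psi t = arctan (t/8) + 2π ≥ 2π - arctan (1/4)`, `Gam = GC`, `tan` has period `π`, `e^{i ph t} = -1`,
`curve t = (t, 0)`.
`|t| ≤ 1`: `-arctan (1/8) ≤ Psi t ≤ 2π + arctan (1/8)` (monotonicity of arctan, `0 ≤ st ≤ 1`). If `Psi t ≤ arctan (1/4)`: first coordinate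
`8 tan` in `[-1, 2]`, second of norm `≤ 2`. If `Psi t ≥ 2π - arctan (1/4)`: first coordinate in `[-2, 1]`, second of norm `≤ 2`. Otherwise
`(R sin ψ)² + (10 - R cos ψ)² ≤ (R + 10)²`, `R = 8 / hh (cos ψ) ≤ 16`.
-/

open scoped ContDiff unitInterval
open Topology Set

namespace LK

theorem C4_std (t : ℝ) (h : 1 ≤ |t|) : curve t = (t, 0) := by
  obtain ⟨n1, n2, n3⟩ := C0_num
  have hpi := Real.pi_pos
  have h8 : 0 < Real.arctan (1 / 8) := C0_arctan_pos (by norm_num)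
  have hu := Real.arctan_lt_pi_div_two (t / 8)
  have hl := Real.neg_pi_div_two_lt_arctan (t / 8)
  have htan : 8 * Real.tan (Real.arctan (t / 8)) = t := by
    rw [Real.tan_arctan]
    ring
  rcases le_abs.1 h with h1 | h1
  · have hP : Psi t = Real.arctan (t / 8) + (2 : ℕ) * Real.pi := by
      unfold Psi
      rw [C0_st1 t h1]
      push_cast
      ring
    have h0 : 0 < Real.arctan (t / 8) := C0_arctan_pos (by linarith)
    have htan2 : 8 * Real.tan (Real.arctan (t / 8) + (2 : ℕ) * Real.pi) = t := by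
      rw [Real.tan_add_nat_mul_pi, htan]
    unfold curve
    rw [hP, C0_C _ (by push_cast; linarith) (by push_cast; linarith)]
    unfold GC
    rw [htan2, C0_exp1 t h1]
    simp
  · have h1' : t ≤ -1 := by linarith
    have hP : Psi t = Real.arctan (t / 8) := by
      unfold Psi
      rw [C0_st0 t h1']
      ring
    have h0 : Real.arctan (t / 8) < Real.arctan (1 / 8) :=
      Real.arctan_strictMono (by linarith)
    unfold curve
    rw [hP, C0_A _ hl (by linarith)]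
    unfold GA
    rw [htan, C0_exp0 t h1']
    simp

private theorem C4_tan {a b ψ : ℝ} (h1 : -Real.arctan a ≤ ψ) (h2 : ψ ≤ Real.arctan b) :
    -a ≤ Real.tan ψ ∧ Real.tan ψ ≤ b := by
  have hb := Real.arctan_lt_pi_div_two b
  have hb' := Real.neg_pi_div_two_lt_arctan b
  have ha := Real.arctan_lt_pi_div_two a
  have ha' := Real.neg_pi_div_two_lt_arctan a
  have hψ : ψ ∈ Ioo (-(Real.pi / 2)) (Real.pi / 2) := ⟨by linarith, by linarith⟩
  constructor
  · have h3 := Real.strictMonoOn_tan.monotoneOn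
      (show -Real.arctan a ∈ Ioo (-(Real.pi / 2)) (Real.pi / 2) from ⟨by linarith, by linarith⟩)
      hψ h1
    rwa [Real.tan_neg, Real.tan_arctan] at h3
  · have h3 := Real.strictMonoOn_tan.monotoneOn hψ
      (show Real.arctan b ∈ Ioo (-(Real.pi / 2)) (Real.pi / 2) from ⟨by linarith, by linarith⟩) h2
    rwa [Real.tan_arctan] at h3

theorem C4_bd (t : ℝ) (h : |t| ≤ 1) : (curve t).1 ^ 2 + ‖(curve t).2‖ ^ 2 ≤ 26 ^ 2 := by
  obtain ⟨n1, n2, n3⟩ := C0_num
  have hpi := Real.pi_pos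
  obtain ⟨ht1, ht2⟩ := abs_le.1 h
  obtain ⟨hs1, hs2⟩ := C0_st_mem t
  have ha1 : Real.arctan (t / 8) ≤ Real.arctan (1 / 8) :=
    Real.arctan_strictMono.monotone (by linarith)
  have ha2 : -Real.arctan (1 / 8) ≤ Real.arctan (t / 8) := by
    rw [← Real.arctan_neg]
    exact Real.arctan_strictMono.monotone (by linarith)
  have h5 : 0 ≤ 2 * Real.pi * st t := by positivity
  have h6 : 2 * Real.pi * st t ≤ 2 * Real.pi * 1 :=
    mul_le_mul_of_nonneg_left hs2 (by positivity)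
  have hlo : -Real.arctan (1 / 8) ≤ Psi t := by
    unfold Psi
    linarith
  have hhi : Psi t ≤ 2 * Real.pi + Real.arctan (1 / 8) := by
    unfold Psi
    linarith
  unfold curve
  generalize Psi t = ψ at hlo hhi
  unfold Gam
  split_ifs with hA hC
  · obtain ⟨h7, h8⟩ := C4_tan hlo hA
    have h9 : ‖(1 : ℂ) - Complex.exp (ph (8 * Real.tan ψ) * Complex.I)‖ ≤ 2 := by
      refine (norm_sub_le _ _).trans ?_
      rw [Complex.norm_exp_ofReal_mul_I, norm_one]
      norm_num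
    show (8 * Real.tan ψ) ^ 2 + ‖(1 : ℂ) - Complex.exp (ph (8 * Real.tan ψ) * Complex.I)‖ ^ 2 ≤ _
    have h10 : ‖(1 : ℂ) - Complex.exp (ph (8 * Real.tan ψ) * Complex.I)‖ ^ 2 ≤ 2 ^ 2 :=
      pow_le_pow_left₀ (norm_nonneg _) h9 2
    nlinarith
  · have htan : Real.tan (ψ - (2 : ℕ) * Real.pi) = Real.tan ψ := Real.tan_sub_nat_mul_pi ψ 2
    obtain ⟨h7, h8⟩ := C4_tan (a := 1 / 4) (b := 1 / 8) (ψ := ψ - (2 : ℕ) * Real.pi)
      (by push_cast; linarith) (by push_cast; linarith)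
    rw [htan] at h7 h8
    have h9 : ‖(1 : ℂ) + Complex.exp (ph (8 * Real.tan ψ) * Complex.I)‖ ≤ 2 := by
      refine (norm_add_le _ _).trans ?_
      rw [Complex.norm_exp_ofReal_mul_I, norm_one]
      norm_num
    show (8 * Real.tan ψ) ^ 2 + ‖(1 : ℂ) + Complex.exp (ph (8 * Real.tan ψ) * Complex.I)‖ ^ 2 ≤ _
    have h10 : ‖(1 : ℂ) + Complex.exp (ph (8 * Real.tan ψ) * Complex.I)‖ ^ 2 ≤ 2 ^ 2 :=
      pow_le_pow_left₀ (norm_nonneg _) h9 2
    nlinarith
  · have hc1 := Real.neg_one_le_cos ψ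
    have hc2 := Real.cos_le_one ψ
    have hh1 := C0_hpos (Real.cos ψ) hc1
    have hR0 : 0 ≤ 8 / hh (Real.cos ψ) := by positivity
    have hR1 : 8 / hh (Real.cos ψ) ≤ 16 := by
      rw [div_le_iff₀ (by linarith)]
      linarith
    show (8 / hh (Real.cos ψ) * Real.sin ψ) ^ 2 +
      ‖((10 - 8 / hh (Real.cos ψ) * Real.cos ψ : ℝ) : ℂ)‖ ^ 2 ≤ _
    rw [Complex.norm_real, Real.norm_eq_abs, sq_abs]
    generalize 8 / hh (Real.cos ψ) = R at hR0 hR1
    have h11 := Real.sin_sq_add_cos_sq ψ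
    have h12 : (R * Real.sin ψ) ^ 2 + (10 - R * Real.cos ψ) ^ 2 =
        R ^ 2 - 20 * (R * Real.cos ψ) + 100 := by
      have : (R * Real.sin ψ) ^ 2 + (10 - R * Real.cos ψ) ^ 2 =
        R ^ 2 * (Real.sin ψ ^ 2 + Real.cos ψ ^ 2) - 20 * (R * Real.cos ψ) + 100 := by ring
      rw [this, h11, mul_one]
    rw [h12]
    have h13 : -R ≤ R * Real.cos ψ := by nlinarith
    nlinarith

end LK
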