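import Pool.Agent.H64.LK.C1
import Pool.Agent.H64.LK.C3
import Pool.Agent.H64.LK.C4

/-!
# C5: the scaled curve is a long knot of the model

`c1 t = (1/40) curve (40 t)`: smooth, injective, derivative `curve'(40 t) ≠ 0`; for `|t| ≥ 1`, `|40 t| ≥ 1` and
`c1 t = (t, 0)`. Norm: if `|40 t| ≤ 1`, the sum of squares is `≤ 26² / 1600 ≤ 1`; otherwise `c1 t = (t, 0)`, `t² ≤ 1`.
-/

open scoped ContDiff unitInterval
open Topology Set

namespace LK

theorem C5_smooth : ContDiff ℝ ∞ c1 := by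
  have h1 : ContDiff ℝ ∞ (fun t : ℝ => 40 * t) := by fun_prop
  have h2 : ContDiff ℝ ∞ (curve ∘ (fun t : ℝ => 40 * t)) := ContDiff.comp C1 h1
  have h3 : c1 = fun t => (1 / 40 : ℝ) • (curve ∘ (fun t : ℝ => 40 * t)) t := rfl
  rw [h3]
  exact h2.const_smul (1 / 40 : ℝ)

theorem C5_deriv (t : ℝ) : deriv c1 t = deriv curve (40 * t) := by
  have h1 : HasDerivAt (fun t : ℝ => 40 * t) 40 t := by
    simpa using (hasDerivAt_id t).const_mul (40 : ℝ)
  have h2 : HasDerivAt curve (deriv curve (40 * t)) (40 * t) :=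
    (C1.differentiable (by simp) _).hasDerivAt
  have h3 : HasDerivAt (curve ∘ (fun t : ℝ => 40 * t)) ((40 : ℝ) • deriv curve (40 * t)) t :=
    HasDerivAt.scomp t h2 h1
  have h4 : HasDerivAt c1 ((1 / 40 : ℝ) • ((40 : ℝ) • deriv curve (40 * t))) t :=
    h3.const_smul (1 / 40 : ℝ)
  rw [h4.deriv, smul_smul]
  norm_num

theorem C5_std (t : ℝ) (h : 1 ≤ |40 * t|) : c1 t = (t, 0) := by
  unfold c1
  rw [C4_std _ h]
  ext <;> simp

theorem C5 : VKnot c1 := by
  refine ⟨C5_smooth, ?_, ?_, ?_, ?_⟩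
  · intro t
    rw [C5_deriv]
    exact C1_deriv _
  · intro a b hab
    have h1 : curve (40 * a) = curve (40 * b) := by
      have h2 : (1 / 40 : ℝ) • curve (40 * a) = (1 / 40 : ℝ) • curve (40 * b) := hab
      exact smul_right_injective V (by norm_num : (1 / 40 : ℝ) ≠ 0) h2
    have h3 := C3 h1
    linarith
  · intro t ht
    apply C5_std
    rw [abs_mul, abs_of_pos (by norm_num : (0 : ℝ) < 40)]
    linarith
  · intro t ht
    rcases le_or_gt (|40 * t|) 1 with h | h
    · have h1 := C4_bd _ h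
      have h2 : (c1 t).1 = 1 / 40 * (curve (40 * t)).1 := rfl
      have h3 : (c1 t).2 = (1 / 40 : ℝ) • (curve (40 * t)).2 := rfl
      rw [h2, h3, norm_smul, Real.norm_of_nonneg (by norm_num)]
      nlinarith [h1]
    · rw [C5_std t h.le]
      simp only [norm_zero]
      have h4 : t ^ 2 ≤ 1 := by
        rw [← sq_abs]
        nlinarith [abs_nonneg t]
      linarith [h4]

end LK
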