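import Pool.Agent.H64.LK.Defs

/-!
# The explicit knotted curve and the colouring map (helper64, MP_fbf562_gt)
-/

open scoped ContDiff unitInterval
open Topology Set

namespace LK

/-- A smooth transition from `0` (at `s ≤ -1`) to `1` (at `s ≥ 1`). -/
noncomputable def st (s : ℝ) : ℝ := Real.smoothTransition ((s + 1) / 2)

/-- The phase. -/
noncomputable def ph (s : ℝ) : ℝ := 3 * Real.pi * st s

/-- The profile `h`: `h(c) = c` for `c ≥ 9/10`, `h(c) = c + 2` for `c ≤ 1/2`. -/
noncomputable def hh (c : ℝ) : ℝ := c + 2 * Real.smoothTransition ((9 / 10 - c) * (5 / 2))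

/-- First pass. -/
noncomputable def GA (ψ : ℝ) : V :=
  (8 * Real.tan ψ, 1 - Complex.exp (ph (8 * Real.tan ψ) * Complex.I))

/-- Third pass. -/
noncomputable def GC (ψ : ℝ) : V :=
  (8 * Real.tan ψ, 1 + Complex.exp (ph (8 * Real.tan ψ) * Complex.I))

/-- Closing arc. -/
noncomputable def GB (ψ : ℝ) : V :=
  (8 / hh (Real.cos ψ) * Real.sin ψ, ((10 - 8 / hh (Real.cos ψ) * Real.cos ψ : ℝ) : ℂ))

/-- The curve, parametrised by `ψ ∈ (-π/2, 5π/2)`. -/
noncomputable def Gam (ψ : ℝ) : V :=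
  if ψ ≤ Real.arctan (1 / 4) then GA ψ
  else if 2 * Real.pi - Real.arctan (1 / 4) ≤ ψ then GC ψ
  else GB ψ

/-- The reparametrisation. -/
noncomputable def Psi (t : ℝ) : ℝ := Real.arctan (t / 8) + 2 * Real.pi * st t

/-- The knotted curve. -/
noncomputable def curve (t : ℝ) : V := Gam (Psi t)

/-- The curve scaled by `1/40`, a long knot. -/
noncomputable def c1 (t : ℝ) : V := (1 / 40 : ℝ) • curve (40 * t)

/-- The core of the fat knot. -/
noncomputable def core (t : ℝ) : V := (1 / 4 : ℝ) • c1 (4 * t)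

/-- Clamping to `[0, 1]`. -/
noncomputable def cl (r : ℝ) : ℝ := max 0 (min 1 r)

noncomputable def kin (x : V) : ℝ := cl (4 - 2 * ‖x.2 - 1‖)

noncomputable def kout (x : V) : ℝ := max (cl (|x.1| - 1)) (cl (‖x.2 - 1‖ - 3))

/-- First coordinate of the colouring map. -/
noncomputable def zz (x : V) : ℂ :=
  (kin x : ℂ) * Complex.exp ((2 * ph x.1 / 3 : ℝ) * Complex.I) + (1 - (kin x : ℂ)) * (kout x : ℂ)

noncomputable def rho (x : V) : ℝ := Real.sqrt (x.1 ^ 2 + (10 - x.2.re) ^ 2)

noncomputable def Xi (x : V) : ℝ :=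
  if x.2.re ≤ 1 then x.2.re - 1 else max 0 (9 - rho x * hh ((10 - x.2.re) / rho x))

/-- Second coordinate of the colouring map. -/
noncomputable def WW (x : V) : ℂ := ⟨Xi x, x.2.im⟩

/-- The colouring map. -/
noncomputable def uu (x : V) : ℂ × ℂ := (zz x, WW x)

/-- The complement of the discriminant. -/
def BB : Set (ℂ × ℂ) := {b | b.1 ^ 3 ≠ b.2 ^ 2}

/-- The map `(z, X) ↦ (z, w)` where `X ^ 3 - 3 z X + 2 w = 0`; the fibre over `(z, w)` is the set
of roots. -/
noncomputable def ff (e : ℂ × ℂ) : ℂ × ℂ := (e.1, (3 * e.1 * e.2 - e.2 ^ 3) / 2)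

/-- The covering of roots. -/
noncomputable def pp : ff ⁻¹' BB → BB := BB.restrictPreimage ff

/-- The complement of the curve. -/
abbrev NC : Type := {x : V // x ∉ Set.range curve}

/-- The point `n₁ = (-80, 1 + 5i/2)`. -/
noncomputable def n1 : V := (-80, 1 + 5 / 2 * Complex.I)

/-- `e` is a fixed point of the monodromy of the loop `l` (for a covering map `p`). -/
def Fixd {A X : Type*} [TopologicalSpace A] (p : A → X) (l : I → X) (e : A) : Prop :=
  ∃ Γ : C(I, A), (∀ θ, p (Γ θ) = l θ) ∧ Γ 0 = e ∧ Γ 1 = e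

/-- The twist by the angle `2πθχ(x)`. -/
noncomputable def Tw (χ : V → ℝ) (q : ℝ × V) : V :=
  (q.2.1, Complex.exp (2 * Real.pi * (q.1 * χ q.2) * Complex.I) * q.2.2)

/-- Support function of the left twist. -/
noncomputable def chL (x : V) : ℝ := cl (-8 * x.1) * cl (2 - 2 * ‖x.2‖)

/-- Support function of the right twist. -/
noncomputable def chR (x : V) : ℝ := cl (8 * x.1) * cl (2 - 2 * ‖x.2‖)

/-- The base point far from the knot. -/
noncomputable def xinf : V := (-5 / 16, 1 + 5 / 2 * Complex.I)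

/-- The point in the left half where the loops are attached. -/
noncomputable def x1 : V := (-5 / 16, (1 + 5 / 2 * Complex.I) / 160)

end LK
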