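import Mathlib

/-!
# Long knots: definitions (helper64, MP_fbf562_gt)

Spaces of long knots and of framed long knots in Euclidean space, with the smooth topology,
homotopy retracts, configuration spaces, reduced suspensions and double loop spaces.
-/

open scoped ContDiff unitInterval
open Topology Set

namespace LK

/-- Euclidean space of dimension `n`. -/
abbrev E (n : ℕ) : Type := EuclideanSpace ℝ (Fin n)

/-- The point `(t, 0, ..., 0)`. -/
noncomputable def axis (n : ℕ) [NeZero n] (t : ℝ) : E n := EuclideanSpace.single (0 : Fin n) t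

/-- `f` is a long knot in `ℝ^n`: a smooth embedding (a topological embedding with nowhere
vanishing derivative) equal to `t ↦ (t, 0, ..., 0)` for `|t| ≥ 1` and mapping `[-1, 1]` into the
closed unit ball. -/
structure IsLongKnot (n : ℕ) [NeZero n] (f : ℝ → E n) : Prop where
  smooth : ContDiff ℝ ∞ f
  immersed : ∀ t, deriv f t ≠ 0
  embedded : IsEmbedding f
  standard : ∀ t, 1 ≤ |t| → f t = axis n t
  inBall : ∀ t, |t| ≤ 1 → ‖f t‖ ≤ 1

/-- The set of long knots in `ℝ^n`. -/
def LongKnot (n : ℕ) [NeZero n] : Type := {f : ℝ → E n // IsLongKnot n f}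

/-- All the iterated derivatives of a smooth map `ℝ → F`, as continuous maps. -/
noncomputable def jets {F : Type*} [NormedAddCommGroup F] [NormedSpace ℝ F] (f : ℝ → F)
    (hf : ContDiff ℝ ∞ f) : ℕ → C(ℝ, F) :=
  fun k => ⟨iteratedDeriv k f, hf.continuous_iteratedDeriv k (by exact_mod_cast le_top)⟩

/-- The smooth topology on the space of long knots: the coarsest one such that every iterated
derivative `f ↦ f^(k)` is continuous into `C(ℝ, ℝ^n)` with the compact-open topology (locally
uniform convergence of all derivatives). -/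
noncomputable instance (n : ℕ) [NeZero n] : TopologicalSpace (LongKnot n) :=
  TopologicalSpace.induced (fun f => jets f.1 f.2.smooth) inferInstance

/-- `φ` is a framing of the long knot `f`: orthonormal smooth normal fields along `f`, indexed by
the coordinates other than the first, equal to the standard vectors for `|t| ≥ 1`. -/
structure IsFraming (n : ℕ) [NeZero n] (f : ℝ → E n) (φ : {i : Fin n // i ≠ 0} → ℝ → E n) :
    Prop where
  smooth : ∀ i, ContDiff ℝ ∞ (φ i)
  orthonormal : ∀ t, Orthonormal ℝ (fun i => φ i t)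
  normal : ∀ i t, inner ℝ (φ i t) (deriv f t) = 0
  standard : ∀ i t, 1 ≤ |t| → φ i t = EuclideanSpace.single i.1 1

/-- The set of framed long knots in `ℝ^n`. -/
def FramedLongKnot (n : ℕ) [NeZero n] : Type :=
  {p : (ℝ → E n) × ({i : Fin n // i ≠ 0} → ℝ → E n) // IsLongKnot n p.1 ∧ IsFraming n p.1 p.2}

/-- The smooth topology on the space of framed long knots. -/
noncomputable instance (n : ℕ) [NeZero n] : TopologicalSpace (FramedLongKnot n) :=
  TopologicalSpace.induced
    (fun p => (jets p.1.1 p.2.1.smooth, fun i => jets (p.1.2 i) (p.2.2.smooth i))) inferInstance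

/-- `X` is a homotopy retract of `Z`. -/
def HRetract (X Z : Type*) [TopologicalSpace X] [TopologicalSpace Z] : Prop :=
  ∃ (i : C(X, Z)) (r : C(Z, X)), (r.comp i).Homotopic (ContinuousMap.id X)

/-- The ordered configuration space of `q` distinct points of `X`. -/
def Conf (X : Type*) [TopologicalSpace X] (q : ℕ) : Type _ :=
  {x : Fin q → X // Function.Injective x}

instance (X : Type*) [TopologicalSpace X] (q : ℕ) : TopologicalSpace (Conf X q) :=
  inferInstanceAs (TopologicalSpace {x : Fin q → X // Function.Injective x})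

/-- The base configuration: the points `(j, 0, ..., 0)`, `0 ≤ j < q`. -/
noncomputable def baseConf (m : ℕ) [NeZero m] (q : ℕ) : Conf (E m) q :=
  ⟨fun j => axis m (j : ℕ), by
    intro i j h
    have h0 := congrArg (fun x : E m => x 0) h
    simp only [axis, PiLp.single_apply, if_true] at h0
    exact Fin.ext (by exact_mod_cast h0)⟩

/-- The disjoint union, over `q ≥ 2`, of the loop spaces of the configuration spaces of `q` points
of `ℝ^m` (this is `Y_{m+1}`). -/
abbrev YY (m : ℕ) [NeZero m] : Type :=
  Σ q : {q : ℕ // 2 ≤ q}, Path (baseConf m q.1) (baseConf m q.1)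

/-- The subset of `X × I` which is collapsed in the reduced suspension. -/
def suspBad {X : Type*} (x0 : X) (p : X × I) : Prop := p.2 = 0 ∨ p.2 = 1 ∨ p.1 = x0

/-- The reduced suspension of `(X, x0)`: the quotient of `X × I` by
`X × {0} ∪ X × {1} ∪ {x0} × I`. -/
def RSusp {X : Type*} [TopologicalSpace X] (x0 : X) : Type _ :=
  Quot (fun p p' : X × I => suspBad x0 p ∧ suspBad x0 p')

instance {X : Type*} [TopologicalSpace X] (x0 : X) : TopologicalSpace (RSusp x0) :=
  inferInstanceAs (TopologicalSpace (Quot (fun p p' : X × I => suspBad x0 p ∧ suspBad x0 p')))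

/-- The base point of the reduced suspension. -/
def suspBase {X : Type*} [TopologicalSpace X] (x0 : X) : RSusp x0 := Quot.mk _ (x0, 0)

/-- The double loop space of the double reduced suspension of `(X, x0)`. -/
abbrev O2S2 {X : Type*} [TopologicalSpace X] (x0 : X) : Type _ :=
  Path (Path.refl (suspBase (suspBase x0))) (Path.refl (suspBase (suspBase x0)))

/-- The fundamental group of `X` at `x` is abelian. -/
def AbAt {X : Type*} [TopologicalSpace X] (x : X) : Prop :=
  ∀ p q : Path x x, (p.trans q).Homotopic (q.trans p)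

/-- The model `ℝ × ℂ` of `ℝ^3`. -/
abbrev V : Type := ℝ × ℂ

/-- The identification of `ℝ × ℂ` with `ℝ^3`. -/
noncomputable def toE : V ≃L[ℝ] E 3 :=
  LinearEquiv.toContinuousLinearEquiv
    { toFun := fun x => !₂[x.1, x.2.re, x.2.im]
      invFun := fun y => (y 0, ⟨y 1, y 2⟩)
      map_add' := by
        intro x y; ext i; fin_cases i <;> simp
      map_smul' := by
        intro r x; ext i; fin_cases i <;> simp
      left_inv := by
        intro x; ext <;> simp
      right_inv := by
        intro y; ext i; fin_cases i <;> simp }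

theorem toE_apply (x : V) : toE x = !₂[x.1, x.2.re, x.2.im] := rfl

theorem norm_toE_sq (x : V) : ‖toE x‖ ^ 2 = x.1 ^ 2 + ‖x.2‖ ^ 2 := by
  rw [toE_apply, EuclideanSpace.norm_eq, Real.sq_sqrt (by positivity), Fin.sum_univ_three,
    Complex.sq_norm, Complex.normSq_apply]
  simp
  ring

theorem toE_axis (t : ℝ) : toE (t, 0) = axis 3 t := by
  ext i; rw [toE_apply]; fin_cases i <;> simp [axis]

/-- A long knot in the model `ℝ × ℂ`. -/
structure VKnot (f : ℝ → V) : Prop where
  smooth : ContDiff ℝ ∞ f
  immersed : ∀ t, deriv f t ≠ 0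
  inj : Function.Injective f
  standard : ∀ t, 1 ≤ |t| → f t = (t, 0)
  inBall : ∀ t, |t| ≤ 1 → (f t).1 ^ 2 + ‖(f t).2‖ ^ 2 ≤ 1

/-- The closed tube of radius `1/2` about the axis. -/
def tube : Set V := {x | ‖x.2‖ ≤ 1 / 2}

/-- A fattened long knot with core `c`. -/
structure Fat (c : ℝ → V) (F : V → V) : Prop where
  smooth : ContDiff ℝ ∞ F
  inj : InjOn F tube
  imm : ∀ x ∈ tube, Function.Injective (fderiv ℝ F x)
  std : ∀ x : V, 1 ≤ |x.1| → F x = x
  box : ∀ x ∈ tube, |x.1| ≤ 1 → |(F x).1| ≤ 1 ∧ ‖(F x).2‖ ≤ 1 / 2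
  core : ∀ t, F (t, 0) = c t

/-- A smooth family of embeddings of the tube, standard outside a ball over the square. -/
structure TubeFamily (T : ℝ × ℝ → V → V) : Prop where
  smooth : ContDiff ℝ ∞ (fun q : (ℝ × ℝ) × V => T q.1 q.2)
  inj : ∀ p : ℝ × ℝ, InjOn (T p) tube
  imm : ∀ p : ℝ × ℝ, ∀ x ∈ tube, Function.Injective (fderiv ℝ (T p) x)
  std : ∀ p : I × I, ∀ x : V, 1 / 2 ≤ |x.1| → T (p.1, p.2) x = x
  box : ∀ p : I × I, ∀ x ∈ tube, |x.1| ≤ 1 / 2 →
    |(T (p.1, p.2) x).1| ≤ 1 / 2 ∧ ‖(T (p.1, p.2) x).2‖ ≤ 1 / 2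

/-- Rotation by the angle `2πθ` about the axis. -/
noncomputable def rot (θ : ℝ) (x : V) : V := (x.1, Complex.exp (2 * Real.pi * θ * Complex.I) * x.2)

/-- The map `L_a`. -/
noncomputable def Lmap (a : ℝ) (x : V) : V := (x.1 / 8 + a, x.2)

/-- The inverse of `L_a`. -/
noncomputable def Linv (a : ℝ) (x : V) : V := (8 * (x.1 - a), x.2)

/-- The fat knot `F`, shrunk, placed at `a` and rotated by `2πθ`. -/
noncomputable def cj (F : V → V) (a θ : ℝ) (x : V) : V :=
  rot θ (Lmap a (F (Linv a (rot (-θ) x))))

/-- The two-parameter family of tube embeddings: for `p = (s, θ)`, the first summand is at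
`-1/4 + s/2`, rotated by `2πθ`, the second one is at `1/4 - s/2`. -/
noncomputable def TT (F : V → V) (p : ℝ × ℝ) (x : V) : V :=
  cj F (-1 / 4 + p.1 / 2) p.2 (cj F (1 / 4 - p.1 / 2) 0 x)

end LK
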