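import Pool.Agent.H64.LK.Defs

/-!
# K2b: injectivity of thin tubes

Statement: `c` a long knot of the model (only: smooth, injective), `N` a smooth transverse frame. There is `δ > 0`
such that `P(t, y) = c(t) + N t y` is injective on `{|t| ≤ 1, ‖y‖ ≤ δ}` and its derivative is injective at all
these points.

Proof. `P : V → V` is smooth, with derivative at `(t, 0)`: `(r, y) ↦ r c'(t) + N t y`, injective, hence
(equal finite dimensions) a continuous linear equivalence. So `P` is locally injective at `(t, 0)` (inverse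
function theorem: `HasStrictFDerivAt.toOpenPartialHomeomorph` or `HasStrictFDerivAt.injOn...`). The compact
set `K = [-1,1] × {0}`: `P` is injective on `K`. By `Set.InjOn.exists_mem_nhdsSet`
(Mathlib/Topology/Separation or Mathlib/Topology/Compactness: `Set.InjOn.exists_mem_nhdsSet`) `P` is injective on a
neighbourhood `U` of `K`. The set of `x` where `fderiv ℝ P x` is injective (invertible) is open
(`ContinuousLinearEquiv.isOpen`, or nonvanishing determinant) and contains `K`. By compactness (tube lemma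
`generalized_tube_lemma`, or positive distance to a closed set) some `[-1,1] × closedBall 0 δ` lies in both.
-/

open scoped ContDiff unitInterval
open Topology Set

namespace LK

theorem K2b {c : ℝ → V} (hc : VKnot c) {N : ℝ → (ℂ →L[ℝ] V)} (hN : ContDiff ℝ ∞ N)
    (hind : ∀ t (r : ℝ) (y : ℂ), r • deriv c t + N t y = 0 → r = 0 ∧ y = 0) :
    ∃ δ : ℝ, 0 < δ ∧ InjOn (fun x : V => c x.1 + N x.1 x.2) {x | |x.1| ≤ 1 ∧ ‖x.2‖ ≤ δ} ∧
      ∀ x : V, |x.1| ≤ 1 → ‖x.2‖ ≤ δ →
        Function.Injective (fderiv ℝ (fun x : V => c x.1 + N x.1 x.2) x) := by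
  set P : V → V := fun x : V => c x.1 + N x.1 x.2 with hP
  have hsm : ContDiff ℝ ∞ P :=
    (hc.smooth.comp contDiff_fst).add ((hN.comp contDiff_fst).clm_apply contDiff_snd)
  have hcd : Differentiable ℝ c := hc.smooth.differentiable (by simp)
  have hNd : Differentiable ℝ N := hN.differentiable (by simp)
  -- the derivative on the core
  have hder : ∀ t : ℝ, ∃ L : V ≃L[ℝ] V, HasStrictFDerivAt P (L : V →L[ℝ] V) (t, 0) := by
    intro t
    have h1 : HasFDerivAt (fun x : V => c x.1)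
        (((1 : ℝ →L[ℝ] ℝ).smulRight (deriv c t)).comp (ContinuousLinearMap.fst ℝ ℝ ℂ))
        ((t, 0) : V) :=
      HasFDerivAt.comp ((t, 0) : V) (hcd t).hasDerivAt.hasFDerivAt
        (ContinuousLinearMap.fst ℝ ℝ ℂ).hasFDerivAt
    have h2 : HasFDerivAt (fun x : V => N x.1)
        ((fderiv ℝ N t).comp (ContinuousLinearMap.fst ℝ ℝ ℂ)) ((t, 0) : V) :=
      HasFDerivAt.comp ((t, 0) : V) (hNd t).hasFDerivAt
        (ContinuousLinearMap.fst ℝ ℝ ℂ).hasFDerivAt
    have h3 : HasFDerivAt (fun x : V => x.2) (ContinuousLinearMap.snd ℝ ℝ ℂ) ((t, 0) : V) :=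
      (ContinuousLinearMap.snd ℝ ℝ ℂ).hasFDerivAt
    have h4 : HasFDerivAt P _ ((t, 0) : V) := h1.add (h2.clm_apply h3)
    have hinj : Function.Injective (fderiv ℝ P ((t, 0) : V)) := by
      rw [injective_iff_map_eq_zero]
      intro x hx
      rw [h4.fderiv] at hx
      have h5 : x.1 • deriv c t + N t x.2 = 0 := by
        rw [← hx]
        simp
      obtain ⟨h6, h7⟩ := hind t x.1 x.2 h5
      exact Prod.ext h6 h7
    refine ⟨(LinearEquiv.ofInjectiveEndo ((fderiv ℝ P ((t, 0) : V)) : V →ₗ[ℝ] V)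
      hinj).toContinuousLinearEquiv, ?_⟩
    have h6 : (((LinearEquiv.ofInjectiveEndo ((fderiv ℝ P ((t, 0) : V)) : V →ₗ[ℝ] V)
      hinj).toContinuousLinearEquiv : V ≃L[ℝ] V) : V →L[ℝ] V) = fderiv ℝ P ((t, 0) : V) := by
      ext x <;> rfl
    rw [h6]
    exact hsm.contDiffAt.hasStrictFDerivAt (by simp)
  set K : Set V := Icc (-1 : ℝ) 1 ×ˢ {(0 : ℂ)} with hK
  have hKc : IsCompact K := isCompact_Icc.prod isCompact_singleton
  have hKi : InjOn P K := by
    rintro ⟨t, y⟩ ⟨-, hy⟩ ⟨t', y'⟩ ⟨-, hy'⟩ h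
    have e1 : y = 0 := hy
    have e2 : y' = 0 := hy'
    subst e1
    subst e2
    have h1 : c t = c t' := by simpa [hP] using h
    rw [hc.inj h1]
  obtain ⟨U, hU, hUi⟩ := hKi.exists_mem_nhdsSet hKc (fun x _ => hsm.continuous.continuousAt)
    (by
      rintro ⟨t, y⟩ ⟨-, hy⟩
      have e1 : y = 0 := hy
      subst e1
      obtain ⟨L, hL⟩ := hder t
      exact ⟨_, (hL.toOpenPartialHomeomorph P).open_source.mem_nhds
        hL.mem_toOpenPartialHomeomorph_source, (hL.toOpenPartialHomeomorph P).injOn⟩)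
  have hW : {x : V | Function.Injective (fderiv ℝ P x)} ∈ 𝓝ˢ K := by
    rw [mem_nhdsSet_iff_forall]
    rintro ⟨t, y⟩ ⟨-, hy⟩
    have e1 : y = 0 := hy
    subst e1
    obtain ⟨L, hL⟩ := hder t
    have h1 : ContinuousAt (fderiv ℝ P) ((t, 0) : V) :=
      (hsm.continuous_fderiv (by simp)).continuousAt
    have h2 := L.nhds
    rw [← hL.hasFDerivAt.fderiv] at h2
    filter_upwards [h1 h2] with x hx
    obtain ⟨L', hL'⟩ := hx
    show Function.Injective (fderiv ℝ P x)
    rw [← hL']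
    exact L'.injective
  obtain ⟨O, hO, hKO, hOs⟩ := mem_nhdsSet_iff_exists.1 (Filter.inter_mem hU hW)
  obtain ⟨δ, hδ, hth⟩ := hKc.exists_cthickening_subset_open hO hKO
  have hmem : ∀ x : V, |x.1| ≤ 1 → ‖x.2‖ ≤ δ → x ∈ O := by
    intro x h1 h2
    refine hth (Metric.mem_cthickening_of_dist_le x (x.1, 0) δ K ?_ ?_)
    · exact ⟨abs_le.1 h1, rfl⟩
    · rw [Prod.dist_eq, dist_self, dist_zero_right]
      exact max_le hδ.le h2
  exact ⟨δ, hδ, fun x hx y hy h => hUi (hOs (hmem x hx.1 hx.2)).1 (hOs (hmem y hy.1 hy.2)).1 h,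
    fun x h1 h2 => (hOs (hmem x h1 h2)).2⟩

end LK
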