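import Pool.Agent.H64.LK.K2a
import Pool.Agent.H64.LK.K2b

/-!
# K2: the fat knot

Statement: for every long knot `c` of the model there is a fat knot with core `t ↦ (1/4) c(4 t)`.

Proof. Put `c'(t) = (1/4) c(4t)` (call it `e`), again a long knot of the model (`e t = (t, 0)` for
`|t| ≥ 1/4`, `(e t).1² + ‖(e t).2‖² ≤ 1/16` for `|t| ≤ 1/4`), `N t` from K2a for `c` and `M t = N (4 t)`: smooth, `M t y = (0, y)`
for `|t| ≥ 1/4`, `r e'(t) + M t y = 0 → r = 0, y = 0` (`e'(t) = c'(4t)`). `δ` from K2b for `e, M`. Let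
`B ≥ 1` bound `‖M t‖` on `[-1, 1]`, `ε = min (δ) (1/(4B))` (so `ε ≤ 1/4`), and
`ρ(s) = ε + (1 - ε) * smoothTransition(4 s² - 1)·`: smooth, `ρ = ε` for `|s| ≤ 1/2`, `ρ = 1` for `|s| ≥ 1` (`4s² - 1 ≥ 1` iff
`s² ≥ 1/2`), `ε ≤ ρ ≤ 1`. Define `F(s, y) = e(s) + M s (ρ(s) y)`. 
- `|s| ≥ 1/4`: `F(s, y) = (s, ρ(s) y)` (A). In particular `F = id` for `|s| ≥ 1`.
- `|s| ≤ 1/2`: `F = P ∘ S`, `P(s, y) = e(s) + M s y`, `S(s, y) = (s, ε y)`, and on the tube `‖ε y‖ ≤ ε/2 ≤ δ` (B).
- `|s| ≤ 1/4`, on the tube: `|F.1| ≤ 1/4 + B ε / 2 ≤ 3/8`, same for `‖F.2‖ ≤ 3/8 ≤ 1/2` (C) (the sup norm of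
`M s (ε y)` is at most `B ε / 2 ≤ 1/8`).
inj: two points of the tube with the same image. If both have `|s| ≤ 1/2`: K2b. If both have
`|s| ≥ 1/4`: (A), `ρ > 0`. Otherwise one has `|s| > 1/2` and the other `|s'| < 1/4`: first coordinates of the
images: `|s| > 1/2` and `≤ 3/8`. imm: for `|s| < 1/2`, `F = P ∘ S` near the point, K2b and the chain
rule; for `|s| > 1/4`, near the point `F = (s, ρ(s) y)` with derivative
`(a, z) ↦ (a, ρ'(s) a y + ρ(s) z)`, injective as `ρ(s) > 0`. box: (C) and (A) with `ρ ≤ 1`. core: `M t 0 = 0`.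
-/

open scoped ContDiff unitInterval
open Topology Set

namespace LK

/-- The shrunk knot. -/
noncomputable def K2_e (c : ℝ → V) (t : ℝ) : V := (1 / 4 : ℝ) • c (4 * t)

theorem K2_e_contDiff {c : ℝ → V} (hc : VKnot c) : ContDiff ℝ ∞ (K2_e c) :=
  (hc.smooth.comp (contDiff_const.mul contDiff_id)).const_smul _

theorem K2_e_std {c : ℝ → V} (hc : VKnot c) {t : ℝ} (ht : 1 / 4 ≤ |t|) : K2_e c t = (t, 0) := by
  have h1 : 1 ≤ |4 * t| := by
    rw [abs_mul, abs_of_pos (by norm_num : (0 : ℝ) < 4)]; linarith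
  unfold K2_e
  rw [hc.standard _ h1]
  ext <;> simp

theorem K2_e_ball {c : ℝ → V} (hc : VKnot c) {t : ℝ} (ht : |t| ≤ 1 / 4) :
    (K2_e c t).1 ^ 2 + ‖(K2_e c t).2‖ ^ 2 ≤ 1 / 16 := by
  have h1 : |4 * t| ≤ 1 := by
    rw [abs_mul, abs_of_pos (by norm_num : (0 : ℝ) < 4)]; linarith
  have h2 := hc.inBall _ h1
  have h3 : (K2_e c t).1 = 1 / 4 * (c (4 * t)).1 := rfl
  have h4 : (K2_e c t).2 = (1 / 4 : ℝ) • (c (4 * t)).2 := rfl
  rw [h3, h4, norm_smul, Real.norm_of_nonneg (by norm_num : (0 : ℝ) ≤ 1 / 4)]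
  nlinarith

theorem K2_e_deriv {c : ℝ → V} (hc : VKnot c) (t : ℝ) : deriv (K2_e c) t = deriv c (4 * t) := by
  have h0 : HasDerivAt (fun t : ℝ => 4 * t) (4 : ℝ) t := by
    simpa using (hasDerivAt_id t).const_mul (4 : ℝ)
  have h1 : HasDerivAt c (deriv c (4 * t)) (4 * t) :=
    ((hc.smooth.differentiable (by simp)) (4 * t)).hasDerivAt
  have h2 := (HasDerivAt.scomp t h1 h0).const_smul (1 / 4 : ℝ)
  have h3 : (1 / 4 : ℝ) • (4 : ℝ) • deriv c (4 * t) = deriv c (4 * t) := by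
    rw [smul_smul]; norm_num
  rw [h3] at h2
  exact h2.deriv

theorem K2_e_knot {c : ℝ → V} (hc : VKnot c) : VKnot (K2_e c) where
  smooth := K2_e_contDiff hc
  immersed := fun t => by rw [K2_e_deriv hc]; exact hc.immersed _
  inj := by
    intro s t h
    have h1 : c (4 * s) = c (4 * t) :=
      smul_right_injective V (by norm_num : (1 / 4 : ℝ) ≠ 0) h
    have h2 := hc.inj h1
    linarith
  standard := fun t ht => K2_e_std hc (by linarith)
  inBall := fun t ht => by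
    rcases le_total (|t|) (1 / 4) with h | h
    · have := K2_e_ball hc h
      linarith
    · rw [K2_e_std hc h]
      have h1 : t ^ 2 ≤ 1 := by
        rw [← sq_abs]
        have := abs_nonneg t
        nlinarith
      simpa using h1

/-- The radius function. -/
noncomputable def K2_rho (ε s : ℝ) : ℝ := ε + (1 - ε) * Real.smoothTransition (4 * s ^ 2 - 1)

theorem K2_rho_contDiff (ε : ℝ) : ContDiff ℝ ∞ (K2_rho ε) :=
  contDiff_const.add (contDiff_const.mul (Real.smoothTransition.contDiff.comp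
    ((contDiff_const.mul (contDiff_id.pow 2)).sub contDiff_const)))

theorem K2_rho_small (ε : ℝ) {s : ℝ} (hs : |s| ≤ 1 / 2) : K2_rho ε s = ε := by
  have h1 : 4 * s ^ 2 - 1 ≤ 0 := by
    rw [← sq_abs]
    have := abs_nonneg s
    nlinarith
  unfold K2_rho
  rw [Real.smoothTransition.zero_of_nonpos h1]
  ring

theorem K2_rho_large (ε : ℝ) {s : ℝ} (hs : 1 ≤ |s|) : K2_rho ε s = 1 := by
  have h1 : 1 ≤ 4 * s ^ 2 - 1 := by
    rw [← sq_abs]
    nlinarith
  unfold K2_rho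
  rw [Real.smoothTransition.one_of_one_le h1]
  ring

theorem K2_rho_ge {ε : ℝ} (h1 : ε ≤ 1) (s : ℝ) : ε ≤ K2_rho ε s := by
  have := Real.smoothTransition.nonneg (4 * s ^ 2 - 1)
  unfold K2_rho
  nlinarith [mul_nonneg (by linarith : 0 ≤ 1 - ε) this]

theorem K2_rho_le {ε : ℝ} (h1 : ε ≤ 1) (s : ℝ) : K2_rho ε s ≤ 1 := by
  have := Real.smoothTransition.le_one (4 * s ^ 2 - 1)
  unfold K2_rho
  nlinarith [mul_nonneg (by linarith : 0 ≤ 1 - ε)
    (by linarith : 0 ≤ 1 - Real.smoothTransition (4 * s ^ 2 - 1))]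

/-- The map `(s, y) ↦ (s, ρ(s) y)` is immersive where `ρ ≠ 0`. -/
theorem K2_imm_aux {ρ : ℝ → ℝ} (hρ : ContDiff ℝ ∞ ρ) (x : V) (hx : ρ x.1 ≠ 0) :
    Function.Injective (fderiv ℝ (fun x : V => ((x.1, ρ x.1 • x.2) : V)) x) := by
  have h1 : HasFDerivAt (fun x : V => x.1) (ContinuousLinearMap.fst ℝ ℝ ℂ) x := hasFDerivAt_fst
  have h2 : HasFDerivAt (fun x : V => x.2) (ContinuousLinearMap.snd ℝ ℝ ℂ) x := hasFDerivAt_snd
  have h3 : HasDerivAt ρ (deriv ρ x.1) x.1 :=
    ((hρ.differentiable (by simp)) x.1).hasDerivAt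
  have h4 := HasDerivAt.comp_hasFDerivAt x h3 h1
  have h5 := HasFDerivAt.prodMk h1 (h4.smul h2)
  have h6 : fderiv ℝ (fun x : V => ((x.1, ρ x.1 • x.2) : V)) x = _ := h5.fderiv
  rw [h6]
  refine (injective_iff_map_eq_zero _).2 fun v hv => ?_
  have h7 : v.1 = 0 := congrArg Prod.fst hv
  have h8 : ρ x.1 • v.2 + (deriv ρ x.1 * v.1) • x.2 = 0 := congrArg Prod.snd hv
  rw [h7, mul_zero, zero_smul, add_zero] at h8
  ext1
  · exact h7
  · exact (smul_eq_zero.1 h8).resolve_left hx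

theorem K2 {c : ℝ → V} (hc : VKnot c) : ∃ F : V → V, Fat (fun t => (1 / 4 : ℝ) • c (4 * t)) F := by
  obtain ⟨N, hN, hNstd, hNind⟩ := K2a hc
  set M : ℝ → (ℂ →L[ℝ] V) := fun t => N (4 * t) with hM
  have hMs : ContDiff ℝ ∞ M := hN.comp (contDiff_const.mul contDiff_id)
  have hMstd : ∀ t, 1 / 4 ≤ |t| → ∀ y, M t y = (0, y) := by
    intro t ht y
    refine hNstd (4 * t) ?_ y
    rw [abs_mul, abs_of_pos (by norm_num : (0 : ℝ) < 4)]; linarith
  have hMind : ∀ t (r : ℝ) (y : ℂ), r • deriv (K2_e c) t + M t y = 0 → r = 0 ∧ y = 0 := by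
    intro t r y h
    rw [K2_e_deriv hc] at h
    exact hNind (4 * t) r y h
  obtain ⟨δ, hδ, hinj, himm⟩ := K2b (K2_e_knot hc) hMs hMind
  obtain ⟨B0, hB0⟩ := (isCompact_Icc (a := (-1 : ℝ)) (b := 1)).exists_bound_of_continuousOn
    hMs.continuous.continuousOn
  set B : ℝ := max B0 1 with hB
  have hB1 : 1 ≤ B := le_max_right _ _
  have hBM : ∀ t, |t| ≤ 1 → ‖M t‖ ≤ B := fun t ht =>
    (hB0 t (abs_le.1 ht)).trans (le_max_left _ _)
  set ε : ℝ := min δ (1 / (4 * B)) with hε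
  have hε0 : 0 < ε := lt_min hδ (by positivity)
  have hεδ : ε ≤ δ := min_le_left _ _
  have hεB : ε * B ≤ 1 / 4 := by
    have h1 : ε ≤ 1 / (4 * B) := min_le_right _ _
    have h2 : (1 / (4 * B)) * B = 1 / 4 := by field_simp
    nlinarith [mul_le_mul_of_nonneg_right h1 (by linarith : (0 : ℝ) ≤ B)]
  have hε1 : ε ≤ 1 := by nlinarith
  set F : V → V := fun x => K2_e c x.1 + M x.1 (K2_rho ε x.1 • x.2) with hF
  have hFs : ContDiff ℝ ∞ F :=
    ((K2_e_contDiff hc).comp contDiff_fst).add ((hMs.comp contDiff_fst).clm_apply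
      (((K2_rho_contDiff ε).comp contDiff_fst).smul contDiff_snd))
  have hA : ∀ x : V, 1 / 4 ≤ |x.1| → F x = (x.1, K2_rho ε x.1 • x.2) := by
    intro x hx
    simp only [hF]
    rw [K2_e_std hc hx, hMstd _ hx]
    ext1 <;> simp
  have hBF : ∀ x : V, |x.1| ≤ 1 / 2 → F x = K2_e c x.1 + M x.1 (ε • x.2) := by
    intro x hx
    simp only [hF]
    rw [K2_rho_small ε hx]
  have htub : ∀ x : V, x ∈ tube → ‖ε • x.2‖ ≤ ε / 2 := by
    intro x hx
    have h1 : ‖x.2‖ ≤ 1 / 2 := hx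
    rw [norm_smul, Real.norm_of_nonneg hε0.le]
    nlinarith
  have hC : ∀ x : V, x ∈ tube → |x.1| ≤ 1 / 4 → |(F x).1| ≤ 3 / 8 ∧ ‖(F x).2‖ ≤ 3 / 8 := by
    intro x hx hx1
    have h1 := K2_e_ball hc hx1
    have h2 : ‖M x.1 (ε • x.2)‖ ≤ 1 / 8 := by
      have h3 : ‖M x.1 (ε • x.2)‖ ≤ B * (ε / 2) :=
        ((M x.1).le_opNorm _).trans
          (mul_le_mul (hBM _ (by linarith)) (htub x hx) (norm_nonneg _) (by linarith))
      nlinarith
    have h3 : |(M x.1 (ε • x.2)).1| ≤ 1 / 8 := (norm_fst_le _).trans h2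
    have h4 : ‖(M x.1 (ε • x.2)).2‖ ≤ 1 / 8 := (norm_snd_le _).trans h2
    have h5 : |(K2_e c x.1).1| ≤ 1 / 4 := by
      refine abs_le_of_sq_le_sq ?_ (by norm_num)
      have := sq_nonneg ‖(K2_e c x.1).2‖
      nlinarith
    have h6 : ‖(K2_e c x.1).2‖ ≤ 1 / 4 := by
      refine (abs_le_of_sq_le_sq' (b := (1 / 4 : ℝ)) ?_ (by norm_num)).2
      have := sq_nonneg (K2_e c x.1).1
      nlinarith
    rw [hBF x (by linarith)]
    constructor
    · rw [Prod.fst_add]
      exact (abs_add_le _ _).trans (by linarith)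
    · rw [Prod.snd_add]
      exact (norm_add_le _ _).trans (by linarith)
  have hcross : ∀ x y : V, y ∈ tube → 1 / 2 < |x.1| → |y.1| < 1 / 4 → F x ≠ F y := by
    intro x y hy hx1 hy1 h
    have h1 := (hC y hy hy1.le).1
    rw [← h, hA x (by linarith)] at h1
    have h2 : |x.1| ≤ 3 / 8 := h1
    linarith
  refine ⟨F, ⟨hFs, ?_, ?_, ?_, ?_, ?_⟩⟩
  · intro x hx y hy hxy
    by_cases hx2 : |x.1| ≤ 1 / 2
    · by_cases hy2 : |y.1| ≤ 1 / 2
      · rw [hBF x hx2, hBF y hy2] at hxy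
        have hmx : ((x.1, ε • x.2) : V) ∈ {x : V | |x.1| ≤ 1 ∧ ‖x.2‖ ≤ δ} :=
          ⟨by show |x.1| ≤ 1; linarith, by
            show ‖ε • x.2‖ ≤ δ
            have := htub x hx
            linarith⟩
        have hmy : ((y.1, ε • y.2) : V) ∈ {x : V | |x.1| ≤ 1 ∧ ‖x.2‖ ≤ δ} :=
          ⟨by show |y.1| ≤ 1; linarith, by
            show ‖ε • y.2‖ ≤ δ
            have := htub y hy
            linarith⟩
        have h1 := hinj hmx hmy hxy
        obtain ⟨h2, h3⟩ := Prod.mk.inj h1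
        ext1
        · exact h2
        · exact smul_right_injective ℂ hε0.ne' h3
      · push Not at hy2
        by_cases hx4 : |x.1| < 1 / 4
        · exact absurd hxy.symm (hcross y x hx hy2 hx4)
        · push Not at hx4
          rw [hA x hx4, hA y (by linarith)] at hxy
          obtain ⟨h2, h3⟩ := Prod.mk.inj hxy
          rw [h2] at h3
          ext1
          · exact h2
          · exact smul_right_injective ℂ (hε0.trans_le (K2_rho_ge hε1 _)).ne' h3
    · push Not at hx2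
      by_cases hy4 : |y.1| < 1 / 4
      · exact absurd hxy (hcross x y hy hx2 hy4)
      · push Not at hy4
        rw [hA x (by linarith), hA y hy4] at hxy
        obtain ⟨h2, h3⟩ := Prod.mk.inj hxy
        rw [h2] at h3
        ext1
        · exact h2
        · exact smul_right_injective ℂ (hε0.trans_le (K2_rho_ge hε1 _)).ne' h3
  · intro x hx
    by_cases hx2 : |x.1| < 1 / 2
    · set S : V →L[ℝ] V := (ContinuousLinearMap.fst ℝ ℝ ℂ).prod
        (ε • ContinuousLinearMap.snd ℝ ℝ ℂ) with hS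
      have h1 : F =ᶠ[𝓝 x] (fun x : V => K2_e c x.1 + M x.1 x.2) ∘ S := by
        have hop : IsOpen {x : V | |x.1| < 1 / 2} :=
          isOpen_lt (continuous_fst.abs) continuous_const
        filter_upwards [hop.mem_nhds hx2] with z hz
        rw [hBF z (le_of_lt hz)]
        rfl
      have hSx : S x = (x.1, ε • x.2) := rfl
      have hPd : DifferentiableAt ℝ (fun x : V => K2_e c x.1 + M x.1 x.2) (S x) := by
        have : ContDiff ℝ ∞ (fun x : V => K2_e c x.1 + M x.1 x.2) :=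
          ((K2_e_contDiff hc).comp contDiff_fst).add ((hMs.comp contDiff_fst).clm_apply
            contDiff_snd)
        exact this.differentiable (by simp) _
      rw [h1.fderiv_eq, fderiv_comp x hPd S.differentiableAt, ContinuousLinearMap.fderiv]
      have h2 : Function.Injective (fderiv ℝ (fun x : V => K2_e c x.1 + M x.1 x.2) (S x)) := by
        rw [hSx]
        refine himm _ ?_ ?_
        · show |x.1| ≤ 1
          linarith
        · show ‖ε • x.2‖ ≤ δ
          have := htub x hx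
          linarith
      have h3 : Function.Injective S := by
        refine (injective_iff_map_eq_zero _).2 fun v hv => ?_
        have h4 : v.1 = 0 := congrArg Prod.fst hv
        have h5 : ε • v.2 = 0 := congrArg Prod.snd hv
        ext1
        · exact h4
        · exact (smul_eq_zero.1 h5).resolve_left hε0.ne'
      intro v w hvw
      exact h3 (h2 hvw)
    · push Not at hx2
      have h1 : F =ᶠ[𝓝 x] (fun x : V => ((x.1, K2_rho ε x.1 • x.2) : V)) := by
        have hop : IsOpen {x : V | 1 / 4 < |x.1|} :=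
          isOpen_lt continuous_const (continuous_fst.abs)
        have hmem : x ∈ {x : V | 1 / 4 < |x.1|} := by
          show 1 / 4 < |x.1|
          linarith
        filter_upwards [hop.mem_nhds hmem] with z hz
        exact hA z (le_of_lt hz)
      rw [h1.fderiv_eq]
      exact K2_imm_aux (K2_rho_contDiff ε) x (hε0.trans_le (K2_rho_ge hε1 _)).ne'
  · intro x hx
    rw [hA x (by linarith), K2_rho_large ε hx, one_smul]
  · intro x hx hx1
    rcases le_total (|x.1|) (1 / 4) with h | h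
    · obtain ⟨h1, h2⟩ := hC x hx h
      exact ⟨by linarith, by linarith⟩
    · rw [hA x h]
      refine ⟨hx1, ?_⟩
      have h1 : ‖x.2‖ ≤ 1 / 2 := hx
      have h2 := K2_rho_le hε1 x.1
      have h3 : 0 < K2_rho ε x.1 := hε0.trans_le (K2_rho_ge hε1 _)
      show ‖K2_rho ε x.1 • x.2‖ ≤ 1 / 2
      rw [norm_smul, Real.norm_of_nonneg h3.le]
      nlinarith [norm_nonneg x.2]
  · intro t
    simp only [hF, smul_zero, map_zero, add_zero]
    rfl

end LK
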