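import Pool.Agent.H64.LK.Defs

/-!
# K3: the two-parameter family is a tube family

`TT F (s, θ) = cj F (-1/4 + s/2) θ ∘ cj F (1/4 - s/2) 0`, `cj F a θ = rot θ ∘ L_a ∘ F ∘ L_a⁻¹ ∘ rot (-θ)`.

Proof. `rot θ` is a linear isometry in the second coordinate, inverse `rot (-θ)`; `Lmap a`, `Linv a` are mutually
inverse affine maps not changing the second coordinate: all four preserve the tube and are
diffeomorphisms. `F` maps the tube to itself: for `|x.1| ≤ 1` by `box`, for `|x.1| ≥ 1` it is the identity.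
So `cj F a θ` maps the tube to itself, is injective on it, with injective derivative there (chain rule), and is
the identity at points with `|x.1 - a| ≥ 1/8`. Joint smoothness in `(a, θ, x)`: composition of smooth maps
(`Complex.exp` of a real-linear expression). For `p ∈ I × I`, both `a = -1/4 + s/2` and `b = 1/4 - s/2` are in
`[-1/4, 1/4]`: if `|x.1| ≥ 1/2` then `|x.1 - b| ≥ 1/8`, so the inner map fixes `x`, and so does the outer one
(std). box: if `|x.1| ≤ 1/2` and `x` is in the tube, `y = cj F b 0 x` has `y = x` or `|y.1 - b| ≤ 1/8`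
(`box` for `F`: `|F(..).1| ≤ 1`), so `|y.1| ≤ 1/2` in both cases, and it is in the tube; same for the outer one.

K3b: `rot 1 = id`, `rot 0 = id`, `rot (-1) = id`, so `TT F (s, 0) = TT F (s, 1)`.

K3c: on the tube `TT F (0, 0) = cj F (-1/4) 0 ∘ cj F (1/4) 0` and `TT F (1, 0) = cj F (1/4) 0 ∘ cj F (-1/4) 0` agree:
let `x` be in the tube. If `|x.1 - 1/4| ≤ 1/8`: `cj F (-1/4) 0 x = x`, and `y = cj F (1/4) 0 x` has
`|y.1 - 1/4| ≤ 1/8` so `cj F (-1/4) 0 y = y`. Symmetric for `|x.1 + 1/4| ≤ 1/8`. Otherwise both fix `x`.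
-/

open scoped ContDiff unitInterval
open Topology Set

namespace LK

theorem K3_rot_norm (θ : ℝ) (x : V) : ‖(rot θ x).2‖ = ‖x.2‖ := by
  have h : (2 * Real.pi * θ * Complex.I : ℂ) = ((2 * Real.pi * θ : ℝ) : ℂ) * Complex.I := by
    push_cast; ring
  show ‖Complex.exp (2 * Real.pi * θ * Complex.I) * x.2‖ = ‖x.2‖
  rw [norm_mul, h, Complex.norm_exp_ofReal_mul_I, one_mul]

theorem K3_rot_rot (θ η : ℝ) (h : θ + η = 0) (x : V) : rot θ (rot η x) = x := by
  refine Prod.ext rfl ?_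
  show Complex.exp (2 * Real.pi * θ * Complex.I) *
    (Complex.exp (2 * Real.pi * η * Complex.I) * x.2) = x.2
  rw [← mul_assoc, ← Complex.exp_add]
  have h2 : (2 * Real.pi * θ * Complex.I + 2 * Real.pi * η * Complex.I : ℂ)
      = 2 * Real.pi * ((θ + η : ℝ) : ℂ) * Complex.I := by
    push_cast; ring
  rw [h2, h]
  simp

theorem K3_rot_zero (x : V) : rot 0 x = x := by
  refine Prod.ext rfl ?_
  show Complex.exp (2 * Real.pi * (0 : ℝ) * Complex.I) * x.2 = x.2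
  simp

theorem K3_rot_one (x : V) : rot 1 x = x := by
  refine Prod.ext rfl ?_
  show Complex.exp (2 * Real.pi * (1 : ℝ) * Complex.I) * x.2 = x.2
  rw [Complex.ofReal_one, mul_one, Complex.exp_two_pi_mul_I, one_mul]

theorem K3_rot_neg_one (x : V) : rot (-1) x = x := by
  have h := K3_rot_rot (-1) 1 (by norm_num) x
  rwa [K3_rot_one] at h

theorem K3_LL (a : ℝ) (x : V) : Lmap a (Linv a x) = x := by
  refine Prod.ext ?_ rfl
  show 8 * (x.1 - a) / 8 + a = x.1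
  ring

theorem K3_LL' (a : ℝ) (x : V) : Linv a (Lmap a x) = x := by
  refine Prod.ext ?_ rfl
  show 8 * (x.1 / 8 + a - a) = x.1
  ring

theorem K3_rot_contDiff : ContDiff ℝ ∞ (fun q : ℝ × V => rot q.1 q.2) := by
  unfold rot
  refine ContDiff.prodMk (contDiff_fst.comp contDiff_snd) ?_
  refine ContDiff.mul ?_ (contDiff_snd.comp contDiff_snd)
  refine ContDiff.cexp ?_
  refine ContDiff.mul (ContDiff.mul contDiff_const ?_) contDiff_const
  exact Complex.ofRealCLM.contDiff.comp contDiff_fst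

theorem K3_Lmap_contDiff : ContDiff ℝ ∞ (fun q : ℝ × V => Lmap q.1 q.2) := by
  unfold Lmap
  refine ContDiff.prodMk ?_ (contDiff_snd.comp contDiff_snd)
  exact (ContDiff.div_const (contDiff_fst.comp contDiff_snd) 8).add contDiff_fst

theorem K3_Linv_contDiff : ContDiff ℝ ∞ (fun q : ℝ × V => Linv q.1 q.2) := by
  unfold Linv
  refine ContDiff.prodMk ?_ (contDiff_snd.comp contDiff_snd)
  exact contDiff_const.mul ((contDiff_fst.comp contDiff_snd).sub contDiff_fst)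

theorem K3_cj_contDiff {F : V → V} (hF : ContDiff ℝ ∞ F) :
    ContDiff ℝ ∞ (fun q : (ℝ × ℝ) × V => cj F q.1.1 q.1.2 q.2) := by
  unfold cj
  have ha : ContDiff ℝ ∞ (fun q : (ℝ × ℝ) × V => q.1.1) := contDiff_fst.comp contDiff_fst
  have hθ : ContDiff ℝ ∞ (fun q : (ℝ × ℝ) × V => q.1.2) := contDiff_snd.comp contDiff_fst
  have h1 : ContDiff ℝ ∞ (fun q : (ℝ × ℝ) × V => rot (-q.1.2) q.2) :=
    K3_rot_contDiff.comp (hθ.neg.prodMk contDiff_snd)
  have h2 : ContDiff ℝ ∞ (fun q : (ℝ × ℝ) × V => Linv q.1.1 (rot (-q.1.2) q.2)) :=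
    K3_Linv_contDiff.comp (ha.prodMk h1)
  have h3 : ContDiff ℝ ∞ (fun q : (ℝ × ℝ) × V => Lmap q.1.1 (F (Linv q.1.1 (rot (-q.1.2) q.2)))) :=
    K3_Lmap_contDiff.comp (ha.prodMk (hF.comp h2))
  exact K3_rot_contDiff.comp (hθ.prodMk h3)

theorem K3_TT_contDiff {F : V → V} (hF : ContDiff ℝ ∞ F) :
    ContDiff ℝ ∞ (fun q : (ℝ × ℝ) × V => TT F q.1 q.2) := by
  unfold TT
  have hs : ContDiff ℝ ∞ (fun q : (ℝ × ℝ) × V => q.1.1) := contDiff_fst.comp contDiff_fst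
  have hθ : ContDiff ℝ ∞ (fun q : (ℝ × ℝ) × V => q.1.2) := contDiff_snd.comp contDiff_fst
  have h1 : ContDiff ℝ ∞ (fun q : (ℝ × ℝ) × V => cj F (1 / 4 - q.1.1 / 2) 0 q.2) := by
    have h := (contDiff_const (c := (1 / 4 : ℝ))).sub (hs.div_const 2)
    exact (K3_cj_contDiff hF).comp ((h.prodMk contDiff_const).prodMk contDiff_snd)
  have h := (contDiff_const (c := (-1 / 4 : ℝ))).add (hs.div_const 2)
  exact (K3_cj_contDiff hF).comp ((h.prodMk hθ).prodMk h1)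

theorem K3_rot_smooth (θ : ℝ) : ContDiff ℝ ∞ (rot θ) :=
  K3_rot_contDiff.comp (contDiff_const.prodMk contDiff_id)

theorem K3_Lmap_smooth (a : ℝ) : ContDiff ℝ ∞ (Lmap a) :=
  K3_Lmap_contDiff.comp (contDiff_const.prodMk contDiff_id)

theorem K3_Linv_smooth (a : ℝ) : ContDiff ℝ ∞ (Linv a) :=
  K3_Linv_contDiff.comp (contDiff_const.prodMk contDiff_id)

/-- Injectivity of the derivative of a composition. -/
theorem K3_inj_comp {f g : V → V} (hf : ContDiff ℝ ∞ f) (hg : ContDiff ℝ ∞ g) {x : V}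
    (h1 : Function.Injective (fderiv ℝ f x)) (h2 : Function.Injective (fderiv ℝ g (f x))) :
    Function.Injective (fderiv ℝ (fun y => g (f y)) x) := by
  have h : fderiv ℝ (fun y => g (f y)) x = (fderiv ℝ g (f x)).comp (fderiv ℝ f x) :=
    fderiv_comp x (hg.differentiable (by simp) _) (hf.differentiable (by simp) _)
  rw [h, ContinuousLinearMap.coe_comp]
  exact h2.comp h1

/-- Injectivity of the derivative of a map with a smooth left inverse. -/
theorem K3_inj_left {f g : V → V} (hf : ContDiff ℝ ∞ f) (hg : ContDiff ℝ ∞ g)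
    (h : ∀ y, g (f y) = y) (x : V) : Function.Injective (fderiv ℝ f x) := by
  have h1 : fderiv ℝ (fun y => g (f y)) x = (fderiv ℝ g (f x)).comp (fderiv ℝ f x) :=
    fderiv_comp x (hg.differentiable (by simp) _) (hf.differentiable (by simp) _)
  have h2 : (fun y => g (f y)) = fun y => y := funext h
  rw [h2, fderiv_fun_id] at h1
  intro u v huv
  have h3 : ∀ w, fderiv ℝ g (f x) (fderiv ℝ f x w) = w := by
    intro w
    have := congrArg (fun L : V →L[ℝ] V => L w) h1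
    exact this.symm
  rw [← h3 u, ← h3 v, huv]

theorem K3_tube_rot {x : V} (θ : ℝ) (hx : x ∈ tube) : rot θ x ∈ tube := by
  show ‖(rot θ x).2‖ ≤ 1 / 2
  rw [K3_rot_norm]
  exact hx

theorem K3_tube_Lmap {x : V} (a : ℝ) (hx : x ∈ tube) : Lmap a x ∈ tube := hx

theorem K3_tube_Linv {x : V} (a : ℝ) (hx : x ∈ tube) : Linv a x ∈ tube := hx

theorem K3_tube_F {c : ℝ → V} {F : V → V} (hF : Fat c F) {x : V} (hx : x ∈ tube) :
    F x ∈ tube := by
  rcases le_total |x.1| 1 with h | h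
  · exact (hF.box x hx h).2
  · rw [hF.std x h]
    exact hx

theorem K3_tube_cj {c : ℝ → V} {F : V → V} (hF : Fat c F) (a θ : ℝ) {x : V} (hx : x ∈ tube) :
    cj F a θ x ∈ tube :=
  K3_tube_rot _ (K3_tube_Lmap _ (K3_tube_F hF (K3_tube_Linv _ (K3_tube_rot _ hx))))

theorem K3_cj_fix {c : ℝ → V} {F : V → V} (hF : Fat c F) (a θ : ℝ) {x : V}
    (hx : 1 / 8 ≤ |x.1 - a|) : cj F a θ x = x := by
  unfold cj
  have h : 1 ≤ |(Linv a (rot (-θ) x)).1| := by
    show 1 ≤ |8 * (x.1 - a)|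
    rw [abs_mul, abs_of_pos (by norm_num : (0 : ℝ) < 8)]
    linarith
  rw [hF.std _ h, K3_LL, K3_rot_rot _ _ (by ring)]

theorem K3_cj_near {c : ℝ → V} {F : V → V} (hF : Fat c F) (a θ : ℝ) {x : V} (hxt : x ∈ tube)
    (hx : |x.1 - a| ≤ 1 / 8) : |(cj F a θ x).1 - a| ≤ 1 / 8 := by
  have h : |(Linv a (rot (-θ) x)).1| ≤ 1 := by
    show |8 * (x.1 - a)| ≤ 1
    rw [abs_mul, abs_of_pos (by norm_num : (0 : ℝ) < 8)]
    linarith
  have h2 := (hF.box _ (K3_tube_Linv a (K3_tube_rot (-θ) hxt)) h).1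
  show |((F (Linv a (rot (-θ) x))).1 / 8 + a) - a| ≤ 1 / 8
  rw [add_sub_cancel_right, abs_div, abs_of_pos (by norm_num : (0 : ℝ) < 8)]
  linarith

theorem K3_cj_inj {c : ℝ → V} {F : V → V} (hF : Fat c F) (a θ : ℝ) : InjOn (cj F a θ) tube := by
  intro x hx y hy h
  unfold cj at h
  have h1 := congrArg (rot (-θ)) h
  rw [K3_rot_rot _ _ (by ring), K3_rot_rot _ _ (by ring)] at h1
  have h2 := congrArg (Linv a) h1
  rw [K3_LL', K3_LL'] at h2
  have h3 := hF.inj (K3_tube_Linv a (K3_tube_rot (-θ) hx)) (K3_tube_Linv a (K3_tube_rot (-θ) hy)) h2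
  have h4 := congrArg (Lmap a) h3
  rw [K3_LL, K3_LL] at h4
  have h5 := congrArg (rot θ) h4
  rwa [K3_rot_rot _ _ (by ring), K3_rot_rot _ _ (by ring)] at h5

theorem K3_cj_smooth {F : V → V} (hF : ContDiff ℝ ∞ F) (a θ : ℝ) : ContDiff ℝ ∞ (cj F a θ) :=
  (K3_cj_contDiff hF).comp (contDiff_const (c := (a, θ)) |>.prodMk contDiff_id)

theorem K3_cj_imm {c : ℝ → V} {F : V → V} (hF : Fat c F) (a θ : ℝ) {x : V} (hx : x ∈ tube) :
    Function.Injective (fderiv ℝ (cj F a θ) x) := by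
  have hr := K3_rot_smooth (-θ)
  have hr' := K3_rot_smooth θ
  have hL := K3_Linv_smooth a
  have hL' := K3_Lmap_smooth a
  have h1 : Function.Injective (fderiv ℝ (rot (-θ)) x) :=
    K3_inj_left hr hr' (fun y => K3_rot_rot _ _ (by ring) y) x
  have h2 : Function.Injective (fderiv ℝ (fun y => Linv a (rot (-θ) y)) x) :=
    K3_inj_comp hr hL h1 (K3_inj_left hL hL' (K3_LL a) _)
  have h3 : Function.Injective (fderiv ℝ (fun y => F (Linv a (rot (-θ) y))) x) :=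
    K3_inj_comp (hL.comp hr) hF.smooth h2
      (hF.imm _ (K3_tube_Linv a (K3_tube_rot (-θ) hx)))
  have h4 : Function.Injective (fderiv ℝ (fun y => Lmap a (F (Linv a (rot (-θ) y)))) x) :=
    K3_inj_comp (hF.smooth.comp (hL.comp hr)) hL' h3 (K3_inj_left hL' hL (K3_LL' a) _)
  exact K3_inj_comp (hL'.comp (hF.smooth.comp (hL.comp hr))) hr' h4
    (K3_inj_left hr' hr (fun y => K3_rot_rot _ _ (by ring) y) _)

theorem K3_cj_half {c : ℝ → V} {F : V → V} (hF : Fat c F) (a θ : ℝ) (ha : |a| ≤ 1 / 4) {x : V}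
    (hx : 1 / 2 ≤ |x.1|) : cj F a θ x = x := by
  apply K3_cj_fix hF
  have := abs_sub_abs_le_abs_sub x.1 a
  linarith

theorem K3_cj_box {c : ℝ → V} {F : V → V} (hF : Fat c F) (a θ : ℝ) (ha : |a| ≤ 1 / 4) {x : V}
    (hxt : x ∈ tube) (hx : |x.1| ≤ 1 / 2) : |(cj F a θ x).1| ≤ 1 / 2 := by
  rcases le_total |x.1 - a| (1 / 8) with h | h
  · have h1 := K3_cj_near hF a θ hxt h
    have h2 := abs_sub_abs_le_abs_sub (cj F a θ x).1 a
    linarith
  · rw [K3_cj_fix hF a θ h]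
    exact hx

theorem K3_param (s : I) : |(-1 / 4 + (s : ℝ) / 2)| ≤ 1 / 4 ∧ |(1 / 4 - (s : ℝ) / 2)| ≤ 1 / 4 := by
  obtain ⟨h0, h1⟩ := s.2
  constructor <;> rw [abs_le] <;> constructor <;> linarith

theorem K3 {c : ℝ → V} {F : V → V} (hF : Fat c F) : TubeFamily (TT F) := by
  refine ⟨K3_TT_contDiff hF.smooth, ?_, ?_, ?_, ?_⟩
  · intro p x hx y hy h
    have h1 := K3_cj_inj hF _ _ (K3_tube_cj hF _ _ hx) (K3_tube_cj hF _ _ hy) h
    exact K3_cj_inj hF _ _ hx hy h1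
  · intro p x hx
    exact K3_inj_comp (K3_cj_smooth hF.smooth _ _) (K3_cj_smooth hF.smooth _ _)
      (K3_cj_imm hF _ _ hx) (K3_cj_imm hF _ _ (K3_tube_cj hF _ _ hx))
  · intro p x hx
    show cj F (-1 / 4 + (p.1 : ℝ) / 2) (p.2 : ℝ) (cj F (1 / 4 - (p.1 : ℝ) / 2) 0 x) = x
    rw [K3_cj_half hF _ 0 (K3_param p.1).2 hx, K3_cj_half hF _ _ (K3_param p.1).1 hx]
  · intro p x hxt hx
    have h1 := K3_cj_box hF _ 0 (K3_param p.1).2 hxt hx
    have h2 := K3_tube_cj hF (1 / 4 - (p.1 : ℝ) / 2) 0 hxt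
    exact ⟨K3_cj_box hF _ _ (K3_param p.1).1 h2 h1, K3_tube_cj hF _ _ h2⟩

theorem K3b (F : V → V) (s : ℝ) : TT F (s, 0) = TT F (s, 1) := by
  funext x
  unfold TT
  generalize cj F (1 / 4 - (s, (0 : ℝ)).1 / 2) 0 x = y
  show rot 0 (Lmap _ (F (Linv _ (rot (-0) y)))) = rot 1 (Lmap _ (F (Linv _ (rot (-1) y))))
  rw [neg_zero, K3_rot_zero, K3_rot_zero, K3_rot_one, K3_rot_neg_one]

theorem K3c {c : ℝ → V} {F : V → V} (hF : Fat c F) : EqOn (TT F (0, 0)) (TT F (1, 0)) tube := by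
  intro x hx
  have e1 : TT F (0, 0) x = cj F (-1 / 4) 0 (cj F (1 / 4) 0 x) := by
    unfold TT
    norm_num
  have e2 : TT F (1, 0) x = cj F (1 / 4) 0 (cj F (-1 / 4) 0 x) := by
    unfold TT
    norm_num
  rw [e1, e2]
  have far : ∀ (a b : ℝ) (y : V), 1 / 2 ≤ |b - a| → |y.1 - a| ≤ 1 / 8 → 1 / 8 ≤ |y.1 - b| := by
    intro a b y hab hy
    have h := abs_sub_le b y.1 a
    rw [abs_sub_comm b y.1] at h
    linarith
  rcases le_total |x.1 - 1 / 4| (1 / 8) with h | h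
  · have h1 : 1 / 8 ≤ |x.1 - -1 / 4| := far (1 / 4) (-1 / 4) x (by norm_num [abs_le]) h
    have h2 := K3_cj_near hF (1 / 4) 0 hx h
    have h3 : 1 / 8 ≤ |(cj F (1 / 4) 0 x).1 - -1 / 4| := far (1 / 4) (-1 / 4) _ (by norm_num) h2
    rw [K3_cj_fix hF _ 0 h1, K3_cj_fix hF _ 0 h3]
  · rw [K3_cj_fix hF _ 0 h]
    rcases le_total |x.1 - -1 / 4| (1 / 8) with h' | h'
    · have h2 := K3_cj_near hF (-1 / 4) 0 hx h'
      have h3 : 1 / 8 ≤ |(cj F (-1 / 4) 0 x).1 - 1 / 4| := far (-1 / 4) (1 / 4) _ (by norm_num) h2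
      rw [K3_cj_fix hF _ 0 h3]
    · rw [K3_cj_fix hF _ 0 h', K3_cj_fix hF _ 0 h]

end LK
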