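import Pool.Agent.H64.LK.Defs

/-!
# K1: smooth families give continuous maps into the space of framed long knots

Statement: `f : ℝ × ℝ → ℝ → E 3` and `φ i : ℝ × ℝ → ℝ → E 3` jointly smooth; if over the square
`I × I` they are framed long knots, the map `I × I → FramedLongKnot 3` is continuous. Also the
forgetful map is continuous.

Proof. `continuous_induced_rng`, then continuity into products, then into `C(ℝ, E 3)`:
`ContinuousMap.continuous_of_continuous_uncurry`. It remains that
`(p, t) ↦ iteratedDeriv k (f p) t` is continuous on `(ℝ × ℝ) × ℝ`, for a jointly smooth `f`: by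
induction on `k` one shows it is even smooth: if `F : (ℝ × ℝ) × ℝ → E 3` is smooth then
`(p, t) ↦ deriv (fun u => F (p, u)) t = fderiv ℝ F (p, t) ((0, 0), 1)` is smooth
(`ContDiff.fderiv_right`, `HasFDerivAt.comp_hasDerivAt`), and `iteratedDeriv_succ`. Restrict to `I × I`.
Forgetful map: continuous into the induced topology, first component.
-/

open scoped ContDiff unitInterval
open Topology Set

namespace LK

/-- The iterated time derivatives of a jointly smooth family are jointly smooth. -/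
theorem K1_iter (F : (ℝ × ℝ) × ℝ → E 3) (hF : ContDiff ℝ ∞ F) (k : ℕ) :
    ContDiff ℝ ∞ (fun q : (ℝ × ℝ) × ℝ => iteratedDeriv k (fun t => F (q.1, t)) q.2) := by
  induction k with
  | zero =>
    simp only [iteratedDeriv_zero]
    exact hF
  | succ k ih =>
    set G : (ℝ × ℝ) × ℝ → E 3 := fun q => iteratedDeriv k (fun t => F (q.1, t)) q.2 with hG
    have h1 : (fun q : (ℝ × ℝ) × ℝ => iteratedDeriv (k + 1) (fun t => F (q.1, t)) q.2)
        = fun q => fderiv ℝ G q ((0, 0), 1) := by
      funext q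
      rw [iteratedDeriv_succ]
      have h2 : HasDerivAt (fun t : ℝ => ((q.1, t) : (ℝ × ℝ) × ℝ)) ((0, 0), 1) q.2 := by
        have h3 : HasDerivAt (fun _ : ℝ => q.1) (0 : ℝ × ℝ) q.2 := hasDerivAt_const q.2 q.1
        exact h3.prodMk (hasDerivAt_id q.2)
      have h4 : HasFDerivAt G (fderiv ℝ G q) (q.1, q.2) :=
        (ih.differentiable (by simp) q).hasFDerivAt
      have h5 := h4.comp_hasDerivAt q.2 h2
      exact h5.deriv
    rw [h1]
    exact (ih.fderiv_right (m := ∞) (by simp)).clm_apply contDiff_const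

/-- Continuity of the jets of a jointly smooth family. -/
theorem K1_jets (f : ℝ × ℝ → ℝ → E 3)
    (hf : ContDiff ℝ ∞ (fun q : (ℝ × ℝ) × ℝ => f q.1 q.2))
    (hs : ∀ p : I × I, ContDiff ℝ ∞ (f (p.1, p.2))) :
    Continuous (fun p : I × I => jets (f (p.1, p.2)) (hs p)) := by
  refine continuous_pi fun k => ?_
  apply ContinuousMap.continuous_of_continuous_uncurry
  have h1 := (K1_iter (fun q : (ℝ × ℝ) × ℝ => f q.1 q.2) hf k).continuous
  have h2 : Continuous (fun x : (I × I) × ℝ => (((x.1.1 : ℝ), (x.1.2 : ℝ)), x.2)) := by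
    fun_prop
  exact h1.comp h2

theorem K1 (f : ℝ × ℝ → ℝ → E 3) (φ : {i : Fin 3 // i ≠ 0} → ℝ × ℝ → ℝ → E 3)
    (hf : ContDiff ℝ ∞ (fun q : (ℝ × ℝ) × ℝ => f q.1 q.2))
    (hφ : ∀ i, ContDiff ℝ ∞ (fun q : (ℝ × ℝ) × ℝ => φ i q.1 q.2))
    (h : ∀ p : I × I, IsLongKnot 3 (f (p.1, p.2)) ∧
      IsFraming 3 (f (p.1, p.2)) (fun i => φ i (p.1, p.2))) :
    @Continuous (I × I) (FramedLongKnot 3) _ _ (fun p : I × I =>
      (⟨(f (p.1, p.2), fun i => φ i (p.1, p.2)), h p⟩ : FramedLongKnot 3)) := by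
  have key : Continuous (fun p : I × I =>
      ((jets (f (p.1, p.2)) (h p).1.smooth,
        fun i => jets (φ i (p.1, p.2)) ((h p).2.smooth i)) :
        (ℕ → C(ℝ, E 3)) × ({i : Fin 3 // i ≠ 0} → ℕ → C(ℝ, E 3)))) := ?_
  · exact (continuous_induced_rng (α := FramedLongKnot 3)
      (f := fun p : FramedLongKnot 3 =>
        ((jets p.1.1 p.2.1.smooth, fun i => jets (p.1.2 i) (p.2.2.smooth i)) :
        (ℕ → C(ℝ, E 3)) × ({i : Fin 3 // i ≠ 0} → ℕ → C(ℝ, E 3))))
      (g := fun p : I × I =>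
        (⟨(f (p.1, p.2), fun i => φ i (p.1, p.2)), h p⟩ : FramedLongKnot 3))).2 key
  refine Continuous.prodMk ?_ ?_
  · exact K1_jets f hf (fun p => (h p).1.smooth)
  · refine continuous_pi fun i => ?_
    exact K1_jets (φ i) (hφ i) (fun p => (h p).2.smooth i)

/-- Forgetting the framing. -/
def forget (p : FramedLongKnot 3) : LongKnot 3 := ⟨p.1.1, p.2.1⟩

theorem K1_forget : Continuous forget := by
  refine continuous_induced_rng.2 ?_
  have h : Continuous (fun p : FramedLongKnot 3 =>
      (jets p.1.1 p.2.1.smooth, fun i => jets (p.1.2 i) (p.2.2.smooth i))) :=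
    continuous_induced_dom
  exact continuous_fst.comp h

end LK
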