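import Pool.Agent.H64.LK.Defs

/-!
# K4: the curves of a tube family are long knots

`t ↦ T p (t, 0)`: smooth; derivative at `t` is `fderiv (T p) (t,0) (1, 0) ≠ 0` by injectivity of the
derivative (`(t, 0) ∈ tube`); injective on the tube; for `|t| ≥ 1/2` equal to `(t, 0)`; for `|t| ≤ 1/2`
by `box` the norm squared is at most `1/4 + 1/4`.
-/

open scoped ContDiff unitInterval
open Topology Set

namespace LK

theorem K4 {T : ℝ × ℝ → V → V} (hT : TubeFamily T) (p : I × I) :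
    VKnot (fun t => T (p.1, p.2) (t, 0)) := by
  have hmem : ∀ t : ℝ, ((t, 0) : V) ∈ tube := by
    intro t
    simp [tube]
  have hTq : ContDiff ℝ ∞ (T ((p.1 : ℝ), (p.2 : ℝ))) :=
    hT.smooth.comp (contDiff_const.prodMk contDiff_id)
  have hline : ContDiff ℝ ∞ (fun t : ℝ => ((t, 0) : V)) := contDiff_id.prodMk contDiff_const
  refine ⟨hTq.comp hline, ?_, ?_, ?_, ?_⟩
  · intro t h0
    have h1 : HasDerivAt (fun t : ℝ => ((t, 0) : V)) ((1, 0) : V) t :=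
      (hasDerivAt_id t).prodMk (hasDerivAt_const t (0 : ℂ))
    have h2 : HasFDerivAt (T ((p.1 : ℝ), (p.2 : ℝ)))
        (fderiv ℝ (T ((p.1 : ℝ), (p.2 : ℝ))) (t, 0)) (t, 0) :=
      ((hTq.differentiable (by simp)) (t, 0)).hasFDerivAt
    have h3 := h2.comp_hasDerivAt t h1
    have h4 : deriv (fun t : ℝ => T ((p.1 : ℝ), (p.2 : ℝ)) (t, 0)) t
        = fderiv ℝ (T ((p.1 : ℝ), (p.2 : ℝ))) (t, 0) ((1, 0) : V) := h3.deriv
    rw [h4] at h0
    have h5 : ((1, 0) : V) = 0 := by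
      apply hT.imm ((p.1 : ℝ), (p.2 : ℝ)) (t, 0) (hmem t)
      rw [h0, map_zero]
    have h6 := congrArg Prod.fst h5
    simp at h6
  · intro s t h
    have h1 := hT.inj ((p.1 : ℝ), (p.2 : ℝ)) (hmem s) (hmem t) h
    exact congrArg Prod.fst h1
  · intro t ht
    exact hT.std p (t, 0) (by simpa using le_trans (by norm_num) ht)
  · intro t ht
    rcases le_total (1 / 2) |t| with h | h
    · have h1 : T ((p.1 : ℝ), (p.2 : ℝ)) (t, 0) = (t, 0) := hT.std p (t, 0) h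
      simp only [h1, norm_zero]
      have h2 : t ^ 2 = |t| ^ 2 := (sq_abs t).symm
      rw [h2]
      nlinarith [abs_nonneg t]
    · obtain ⟨h1, h2⟩ := hT.box p (t, 0) (hmem t) h
      have h3 : (T ((p.1 : ℝ), (p.2 : ℝ)) (t, 0)).1 ^ 2
          = |(T ((p.1 : ℝ), (p.2 : ℝ)) (t, 0)).1| ^ 2 := (sq_abs _).symm
      show (T ((p.1 : ℝ), (p.2 : ℝ)) (t, 0)).1 ^ 2
        + ‖(T ((p.1 : ℝ), (p.2 : ℝ)) (t, 0)).2‖ ^ 2 ≤ 1
      rw [h3]
      nlinarith [abs_nonneg (T ((p.1 : ℝ), (p.2 : ℝ)) (t, 0)).1,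
        norm_nonneg (T ((p.1 : ℝ), (p.2 : ℝ)) (t, 0)).2]

end LK
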