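import Pool.Agent.H64.LK.K0
import Pool.Agent.H64.LK.K1
import Pool.Agent.H64.LK.K4

/-!
# K5: a tube family gives a continuous map into the space of framed long knots

Proof. For `p ∈ ℝ × ℝ`, `t ∈ ℝ` put `D = fderiv ℝ (T p) (t, 0)` and, in `E 3`,
`a = toE (D (1, 0))`, `b = toE (D (0, 1))`, `c = toE (D (0, i))`: three linearly independent vectors (`D`,
`toE` injective), depending smoothly on `(p, t)` (joint smoothness of `(p, x) ↦ fderiv (T p) x`:
`ContDiff.fderiv` or `fderiv ℝ (T p) x v = fderiv ℝ (uncurried T) (p, x) (0, v)`).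
Gram-Schmidt: `b1 = ‖a‖² b - ⟪a, b⟫ a`, `ν1 = b1 / ‖b1‖`, `c1 = ‖a‖² c - ⟪a, c⟫ a`,
`c2 = ‖b1‖² c1 - ⟪b1, c1⟫ b1`, `ν2 = c2 / ‖c2‖`; `b1 ≠ 0`, `c2 ≠ 0` by linear independence, so `ν1, ν2` are
smooth in `(p, t)` (`ContDiff.norm` needs nonvanishing), orthonormal, orthogonal to
`a = deriv (fun t => toE (T p (t, 0))) t`. Over the square, for `|t| ≥ 1`, `T p = id` near `(t, 0)`
(`std`, the set `{1/2 < |x.1|}` is open), so `D = id`, `a = e_0`, `b = e_1`, `c = e_2`, `ν1 = e_1`, `ν2 = e_2`.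
Put `φ i = ν1` if `i = 1`, `ν2` if `i = 2`. Apply K0, K4, K1.
If `T p` and `T p'` agree on the tube, then they have the same values at `(t, 0)` and the same
derivatives there (`(t, 0)` is an interior point of the tube), hence the same framed knot.
-/

open scoped ContDiff unitInterval
open Topology Set

namespace LK

/-- one Gram-Schmidt step without division -/
noncomputable def K5_G (x y : E 3) : E 3 := (‖x‖ ^ 2) • y - (inner ℝ x y) • x

/-- normalisation -/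
noncomputable def K5_N (x : E 3) : E 3 := ‖x‖⁻¹ • x

theorem K5_G_orth (x y : E 3) : inner ℝ (K5_G x y) x = 0 := by
  unfold K5_G
  rw [inner_sub_left, real_inner_smul_left, real_inner_smul_left, real_inner_self_eq_norm_sq,
    real_inner_comm x y]
  ring

theorem K5_G_orth' (x y z : E 3) (hx : inner ℝ x z = 0) (hy : inner ℝ y z = 0) :
    inner ℝ (K5_G x y) z = 0 := by
  unfold K5_G
  rw [inner_sub_left, real_inner_smul_left, real_inner_smul_left, hx, hy]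
  ring

theorem K5_N_orth (x z : E 3) (hx : inner ℝ x z = 0) : inner ℝ (K5_N x) z = 0 := by
  unfold K5_N
  rw [real_inner_smul_left, hx, mul_zero]

theorem K5_N_norm (x : E 3) (hx : x ≠ 0) : ‖K5_N x‖ = 1 := by
  unfold K5_N
  rw [norm_smul, norm_inv, norm_norm, inv_mul_cancel₀ (norm_ne_zero_iff.2 hx)]

theorem K5_G_smooth {X : Type*} [NormedAddCommGroup X] [NormedSpace ℝ X] {f g : X → E 3}
    (hf : ContDiff ℝ ∞ f) (hg : ContDiff ℝ ∞ g) : ContDiff ℝ ∞ (fun q => K5_G (f q) (g q)) := by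
  unfold K5_G
  exact ((hf.norm_sq ℝ).smul hg).sub ((hf.inner ℝ hg).smul hf)

theorem K5_N_smooth {X : Type*} [NormedAddCommGroup X] [NormedSpace ℝ X] {f : X → E 3}
    (hf : ContDiff ℝ ∞ f) (h0 : ∀ q, f q ≠ 0) : ContDiff ℝ ∞ (fun q => K5_N (f q)) := by
  unfold K5_N
  exact ((hf.norm ℝ h0).inv (fun q => norm_ne_zero_iff.2 (h0 q))).smul hf

/-- the vector field `toE (D w)` along the axis -/
noncomputable def K5_D (T : ℝ × ℝ → V → V) (w : V) (p : ℝ × ℝ) (t : ℝ) : E 3 :=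
  toE (fderiv ℝ (T p) (t, 0) w)

theorem K5_fderiv {T : ℝ × ℝ → V → V} (hT : TubeFamily T) (p : ℝ × ℝ) (x w : V) :
    fderiv ℝ (T p) x w
      = fderiv ℝ (fun q : (ℝ × ℝ) × V => T q.1 q.2) (p, x) ((0 : ℝ × ℝ), w) := by
  have h1 : HasFDerivAt (fun q : (ℝ × ℝ) × V => T q.1 q.2)
      (fderiv ℝ (fun q : (ℝ × ℝ) × V => T q.1 q.2) (p, x)) (p, x) :=
    (hT.smooth.differentiable (by simp) _).hasFDerivAt
  have h2 : HasFDerivAt (fun y : V => ((p, y) : (ℝ × ℝ) × V))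
      ((0 : V →L[ℝ] (ℝ × ℝ)).prod (ContinuousLinearMap.id ℝ V)) x :=
    (hasFDerivAt_const p x).prodMk (hasFDerivAt_id x)
  have h3 := h1.comp x h2
  have h4 : HasFDerivAt (T p) ((fderiv ℝ (fun q : (ℝ × ℝ) × V => T q.1 q.2) (p, x)).comp
      ((0 : V →L[ℝ] (ℝ × ℝ)).prod (ContinuousLinearMap.id ℝ V))) x := h3
  rw [h4.fderiv]
  rfl

theorem K5_D_smooth {T : ℝ × ℝ → V → V} (hT : TubeFamily T) (w : V) :
    ContDiff ℝ ∞ (fun q : (ℝ × ℝ) × ℝ => K5_D T w q.1 q.2) := by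
  have h1 : ContDiff ℝ ∞ (fderiv ℝ (fun q : (ℝ × ℝ) × V => T q.1 q.2)) :=
    hT.smooth.fderiv_right (by simp)
  have h2 : ContDiff ℝ ∞ (fun q : (ℝ × ℝ) × ℝ => ((q.1, (q.2, (0 : ℂ))) : (ℝ × ℝ) × V)) := by
    fun_prop
  have h3 : ContDiff ℝ ∞ (fun q : (ℝ × ℝ) × ℝ =>
      fderiv ℝ (fun q : (ℝ × ℝ) × V => T q.1 q.2) (q.1, (q.2, (0 : ℂ))) ((0 : ℝ × ℝ), w)) :=
    (h1.comp h2).clm_apply contDiff_const
  have h4 := (toE.contDiff (𝕜 := ℝ) (n := ∞)).comp h3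
  have h5 : (fun q : (ℝ × ℝ) × ℝ => K5_D T w q.1 q.2) = (fun x : V => toE x) ∘
      (fun q : (ℝ × ℝ) × ℝ =>
        fderiv ℝ (fun q : (ℝ × ℝ) × V => T q.1 q.2) (q.1, (q.2, (0 : ℂ))) ((0 : ℝ × ℝ), w)) := by
    funext q
    simp only [K5_D, Function.comp]
    rw [K5_fderiv hT]
  rw [h5]
  exact h4

theorem K5_tube (t : ℝ) : ((t, 0) : V) ∈ tube := by
  simp [tube]

theorem K5_tube_nhds (t : ℝ) : tube ∈ 𝓝 ((t, 0) : V) := by
  have h : {x : V | ‖x.2‖ < 1 / 2} ∈ 𝓝 ((t, 0) : V) := by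
    apply IsOpen.mem_nhds
    · exact isOpen_lt (by fun_prop) continuous_const
    · simp
  refine Filter.mem_of_superset h ?_
  intro x hx
  have hx' : ‖x.2‖ < 1 / 2 := hx
  show ‖x.2‖ ≤ 1 / 2
  exact hx'.le

/-- linear independence of the three vectors -/
theorem K5_indep {T : ℝ × ℝ → V → V} (hT : TubeFamily T) (p : ℝ × ℝ) (t : ℝ) (w : V)
    (hw : w ≠ 0) : K5_D T w p t ≠ 0 := by
  intro h
  have h1 : fderiv ℝ (T p) (t, 0) w = 0 := by
    have : toE (fderiv ℝ (T p) (t, 0) w) = toE 0 := by rw [map_zero]; exact h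
    exact toE.injective this
  apply hw
  apply hT.imm p _ (K5_tube t)
  rw [h1, map_zero]

theorem K5_D_add (T : ℝ × ℝ → V → V) (v w : V) (p : ℝ × ℝ) (t : ℝ) :
    K5_D T (v + w) p t = K5_D T v p t + K5_D T w p t := by
  simp [K5_D]

theorem K5_D_sub (T : ℝ × ℝ → V → V) (v w : V) (p : ℝ × ℝ) (t : ℝ) :
    K5_D T (v - w) p t = K5_D T v p t - K5_D T w p t := by
  simp [K5_D]

theorem K5_D_smul (T : ℝ × ℝ → V → V) (r : ℝ) (w : V) (p : ℝ × ℝ) (t : ℝ) :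
    K5_D T (r • w) p t = r • K5_D T w p t := by
  simp [K5_D]

/-- the vector `b1` -/
noncomputable def K5_b (T : ℝ × ℝ → V → V) (p : ℝ × ℝ) (t : ℝ) : E 3 :=
  K5_G (K5_D T (1, 0) p t) (K5_D T (0, 1) p t)

/-- the vector `c2` -/
noncomputable def K5_c (T : ℝ × ℝ → V → V) (p : ℝ × ℝ) (t : ℝ) : E 3 :=
  K5_G (K5_b T p t) (K5_G (K5_D T (1, 0) p t) (K5_D T (0, Complex.I) p t))

theorem K5_a_ne {T : ℝ × ℝ → V → V} (hT : TubeFamily T) (p : ℝ × ℝ) (t : ℝ) :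
    K5_D T (1, 0) p t ≠ 0 := K5_indep hT p t _ (by simp)

theorem K5_b_ne {T : ℝ × ℝ → V → V} (hT : TubeFamily T) (p : ℝ × ℝ) (t : ℝ) :
    K5_b T p t ≠ 0 := by
  have h : K5_b T p t = K5_D T ((‖K5_D T (1, 0) p t‖ ^ 2) • ((0, 1) : V)
      - (inner ℝ (K5_D T (1, 0) p t) (K5_D T (0, 1) p t)) • ((1, 0) : V)) p t := by
    rw [K5_D_sub, K5_D_smul, K5_D_smul]; rfl
  rw [h]
  apply K5_indep hT
  intro h0
  have h1 := congrArg (fun x : V => x.2.re) h0
  simp only [Prod.snd_sub, Prod.smul_snd, Complex.sub_re, Complex.smul_re, Complex.one_re,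
    Complex.zero_re, Prod.snd_zero, smul_eq_mul, mul_zero, sub_zero, mul_one] at h1
  exact pow_ne_zero _ (norm_ne_zero_iff.2 (K5_a_ne hT p t)) h1

theorem K5_c_ne {T : ℝ × ℝ → V → V} (hT : TubeFamily T) (p : ℝ × ℝ) (t : ℝ) :
    K5_c T p t ≠ 0 := by
  set A := K5_D T (1, 0) p t with hA
  set B := K5_D T (0, 1) p t with hB
  set C := K5_D T (0, Complex.I) p t with hC
  have h : K5_c T p t = K5_D T ((‖K5_b T p t‖ ^ 2) •
      ((‖A‖ ^ 2) • ((0, Complex.I) : V) - (inner ℝ A C) • ((1, 0) : V))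
      - (inner ℝ (K5_b T p t) (K5_G A C)) •
        ((‖A‖ ^ 2) • ((0, 1) : V) - (inner ℝ A B) • ((1, 0) : V))) p t := by
    rw [K5_D_sub, K5_D_smul, K5_D_smul, K5_D_sub, K5_D_smul, K5_D_smul, K5_D_sub, K5_D_smul,
      K5_D_smul]
    rfl
  rw [h]
  apply K5_indep hT
  intro h0
  have h1 := congrArg (fun x : V => x.2.im) h0
  simp only [Prod.snd_sub, Prod.smul_snd, Complex.sub_im, Complex.smul_im, Complex.I_im,
    Complex.zero_im, Complex.one_im, Prod.snd_zero, smul_eq_mul, mul_zero, sub_zero, mul_one] at h1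
  have h2 : ‖K5_b T p t‖ ^ 2 ≠ 0 := pow_ne_zero _ (norm_ne_zero_iff.2 (K5_b_ne hT p t))
  have h3 : ‖A‖ ^ 2 ≠ 0 := pow_ne_zero _ (norm_ne_zero_iff.2 (K5_a_ne hT p t))
  exact (mul_ne_zero h2 h3) h1

theorem K5_b_smooth {T : ℝ × ℝ → V → V} (hT : TubeFamily T) :
    ContDiff ℝ ∞ (fun q : (ℝ × ℝ) × ℝ => K5_b T q.1 q.2) :=
  K5_G_smooth (K5_D_smooth hT _) (K5_D_smooth hT _)

theorem K5_c_smooth {T : ℝ × ℝ → V → V} (hT : TubeFamily T) :
    ContDiff ℝ ∞ (fun q : (ℝ × ℝ) × ℝ => K5_c T q.1 q.2) :=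
  K5_G_smooth (K5_b_smooth hT) (K5_G_smooth (K5_D_smooth hT _) (K5_D_smooth hT _))

/-- the framing -/
noncomputable def K5_phi (T : ℝ × ℝ → V → V) (i : {i : Fin 3 // i ≠ 0}) (p : ℝ × ℝ) (t : ℝ) :
    E 3 := if i.1 = 1 then K5_N (K5_b T p t) else K5_N (K5_c T p t)

theorem K5_phi_smooth {T : ℝ × ℝ → V → V} (hT : TubeFamily T) (i : {i : Fin 3 // i ≠ 0}) :
    ContDiff ℝ ∞ (fun q : (ℝ × ℝ) × ℝ => K5_phi T i q.1 q.2) := by
  unfold K5_phi
  split_ifs with h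
  · exact K5_N_smooth (K5_b_smooth hT) (fun q => K5_b_ne hT _ _)
  · exact K5_N_smooth (K5_c_smooth hT) (fun q => K5_c_ne hT _ _)

theorem K5_bc (T : ℝ × ℝ → V → V) (p : ℝ × ℝ) (t : ℝ) :
    inner ℝ (K5_c T p t) (K5_b T p t) = 0 := K5_G_orth _ _

theorem K5_ba (T : ℝ × ℝ → V → V) (p : ℝ × ℝ) (t : ℝ) :
    inner ℝ (K5_b T p t) (K5_D T (1, 0) p t) = 0 := K5_G_orth _ _

theorem K5_ca (T : ℝ × ℝ → V → V) (p : ℝ × ℝ) (t : ℝ) :
    inner ℝ (K5_c T p t) (K5_D T (1, 0) p t) = 0 :=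
  K5_G_orth' _ _ _ (K5_ba T p t) (K5_G_orth _ _)

theorem K5_two (i : {i : Fin 3 // i ≠ 0}) : i.1 = 1 ∨ i.1 = 2 := by
  obtain ⟨i, hi⟩ := i
  fin_cases i
  · exact absurd rfl hi
  · left; rfl
  · right; rfl

theorem K5_phi_norm {T : ℝ × ℝ → V → V} (hT : TubeFamily T) (i : {i : Fin 3 // i ≠ 0})
    (p : ℝ × ℝ) (t : ℝ) : ‖K5_phi T i p t‖ = 1 := by
  unfold K5_phi
  split_ifs with h
  · exact K5_N_norm _ (K5_b_ne hT p t)
  · exact K5_N_norm _ (K5_c_ne hT p t)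

theorem K5_phi_orth {T : ℝ × ℝ → V → V} (hT : TubeFamily T) (p : ℝ × ℝ) (t : ℝ) :
    Orthonormal ℝ (fun i => K5_phi T i p t) := by
  refine ⟨fun i => K5_phi_norm hT i p t, ?_⟩
  intro i j hij
  have hbc : inner ℝ (K5_N (K5_c T p t)) (K5_N (K5_b T p t)) = 0 := by
    apply K5_N_orth
    rw [real_inner_comm]
    apply K5_N_orth
    rw [real_inner_comm]
    exact K5_bc T p t
  rcases K5_two i with hi | hi <;> rcases K5_two j with hj | hj
  · exact absurd (Subtype.ext (hi.trans hj.symm)) hij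
  · simp only [K5_phi, hi, hj]
    simp only [if_true, show ((2 : Fin 3) = 1) = False from by decide, if_false]
    rw [real_inner_comm]; exact hbc
  · simp only [K5_phi, hi, hj]
    simp only [if_true, show ((2 : Fin 3) = 1) = False from by decide, if_false]
    exact hbc
  · exact absurd (Subtype.ext (hi.trans hj.symm)) hij

theorem K5_deriv {T : ℝ × ℝ → V → V} (hT : TubeFamily T) (p : ℝ × ℝ) (t : ℝ) :
    deriv (fun t => toE (T p (t, 0))) t = K5_D T (1, 0) p t := by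
  have h1 : DifferentiableAt ℝ (T p) (t, 0) := by
    have h : ContDiff ℝ ∞ (fun x : V => T p x) := by
      have h2 : ContDiff ℝ ∞ (fun x : V => ((p, x) : (ℝ × ℝ) × V)) := by fun_prop
      exact hT.smooth.comp h2
    exact h.differentiable (by simp) _
  have h2 : HasDerivAt (fun t : ℝ => ((t, 0) : V)) ((1, 0) : V) t :=
    (hasDerivAt_id t).prodMk (hasDerivAt_const t 0)
  have h3 : HasDerivAt (fun t : ℝ => T p (t, 0)) (fderiv ℝ (T p) (t, 0) (1, 0)) t :=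
    h1.hasFDerivAt.comp_hasDerivAt t h2
  have h4 : HasDerivAt (fun t : ℝ => toE (T p (t, 0))) (toE (fderiv ℝ (T p) (t, 0) (1, 0))) t :=
    toE.hasFDerivAt.comp_hasDerivAt t h3
  exact h4.deriv

theorem K5_std {T : ℝ × ℝ → V → V} (hT : TubeFamily T) (p : I × I) (t : ℝ) (ht : 1 ≤ |t|)
    (w : V) : K5_D T w (p.1, p.2) t = toE w := by
  have h : T (p.1, p.2) =ᶠ[𝓝 ((t, 0) : V)] (fun x => x) := by
    have h1 : {x : V | 1 / 2 < |x.1|} ∈ 𝓝 ((t, 0) : V) := by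
      apply IsOpen.mem_nhds
      · exact isOpen_lt continuous_const (by fun_prop)
      · show (1 : ℝ) / 2 < |t|
        linarith
    filter_upwards [h1] with x hx
    exact hT.std p x (le_of_lt hx)
  unfold K5_D
  rw [h.fderiv_eq, fderiv_fun_id]
  rfl

theorem K5_e0 : toE (1, 0) = (EuclideanSpace.single 0 1 : E 3) := by
  rw [toE_apply]; ext i; fin_cases i <;> simp

theorem K5_e1 : toE (0, 1) = (EuclideanSpace.single 1 1 : E 3) := by
  rw [toE_apply]; ext i; fin_cases i <;> simp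

theorem K5_e2 : toE (0, Complex.I) = (EuclideanSpace.single 2 1 : E 3) := by
  rw [toE_apply]; ext i; fin_cases i <;> simp

theorem K5_G_single (i j : Fin 3) (hij : i ≠ j) :
    K5_G (EuclideanSpace.single i 1) (EuclideanSpace.single j 1) = EuclideanSpace.single j 1 := by
  unfold K5_G
  rw [PiLp.norm_single, EuclideanSpace.inner_single_left]
  simp [hij]

theorem K5_N_single (i : Fin 3) :
    K5_N (EuclideanSpace.single i 1) = EuclideanSpace.single i 1 := by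
  unfold K5_N
  rw [PiLp.norm_single]
  simp

theorem K5_phi_std {T : ℝ × ℝ → V → V} (hT : TubeFamily T) (p : I × I) (t : ℝ) (ht : 1 ≤ |t|)
    (i : {i : Fin 3 // i ≠ 0}) :
    K5_phi T i (p.1, p.2) t = EuclideanSpace.single i.1 1 := by
  have hb : K5_b T (p.1, p.2) t = EuclideanSpace.single 1 1 := by
    unfold K5_b
    rw [K5_std hT p t ht, K5_std hT p t ht, K5_e0, K5_e1]
    exact K5_G_single 0 1 (by decide)
  have hc : K5_c T (p.1, p.2) t = EuclideanSpace.single 2 1 := by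
    unfold K5_c
    rw [hb, K5_std hT p t ht, K5_std hT p t ht, K5_e0, K5_e2, K5_G_single 0 2 (by decide)]
    exact K5_G_single 1 2 (by decide)
  unfold K5_phi
  rcases K5_two i with hi | hi
  · rw [hi, if_pos rfl, hb]
    exact K5_N_single 1
  · rw [hi, if_neg (by decide), hc]
    exact K5_N_single 2

theorem K5_phi_smooth1 {T : ℝ × ℝ → V → V} (hT : TubeFamily T) (i : {i : Fin 3 // i ≠ 0})
    (p : ℝ × ℝ) : ContDiff ℝ ∞ (K5_phi T i p) := by
  have h1 : ContDiff ℝ ∞ (fun t : ℝ => ((p, t) : (ℝ × ℝ) × ℝ)) := by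
    fun_prop
  have h2 : K5_phi T i p = (fun q : (ℝ × ℝ) × ℝ => K5_phi T i q.1 q.2) ∘
      (fun t : ℝ => ((p, t) : (ℝ × ℝ) × ℝ)) := rfl
  rw [h2]
  exact ContDiff.comp (K5_phi_smooth hT i) h1

theorem K5_framing {T : ℝ × ℝ → V → V} (hT : TubeFamily T) (p : I × I) :
    IsLongKnot 3 (fun t => toE (T (p.1, p.2) (t, 0))) ∧
      IsFraming 3 (fun t => toE (T (p.1, p.2) (t, 0))) (fun i => K5_phi T i (p.1, p.2)) := by
  refine ⟨K0 (K4 hT p), ?_⟩
  refine ⟨?_, ?_, ?_, ?_⟩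
  · intro i
    exact K5_phi_smooth1 hT i _
  · intro t
    exact K5_phi_orth hT _ t
  · intro i t
    rw [K5_deriv hT]
    unfold K5_phi
    split_ifs with h
    · exact K5_N_orth _ _ (K5_ba T _ t)
    · exact K5_N_orth _ _ (K5_ca T _ t)
  · intro i t ht
    exact K5_phi_std hT p t ht i

theorem K5_curve_smooth {T : ℝ × ℝ → V → V} (hT : TubeFamily T) :
    ContDiff ℝ ∞ (fun q : (ℝ × ℝ) × ℝ => toE (T q.1 (q.2, 0))) := by
  have h2 : ContDiff ℝ ∞ (fun q : (ℝ × ℝ) × ℝ => ((q.1, (q.2, (0 : ℂ))) : (ℝ × ℝ) × V)) := by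
    fun_prop
  exact toE.contDiff.comp (hT.smooth.comp h2)

theorem K5 {T : ℝ × ℝ → V → V} (hT : TubeFamily T) :
    ∃ Γ : C(I × I, FramedLongKnot 3),
      (∀ p : I × I, ∀ t, (Γ p).1.1 t = toE (T (p.1, p.2) (t, 0))) ∧
      (∀ p p' : I × I, EqOn (T (p.1, p.2)) (T (p'.1, p'.2)) tube → Γ p = Γ p') := by
  have hc := K1 (fun p t => toE (T p (t, 0))) (fun i => K5_phi T i) (K5_curve_smooth hT)
      (K5_phi_smooth hT) (K5_framing hT)
  refine ⟨⟨_, hc⟩, ?_, ?_⟩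
  · intro p t
    rfl
  · intro p p' h
    have hD : ∀ (w : V) (t : ℝ), K5_D T w (p.1, p.2) t = K5_D T w (p'.1, p'.2) t := by
      intro w t
      have h1 : T (p.1, p.2) =ᶠ[𝓝 ((t, 0) : V)] T (p'.1, p'.2) := by
        filter_upwards [K5_tube_nhds t] with x hx
        exact h hx
      unfold K5_D
      rw [h1.fderiv_eq]
    apply Subtype.ext
    apply Prod.ext
    · funext t
      show toE (T (p.1, p.2) (t, 0)) = toE (T (p'.1, p'.2) (t, 0))
      rw [h (K5_tube t)]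
    · funext i t
      show K5_phi T i (p.1, p.2) t = K5_phi T i (p'.1, p'.2) t
      simp only [K5_phi, K5_b, K5_c, hD]

end LK
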