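import Pool.Agent.H64.LK.CDefs

/-!
# S0: two lemmas on monodromy

`Fixd p l e`: some lift of `l` starts and ends at `e`.
S0. If `z` has exactly one fixed point and `a` has none, then `z` and `a` do not commute. Proof: for a path
`γ : Path x x`, `Fixd p γ e` iff `p e = x` and the monodromy of `γ` fixes `e` (uniqueness of lifts). With
`IsCoveringMap.monodromy` (Mathlib/Topology/Homotopy/Lifting.lean), `monodromy_trans_apply`: if `z · a ≃ a · z`, the
monodromies commute. Let `e` be the fixed point of `z`: `M_z (M_a e) = M_a (M_z e) = M_a e`, so `M_a e = e`, contradiction.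
S0b. If `H : C(I × I, X)` has `H(τ, 0) = H(τ, 1)`, then the loops `H(0, ·)` and `H(1, ·)` have
equivalent `∃!` fixed point property. Proof: let `b τ = H(τ, 0)`. If `Γ0` is a lift of `H(0, ·)` from `e` to `e`, lift the
homotopy (`IsCoveringMap.liftHomotopy`): `Ĥ : I × I → A` with `Ĥ(0, ·) = Γ0`; `τ ↦ Ĥ(τ, 0)` and `τ ↦ Ĥ(τ, 1)` are two lifts of
`b` starting at `e`, hence equal, so `e' = Ĥ(1, 0) = Ĥ(1, 1)` is a fixed point for `H(1, ·)`, and `e'` is
the end point of the lift of `b` starting at `e`. So the transport along `b` maps fixed points of `H(0, ·)` to fixed points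
of `H(1, ·)`; the transport along `b` reversed does the opposite (apply the same to `H(1 - τ, ·)`), and the two are
mutually inverse.
-/

open scoped ContDiff unitInterval
open Topology Set

namespace LK

private theorem S0_mon {A X : Type*} [TopologicalSpace A] [TopologicalSpace X] {p : A → X}
    (cov : IsCoveringMap p) {x y : X} (γ : Path x y) (e : p ⁻¹' {x}) (Γ : C(I, A))
    (h : ∀ θ, p (Γ θ) = γ θ) (h0 : Γ 0 = e) :
    (cov.monodromy (Path.Homotopic.Quotient.mk γ) e : A) = Γ 1 := by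
  have h1 := (cov.eq_liftPath_iff' (γ := (γ : C(I, X))) (e := (e : A))
    (γ.source.trans e.2.symm) (Γ := Γ)).2 ⟨funext h, h0⟩
  rw [h1]
  rfl

private theorem S0_char {A X : Type*} [TopologicalSpace A] [TopologicalSpace X] {p : A → X}
    (cov : IsCoveringMap p) {x : X} (γ : Path x x) (e : A) :
    Fixd p γ e ↔ ∃ he : p e = x,
      (cov.monodromy (Path.Homotopic.Quotient.mk γ) ⟨e, he⟩ : A) = e := by
  constructor
  · rintro ⟨Γ, h, h0, h1⟩
    have he : p e = x := by rw [← h0, h 0, γ.source]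
    exact ⟨he, by rw [S0_mon cov γ ⟨e, he⟩ Γ h h0, h1]⟩
  · rintro ⟨he, h1⟩
    have h0 : (γ : C(I, X)) 0 = p e := by rw [he]; exact γ.source
    refine ⟨cov.liftPath (γ : C(I, X)) e h0, fun θ => congrFun (cov.liftPath_lifts _ e h0) θ,
      cov.liftPath_zero _ e h0, ?_⟩
    exact h1

theorem S0 {A X : Type*} [TopologicalSpace A] [TopologicalSpace X] (p : A → X)
    (cov : IsCoveringMap p) (x : X) (z a : Path x x) (hz : ∃! e, Fixd p z e)
    (ha : ∀ e, ¬ Fixd p a e) : ¬ (z.trans a).Homotopic (a.trans z) := by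
  intro h
  have h1 : (Path.Homotopic.Quotient.mk z).trans (Path.Homotopic.Quotient.mk a)
      = (Path.Homotopic.Quotient.mk a).trans (Path.Homotopic.Quotient.mk z) := by
    rw [← Path.Homotopic.Quotient.mk_trans, ← Path.Homotopic.Quotient.mk_trans]
    exact Path.Homotopic.Quotient.eq.2 h
  obtain ⟨e, he, huniq⟩ := hz
  obtain ⟨hpe, hMe⟩ := (S0_char cov z e).1 he
  have hMe' : cov.monodromy (Path.Homotopic.Quotient.mk z) ⟨e, hpe⟩ = ⟨e, hpe⟩ :=
    Subtype.ext hMe
  have h2 : cov.monodromy (Path.Homotopic.Quotient.mk z)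
      (cov.monodromy (Path.Homotopic.Quotient.mk a) ⟨e, hpe⟩)
      = cov.monodromy (Path.Homotopic.Quotient.mk a) ⟨e, hpe⟩ := by
    rw [← cov.monodromy_trans_apply, ← h1, cov.monodromy_trans_apply, hMe']
  have h3 : Fixd p z (cov.monodromy (Path.Homotopic.Quotient.mk a) ⟨e, hpe⟩ : A) :=
    (S0_char cov z _).2 ⟨(cov.monodromy (Path.Homotopic.Quotient.mk a) ⟨e, hpe⟩).2,
      congrArg Subtype.val h2⟩
  have h4 := huniq _ h3
  exact ha e ((S0_char cov a e).2 ⟨hpe, h4⟩)

private theorem S0_tr {A X : Type*} [TopologicalSpace A] [TopologicalSpace X] {p : A → X}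
    (cov : IsCoveringMap p) (K : C(I × I, X)) (hK : ∀ τ, K (τ, 0) = K (τ, 1)) (e : A)
    (h : Fixd p (fun θ => K (0, θ)) e) : ∃ B : C(I, A), (∀ τ, p (B τ) = K (τ, 0)) ∧ B 0 = e ∧
      Fixd p (fun θ => K (1, θ)) (B 1) := by
  obtain ⟨Γ, h1, h2, h3⟩ := h
  have H0 : ∀ a, K (0, a) = p (Γ a) := fun a => (h1 a).symm
  let Q : C(I × I, A) := cov.liftHomotopy K Γ H0
  have hQ : ∀ q, p (Q q) = K q := fun q => congrFun (cov.liftHomotopy_lifts K Γ H0) q
  have hQ0 : ∀ a, Q (0, a) = Γ a := fun a => cov.liftHomotopy_zero K Γ H0 a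
  have hc : ∀ a : I, Continuous (fun τ : I => Q (τ, a)) := fun a =>
    Q.continuous.comp (continuous_id.prodMk continuous_const)
  have hc' : ∀ a : I, Continuous (fun τ : I => Q (a, τ)) := fun a =>
    Q.continuous.comp (continuous_const.prodMk continuous_id)
  have heq : (fun τ : I => Q (τ, 0)) = (fun τ : I => Q (τ, 1)) := by
    refine cov.eq_of_comp_eq (hc 0) (hc 1) ?_ 0 ?_
    · funext τ
      simp only [Function.comp_apply]
      rw [hQ, hQ, hK]
    · rw [hQ0, hQ0, h2, h3]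
  refine ⟨⟨fun τ => Q (τ, 0), hc 0⟩, fun τ => hQ _, ?_, ⟨fun θ => Q (1, θ), hc' 1⟩,
    fun θ => hQ _, rfl, ?_⟩
  · show Q (0, 0) = e
    rw [hQ0, h2]
  · show Q (1, 1) = Q (1, 0)
    exact (congrFun heq 1).symm

theorem S0b {A X : Type*} [TopologicalSpace A] [TopologicalSpace X] (p : A → X)
    (cov : IsCoveringMap p) (H : C(I × I, X)) (hH : ∀ τ, H (τ, 0) = H (τ, 1))
    (h1 : ∃! e, Fixd p (fun θ => H (1, θ)) e) : ∃! e, Fixd p (fun θ => H (0, θ)) e := by
  obtain ⟨e1, he1, huniq⟩ := h1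
  have hsym : Continuous (fun q : I × I => H (unitInterval.symm q.1, q.2)) :=
    H.continuous.comp ((unitInterval.continuous_symm.comp continuous_fst).prodMk continuous_snd)
  obtain ⟨B, -, -, hB⟩ := S0_tr cov ⟨fun q : I × I => H (unitInterval.symm q.1, q.2), hsym⟩
    (fun τ => hH _) e1 (by
      show Fixd p (fun θ => H (unitInterval.symm 0, θ)) e1
      rw [unitInterval.symm_zero]
      exact he1)
  have hB' : Fixd p (fun θ => H (0, θ)) (B 1) := by
    have h2 : Fixd p (fun θ => H (unitInterval.symm 1, θ)) (B 1) := hB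
    rwa [unitInterval.symm_one] at h2
  refine ⟨B 1, hB', fun e he => ?_⟩
  obtain ⟨C1, hC1, hC10, hC11⟩ := S0_tr cov H hH (B 1) hB'
  obtain ⟨C2, hC2, hC20, hC21⟩ := S0_tr cov H hH e he
  have h3 : C1 1 = C2 1 := (huniq _ hC11).trans (huniq _ hC21).symm
  have h4 := cov.eq_of_comp_eq C1.continuous C2.continuous
    (funext fun τ => (hC1 τ).trans (hC2 τ).symm) 1 h3
  have h5 := congrFun h4 0
  rw [hC10, hC20] at h5
  exact h5.symm

/-- Conjugation: if the loop `c · l · c⁻¹` has a fixed point, so has `l`. -/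
theorem S0c {A X : Type*} [TopologicalSpace A] [TopologicalSpace X] (p : A → X)
    (cov : IsCoveringMap p) (x y : X) (c : Path x y) (l : Path y y)
    (h : ∃ e, Fixd p (c.trans (l.trans c.symm)) e) : ∃ e, Fixd p l e := by
  obtain ⟨e, he⟩ := h
  obtain ⟨hpe, hMe⟩ := (S0_char cov _ e).1 he
  have hMe' : cov.monodromy (Path.Homotopic.Quotient.mk (c.trans (l.trans c.symm))) ⟨e, hpe⟩
      = ⟨e, hpe⟩ := Subtype.ext hMe
  rw [Path.Homotopic.Quotient.mk_trans, Path.Homotopic.Quotient.mk_trans,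
    cov.monodromy_trans_apply, cov.monodromy_trans_apply] at hMe'
  have h1 : cov.monodromy (Path.Homotopic.Quotient.mk c.symm)
      (cov.monodromy (Path.Homotopic.Quotient.mk c) ⟨e, hpe⟩) = ⟨e, hpe⟩ := by
    rw [← cov.monodromy_trans_apply, ← Path.Homotopic.Quotient.mk_trans]
    have h2 : Path.Homotopic.Quotient.mk (c.trans c.symm) = Path.Homotopic.Quotient.refl x := by
      rw [← Path.Homotopic.Quotient.mk_refl]
      exact Path.Homotopic.Quotient.eq.2 ⟨(Path.Homotopy.reflTransSymm c).symm⟩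
    rw [h2, cov.monodromy_refl]
    rfl
  have h3 := (cov.monodromy_bijective (Path.Homotopic.Quotient.mk c.symm)).1
    (hMe'.trans h1.symm)
  refine ⟨(cov.monodromy (Path.Homotopic.Quotient.mk c) ⟨e, hpe⟩ : A), ?_⟩
  exact (S0_char cov l _).2 ⟨(cov.monodromy (Path.Homotopic.Quotient.mk c) ⟨e, hpe⟩).2,
    congrArg Subtype.val h3⟩

end LK
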