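import Pool.Agent.H64.LK.C0

/-!
# U1: the colouring map is continuous

`zz`: all ingredients (`cl`, norm, `ph`, exp) are continuous (`st` continuous). `Xi`: by `Continuous.if_le` it is enough that the
two expressions are continuous and agree when `x.2.re = 1`. `rho x * hh ((10 - y) / rho x) = (10 - y) + 2 rho x *
smoothTransition ((9/10 - (10 - y)/rho x) * (5/2))` (also when `rho x = 0`, where `10 - y = 0`): continuous at the points with
`rho x ≠ 0`, and at the points with `rho x = 0` because the transition is bounded by `1` and `rho x → 0` (squeeze).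
At `y = 1`: the first expression is `0`; the second is `max 0 (9 - rho x * hh (9 / rho x))` with
`rho x ≥ 9 > 0`, and `hh c ≥ c` gives `rho x * hh (9 / rho x) ≥ 9`, so it is `0`.
`WW x = ⟨Xi x, x.2.im⟩` continuous (`Complex.equivRealProdCLM.symm` or `Xi x + x.2.im * I`).
-/

open scoped ContDiff unitInterval
open Topology Set

namespace LK

theorem U1_cl : Continuous cl := by
  unfold cl
  fun_prop

theorem U1_st : Continuous st := by
  unfold st
  exact Real.smoothTransition.continuous.comp (by fun_prop)

theorem U1_ph : Continuous ph := by
  unfold ph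
  exact continuous_const.mul U1_st

theorem U1_kin : Continuous kin := by
  unfold kin
  exact U1_cl.comp (by fun_prop)

theorem U1_kout : Continuous kout := by
  unfold kout
  exact (U1_cl.comp (by fun_prop)).max (U1_cl.comp (by fun_prop))

theorem U1_zz : Continuous zz := by
  have h1 := U1_kin
  have h2 := U1_kout
  have h3 : Continuous (fun x : V => ph x.1) := U1_ph.comp continuous_fst
  have h4 : Continuous (fun x : V => ((2 * ph x.1 / 3 : ℝ) : ℂ)) :=
    Complex.continuous_ofReal.comp (by fun_prop)
  have h5 : Continuous (fun x : V => ((kin x : ℝ) : ℂ)) := Complex.continuous_ofReal.comp h1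
  have h6 : Continuous (fun x : V => ((kout x : ℝ) : ℂ)) := Complex.continuous_ofReal.comp h2
  unfold zz
  exact (h5.mul (Complex.continuous_exp.comp (h4.mul continuous_const))).add
    ((continuous_const.sub h5).mul h6)

theorem U1_rho : Continuous rho := by
  unfold rho
  have h : Continuous (fun x : V => x.2.re) := Complex.continuous_re.comp continuous_snd
  exact Real.continuous_sqrt.comp (by fun_prop)

theorem U1_rho_nonneg (x : V) : 0 ≤ rho x := Real.sqrt_nonneg _

theorem U1_rho_zero (x : V) (h : rho x = 0) : 10 - x.2.re = 0 := by
  unfold rho at h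
  rw [Real.sqrt_eq_zero (by positivity)] at h
  have h1 : (10 - x.2.re) ^ 2 ≤ 0 := by nlinarith [sq_nonneg x.1]
  have h2 : (10 - x.2.re) ^ 2 = 0 := le_antisymm h1 (sq_nonneg _)
  exact pow_eq_zero_iff (two_ne_zero) |>.1 h2

theorem U1_eq (x : V) : rho x * hh ((10 - x.2.re) / rho x) = (10 - x.2.re) +
    2 * (rho x * Real.smoothTransition ((9 / 10 - (10 - x.2.re) / rho x) * (5 / 2))) := by
  unfold hh
  by_cases h : rho x = 0
  · rw [h, U1_rho_zero x h]; ring
  · have h1 : rho x * ((10 - x.2.re) / rho x) = 10 - x.2.re := mul_div_cancel₀ _ h
    rw [mul_add, h1]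
    ring

theorem U1_trans : Continuous (fun x : V =>
    rho x * Real.smoothTransition ((9 / 10 - (10 - x.2.re) / rho x) * (5 / 2))) := by
  have hre : Continuous (fun x : V => x.2.re) := Complex.continuous_re.comp continuous_snd
  rw [continuous_iff_continuousAt]
  intro x0
  by_cases h : rho x0 = 0
  · have h1 : Filter.Tendsto rho (𝓝 x0) (𝓝 0) := by
      have := U1_rho.tendsto x0
      rwa [h] at this
    unfold ContinuousAt
    beta_reduce
    rw [h, zero_mul]
    refine squeeze_zero (fun x => ?_) (fun x => ?_) h1
    · exact mul_nonneg (U1_rho_nonneg x) (Real.smoothTransition.nonneg _)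
    · exact mul_le_of_le_one_right (U1_rho_nonneg x) (Real.smoothTransition.le_one _)
  · have h1 : ContinuousAt rho x0 := U1_rho.continuousAt
    have h2 : ContinuousAt (fun x : V => (10 - x.2.re) / rho x) x0 :=
      (continuous_const.sub hre).continuousAt.div h1 h
    have h3 : ContinuousAt (fun x : V => (9 / 10 - (10 - x.2.re) / rho x) * (5 / 2)) x0 :=
      (continuousAt_const.sub h2).mul continuousAt_const
    exact h1.mul (Real.smoothTransition.continuous.continuousAt.comp h3)

theorem U1_Xi : Continuous Xi := by
  have hre : Continuous (fun x : V => x.2.re) := Complex.continuous_re.comp continuous_snd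
  unfold Xi
  apply Continuous.if_le
  · exact hre.sub continuous_const
  · have h1 : (fun x : V => max 0 (9 - rho x * hh ((10 - x.2.re) / rho x))) = fun x : V =>
        max 0 (9 - ((10 - x.2.re) +
          2 * (rho x * Real.smoothTransition ((9 / 10 - (10 - x.2.re) / rho x) * (5 / 2))))) := by
      funext x
      rw [U1_eq]
    rw [h1]
    exact continuous_const.max (continuous_const.sub
      ((continuous_const.sub hre).add (continuous_const.mul U1_trans)))
  · exact hre
  · exact continuous_const
  · intro x hx
    rw [hx]
    have h1 : 0 < rho x := by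
      rcases (U1_rho_nonneg x).lt_or_eq with h | h
      · exact h
      · exfalso
        have := U1_rho_zero x h.symm
        rw [hx] at this
        norm_num at this
    have h2 : 9 ≤ rho x * hh ((10 - 1) / rho x) := by
      calc (9 : ℝ) = rho x * ((10 - 1) / rho x) := by
            rw [mul_div_cancel₀ _ h1.ne']; norm_num
        _ ≤ _ := mul_le_mul_of_nonneg_left (C0_hle _) h1.le
    rw [max_eq_left (by linarith)]
    norm_num

theorem U1_WW : Continuous WW := by
  have him : Continuous (fun x : V => x.2.im) := Complex.continuous_im.comp continuous_snd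
  have h : WW = fun x : V => ((Xi x : ℝ) : ℂ) + ((x.2.im : ℝ) : ℂ) * Complex.I := by
    funext x
    unfold WW
    apply Complex.ext <;> simp
  rw [h]
  exact (Complex.continuous_ofReal.comp U1_Xi).add
    ((Complex.continuous_ofReal.comp him).mul continuous_const)

theorem U1 : Continuous uu := by
  unfold uu
  exact U1_zz.prodMk U1_WW

end LK
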