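import Pool.Agent.H64.LK.C0

/-!
# U2: `zz³ = WW²` only on the curve

Notation `x = (s, p)`, `p = y + i q`, `w = p - 1`, `ϱ = rho x`, `c0 = (10 - y)/ϱ ∈ [-1, 1]`, `W = WW x = Xi + i q`, `z = zz x`.
Suppose `z³ = W²`. To show `x ∈ range curve` it suffices (C0_Psi_surj) to find `ψ ∈ (-π/2, 5π/2)` with `Gam ψ = x`.
The points of the curve: (A) `s ≤ 2`, `p = 1 - e^{i ph s}`: `ψ = arctan (s/8)`; (C) `s ≥ -2`, `p = 1 + e^{i ph s}`:
`ψ = arctan (s/8) + 2π`; (B) `q = 0`, `y ≤ 10 or not`, `ϱ > 0`, `ϱ hh(c0) = 8`, and `c0 < 9/10`: then `ψ ∈ (0, 2π)` is the angle with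
`cos ψ = c0`, `sin ψ = s/ϱ` (`ψ = arccos c0` if `s ≥ 0`, `2π - arccos c0` if `s < 0`), `c0 < 9/10 < cos (arctan (1/4))` gives
`arctan (1/4) < ψ < 2π - arctan (1/4)`, `Gam ψ = GB ψ = (ϱ sin ψ, 10 - ϱ cos ψ) = x`.
(B') `p = 2` and `|s| > 2` and `c0 ≥ 9/10` (i.e. `|s|` not too large): `ψ = arctan (s/8)` if `s > 2`, `ψ = 2π + arctan (s/8)` if
`s < -2`; then `Gam ψ = GB ψ`, `cos ψ = c0 ≥ 9/10` (`c0 = 8/sqrt(s² + 64) = cos (arctan (s/8))`), `hh (cos ψ) = cos ψ`, `GB ψ = (8 tan ψ, 2) = (s, 2)`.
Facts: (f1) if `|s| ≥ 1` then `e^{i ph s} = ±1`, and `e^{2 i ph s / 3} = 1` (`ph = 0` or `3π`). (f2) if `y > 1` and `c0 ≥ 9/10` then `hh c0 = c0`,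
`Xi = max 0 (9 - (10 - y)) = y - 1`, so `W = w`; if `y ≤ 1` also `W = w`.
Case 1: `‖w‖ ≤ 3/2`. Then `kin = 1`, `z = e^{2 i ph s/3}`, `W² = z³ = (e^{i ph s})²`, so `W = ± e^{i ph s}`.
 1a: `y ≤ 1`, or `y > 1` and `c0 ≥ 9/10`: `W = w`, `p = 1 ± e^{i ph s}`. If the sign is `-`: for `s ≤ 2` (A); for `s > 2`, `e^{i ph s} = -1`,
   `p = 2` (so `y > 1` and `c0 ≥ 9/10`): (B'). Sign `+`: for `s ≥ -2` (C); for `s < -2`, `p = 2`: (B').
 1b: `y > 1`, `c0 < 9/10`. Here `y ≤ 5/2`, `10 - y ≥ 15/2`, `s² = ϱ² - (10 - y)² > (10 - y)² (100/81 - 1) ≥ 1`, so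
   `|s| ≥ 1` and `e^{i ph s} = ±1`, `W = ±1`, `q = 0`, `Xi = ±1`, `Xi ≥ 0` so `Xi = 1`, `ϱ hh c0 = 8`: (B).
Case 2: `‖w‖ > 3/2`.
 2a: `|s| ≥ 2`, or `‖w‖ ≥ 4`: then `z = 1` (for `|s| ≥ 2`: `kout = 1` and `e^{2 i ph s/3} = 1`; for `‖w‖ ≥ 4`: `kin = 0`, `kout = 1`). So `W = ±1`,
   `q = 0`, `w = y - 1` real. If `y ≤ 1`: `Xi = y - 1 = ±1` gives `y = 0`, `‖w‖ = 1`, contradiction. If `y > 1`: `Xi = 1`, so
   `ϱ hh c0 = 8` (so `ϱ > 0`); `c0 ≥ 9/10` would give `10 - y = 8`, `‖w‖ = 1`, contradiction; so `c0 < 9/10`: (B).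
 2b: `|s| < 2` and `3/2 < ‖w‖ < 4`: `y < 5`, and if `y > 1` then `c0 = (10 - y)/sqrt(s² + (10 - y)²) ≥ 9/10` as `10 - y > 5`, `s² < 4`. So
   `W = w`, `‖W²‖ > 9/4`, but `‖z‖ ≤ kin + (1 - kin) kout ≤ 1`: contradiction.
-/

open scoped ContDiff unitInterval
open Topology Set

namespace LK

private theorem U2_cl_mem (r : ℝ) : 0 ≤ cl r ∧ cl r ≤ 1 := by
  unfold cl
  exact ⟨le_max_left _ _, max_le zero_le_one (min_le_left _ _)⟩

private theorem U2_cl_one {r : ℝ} (h : 1 ≤ r) : cl r = 1 := by
  unfold cl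
  rw [min_eq_left h, max_eq_right zero_le_one]

private theorem U2_cl_zero {r : ℝ} (h : r ≤ 0) : cl r = 0 := by
  unfold cl
  rw [max_eq_left ((min_le_right _ _).trans h)]

private theorem U2_range {x : V} {ψ : ℝ} (h1 : -(Real.pi / 2) < ψ) (h2 : ψ < 5 * Real.pi / 2)
    (h : Gam ψ = x) : x ∈ range curve := by
  obtain ⟨t, ht⟩ := C0_Psi_surj ψ h1 h2
  exact ⟨t, by unfold curve; rw [ht, h]⟩

/-- the closing arc -/
private theorem U2_B {x : V} (hq : x.2.im = 0) (hr : 0 < rho x)
    (h8 : rho x * hh ((10 - x.2.re) / rho x) = 8) (hc : (10 - x.2.re) / rho x < 9 / 10) :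
    x ∈ range curve := by
  obtain ⟨s, p⟩ := x
  simp only at hq h8 hc
  set ϱ := rho (s, p) with hϱ
  set c := (10 - p.re) / ϱ with hcdef
  have hsq : ϱ ^ 2 = s ^ 2 + (10 - p.re) ^ 2 := by
    rw [hϱ]
    unfold rho
    rw [Real.sq_sqrt (by positivity)]
  have hcϱ : ϱ * c = 10 - p.re := by
    rw [hcdef]
    field_simp
  have hc2 : 1 - c ^ 2 = (s / ϱ) ^ 2 := by
    have e1 : (s / ϱ) ^ 2 = s ^ 2 / ϱ ^ 2 := div_pow s ϱ 2
    have e2 : ϱ ^ 2 ≠ 0 := by positivity
    rw [e1, eq_div_iff e2]
    have : ϱ ^ 2 * c ^ 2 = (10 - p.re) ^ 2 := by rw [← mul_pow, hcϱ]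
    linarith
  have hc1 : c ^ 2 ≤ 1 := by
    have := sq_nonneg (s / ϱ)
    linarith
  have hcl : -1 ≤ c ∧ c ≤ 1 := abs_le.mp (sq_le_one_iff_abs_le_one c |>.mp hc1)
  obtain ⟨-, hn1, hn2⟩ := C0_num
  have hacos : Real.arccos (9 / 10) < Real.arccos c :=
    Real.strictAntiOn_arccos ⟨hcl.1, hcl.2⟩ ⟨by norm_num, by norm_num⟩ hc
  have hle := Real.arccos_le_pi c
  have hpi := Real.pi_pos
  have key : ∀ ψ : ℝ, Real.cos ψ = c → Real.sin ψ = s / ϱ → Real.arctan (1 / 4) < ψ →
      ψ < 2 * Real.pi - Real.arctan (1 / 4) → (s, p) ∈ range curve := by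
    intro ψ h1 h2 h3 h4
    have hat := Real.arctan_pos.mpr (show (0:ℝ) < 1 / 4 by norm_num)
    refine U2_range (ψ := ψ) (by linarith) (by linarith) ?_
    unfold Gam
    rw [if_neg (not_le.mpr h3), if_neg (not_le.mpr h4)]
    unfold GB
    rw [h1, h2]
    have hh0 : hh c ≠ 0 := by
      intro h0
      rw [h0, mul_zero] at h8
      norm_num at h8
    have h5 : 8 / hh c = ϱ := by
      rw [div_eq_iff hh0]
      exact h8.symm
    rw [h5, hcϱ]
    refine Prod.ext ?_ ?_
    · show ϱ * (s / ϱ) = s
      field_simp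
    · apply Complex.ext
      · show ((10 - (10 - p.re) : ℝ) : ℂ).re = p.re
        rw [Complex.ofReal_re]
        ring
      · show ((10 - (10 - p.re) : ℝ) : ℂ).im = p.im
        rw [Complex.ofReal_im, hq]
  rcases le_or_gt 0 s with hs | hs
  · have h2 : Real.sin (Real.arccos c) = s / ϱ := by
      rw [Real.sin_arccos, hc2, Real.sqrt_sq (by positivity)]
    exact key _ (Real.cos_arccos hcl.1 hcl.2) h2 (by linarith) (by linarith)
  · have h1 : Real.cos (2 * Real.pi - Real.arccos c) = c := by
      rw [Real.cos_two_pi_sub, Real.cos_arccos hcl.1 hcl.2]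
    have h2 : Real.sin (2 * Real.pi - Real.arccos c) = s / ϱ := by
      rw [Real.sin_two_pi_sub, Real.sin_arccos, hc2, Real.sqrt_sq_eq_abs, abs_of_neg
        (div_neg_of_neg_of_pos hs hr), neg_neg]
    exact key _ h1 h2 (by linarith) (by linarith)

/-- the straight part of the closing arc -/
private theorem U2_B' {s : ℝ} (hs : 2 < |s|) (hc : 9 / 10 ≤ 8 / rho (s, 2)) :
    ((s, 2) : V) ∈ range curve := by
  have hcos : Real.cos (Real.arctan (s / 8)) = 8 / rho (s, 2) := by
    rw [Real.cos_arctan]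
    have h1 : rho (s, 2) = 8 * Real.sqrt (1 + (s / 8) ^ 2) := by
      unfold rho
      have h2 : s ^ 2 + (10 - (2 : ℂ).re) ^ 2 = 8 ^ 2 * (1 + (s / 8) ^ 2) := by
        have : (2 : ℂ).re = 2 := rfl
        rw [this]
        ring
      show Real.sqrt (s ^ 2 + (10 - (2 : ℂ).re) ^ 2) = _
      rw [h2, Real.sqrt_mul (by norm_num), Real.sqrt_sq (by norm_num)]
    have h3 : 0 < Real.sqrt (1 + (s / 8) ^ 2) := Real.sqrt_pos.mpr (by positivity)
    rw [h1]
    field_simp
  have hcpos := Real.cos_arctan_pos (s / 8)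
  have htan : 8 * (Real.sin (Real.arctan (s / 8)) / Real.cos (Real.arctan (s / 8))) = s := by
    rw [← Real.tan_eq_sin_div_cos, Real.tan_arctan]
    ring
  have hpi := Real.pi_pos
  have hlo := Real.neg_pi_div_two_lt_arctan (s / 8)
  have hhi := Real.arctan_lt_pi_div_two (s / 8)
  obtain ⟨-, hn1, hn2⟩ := C0_num
  have hat := Real.arctan_pos.mpr (show (0:ℝ) < 1 / 4 by norm_num)
  have key : ∀ ψ : ℝ, Real.cos ψ = Real.cos (Real.arctan (s / 8)) →
      Real.sin ψ = Real.sin (Real.arctan (s / 8)) → Real.arctan (1 / 4) < ψ →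
      ψ < 2 * Real.pi - Real.arctan (1 / 4) → ((s, 2) : V) ∈ range curve := by
    intro ψ h1 h2 h3 h4
    refine U2_range (ψ := ψ) (by linarith) (by linarith) ?_
    unfold Gam
    rw [if_neg (not_le.mpr h3), if_neg (not_le.mpr h4)]
    unfold GB
    rw [h1, h2, C0_h9 _ (by rw [hcos]; exact hc)]
    have h5 : 8 / Real.cos (Real.arctan (s / 8)) * Real.sin (Real.arctan (s / 8)) = s := by
      rw [← htan]
      have : Real.tan (Real.arctan (s / 8)) = s / 8 := Real.tan_arctan _
      rw [htan]
      conv_rhs => rw [← htan]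
      ring
    have h6 : 10 - 8 / Real.cos (Real.arctan (s / 8)) * Real.cos (Real.arctan (s / 8)) = 2 := by
      rw [div_mul_cancel₀ _ hcpos.ne']
      norm_num
    rw [h5, h6]
    norm_num
  rcases lt_abs.mp hs with h | h
  · refine key _ rfl rfl ?_ (by linarith)
    exact Real.arctan_strictMono (by linarith)
  · refine key (Real.arctan (s / 8) + 2 * Real.pi) (Real.cos_add_two_pi _)
      (Real.sin_add_two_pi _) (by linarith) ?_
    have h7 : Real.arctan (s / 8) < Real.arctan (-(1 / 4)) :=
      Real.arctan_strictMono (by linarith)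
    rw [Real.arctan_neg] at h7
    linarith

/-- first pass and its continuation -/
private theorem U2_minus {s : ℝ} {p : ℂ} (hp : p = 1 - Complex.exp (ph s * Complex.I))
    (hc : p.re ≤ 1 ∨ 9 / 10 ≤ (10 - p.re) / rho (s, p)) : ((s, p) : V) ∈ range curve := by
  rcases le_or_gt s 2 with hs | hs
  · have hlo := Real.neg_pi_div_two_lt_arctan (s / 8)
    have hhi := Real.arctan_lt_pi_div_two (s / 8)
    have hpi := Real.pi_pos
    refine U2_range (ψ := Real.arctan (s / 8)) hlo (by linarith) ?_
    unfold Gam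
    rw [if_pos (Real.arctan_strictMono.monotone (by linarith))]
    unfold GA
    have h8 : 8 * Real.tan (Real.arctan (s / 8)) = s := by rw [Real.tan_arctan]; ring
    rw [h8, ← hp]
  · have h1 : p = 2 := by
      rw [hp, C0_exp1 s (by linarith)]
      norm_num
    subst h1
    have h2 : (2 : ℂ).re = 2 := rfl
    rw [h2] at hc
    rcases hc with hc | hc
    · norm_num at hc
    · norm_num at hc
      exact U2_B' (by rw [abs_of_pos (by linarith)]; exact hs) (by norm_num; exact hc)

/-- third pass and its continuation -/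
private theorem U2_plus {s : ℝ} {p : ℂ} (hp : p = 1 + Complex.exp (ph s * Complex.I))
    (hc : p.re ≤ 1 ∨ 9 / 10 ≤ (10 - p.re) / rho (s, p)) : ((s, p) : V) ∈ range curve := by
  rcases le_or_gt (-2) s with hs | hs
  · have hlo := Real.neg_pi_div_two_lt_arctan (s / 8)
    have hhi := Real.arctan_lt_pi_div_two (s / 8)
    have hpi := Real.pi_pos
    obtain ⟨-, hn1, hn2⟩ := C0_num
    have h7 : Real.arctan (-(1 / 4)) ≤ Real.arctan (s / 8) :=
      Real.arctan_strictMono.monotone (by linarith)
    rw [Real.arctan_neg] at h7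
    refine U2_range (ψ := Real.arctan (s / 8) + 2 * Real.pi) (by linarith) (by linarith) ?_
    unfold Gam
    rw [if_neg (not_le.mpr (by linarith)), if_pos (by linarith)]
    unfold GC
    have h8 : 8 * Real.tan (Real.arctan (s / 8) + 2 * Real.pi) = s := by
      rw [Real.tan_eq_sin_div_cos, Real.sin_add_two_pi, Real.cos_add_two_pi,
        ← Real.tan_eq_sin_div_cos, Real.tan_arctan]
      ring
    rw [h8, ← hp]
  · have h1 : p = 2 := by
      rw [hp, C0_exp0 s (by linarith)]
      norm_num
    subst h1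
    have h2 : (2 : ℂ).re = 2 := rfl
    rw [h2] at hc
    rcases hc with hc | hc
    · norm_num at hc
    · norm_num at hc
      exact U2_B' (by rw [abs_of_neg (by linarith)]; linarith) (by norm_num; exact hc)

/-- where the second coordinate is `w = p - 1` -/
private theorem U2_Xi {x : V} (hc : x.2.re ≤ 1 ∨ 9 / 10 ≤ (10 - x.2.re) / rho x) :
    WW x = x.2 - 1 := by
  have hX : Xi x = x.2.re - 1 := by
    unfold Xi
    split_ifs with h
    · rfl
    · have hc' : 9 / 10 ≤ (10 - x.2.re) / rho x := hc.resolve_left h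
      rw [C0_h9 _ hc']
      have hr : rho x ≠ 0 := by
        intro h0
        rw [h0, div_zero] at hc'
        norm_num at hc'
      rw [mul_div_cancel₀ _ hr, max_eq_right (by linarith)]
      ring
  unfold WW
  apply Complex.ext
  · simp [hX]
  · simp

private theorem U2_one {x : V} (h1 : 1 < x.2.re) (hX : Xi x = 1) :
    rho x * hh ((10 - x.2.re) / rho x) = 8 := by
  unfold Xi at hX
  rw [if_neg (not_le.mpr h1)] at hX
  rcases max_cases 0 (9 - rho x * hh ((10 - x.2.re) / rho x)) with h | h
  · rw [h.1] at hX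
    norm_num at hX
  · rw [h.1] at hX
    linarith

private theorem U2_Xi_nonneg {x : V} (h1 : 1 < x.2.re) : 0 ≤ Xi x := by
  unfold Xi
  rw [if_neg (not_le.mpr h1)]
  exact le_max_left _ _

theorem U2 (x : V) (h : (zz x) ^ 3 = (WW x) ^ 2) : x ∈ range curve := by
  obtain ⟨s, p⟩ := x
  have hrho : 0 ≤ rho (s, p) := Real.sqrt_nonneg _
  have hsq : rho (s, p) ^ 2 = s ^ 2 + (10 - p.re) ^ 2 := by
    unfold rho
    rw [Real.sq_sqrt (by positivity)]
  have hre : |(p - 1).re| ≤ ‖p - 1‖ := Complex.abs_re_le_norm _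
  have hre' : (p - 1).re = p.re - 1 := by simp
  rw [hre', abs_le] at hre
  rcases le_or_gt ‖p - 1‖ (3 / 2) with hw | hw
  · -- case 1
    have hkin : kin (s, p) = 1 := by
      unfold kin
      apply U2_cl_one
      simp only
      linarith
    have hz : zz (s, p) = Complex.exp ((2 * ph s / 3 : ℝ) * Complex.I) := by
      unfold zz
      rw [hkin]
      simp
    have h2 : (Complex.exp (ph s * Complex.I)) ^ 2 = (WW (s, p)) ^ 2 := by
      rw [← h, hz, ← Complex.exp_nat_mul, ← Complex.exp_nat_mul]
      congr 1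
      push_cast
      ring
    have h3 : WW (s, p) = Complex.exp (ph s * Complex.I) ∨
        WW (s, p) = -Complex.exp (ph s * Complex.I) := sq_eq_sq_iff_eq_or_eq_neg.mp h2.symm
    by_cases hc : p.re ≤ 1 ∨ 9 / 10 ≤ (10 - p.re) / rho (s, p)
    · have hW := U2_Xi (x := (s, p)) hc
      simp only at hW
      rcases h3 with h4 | h4
      · exact U2_plus (by rw [← h4, hW]; ring) hc
      · refine U2_minus (p := p) ?_ hc
        have : Complex.exp (ph s * Complex.I) = -WW (s, p) := by rw [h4, neg_neg]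
        rw [this, hW]
        ring
    · push Not at hc
      obtain ⟨hy, hc⟩ := hc
      have h10 : 15 / 2 ≤ 10 - p.re := by linarith
      have hr0 : 0 < rho (s, p) := by
        rcases hrho.eq_or_lt with h0 | h0
        · rw [← h0] at hsq
          nlinarith [sq_nonneg s]
        · exact h0
      rw [div_lt_iff₀ hr0] at hc
      have hs1 : 1 ≤ s ^ 2 := by nlinarith
      have hsabs : 1 ≤ |s| := by
        rw [← sq_abs] at hs1
        by_contra hcon
        push Not at hcon
        nlinarith [abs_nonneg s]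
      have hE : Complex.exp (ph s * Complex.I) = 1 ∨ Complex.exp (ph s * Complex.I) = -1 := by
        rcases le_abs.mp hsabs with h5 | h5
        · right; exact C0_exp1 s h5
        · left; exact C0_exp0 s (by linarith)
      have hW : WW (s, p) = 1 ∨ WW (s, p) = -1 := by
        rcases h3 with h4 | h4 <;> rcases hE with h5 | h5 <;> rw [h4, h5] <;> simp
      have hX0 := U2_Xi_nonneg (x := (s, p)) hy
      have hXq : Xi (s, p) = 1 ∧ p.im = 0 := by
        rcases hW with h5 | h5
        · have h6 := congrArg Complex.re h5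
          have h7 := congrArg Complex.im h5
          exact ⟨h6, h7⟩
        · exfalso
          have h6 : Xi (s, p) = (-1 : ℂ).re := congrArg Complex.re h5
          have h7 : Xi (s, p) = -1 := by simpa using h6
          linarith
      exact U2_B (x := (s, p)) hXq.2 hr0 (U2_one hy hXq.1) (by
        rw [div_lt_iff₀ hr0]
        exact hc)
  · -- case 2
    by_cases ha : 2 ≤ |s| ∨ 4 ≤ ‖p - 1‖
    · have hz : zz (s, p) = 1 := by
        rcases ha with ha | ha
        · have hko : kout (s, p) = 1 := by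
            unfold kout
            rw [U2_cl_one (show (1:ℝ) ≤ |((s, p) : V).1| - 1 by simp only; linarith)]
            exact max_eq_left (U2_cl_mem _).2
          have hE : Complex.exp ((2 * ph s / 3 : ℝ) * Complex.I) = 1 := by
            rcases le_abs.mp ha with h5 | h5
            · have h6 : ph s = 3 * Real.pi := by
                unfold ph
                rw [C0_st1 s (by linarith), mul_one]
              rw [h6]
              have h7 : ((2 * (3 * Real.pi) / 3 : ℝ) : ℂ) * Complex.I = 2 * Real.pi * Complex.I := by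
                push_cast
                ring
              rw [h7, Complex.exp_two_pi_mul_I]
            · have h6 : ph s = 0 := by
                unfold ph
                rw [C0_st0 s (by linarith), mul_zero]
              rw [h6]
              simp
          unfold zz
          simp only
          rw [hko, hE]
          push_cast
          ring
        · have hki : kin (s, p) = 0 := by
            unfold kin
            apply U2_cl_zero
            simp only
            linarith
          have hko : kout (s, p) = 1 := by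
            unfold kout
            rw [U2_cl_one (show (1:ℝ) ≤ ‖((s, p) : V).2 - 1‖ - 3 by simp only; linarith)]
            exact max_eq_right (U2_cl_mem _).2
          unfold zz
          simp only
          rw [hki, hko]
          simp
      rw [hz, one_pow] at h
      have hW : WW (s, p) = 1 ∨ WW (s, p) = -1 := by
        have h5 : WW (s, p) ^ 2 = 1 ^ 2 := by rw [one_pow]; exact h.symm
        exact sq_eq_sq_iff_eq_or_eq_neg.mp h5
      have hq : p.im = 0 := by
        rcases hW with h5 | h5
        · exact congrArg Complex.im h5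
        · have := congrArg Complex.im h5
          have h6 : p.im = (-1 : ℂ).im := this
          simpa using h6
      have hX : Xi (s, p) = 1 ∨ Xi (s, p) = -1 := by
        rcases hW with h5 | h5
        · left; exact congrArg Complex.re h5
        · right
          have := congrArg Complex.re h5
          have h6 : Xi (s, p) = (-1 : ℂ).re := this
          simpa using h6
      have hnorm : ‖p - 1‖ = |p.re - 1| := by
        have h6 : p - 1 = ((p.re - 1 : ℝ) : ℂ) := by
          apply Complex.ext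
          · simp
          · simp [hq]
        rw [h6, Complex.norm_real, Real.norm_eq_abs]
      rcases le_or_gt p.re 1 with hy | hy
      · exfalso
        have h7 : Xi (s, p) = p.re - 1 := by
          unfold Xi
          rw [if_pos hy]
        rw [h7] at hX
        rw [hnorm] at hw
        rcases hX with h8 | h8
        · linarith
        · rw [h8] at hw
          norm_num at hw
      · have hX0 := U2_Xi_nonneg (x := (s, p)) hy
        have hX1 : Xi (s, p) = 1 := by
          rcases hX with h8 | h8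
          · exact h8
          · linarith
        have h8 := U2_one (x := (s, p)) hy hX1
        simp only at h8
        have hr0 : 0 < rho (s, p) := by
          rcases hrho.eq_or_lt with h0 | h0
          · rw [← h0, zero_mul] at h8
            norm_num at h8
          · exact h0
        rcases lt_or_ge ((10 - p.re) / rho (s, p)) (9 / 10) with hc | hc
        · exact U2_B (x := (s, p)) hq hr0 h8 hc
        · exfalso
          rw [C0_h9 _ hc, mul_div_cancel₀ _ hr0.ne'] at h8
          rw [hnorm] at hw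
          have h9 : p.re - 1 = 1 := by linarith
          rw [h9] at hw
          norm_num at hw
    · exfalso
      push Not at ha
      obtain ⟨ha1, ha2⟩ := ha
      have hc : p.re ≤ 1 ∨ 9 / 10 ≤ (10 - p.re) / rho (s, p) := by
        rcases le_or_gt p.re 1 with hy | hy
        · left; exact hy
        · right
          have h5 : 5 < 10 - p.re := by linarith
          have hs2 : s ^ 2 < 4 := by
            rw [← sq_abs]
            nlinarith [abs_nonneg s]
          have hr0 : 0 < rho (s, p) := by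
            rcases hrho.eq_or_lt with h0 | h0
            · rw [← h0] at hsq
              nlinarith [sq_nonneg s]
            · exact h0
          rw [le_div_iff₀ hr0]
          apply le_of_sq_le_sq _ (by linarith)
          rw [mul_pow, hsq]
          nlinarith
      have hW := U2_Xi (x := (s, p)) hc
      simp only at hW
      have hn : ‖zz (s, p)‖ ≤ 1 := by
        obtain ⟨hk0, hk1⟩ := U2_cl_mem (4 - 2 * ‖((s, p) : V).2 - 1‖)
        have hk0' : 0 ≤ kin (s, p) := hk0
        have hk1' : kin (s, p) ≤ 1 := hk1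
        have hko0 : 0 ≤ kout (s, p) := (U2_cl_mem _).1.trans (le_max_left _ _)
        have hko1 : kout (s, p) ≤ 1 := max_le (U2_cl_mem _).2 (U2_cl_mem _).2
        unfold zz
        refine (norm_add_le _ _).trans ?_
        rw [norm_mul, norm_mul, Complex.norm_exp_ofReal_mul_I, mul_one]
        have h6 : (1 - (kin (s, p) : ℂ)) = ((1 - kin (s, p) : ℝ) : ℂ) := by push_cast; ring
        rw [h6, Complex.norm_real, Complex.norm_real, Complex.norm_real, Real.norm_eq_abs,
          Real.norm_eq_abs, Real.norm_eq_abs, abs_of_nonneg hk0', abs_of_nonneg hko0,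
          abs_of_nonneg (by linarith)]
        nlinarith
      have h7 := congrArg norm h
      rw [hW, norm_pow, norm_pow] at h7
      have h8 : ‖zz (s, p)‖ ^ 3 ≤ 1 := pow_le_one₀ (norm_nonneg _) hn
      nlinarith

end LK
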