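import Pool.Agent.H64.LK.C0

/-!
# U3: `zz³ = WW²` on the curve

`x = curve t = Gam ψ`, `ψ = Psi t ∈ (-π/2, 5π/2)` (C0_Psi_range). Notation as in U2: `x = (s, p)`, `p = y + iq`, `w = p - 1`.
(A) `ψ ≤ arctan (1/4)`: `s = 8 tan ψ ≤ 2`, `w = - e^{i ph s}`, `‖w‖ = 1`, `kin = 1`, `z = e^{2 i ph s/3}`, `z³ = (e^{i ph s})²`.
`W = w`: if `y ≤ 1` by definition; if `y > 1` then `s > -1` (for `s ≤ -1`, `p = 0`), so `|s| ≤ 2`, `y ≤ 2`, `10 - y ≥ 8` and
`c0 = (10 - y)/sqrt(s² + (10-y)²) ≥ 9/10`, `Xi = y - 1`. So `W² = w² = (e^{i ph s})² = z³`.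
(C) `ψ ≥ 2π - arctan (1/4)`: symmetric, `s = 8 tan ψ ≥ -2`, `w = e^{i ph s}`; if `y > 1` then `s < 1` (for `s ≥ 1`, `p = 0`).
(B) otherwise: `R = 8 / hh (cos ψ)`, `s = R sin ψ`, `y = 10 - R cos ψ`, `q = 0`, `rho x = R`, `(10 - y)/R = cos ψ`, `R hh (cos ψ) = 8`;
`y ≥ 2 > 1` as `R cos ψ ≤ 8` (`cos ψ ≤ hh (cos ψ)`, `hh > 0`), so `Xi = max 0 (9 - 8) = 1`, `W = 1`. It remains that `z = 1`.
 If `|s| ≥ 2`: `e^{2 i ph s/3} = 1` and `kout = 1`, so `z = kin + (1 - kin) = 1`.
 If `|s| < 2`: we claim `‖w‖ = y - 1 ≥ 4`, so `kin = 0`, `kout = 1`, `z = 1`. If `cos ψ ≤ 0`, `y ≥ 10`. If `cos ψ ≥ 9/10`, `s = 8 tan ψ` with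
 `|8 tan ψ| > 2` (as `arctan (1/4) < ψ < 2π - arctan (1/4)`, `cos ψ > 0`), contradiction. If `0 < cos ψ < 9/10`: `sin² ψ > 19/100`, so
 `(R cos ψ)² = s² cos² ψ / sin² ψ < 4 (81/100)/(19/100) < 25`, `R cos ψ < 5`, `y > 5`.
-/

open scoped ContDiff unitInterval
open Topology Set

namespace LK

private theorem U3_cl_mem (r : ℝ) : 0 ≤ cl r ∧ cl r ≤ 1 := by
  unfold cl
  exact ⟨le_max_left _ _, max_le zero_le_one (min_le_left _ _)⟩

private theorem U3_cl_one {r : ℝ} (h : 1 ≤ r) : cl r = 1 := by
  unfold cl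
  rw [min_eq_left h, max_eq_right zero_le_one]

private theorem U3_cl_zero {r : ℝ} (h : r ≤ 0) : cl r = 0 := by
  unfold cl
  rw [max_eq_left ((min_le_right _ _).trans h)]

private theorem U3_Xi {x : V} (hc : x.2.re ≤ 1 ∨ 9 / 10 ≤ (10 - x.2.re) / rho x) :
    WW x = x.2 - 1 := by
  have hX : Xi x = x.2.re - 1 := by
    unfold Xi
    split_ifs with h
    · rfl
    · have hc' : 9 / 10 ≤ (10 - x.2.re) / rho x := hc.resolve_left h
      rw [C0_h9 _ hc']
      have hr : rho x ≠ 0 := by
        intro h0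
        rw [h0, div_zero] at hc'
        norm_num at hc'
      rw [mul_div_cancel₀ _ hr, max_eq_right (by linarith)]
      ring
  unfold WW
  apply Complex.ext
  · simp [hX]
  · simp

/-- the two straight passes -/
private theorem U3_pass {s : ℝ} {p E : ℂ} (hE : E = Complex.exp (ph s * Complex.I))
    (hw : p - 1 = E ∨ p - 1 = -E) (hy : 1 < p.re → |s| ≤ 2) :
    (zz (s, p)) ^ 3 = (WW (s, p)) ^ 2 := by
  have hEn : ‖E‖ = 1 := by rw [hE, Complex.norm_exp_ofReal_mul_I]
  have hwn : ‖p - 1‖ = 1 := by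
    rcases hw with h | h
    · rw [h, hEn]
    · rw [h, norm_neg, hEn]
  have hkin : kin (s, p) = 1 := by
    unfold kin
    apply U3_cl_one
    simp only
    rw [hwn]
    norm_num
  have hz : zz (s, p) = Complex.exp ((2 * ph s / 3 : ℝ) * Complex.I) := by
    unfold zz
    rw [hkin]
    simp
  have hz3 : zz (s, p) ^ 3 = E ^ 2 := by
    rw [hz, hE, ← Complex.exp_nat_mul, ← Complex.exp_nat_mul]
    congr 1
    push_cast
    ring
  have hre : |(p - 1).re| ≤ ‖p - 1‖ := Complex.abs_re_le_norm _
  have hre' : (p - 1).re = p.re - 1 := by simp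
  rw [hre', abs_le, hwn] at hre
  have hc : p.re ≤ 1 ∨ 9 / 10 ≤ (10 - p.re) / rho (s, p) := by
    rcases le_or_gt p.re 1 with h | h
    · left; exact h
    · right
      have hs := hy h
      have hsq : rho (s, p) ^ 2 = s ^ 2 + (10 - p.re) ^ 2 := by
        unfold rho
        rw [Real.sq_sqrt (by positivity)]
      have hs2 : s ^ 2 ≤ 4 := by
        rw [← sq_abs]
        nlinarith [abs_nonneg s]
      have h10 : 8 ≤ 10 - p.re := by linarith
      have hr0 : 0 < rho (s, p) := by
        have hr00 : 0 ≤ rho (s, p) := Real.sqrt_nonneg _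
        rcases hr00.eq_or_lt with h0 | h0
        · rw [← h0] at hsq
          nlinarith [sq_nonneg s]
        · exact h0
      rw [le_div_iff₀ hr0]
      apply le_of_sq_le_sq _ (by linarith)
      rw [mul_pow, hsq]
      nlinarith
  have hW := U3_Xi (x := (s, p)) hc
  simp only at hW
  rw [hz3, hW]
  rcases hw with h | h
  · rw [h]
  · rw [h]; ring

private theorem U3_tan_le {θ c : ℝ} (h1 : -(Real.pi / 2) < θ) (h2 : θ < Real.pi / 2) :
    θ ≤ Real.arctan c ↔ Real.tan θ ≤ c := by
  rw [← Real.arctan_strictMono.le_iff_le (a := Real.tan θ) (b := c), Real.arctan_tan h1 h2]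

/-- the closing arc -/
private theorem U3_arc {ψ : ℝ} (h1 : Real.arctan (1 / 4) < ψ)
    (h2 : ψ < 2 * Real.pi - Real.arctan (1 / 4)) : (zz (GB ψ)) ^ 3 = (WW (GB ψ)) ^ 2 := by
  have hh0 := C0_hpos (Real.cos ψ) (Real.neg_one_le_cos ψ)
  have hle := C0_hle (Real.cos ψ)
  set c := Real.cos ψ with hcdef
  have hhp : 0 < hh c := by linarith
  set R := 8 / hh c with hR
  have hR0 : 0 < R := by positivity
  have hRh : R * hh c = 8 := by
    rw [hR]
    field_simp
  have hRc : R * c ≤ 8 := by
    calc R * c ≤ R * hh c := mul_le_mul_of_nonneg_left hle hR0.le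
      _ = 8 := hRh
  set s := R * Real.sin ψ with hs
  have hG : GB ψ = (s, ((10 - R * c : ℝ) : ℂ)) := rfl
  have hpyth : Real.sin ψ ^ 2 + c ^ 2 = 1 := Real.sin_sq_add_cos_sq ψ
  have hrho : rho (s, ((10 - R * c : ℝ) : ℂ)) = R := by
    unfold rho
    have h3 : s ^ 2 + (10 - (10 - R * c)) ^ 2 = R ^ 2 := by
      rw [hs]
      have : (R * Real.sin ψ) ^ 2 + (10 - (10 - R * c)) ^ 2 =
          R ^ 2 * (Real.sin ψ ^ 2 + c ^ 2) := by ring
      rw [this, hpyth, mul_one]
    show Real.sqrt (s ^ 2 + (10 - (((10 - R * c : ℝ) : ℂ)).re) ^ 2) = R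
    rw [Complex.ofReal_re, h3, Real.sqrt_sq hR0.le]
  have hX : Xi (s, ((10 - R * c : ℝ) : ℂ)) = 1 := by
    unfold Xi
    rw [hrho]
    simp only [Complex.ofReal_re]
    rw [if_neg (by linarith)]
    have h3 : (10 - (10 - R * c)) / R = c := by
      field_simp
      ring
    rw [h3, hRh]
    norm_num
  have hW : WW (s, ((10 - R * c : ℝ) : ℂ)) = 1 := by
    unfold WW
    rw [hX]
    apply Complex.ext
    · rfl
    · simp only [Complex.ofReal_im]
      rfl
  have hnorm : ‖((10 - R * c : ℝ) : ℂ) - 1‖ = 9 - R * c := by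
    have h6 : ((10 - R * c : ℝ) : ℂ) - 1 = ((9 - R * c : ℝ) : ℂ) := by
      push_cast
      ring
    rw [h6, Complex.norm_real, Real.norm_eq_abs, abs_of_nonneg (by linarith)]
  have hz : zz (s, ((10 - R * c : ℝ) : ℂ)) = 1 := by
    rcases le_or_gt 2 |s| with ha | ha
    · have hko : kout (s, ((10 - R * c : ℝ) : ℂ)) = 1 := by
        unfold kout
        have h3 : cl (|s| - 1) = 1 := U3_cl_one (by linarith)
        simp only
        rw [h3]
        exact max_eq_left (U3_cl_mem _).2
      have hE : Complex.exp ((2 * ph s / 3 : ℝ) * Complex.I) = 1 := by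
        rcases le_abs.mp ha with h5 | h5
        · have h6 : ph s = 3 * Real.pi := by
            unfold ph
            rw [C0_st1 s (by linarith), mul_one]
          rw [h6]
          have h7 : ((2 * (3 * Real.pi) / 3 : ℝ) : ℂ) * Complex.I = 2 * Real.pi * Complex.I := by
            push_cast
            ring
          rw [h7, Complex.exp_two_pi_mul_I]
        · have h6 : ph s = 0 := by
            unfold ph
            rw [C0_st0 s (by linarith), mul_zero]
          rw [h6]
          simp
      unfold zz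
      simp only
      rw [hko, hE]
      push_cast
      ring
    · have h5 : R * c ≤ 5 := by
        rcases le_or_gt c 0 with hc | hc
        · have := mul_nonpos_of_nonneg_of_nonpos hR0.le hc
          linarith
        · rcases le_or_gt (9 / 10) c with hc9 | hc9
          · exfalso
            have hhc : hh c = c := C0_h9 c hc9
            have hst : s = 8 * Real.tan ψ := by
              rw [hs, hR, hhc, Real.tan_eq_sin_div_cos, ← hcdef]
              ring
            rw [hst, abs_lt] at ha
            have hpi := Real.pi_pos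
            have hat := Real.arctan_pos.mpr (show (0:ℝ) < 1 / 4 by norm_num)
            rcases lt_or_ge ψ (Real.pi / 2) with h7 | h7
            · have h8 := (U3_tan_le (θ := ψ) (c := 1 / 4) (by linarith) h7).mpr (by linarith)
              linarith
            · rcases le_or_gt ψ (Real.pi + Real.pi / 2) with h8 | h8
              · have := Real.cos_nonpos_of_pi_div_two_le_of_le h7 h8
                linarith
              · have h9 : Real.tan (2 * Real.pi - ψ) = - Real.tan ψ := by
                  rw [Real.tan_eq_sin_div_cos, Real.sin_two_pi_sub, Real.cos_two_pi_sub,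
                    Real.tan_eq_sin_div_cos, neg_div]
                have h10 := (U3_tan_le (θ := 2 * Real.pi - ψ) (c := 1 / 4) (by linarith)
                  (by linarith)).mpr (by rw [h9]; linarith)
                linarith
          · by_contra hcon
            push Not at hcon
            have h6 : s ^ 2 < 4 := by
              rw [← sq_abs]
              nlinarith [abs_nonneg s]
            have h7 : (R * c) ^ 2 * Real.sin ψ ^ 2 = s ^ 2 * c ^ 2 := by
              rw [hs]
              ring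
            have h8 : c ^ 2 < 81 / 100 := by nlinarith
            have h9 : 19 / 100 < Real.sin ψ ^ 2 := by linarith
            have h10 : 25 < (R * c) ^ 2 := by nlinarith
            have h11 : 25 * (19 / 100) < (R * c) ^ 2 * Real.sin ψ ^ 2 := by
              apply mul_lt_mul'' h10 h9 <;> norm_num
            have h12 : s ^ 2 * c ^ 2 ≤ 4 * (81 / 100) :=
              mul_le_mul h6.le h8.le (sq_nonneg _) (by norm_num)
            linarith
      have hki : kin (s, ((10 - R * c : ℝ) : ℂ)) = 0 := by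
        unfold kin
        apply U3_cl_zero
        simp only
        rw [hnorm]
        linarith
      have hko : kout (s, ((10 - R * c : ℝ) : ℂ)) = 1 := by
        unfold kout
        simp only
        rw [hnorm, U3_cl_one (show (1:ℝ) ≤ 9 - R * c - 3 by linarith)]
        exact max_eq_right (U3_cl_mem _).2
      unfold zz
      simp only
      rw [hki, hko]
      simp
  rw [hG, hz, hW]
  norm_num

theorem U3 (x : V) (h : x ∈ range curve) : (zz x) ^ 3 = (WW x) ^ 2 := by
  obtain ⟨t, rfl⟩ := h
  obtain ⟨h1, h2⟩ := C0_Psi_range t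
  unfold curve
  set ψ := Psi t with hψ
  have hpi := Real.pi_pos
  have hat := Real.arctan_pos.mpr (show (0:ℝ) < 1 / 4 by norm_num)
  have hat2 := Real.arctan_lt_pi_div_two (1 / 4)
  unfold Gam
  split_ifs with h3 h4
  · -- first pass
    have ht : Real.tan ψ ≤ 1 / 4 := (U3_tan_le h1 (by linarith)).mp h3
    unfold GA
    refine U3_pass rfl (Or.inr (by ring)) ?_
    intro hy
    rw [abs_le]
    constructor
    · by_contra hcon
      push Not at hcon
      rw [C0_exp0 _ (by linarith)] at hy
      norm_num at hy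
    · linarith
  · -- third pass
    have h5 : Real.tan ψ = Real.tan (ψ - 2 * Real.pi) := by
      rw [Real.tan_eq_sin_div_cos, Real.tan_eq_sin_div_cos, Real.sin_sub_two_pi,
        Real.cos_sub_two_pi]
    have h6 : Real.tan (2 * Real.pi - ψ) = - Real.tan ψ := by
      rw [Real.tan_eq_sin_div_cos, Real.sin_two_pi_sub, Real.cos_two_pi_sub,
        Real.tan_eq_sin_div_cos, neg_div]
    have ht : Real.tan (2 * Real.pi - ψ) ≤ 1 / 4 :=
      (U3_tan_le (by linarith) (by linarith)).mp (by linarith)
    rw [h6] at ht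
    unfold GC
    refine U3_pass rfl (Or.inl (by ring)) ?_
    intro hy
    rw [abs_le]
    constructor
    · linarith
    · by_contra hcon
      push Not at hcon
      rw [C0_exp1 _ (by linarith)] at hy
      norm_num at hy
  · push Not at h3 h4
    exact U3_arc h3 h4

end LK
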