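import Pool.Agent.H64.LK.P1
import Pool.Agent.H64.LK.S0
import Pool.Agent.H64.LK.C0
import Pool.Agent.H64.LK.U3
import Pool.Agent.H64.LK.U1
import Pool.Agent.H64.LK.U2

/-!
# S1a: a loop without fixed root

`p0 = 1 + 5/2 i`. `seg : τ ↦ (-80 (1 - τ), p0)`, from `n1` to `(0, p0)`; `l : θ ↦ (0, 1 + 5/2 i e^{2πiθ})`, a loop at `(0, p0)`;
`a = seg · l · seg⁻¹` (`seg.trans (l.trans seg.symm)`).
All the points are off the curve, by U3 it suffices that `zz³ ≠ WW²`: on `seg`, `w = p - 1 = 5/2 i`, `‖w‖ = 5/2`, `kin = 0`,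
`zz = kout ∈ [0, 1]` real, `y = 1`, `Xi = 0`, `WW = 5/2 i`, `WW² = -25/4 ≠ zz³`. On `l`: `w = 5/2 i e^{2πiθ}`, `kin = 0`, `kout = 0`
(`s = 0`, `‖w‖ = 5/2 ≤ 3`), `zz = 0`; `y = 1 + Re w ≤ 7/2`; for `y ≤ 1`, `Xi = y - 1`; for `y > 1`, `rho = 10 - y`, `hh 1 = 1`,
`Xi = max 0 (9 - (10 - y)) = y - 1`; so `WW = w`, `WW² ≠ 0`.
Bounds: first coordinate `≤ 0`, `‖p‖ ≤ 7/2 ≤ 80`.
No fixed root: by S0c (the loop in `BB` is `c · l' · c⁻¹` with `c = uu ∘ seg`, `l' = uu ∘ l` as paths in `BB`; use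
`Path.map`-like paths in `BB` built from `uu` and U1-free continuity: here only the paths `c`, `l'` are needed, which are explicit and
continuous) a fixed root of `uu ∘ a` gives a fixed root of `l'(θ) = (0, w(θ))`. Over `(0, w(0))`: `X³ = -2 w(0)`, `X ≠ 0`; the lift of
`l'` from `X` is `(0, X e^{2πiθ/3})`, which ends at `X e^{2πi/3} ≠ X`.
(For the continuity of `uu ∘ a` use U1, file U1, if convenient: import it.)
-/

open scoped ContDiff unitInterval
open Topology Set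

namespace LK

theorem S1a_cl_zero {r : ℝ} (h : r ≤ 0) : cl r = 0 := by
  unfold cl
  rw [max_eq_left ((min_le_right _ _).trans h)]

theorem S1a_cl_nonneg (r : ℝ) : 0 ≤ cl r := by
  unfold cl
  exact le_max_left _ _

theorem S1a_kin {s : ℝ} {w : ℂ} (hw : ‖w‖ = 5 / 2) : kin (s, 1 + w) = 0 := by
  unfold kin
  apply S1a_cl_zero
  have h : ((s, 1 + w) : V).2 - 1 = w := by
    show 1 + w - 1 = w
    ring
  rw [h, hw]
  norm_num

theorem S1a_zz {s : ℝ} {w : ℂ} (hw : ‖w‖ = 5 / 2) : zz (s, 1 + w) = (kout (s, 1 + w) : ℂ) := by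
  unfold zz
  rw [S1a_kin hw]
  simp

theorem S1a_off {x : V} (h : zz x ^ 3 ≠ WW x ^ 2) : x ∉ range curve := fun h' => h (U3 x h')

theorem S1a_wseg : ‖(5 / 2 * Complex.I : ℂ)‖ = 5 / 2 := by
  rw [norm_mul, Complex.norm_I, mul_one]
  norm_num

theorem S1a_seg (s : ℝ) : ((s, 1 + 5 / 2 * Complex.I) : V) ∉ range curve := by
  apply S1a_off
  have h1 : zz (s, 1 + 5 / 2 * Complex.I) = (kout (s, 1 + 5 / 2 * Complex.I) : ℂ) :=
    S1a_zz S1a_wseg
  have h2 : WW (s, 1 + 5 / 2 * Complex.I) = 5 / 2 * Complex.I := by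
    have hX : Xi (s, 1 + 5 / 2 * Complex.I) = 0 := by
      unfold Xi
      rw [if_pos (by simp)]
      simp
    unfold WW
    rw [hX]
    apply Complex.ext <;> simp
  rw [h1, h2]
  intro h3
  have hk : 0 ≤ kout (s, 1 + 5 / 2 * Complex.I) := by
    unfold kout
    exact le_max_of_le_left (S1a_cl_nonneg _)
  have h4 := congrArg Complex.re h3
  rw [mul_pow, Complex.I_sq, ← Complex.ofReal_pow, Complex.ofReal_re] at h4
  have h5 : (((5 / 2 : ℂ)) ^ 2 * -1).re = -25 / 4 := by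
    norm_num
  rw [h5] at h4
  have h6 : 0 ≤ kout (s, 1 + 5 / 2 * Complex.I) ^ 3 := by positivity
  linarith

theorem S1a_uu {w : ℂ} (hw : ‖w‖ = 5 / 2) : uu (0, 1 + w) = (0, w) := by
  have h1 : zz (0, 1 + w) = 0 := by
    rw [S1a_zz hw]
    have : kout (0, 1 + w) = 0 := by
      unfold kout
      have h : ((0, 1 + w) : V).2 - 1 = w := by
        show 1 + w - 1 = w
        ring
      rw [h, hw]
      have e1 : cl (|((0, 1 + w) : V).1| - 1) = 0 := by
        apply S1a_cl_zero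
        simp
      have e2 : cl (5 / 2 - 3 : ℝ) = 0 := by
        apply S1a_cl_zero
        norm_num
      rw [e1, e2, max_self]
    rw [this]
    simp
  have hre : w.re ≤ 5 / 2 := by
    rw [← hw]
    exact Complex.re_le_norm w
  have h2 : Xi (0, 1 + w) = w.re := by
    unfold Xi
    have e0 : ((0, 1 + w) : V).2.re = 1 + w.re := by simp
    split_ifs with h
    · rw [e0]
      ring
    · rw [e0] at h ⊢
      have hr : rho (0, 1 + w) = 10 - (1 + w.re) := by
        unfold rho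
        rw [e0]
        have : ((0, 1 + w) : V).1 ^ 2 + (10 - (1 + w.re)) ^ 2 = (10 - (1 + w.re)) ^ 2 := by
          simp
        rw [this]
        apply Real.sqrt_sq
        linarith
      have hpos : 0 < 10 - (1 + w.re) := by linarith
      rw [hr, div_self hpos.ne', C0_h9 1 (by norm_num)]
      rw [max_eq_right (by linarith)]
      ring
  have h3 : WW (0, 1 + w) = w := by
    unfold WW
    rw [h2]
    apply Complex.ext
    · rfl
    · simp
  unfold uu
  rw [h1, h3]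

theorem S1a_loop {w : ℂ} (hw : ‖w‖ = 5 / 2) : ((0, 1 + w) : V) ∉ range curve := by
  apply S1a_off
  have h := S1a_uu hw
  have h1 : zz (0, 1 + w) = 0 := congrArg Prod.fst h
  have h2 : WW (0, 1 + w) = w := congrArg Prod.snd h
  rw [h1, h2]
  intro h3
  have h4 : w ^ 2 = 0 := by rw [← h3]; ring
  have h5 : w = 0 := by
    rcases pow_eq_zero_iff (two_ne_zero) |>.1 h4 with h
    exact h
  rw [h5, norm_zero] at hw
  norm_num at hw

noncomputable def S1a_w (t : ℝ) : ℂ := 5 / 2 * Complex.I * Complex.exp (2 * Real.pi * t * Complex.I)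

theorem S1a_w_norm (t : ℝ) : ‖S1a_w t‖ = 5 / 2 := by
  unfold S1a_w
  have h : (2 * Real.pi * t * Complex.I : ℂ) = ((2 * Real.pi * t : ℝ) : ℂ) * Complex.I := by
    push_cast
    ring
  rw [norm_mul, S1a_wseg, h, Complex.norm_exp_ofReal_mul_I, mul_one]

theorem S1a_w0 : S1a_w 0 = 5 / 2 * Complex.I := by
  unfold S1a_w
  simp

theorem S1a_w1 : S1a_w 1 = 5 / 2 * Complex.I := by
  unfold S1a_w
  push_cast
  rw [mul_one, Complex.exp_two_pi_mul_I, mul_one]

noncomputable def S1a_q : NC := ⟨(0, 1 + 5 / 2 * Complex.I), S1a_seg 0⟩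

noncomputable def S1a_s (h1 : n1 ∉ range curve) : Path (⟨n1, h1⟩ : NC) S1a_q where
  toFun τ := ⟨(-80 * (1 - (τ : ℝ)), 1 + 5 / 2 * Complex.I), S1a_seg _⟩
  continuous_toFun := by
    apply Continuous.subtype_mk
    exact (continuous_const.mul (continuous_const.sub continuous_subtype_val)).prodMk
      continuous_const
  source' := by
    apply Subtype.ext
    show ((-80 * (1 - ((0 : I) : ℝ)), 1 + 5 / 2 * Complex.I) : V) = n1
    unfold n1
    simp
  target' := by
    apply Subtype.ext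
    show ((-80 * (1 - ((1 : I) : ℝ)), 1 + 5 / 2 * Complex.I) : V) = (0, 1 + 5 / 2 * Complex.I)
    simp

noncomputable def S1a_l : Path S1a_q S1a_q where
  toFun θ := ⟨(0, 1 + S1a_w θ), S1a_loop (S1a_w_norm _)⟩
  continuous_toFun := by
    apply Continuous.subtype_mk
    apply continuous_const.prodMk
    unfold S1a_w
    fun_prop
  source' := by
    apply Subtype.ext
    show ((0, 1 + S1a_w ((0 : I) : ℝ)) : V) = (0, 1 + 5 / 2 * Complex.I)
    rw [Icc.coe_zero, S1a_w0]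
  target' := by
    apply Subtype.ext
    show ((0, 1 + S1a_w ((1 : I) : ℝ)) : V) = (0, 1 + 5 / 2 * Complex.I)
    rw [Icc.coe_one, S1a_w1]

theorem S1a_mem (x : NC) : uu x.1 ∈ BB := fun h => x.2 (U2 x.1 h)

/-- the colouring map on the complement -/
noncomputable def S1a_uN : C(NC, BB) :=
  ⟨fun x => ⟨uu x.1, S1a_mem x⟩, (U1.comp continuous_subtype_val).subtype_mk _⟩

theorem S1a_exp3 : Complex.exp (2 * Real.pi * (1 / 3) * Complex.I) ≠ 1 := by
  intro h
  obtain ⟨n, hn⟩ := Complex.exp_eq_one_iff.1 h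
  have hpi : (2 * Real.pi * Complex.I : ℂ) ≠ 0 := Complex.two_pi_I_ne_zero
  have h1 : (2 * Real.pi * Complex.I : ℂ) * (1 / 3) = (2 * Real.pi * Complex.I) * n := by
    linear_combination hn
  have h2 := mul_left_cancel₀ hpi h1
  have h3 : (3 : ℂ) * n = 1 := by
    rw [← h2]
    norm_num
  have h4 : (3 : ℤ) * n = 1 := by exact_mod_cast h3
  omega

theorem S1a_nofix (l : I → BB) (hl : ∀ θ : I, (l θ).1 = (0, S1a_w θ)) (e : ff ⁻¹' BB) :
    ¬ Fixd pp l e := by
  rintro ⟨Γ, h, h0, h1⟩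
  have he : ff e.1 = (0, S1a_w 0) := by
    have h2 : (pp e).1 = (l 0).1 := by rw [← h0, h 0]
    have h3 : (pp e).1 = ff e.1 := rfl
    rw [← h3, h2, hl]
    rfl
  obtain ⟨⟨z, X⟩, hzX⟩ := e
  have hz : z = 0 := congrArg Prod.fst he
  subst hz
  have hX : (3 * 0 * X - X ^ 3) / 2 = S1a_w 0 := congrArg Prod.snd he
  have hX3 : X ^ 3 = -2 * S1a_w 0 := by linear_combination (-2 : ℂ) * hX
  have hXne : X ≠ 0 := by
    intro h2
    rw [h2, S1a_w0] at hX3
    have h4 : (Complex.I : ℂ) = 0 := by linear_combination (1 / 5 : ℂ) * hX3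
    exact Complex.I_ne_zero h4
  have hE : ∀ θ : ℝ, Complex.exp (2 * Real.pi * (θ / 3) * Complex.I) ^ 3 =
      Complex.exp (2 * Real.pi * θ * Complex.I) := by
    intro θ
    rw [← Complex.exp_nat_mul]
    congr 1
    push_cast
    ring
  have key : ∀ θ : I, ff (0, X * Complex.exp (2 * Real.pi * ((θ : ℝ) / 3) * Complex.I)) =
      (l θ).1 := by
    intro θ
    rw [hl]
    unfold ff
    refine Prod.ext rfl ?_
    show (3 * 0 * (X * Complex.exp (2 * Real.pi * ((θ : ℝ) / 3) * Complex.I)) -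
      (X * Complex.exp (2 * Real.pi * ((θ : ℝ) / 3) * Complex.I)) ^ 3) / 2 = S1a_w θ
    have e1 := hE θ
    rw [mul_pow, e1, hX3, S1a_w0]
    unfold S1a_w
    ring
  let G : C(I, ff ⁻¹' BB) :=
    ⟨fun θ => ⟨(0, X * Complex.exp (2 * Real.pi * ((θ : ℝ) / 3) * Complex.I)), by
      rw [mem_preimage, key]
      exact (l θ).2⟩, by
      apply Continuous.subtype_mk
      fun_prop⟩
  have hG : (fun θ => pp (G θ)) = fun θ => pp (Γ θ) := by
    funext θ
    rw [h θ]
    apply Subtype.ext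
    exact key θ
  have hG0 : G 0 = Γ 0 := by
    rw [h0]
    apply Subtype.ext
    show ((0, X * Complex.exp (2 * Real.pi * (((0 : I) : ℝ) / 3) * Complex.I)) : ℂ × ℂ) = (0, X)
    simp
  have heq := P1.eq_of_comp_eq G.continuous Γ.continuous hG 0 hG0
  have h5 := congrFun heq 1
  rw [h1] at h5
  have h6 : X * Complex.exp (2 * Real.pi * (((1 : I) : ℝ) / 3) * Complex.I) = X :=
    congrArg (fun y : ff ⁻¹' BB => y.1.2) h5
  have h7 : X * (Complex.exp (2 * Real.pi * (1 / 3) * Complex.I) - 1) = 0 := by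
    rw [Icc.coe_one] at h6
    push_cast at h6
    linear_combination h6
  rcases mul_eq_zero.1 h7 with h8 | h8
  · exact hXne h8
  · exact S1a_exp3 (sub_eq_zero.1 h8)

theorem S1a_norm0 : ‖(1 + 5 / 2 * Complex.I : ℂ)‖ ≤ 80 := by
  refine (norm_add_le _ _).trans ?_
  rw [S1a_wseg, norm_one]
  norm_num

theorem S1a (h1 : n1 ∉ range curve) : ∃ a : Path (⟨n1, h1⟩ : NC) ⟨n1, h1⟩,
    (∀ θ, (a θ).1.1 ≤ 0 ∧ ‖(a θ).1.2‖ ≤ 80) ∧
    ∀ l : I → BB, (∀ θ, (l θ).1 = uu (a θ).1) → ∀ e, ¬ Fixd pp l e := by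
  refine ⟨(S1a_s h1).trans (S1a_l.trans (S1a_s h1).symm), ?_, ?_⟩
  · intro θ
    have hs : ∀ t, (S1a_s h1 t).1.1 ≤ 0 ∧ ‖(S1a_s h1 t).1.2‖ ≤ 80 := by
      intro t
      refine ⟨?_, S1a_norm0⟩
      show -80 * (1 - (t : ℝ)) ≤ 0
      have := t.2.2
      linarith
    have hl : ∀ t, (S1a_l t).1.1 ≤ 0 ∧ ‖(S1a_l t).1.2‖ ≤ 80 := by
      intro t
      refine ⟨le_refl _, ?_⟩
      show ‖1 + S1a_w t‖ ≤ 80
      refine (norm_add_le _ _).trans ?_
      rw [S1a_w_norm, norm_one]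
      norm_num
    have hmem : (S1a_s h1).trans (S1a_l.trans (S1a_s h1).symm) θ ∈
        range ((S1a_s h1).trans (S1a_l.trans (S1a_s h1).symm)) := ⟨θ, rfl⟩
    rw [Path.trans_range, Path.trans_range, Path.symm_range] at hmem
    rcases hmem with ⟨t, ht⟩ | ⟨t, ht⟩ | ⟨t, ht⟩
    · rw [← ht]; exact hs t
    · rw [← ht]; exact hl t
    · rw [← ht]; exact hs t
  · intro l hl e he
    have h2 : l = fun θ => S1a_uN ((S1a_s h1).trans (S1a_l.trans (S1a_s h1).symm) θ) := by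
      funext θ
      apply Subtype.ext
      exact hl θ
    have h3 : ((S1a_s h1).trans (S1a_l.trans (S1a_s h1).symm)).map S1a_uN.continuous =
        ((S1a_s h1).map S1a_uN.continuous).trans ((S1a_l.map S1a_uN.continuous).trans
          ((S1a_s h1).map S1a_uN.continuous).symm) := by
      rw [Path.map_trans, Path.map_trans, Path.map_symm]
    have h4 : Fixd pp (((S1a_s h1).map S1a_uN.continuous).trans
        ((S1a_l.map S1a_uN.continuous).trans ((S1a_s h1).map S1a_uN.continuous).symm)) e := by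
      rw [← h3]
      rw [h2] at he
      exact he
    obtain ⟨e', he'⟩ := S0c pp P1 _ _ _ _ ⟨e, h4⟩
    refine S1a_nofix _ ?_ e' he'
    intro θ
    exact S1a_uu (S1a_w_norm θ)

end LK
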