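import Pool.Agent.H64.LK.S1z
import Pool.Agent.H64.LK.S1a
import Pool.Agent.H64.LK.U1
import Pool.Agent.H64.LK.U2

/-!
# S1: a meridian-like circle does not commute with the loop `a` in the complement of the curve

`n1 ∉ range curve` by U3 (as in S1a). `uN : C(NC, BB)`, `x ↦ uu x` (U1, U2). If `z · a ≃ a · z` in `NC`, then mapping by `uN`
the loops `uN ∘ z` and `uN ∘ a` in `BB` commute, contradicting S0 with P1, S1z, S1a.
-/

open scoped ContDiff unitInterval
open Topology Set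

namespace LK

private theorem S1_uu : uu n1 = (1, 5 / 2 * Complex.I) := by
  have hre : (1 + 5 / 2 * Complex.I).re = 1 := by simp
  have him : (1 + 5 / 2 * Complex.I).im = 5 / 2 := by simp
  unfold n1
  rw [S1z_uu (by rw [hre]; norm_num), hre, him]
  refine Prod.ext rfl ?_
  simp

theorem S1n : n1 ∉ range curve := by
  intro h
  have h1 := U3 n1 h
  have h2 : zz n1 = 1 := congrArg Prod.fst S1_uu
  have h3 : WW n1 = 5 / 2 * Complex.I := congrArg Prod.snd S1_uu
  rw [h2, h3] at h1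
  have h4 := congrArg Complex.re h1
  rw [mul_pow, Complex.I_sq] at h4
  norm_num at h4

private theorem S1_mem (x : NC) : uu x.1 ∈ BB := fun h => x.2 (U2 x.1 h)

/-- the colouring map on the complement -/
private noncomputable def S1_uN : C(NC, BB) :=
  ⟨fun x => ⟨uu x.1, S1_mem x⟩, (U1.comp continuous_subtype_val).subtype_mk _⟩

theorem S1 (h1 : n1 ∉ range curve) : ∃ a : Path (⟨n1, h1⟩ : NC) ⟨n1, h1⟩,
    (∀ θ, (a θ).1.1 ≤ 0 ∧ ‖(a θ).1.2‖ ≤ 80) ∧
    ∀ z : Path (⟨n1, h1⟩ : NC) ⟨n1, h1⟩,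
      (∀ θ : I, (z θ).1 = (-80, Complex.exp (2 * Real.pi * θ * Complex.I) *
        (1 + 5 / 2 * Complex.I))) → ¬ (z.trans a).Homotopic (a.trans z) := by
  obtain ⟨a, ha1, ha2⟩ := S1a h1
  refine ⟨a, ha1, fun z hz hcomm => ?_⟩
  have h2 := hcomm.map S1_uN
  rw [Path.map_trans, Path.map_trans] at h2
  refine S0 pp P1 _ (z.map S1_uN.continuous) (a.map S1_uN.continuous) ?_ ?_ h2
  · apply S1z
    intro θ
    show uu (z θ).1 = _
    rw [hz θ]
  · exact ha2 _ (fun θ => rfl)

end LK
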