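import Pool.Agent.H64.LK.Q1
import Pool.Agent.H64.LK.S1

/-!
# Q2: the two twists cannot act in the same way on the loops of the complement of the sum

`M = V ∖ range g`, `p0 = 1 + 5/2 i` (`‖p0‖² = 29/4`), `xinf = (-5/16, p0)`, `x1 = (-5/16, p0/160)`, `A(x) = (x.1/1280 - 1/4, x.2/160)`, `A n1 = x1`.
(1) Every `(-5/16, p)` with `p ≠ 0` is in `M`: if `g t = (-5/16, p)`, `t ≤ 0`, then `(curve u).1 = -80`, so `|u| ≥ 1` (C4_bd: `|u| ≤ 1` gives `|(curve u).1| ≤ 26`),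
`curve u = (u, 0)`, `p = 0`; for `t ≥ 0`, `(curve u).1 = -720`, same. Let `δ : Path xinf x1` in `M`, `δ τ = (-5/16, r(τ) p0)`, `r(τ) = 1 - τ + τ/160`.
(2) `a` from S1 (with S1n). `b = A ∘ a` is a loop at `x1` in `M`: if `A y = g t` with `y ∉ range curve`, `y.1 ≤ 0`: `t ≤ 0`: `y = curve u`, contradiction. `t ≥ 0`,
`u = 1280 (t - 1/4) ≥ -320`: `(curve u).1 = y.1 - 640 ≤ -640`, so `|u| > 1` and `u = (curve u).1 ≤ -640`, contradiction.
(3) `γ = δ · b · δ⁻¹`. Let `δL τ = Tw chL (1, δ τ) = (-5/16, e^{2πi k(τ)} r(τ) p0)`, `k(τ) = chL (δ τ) = cl(2 - 2 r(τ) ‖p0‖)` (`cl(-8 (-5/16)) = cl (5/2) = 1`). `k(0) = 0` as `‖p0‖ ≥ 1`, and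
`k(1) = 1` as `‖p0‖/160 ≤ 1/2`; so `δL` is a path in `M` from `xinf` to `x1`. On `b`: first coordinate `≤ -1/4`, so `cl(-8 s) = 1`,
second of norm `≤ 80/160 = 1/2`, so `chL = 1` and `Tw chL (1, b) = b` (`e^{2πi} = 1`). So `γ1 = δL · b · δL⁻¹` satisfies `γ1 u = Tw chL (1, γ u)`.
All the points of `γ` have first coordinate `≤ 0`, so `chR = 0` and `γ2 = γ` satisfies `γ2 u = Tw chR (1, γ u)`.
(4) By `H`, `δL · b · δL⁻¹ ≃ δ · b · δ⁻¹` in `M`. Apply `q` of Q1: `q ∘ b = a` (first coordinates `≤ -1/4`). With `ε = q ∘ δ`, `η = q ∘ δL`, paths from `q xinf` to `n1`: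
`η · a · η⁻¹ ≃ ε · a · ε⁻¹` in `NC`; so for `z = ε⁻¹ · η`, a loop at `n1`, `z · a ≃ a · z` (groupoid computation).
(5) `z` is homotopic in `NC` to the circle `C θ = (-80, e^{2πiθ} p0)`. Indeed consider `Q(ρ, k) = (-80, ρ e^{2πik} p0)`, `ρ > 0`, `k ∈ ℝ`: points of `NC`
(second coordinate nonzero and first coordinate `-80`, same argument as in (1)). `ε τ = Q(160 r(τ), 0)`, `η τ = Q(160 r(τ), k(τ))`. So `z = Q ∘ z'` with `z'` a path in the convex set
`(0, ∞) × ℝ` from `(1, 0)` to `(1, 1)`, homotopic rel. endpoints (straight line homotopy) to `θ ↦ (1, θ)`, whose image is `C`.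
So `C · a ≃ a · C`, contradiction with S1.
-/

open scoped ContDiff unitInterval
open Topology Set

namespace LK

/-- the point `1 + 5/2 i` -/
noncomputable def Q2_p0 : ℂ := 1 + 5 / 2 * Complex.I

theorem Q2_sq : ‖Q2_p0‖ ^ 2 = 29 / 4 := by
  rw [Complex.sq_norm, Complex.normSq_apply]
  unfold Q2_p0
  simp
  norm_num

theorem Q2_bd : 1 ≤ ‖Q2_p0‖ ∧ ‖Q2_p0‖ ≤ 3 := by
  have h := Q2_sq
  have h0 := norm_nonneg Q2_p0
  constructor <;> nlinarith

theorem Q2_ne : Q2_p0 ≠ 0 := by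
  intro h
  have := Q2_bd.1
  rw [h, norm_zero] at this
  linarith

/-- far from the origin the curve is the axis -/
theorem Q2_far {u : ℝ} (h : 26 < |(curve u).1|) : curve u = (u, 0) := by
  rcases le_total 1 |u| with h1 | h1
  · exact C4_std u h1
  · exfalso
    have h2 := C4_bd u h1
    have h3 := sq_nonneg ‖(curve u).2‖
    have h4 : |(curve u).1| ^ 2 = (curve u).1 ^ 2 := sq_abs _
    nlinarith

theorem Q2_M {g : ℝ → V}
    (hL : ∀ t : ℝ, t ≤ 0 → g t = ((curve (1280 * (t + 1 / 4))).1 / 1280 - 1 / 4,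
      (curve (1280 * (t + 1 / 4))).2 / 160))
    (hR : ∀ t : ℝ, 0 ≤ t → g t = ((curve (1280 * (t - 1 / 4))).1 / 1280 + 1 / 4,
      (curve (1280 * (t - 1 / 4))).2 / 160)) {p : ℂ} (hp : p ≠ 0) :
    ((-5 / 16, p) : V) ∉ range g := by
  rintro ⟨t, ht⟩
  rcases le_total t 0 with h | h
  · rw [hL t h] at ht
    have h1 : (curve (1280 * (t + 1 / 4))).1 / 1280 - 1 / 4 = -5 / 16 := (Prod.mk.inj ht).1
    have h2 : (curve (1280 * (t + 1 / 4))).2 / 160 = p := (Prod.mk.inj ht).2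
    have h3 : (curve (1280 * (t + 1 / 4))).1 = -80 := by linarith
    have h4 := Q2_far (u := 1280 * (t + 1 / 4)) (by rw [h3, abs_neg, abs_of_pos] <;> norm_num)
    apply hp
    rw [← h2, h4]
    simp
  · rw [hR t h] at ht
    have h1 : (curve (1280 * (t - 1 / 4))).1 / 1280 + 1 / 4 = -5 / 16 := (Prod.mk.inj ht).1
    have h2 : (curve (1280 * (t - 1 / 4))).2 / 160 = p := (Prod.mk.inj ht).2
    have h3 : (curve (1280 * (t - 1 / 4))).1 = -720 := by linarith
    have h4 := Q2_far (u := 1280 * (t - 1 / 4)) (by rw [h3, abs_neg, abs_of_pos] <;> norm_num)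
    apply hp
    rw [← h2, h4]
    simp

theorem Q2_A {g : ℝ → V}
    (hL : ∀ t : ℝ, t ≤ 0 → g t = ((curve (1280 * (t + 1 / 4))).1 / 1280 - 1 / 4,
      (curve (1280 * (t + 1 / 4))).2 / 160))
    (hR : ∀ t : ℝ, 0 ≤ t → g t = ((curve (1280 * (t - 1 / 4))).1 / 1280 + 1 / 4,
      (curve (1280 * (t - 1 / 4))).2 / 160)) {y : V} (hy : y ∉ range curve) (h0 : y.1 ≤ 0) :
    ((y.1 / 1280 - 1 / 4, y.2 / 160) : V) ∉ range g := by
  rintro ⟨t, ht⟩
  rcases le_total t 0 with h | h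
  · rw [hL t h] at ht
    have h1 : (curve (1280 * (t + 1 / 4))).1 / 1280 - 1 / 4 = y.1 / 1280 - 1 / 4 :=
      (Prod.mk.inj ht).1
    have h2 : (curve (1280 * (t + 1 / 4))).2 / 160 = y.2 / 160 := (Prod.mk.inj ht).2
    apply hy
    refine ⟨1280 * (t + 1 / 4), Prod.ext (by linarith) ?_⟩
    have h160 : (160 : ℂ) ≠ 0 := by norm_num
    rwa [div_left_inj' h160] at h2
  · rw [hR t h] at ht
    have h1 : (curve (1280 * (t - 1 / 4))).1 / 1280 + 1 / 4 = y.1 / 1280 - 1 / 4 :=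
      (Prod.mk.inj ht).1
    have h3 : (curve (1280 * (t - 1 / 4))).1 = y.1 - 640 := by linarith
    have h4 := Q2_far (u := 1280 * (t - 1 / 4)) (by
      rw [h3, abs_of_neg (by linarith)]
      linarith)
    have h5 : (curve (1280 * (t - 1 / 4))).1 = 1280 * (t - 1 / 4) := by rw [h4]
    linarith

theorem Q2_cl0 {r : ℝ} (h : r ≤ 0) : cl r = 0 := by
  unfold cl
  rw [max_eq_left]
  exact (min_le_right _ _).trans h

theorem Q2_cl1 {r : ℝ} (h : 1 ≤ r) : cl r = 1 := by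
  unfold cl
  rw [min_eq_left h]
  exact max_eq_right zero_le_one

theorem Q2_cl_cont : Continuous cl :=
  continuous_const.max (continuous_const.min continuous_id)

theorem Q2_Tw0 {χ : V → ℝ} {x : V} (h : χ x = 0) : Tw χ (1, x) = x := by
  unfold Tw
  simp [h]

theorem Q2_Tw1 {χ : V → ℝ} {x : V} (h : χ x = 1) : Tw χ (1, x) = x := by
  unfold Tw
  simp [h, Complex.exp_two_pi_mul_I]

theorem Q2_Tb {x : V} (h1 : x.1 ≤ -1 / 4) (h2 : ‖x.2‖ ≤ 1 / 2) : Tw chL (1, x) = x := by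
  apply Q2_Tw1
  unfold chL
  rw [Q2_cl1 (by linarith), Q2_cl1 (by linarith), one_mul]

theorem Q2_TR {x : V} (h1 : x.1 ≤ 0) : Tw chR (1, x) = x := by
  apply Q2_Tw0
  unfold chR
  rw [Q2_cl0 (by linarith), zero_mul]

/-- a pointwise relation passes to concatenations -/
theorem Q2_rel {X Y : Type*} [TopologicalSpace X] [TopologicalSpace Y] {x0 x1 x2 : X}
    {y0 y1 y2 : Y} (R : X → Y → Prop) (p : Path x0 x1) (p' : Path x1 x2) (q : Path y0 y1)
    (q' : Path y1 y2) (h : ∀ u, R (p u) (q u)) (h' : ∀ u, R (p' u) (q' u)) (u : I) :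
    R ((p.trans p') u) ((q.trans q') u) := by
  rw [Path.trans_apply, Path.trans_apply]
  split_ifs
  · exact h _
  · exact h' _

theorem Q2_rel3 {X Y : Type*} [TopologicalSpace X] [TopologicalSpace Y] {x0 x1 : X}
    {y0 y1 : Y} (R : X → Y → Prop) (p : Path x0 x1) (p' : Path x1 x1) (q : Path y0 y1)
    (q' : Path y1 y1) (h : ∀ u, R (p u) (q u)) (h' : ∀ u, R (p' u) (q' u)) (u : I) :
    R ((p.trans (p'.trans p.symm)) u) ((q.trans (q'.trans q.symm)) u) :=
  Q2_rel R _ _ _ _ h (fun u => Q2_rel R _ _ _ _ h' (fun _ => h _) u) u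

theorem Q2_group {X : Type*} [TopologicalSpace X] {x y : X} (ε η : Path x y) (a : Path y y)
    (h : (η.trans (a.trans η.symm)).Homotopic (ε.trans (a.trans ε.symm))) :
    ((ε.symm.trans η).trans a).Homotopic (a.trans (ε.symm.trans η)) := by
  rw [← Path.Homotopic.Quotient.eq] at h ⊢
  simp only [Path.Homotopic.Quotient.mk_trans, Path.Homotopic.Quotient.mk_symm] at h ⊢
  generalize Path.Homotopic.Quotient.mk ε = E at *
  generalize Path.Homotopic.Quotient.mk η = F at *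
  generalize Path.Homotopic.Quotient.mk a = A at *
  calc (E.symm.trans F).trans A = E.symm.trans ((F.trans (A.trans F.symm)).trans F) := by
        rw [Path.Homotopic.Quotient.trans_assoc, Path.Homotopic.Quotient.trans_assoc F,
          Path.Homotopic.Quotient.trans_assoc A, Path.Homotopic.Quotient.symm_trans,
          Path.Homotopic.Quotient.trans_refl]
    _ = E.symm.trans ((E.trans (A.trans E.symm)).trans F) := by rw [h]
    _ = A.trans (E.symm.trans F) := by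
        rw [← Path.Homotopic.Quotient.trans_assoc, ← Path.Homotopic.Quotient.trans_assoc,
          Path.Homotopic.Quotient.symm_trans, Path.Homotopic.Quotient.refl_trans,
          Path.Homotopic.Quotient.trans_assoc]

/-- the path `τ ↦ -τ log 160` -/
noncomputable def Q2_e : Path (0 : ℂ) (-(Real.log 160 : ℝ)) where
  toFun τ := -(((Real.log 160 : ℝ) : ℂ) * ((τ : ℝ) : ℂ))
  continuous_toFun := by fun_prop
  source' := by simp
  target' := by simp

/-- the arc -/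
noncomputable def Q2_W (w : ℂ) : V := (-5 / 16, Complex.exp w * Q2_p0)

theorem Q2_Wc : Continuous Q2_W := by
  unfold Q2_W
  fun_prop

theorem Q2_W0 : Q2_W 0 = xinf := by
  unfold Q2_W xinf Q2_p0
  rw [Complex.exp_zero, one_mul]

theorem Q2_exp : Complex.exp (-(Real.log 160 : ℝ)) = 1 / 160 := by
  rw [Complex.exp_neg, ← Complex.ofReal_exp, Real.exp_log (by norm_num)]
  norm_num

theorem Q2_W1 : Q2_W (-(Real.log 160 : ℝ)) = x1 := by
  unfold Q2_W x1 Q2_p0
  rw [Q2_exp]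
  ext
  · rfl
  · simp only
    ring

theorem Q2_Wp (w : ℂ) : Q2_W (w + 2 * Real.pi * Complex.I) = Q2_W w := by
  unfold Q2_W
  rw [Complex.exp_periodic w]

theorem Q2_chLc : Continuous chL := by
  unfold chL
  exact (Q2_cl_cont.comp (by fun_prop)).mul (Q2_cl_cont.comp (by fun_prop))

theorem Q2_ch0 : chL xinf = 0 := by
  unfold chL
  have h : ‖xinf.2‖ = ‖Q2_p0‖ := rfl
  rw [h, Q2_cl0 (r := 2 - 2 * ‖Q2_p0‖) (by linarith [Q2_bd.1]), mul_zero]

theorem Q2_ch1 : chL x1 = 1 := by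
  unfold chL
  have h : ‖x1.2‖ = ‖Q2_p0‖ / 160 := by
    unfold x1 Q2_p0
    rw [norm_div]
    norm_num
  have h1 : x1.1 = -5 / 16 := rfl
  rw [h, h1, Q2_cl1 (by norm_num), Q2_cl1 (by linarith [Q2_bd.2]), one_mul]

/-- the twisted path in the plane -/
noncomputable def Q2_h : Path (0 : ℂ) (-(Real.log 160 : ℝ) + 2 * Real.pi * Complex.I) where
  toFun τ := Q2_e τ + 2 * Real.pi * (chL (Q2_W (Q2_e τ)) : ℂ) * Complex.I
  continuous_toFun := by
    have h1 : Continuous fun τ : I => chL (Q2_W (Q2_e τ)) :=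
      Q2_chLc.comp (Q2_Wc.comp Q2_e.continuous)
    have h2 : Continuous fun τ : I => Q2_e τ := Q2_e.continuous
    fun_prop
  source' := by
    rw [Q2_e.source, Q2_W0, Q2_ch0]
    simp
  target' := by
    rw [Q2_e.target, Q2_W1, Q2_ch1]
    simp

theorem Q2_hW (τ : I) : Q2_W (Q2_h τ) = Tw chL (1, Q2_W (Q2_e τ)) := by
  show Q2_W (Q2_e τ + 2 * Real.pi * (chL (Q2_W (Q2_e τ)) : ℂ) * Complex.I) = _
  unfold Tw
  ext
  · rfl
  · show Complex.exp (Q2_e τ + 2 * Real.pi * (chL (Q2_W (Q2_e τ)) : ℂ) * Complex.I) * Q2_p0 =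
      Complex.exp (2 * Real.pi * (((1 : ℝ) : ℂ) * (chL (Q2_W (Q2_e τ)) : ℂ)) * Complex.I) *
        (Complex.exp (Q2_e τ) * Q2_p0)
    rw [Complex.ofReal_one, one_mul, Complex.exp_add]
    ring

/-- the straight path in the plane -/
noncomputable def Q2_c : Path (-(Real.log 160 : ℝ) : ℂ)
    (-(Real.log 160 : ℝ) + 2 * Real.pi * Complex.I) where
  toFun τ := -(Real.log 160 : ℝ) + 2 * Real.pi * ((τ : ℝ) : ℂ) * Complex.I
  continuous_toFun := by fun_prop
  source' := by simp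
  target' := by simp

theorem Q2 (g : ℝ → V)
    (hL : ∀ t : ℝ, t ≤ 0 → g t = ((curve (1280 * (t + 1 / 4))).1 / 1280 - 1 / 4,
      (curve (1280 * (t + 1 / 4))).2 / 160))
    (hR : ∀ t : ℝ, 0 ≤ t → g t = ((curve (1280 * (t - 1 / 4))).1 / 1280 + 1 / 4,
      (curve (1280 * (t - 1 / 4))).2 / 160))
    (hx : xinf ∉ range g)
    (H : ∀ γ γ1 γ2 : Path (⟨xinf, hx⟩ : {x : V // x ∉ range g}) ⟨xinf, hx⟩,
      (∀ u, (γ1 u).1 = Tw chL (1, (γ u).1)) → (∀ u, (γ2 u).1 = Tw chR (1, (γ u).1)) →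
      γ1.Homotopic γ2) : False := by
  have h1 : n1 ∉ range curve := S1n
  obtain ⟨a, ha, hz⟩ := S1 h1
  obtain ⟨q, hq⟩ := Q1 g hL hR
  have hM : ∀ w : ℂ, Q2_W w ∉ range g := fun w =>
    Q2_M hL hR (mul_ne_zero (Complex.exp_ne_zero w) Q2_ne)
  have hx1 : x1 ∉ range g := by
    rw [← Q2_W1]
    exact hM _
  -- the map `W`
  obtain ⟨W, hW⟩ : ∃ W : C(ℂ, {x : V // x ∉ range g}), ∀ w, (W w).1 = Q2_W w :=
    ⟨⟨fun w => ⟨Q2_W w, hM w⟩, Q2_Wc.subtype_mk _⟩, fun _ => rfl⟩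
  have e0 : (⟨xinf, hx⟩ : {x : V // x ∉ range g}) = W 0 :=
    Subtype.ext (by rw [hW, Q2_W0])
  have e1 : (⟨x1, hx1⟩ : {x : V // x ∉ range g}) = W (-(Real.log 160 : ℝ)) :=
    Subtype.ext (by rw [hW, Q2_W1])
  have e1' : (⟨x1, hx1⟩ : {x : V // x ∉ range g}) =
      W (-(Real.log 160 : ℝ) + 2 * Real.pi * Complex.I) :=
    Subtype.ext (by rw [hW, Q2_Wp, Q2_W1])
  -- the paths
  obtain ⟨δ, hδ⟩ : ∃ δ : Path (⟨xinf, hx⟩ : {x : V // x ∉ range g}) ⟨x1, hx1⟩,
      ∀ τ, δ τ = W (Q2_e τ) := ⟨(Q2_e.map W.continuous).cast e0 e1, fun _ => rfl⟩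
  obtain ⟨δL, hδL⟩ : ∃ δ : Path (⟨xinf, hx⟩ : {x : V // x ∉ range g}) ⟨x1, hx1⟩,
      ∀ τ, δ τ = W (Q2_h τ) := ⟨(Q2_h.map W.continuous).cast e0 e1', fun _ => rfl⟩
  have en : (n1.1 / 1280 - 1 / 4, n1.2 / 160) = x1 := by
    unfold n1 x1
    ext
    · norm_num
    · rfl
  obtain ⟨b, hb⟩ : ∃ b : Path (⟨x1, hx1⟩ : {x : V // x ∉ range g}) ⟨x1, hx1⟩,
      ∀ θ, (b θ).1 = ((a θ).1.1 / 1280 - 1 / 4, (a θ).1.2 / 160) := by
    refine ⟨{ toFun := fun θ => ⟨((a θ).1.1 / 1280 - 1 / 4, (a θ).1.2 / 160),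
                Q2_A hL hR (a θ).2 (ha θ).1⟩
              continuous_toFun := ?_
              source' := ?_
              target' := ?_ }, fun _ => rfl⟩
    · apply Continuous.subtype_mk
      have h2 : Continuous fun θ : I => (a θ).1 := continuous_subtype_val.comp a.continuous
      exact ((continuous_fst.comp h2).div_const _ |>.sub continuous_const).prodMk
        ((continuous_snd.comp h2).div_const _)
    · apply Subtype.ext
      simp only [a.source]
      exact en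
    · apply Subtype.ext
      simp only [a.target]
      exact en
  have hb1 : ∀ θ, (b θ).1.1 ≤ -1 / 4 := by
    intro θ
    rw [hb]
    have := (ha θ).1
    show (a θ).1.1 / 1280 - 1 / 4 ≤ -1 / 4
    linarith
  have hb2 : ∀ θ, ‖(b θ).1.2‖ ≤ 1 / 2 := by
    intro θ
    rw [hb]
    have := (ha θ).2
    show ‖(a θ).1.2 / 160‖ ≤ 1 / 2
    rw [norm_div, show ‖(160 : ℂ)‖ = 160 by norm_num]
    linarith
  -- the homotopy
  have key : (δL.trans (b.trans δL.symm)).Homotopic (δ.trans (b.trans δ.symm)) := by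
    apply H (δ.trans (b.trans δ.symm)) (δL.trans (b.trans δL.symm)) (δ.trans (b.trans δ.symm))
    · apply Q2_rel3 (fun x y : {x : V // x ∉ range g} => x.1 = Tw chL (1, y.1))
      · intro u
        rw [hδ, hδL, hW, hW, Q2_hW]
      · intro u
        exact (Q2_Tb (hb1 u) (hb2 u)).symm
    · apply Q2_rel3 (fun x y : {x : V // x ∉ range g} => x.1 = Tw chR (1, y.1))
      · intro u
        rw [Q2_TR]
        rw [hδ, hW]
        show (-5 / 16 : ℝ) ≤ 0
        norm_num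
      · intro u
        rw [Q2_TR]
        linarith [hb1 u]
  -- apply `q`
  have hqW : ∀ w, (q (W w)).1 = (-80, 160 * (Complex.exp w * Q2_p0)) := by
    intro w
    have h2 : (W w).1.1 = -5 / 16 := by rw [hW]; rfl
    have h3 : (W w).1.2 = Complex.exp w * Q2_p0 := by rw [hW]; rfl
    rw [hq (W w) (by rw [h2]; norm_num), h2, h3]
    norm_num
  have hqb : ∀ θ, q (b θ) = a θ := by
    intro θ
    apply Subtype.ext
    rw [hq (b θ) (by linarith [hb1 θ]), hb]
    ext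
    · show 1280 * ((a θ).1.1 / 1280 - 1 / 4 + 1 / 4) = (a θ).1.1
      ring
    · show 160 * ((a θ).1.2 / 160) = (a θ).1.2
      field_simp
  have eq1 : (⟨n1, h1⟩ : NC) = q ⟨x1, hx1⟩ := by
    have h2 := hqb 0
    rw [a.source, b.source] at h2
    exact h2.symm
  obtain ⟨ε, hε⟩ : ∃ ε : Path (q ⟨xinf, hx⟩) (⟨n1, h1⟩ : NC), ∀ τ, ε τ = q (δ τ) :=
    ⟨(δ.map q.continuous).cast rfl eq1, fun _ => rfl⟩
  obtain ⟨η, hη⟩ : ∃ η : Path (q ⟨xinf, hx⟩) (⟨n1, h1⟩ : NC), ∀ τ, η τ = q (δL τ) :=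
    ⟨(δL.map q.continuous).cast rfl eq1, fun _ => rfl⟩
  have key2 : (η.trans (a.trans η.symm)).Homotopic (ε.trans (a.trans ε.symm)) := by
    have h2 := key.map q
    have h3 : (δL.trans (b.trans δL.symm)).map q.continuous = η.trans (a.trans η.symm) := by
      ext1
      funext u
      exact Q2_rel3 (fun x y => q x = y) δL b η a (fun u => (hη u).symm) hqb u
    have h4 : (δ.trans (b.trans δ.symm)).map q.continuous = ε.trans (a.trans ε.symm) := by
      ext1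
      funext u
      exact Q2_rel3 (fun x y => q x = y) δ b ε a (fun u => (hε u).symm) hqb u
    rw [h3, h4] at h2
    exact h2
  have key3 := Q2_group ε η a key2
  -- the circle
  have f0 : (⟨n1, h1⟩ : NC) = q (W (-(Real.log 160 : ℝ))) := by rw [← e1]; exact eq1
  have f1 : (⟨n1, h1⟩ : NC) = q (W (-(Real.log 160 : ℝ) + 2 * Real.pi * Complex.I)) := by
    rw [← e1']; exact eq1
  obtain ⟨C, hC⟩ : ∃ C : Path (⟨n1, h1⟩ : NC) ⟨n1, h1⟩, C =
      (Q2_c.map (q.comp W).continuous).cast f0 f1 := ⟨_, rfl⟩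
  have hCz : (ε.symm.trans η).Homotopic C := by
    have h2 : (Q2_e.symm.trans Q2_h).Homotopic Q2_c := SimplyConnectedSpace.paths_homotopic _ _
    have h3 := (h2.map (q.comp W)).pathCast f0 f1
    rw [← hC] at h3
    have h4 : ((Q2_e.symm.trans Q2_h).map (q.comp W).continuous).cast f0 f1 =
        ε.symm.trans η := by
      ext1
      funext u
      refine Q2_rel (fun x y => q (W x) = y) Q2_e.symm Q2_h ε.symm η ?_ ?_ u
      · intro u
        show _ = ε (unitInterval.symm u)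
        rw [hε, hδ]
        rfl
      · intro u
        rw [hη, hδL]
    rw [h4] at h3
    exact h3
  refine hz C ?_ (((hCz.symm.hcomp (Path.Homotopic.refl a)).trans key3).trans
    ((Path.Homotopic.refl a).hcomp hCz))
  intro θ
  rw [hC]
  show (q (W (Q2_c θ))).1 = _
  rw [hqW]
  ext
  · rfl
  · show 160 * (Complex.exp (-(Real.log 160 : ℝ) + 2 * Real.pi * ((θ : ℝ) : ℂ) * Complex.I) *
      Q2_p0) = _
    rw [Complex.exp_add, Q2_exp]
    unfold Q2_p0
    ring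

end LK
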