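import Pool.Agent.H64.LK.Defs

/-!
# R4: the square

`G : C(I × I, X)` with `G(s, 0) = G(s, 1)` for all `s` and all four corners equal to `x`. Put
`α θ = G(0, θ)`, `α' θ = G(1, θ)`, `β s = G(s, 0) = G(s, 1)`, loops at `x`. The square gives
`α · β ≃ β · α'` (both boundary paths of the square from (0,0) to (1,1): `α · G(·, 1)` and
`G(·, 0) · α'`). If the fundamental group at `x` is abelian then `β · α' ≃ α' · β`, and cancelling `β` we
get `α ≃ α'`.
(The two boundary paths in the convex set `I × I` are homotopic by the straight line homotopy; map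
it by `G`. Cancellation: in `Path.Homotopic.Quotient`/fundamental groupoid.)
-/

open scoped ContDiff unitInterval
open Topology Set

namespace LK

theorem R4_contractible : ContractibleSpace (I × I) := by
  have : ContractibleSpace I := (convex_Icc (0 : ℝ) 1).contractibleSpace ⟨0, by simp⟩
  infer_instance

/-- Homotopy of paths depends only on the underlying functions. -/
theorem R4_cast {X : Type*} [TopologicalSpace X] {a b x y : X} {p q : Path a b} {p' q' : Path x y}
    (ha : a = x) (hb : b = y) (hp : ∀ t, p' t = p t) (hq : ∀ t, q' t = q t)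
    (h : p.Homotopic q) : p'.Homotopic q' := by
  subst ha; subst hb
  have h1 : p' = p := Path.ext (funext hp)
  have h2 : q' = q := Path.ext (funext hq)
  rw [h1, h2]
  exact h

/-- Cancellation. -/
theorem R4_cancel {X : Type*} [TopologicalSpace X] {x y z : X} {p q : Path x y} {r : Path y z}
    (h : (p.trans r).Homotopic (q.trans r)) : p.Homotopic q := by
  have h1 : ∀ p : Path x y, p.Homotopic ((p.trans r).trans r.symm) := fun p =>
    (Path.Homotopic.symm ⟨Path.Homotopy.transRefl p⟩).trans
      ((Path.Homotopic.hcomp (Path.Homotopic.refl p) ⟨Path.Homotopy.reflTransSymm r⟩).trans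
        (Path.Homotopic.symm ⟨Path.Homotopy.transAssoc p r r.symm⟩))
  exact (h1 p).trans ((Path.Homotopic.hcomp h (Path.Homotopic.refl _)).trans (h1 q).symm)

theorem R4_square {X : Type*} [TopologicalSpace X] (x : X) (G : C(I × I, X))
    (h01 : ∀ s, G (s, 0) = G (s, 1)) (α α' β : Path x x) (hα : ∀ θ, α θ = G (0, θ))
    (hα' : ∀ θ, α' θ = G (1, θ)) (hβ : ∀ s, β s = G (s, 0)) :
    (α.trans β).Homotopic (β.trans α') := by
  have := R4_contractible
  let a0 : Path ((0 : I), (0 : I)) (0, 1) :=
    { toFun := fun t => (0, t), source' := rfl, target' := rfl }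
  let a1 : Path ((1 : I), (0 : I)) (1, 1) :=
    { toFun := fun t => (1, t), source' := rfl, target' := rfl }
  let b0 : Path ((0 : I), (0 : I)) (1, 0) :=
    { toFun := fun t => (t, 0), source' := rfl, target' := rfl }
  let b1 : Path ((0 : I), (1 : I)) (1, 1) :=
    { toFun := fun t => (t, 1), source' := rfl, target' := rfl }
  have h : (a0.trans b1).Homotopic (b0.trans a1) := SimplyConnectedSpace.paths_homotopic _ _
  have h00 : G (0, 0) = x := by rw [← hα]; exact α.source
  have h11 : G (1, 1) = x := by rw [← hα']; exact α'.target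
  refine R4_cast h00 h11 ?_ ?_ (h.map G)
  · intro t
    rw [Path.map_coe, Function.comp_apply, Path.trans_apply, Path.trans_apply]
    split_ifs with ht
    · exact hα _
    · exact (hβ _).trans (h01 _)
  · intro t
    rw [Path.map_coe, Function.comp_apply, Path.trans_apply, Path.trans_apply]
    split_ifs with ht
    · exact hβ _
    · exact hα' _

theorem R4 {X : Type*} [TopologicalSpace X] (x : X) (G : C(I × I, X))
    (h01 : ∀ s, G (s, 0) = G (s, 1)) (α α' β : Path x x) (hα : ∀ θ, α θ = G (0, θ))
    (hα' : ∀ θ, α' θ = G (1, θ)) (hβ : ∀ s, β s = G (s, 0)) (hab : AbAt x) :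
    α.Homotopic α' :=
  R4_cancel ((R4_square x G h01 α α' β hα hα' hβ).trans (hab β α'))

end LK
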