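import Pool.Agent.H64.LK.Defs

/-!
# K0: a long knot of the model gives a long knot

Proof. smooth: composition with the continuous linear `toE`. immersed: `deriv (toE ∘ g) t =
toE (deriv g t)` and `toE` is injective. standard: `toE_axis`. inBall: `norm_toE_sq`. embedded: `toE` is a
homeomorphism, so it suffices that `g` (or `toE ∘ g`) is a closed embedding: it is continuous, injective, and
proper: it tends to infinity (cocompact) because `‖toE (g t)‖ = |t|` for `|t| ≥ 1`; a continuous
injective proper map is a closed embedding (`isProperMap_iff_tendsto_cocompact`,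
`IsProperMap.isClosedMap`, `Topology.IsClosedEmbedding.of_continuous_injective_isClosedMap`).
-/

open scoped ContDiff unitInterval
open Topology Set

namespace LK

theorem K0 {g : ℝ → V} (hg : VKnot g) : IsLongKnot 3 (fun t => toE (g t)) := by
  have hc : Continuous (fun t => toE (g t)) := toE.continuous.comp hg.smooth.continuous
  have hnorm : ∀ t : ℝ, 1 ≤ |t| → ‖toE (g t)‖ = ‖t‖ := by
    intro t ht
    have h1 := norm_toE_sq (g t)
    rw [hg.standard t ht] at h1 ⊢
    simp only [norm_zero] at h1
    have h2 : ‖toE ((t, 0) : V)‖ ^ 2 = ‖t‖ ^ 2 := by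
      rw [h1, Real.norm_eq_abs, sq_abs]
      ring
    exact (pow_left_inj₀ (norm_nonneg _) (norm_nonneg _) two_ne_zero).1 h2
  refine ⟨toE.contDiff.comp hg.smooth, ?_, ?_, ?_, ?_⟩
  · intro t
    have h1 : HasDerivAt (fun t => toE (g t)) (toE (deriv g t)) t :=
      (toE : V →L[ℝ] E 3).hasFDerivAt.comp_hasDerivAt t
        ((hg.smooth.differentiable (by simp)) t).hasDerivAt
    rw [h1.deriv]
    intro h2
    exact hg.immersed t (toE.map_eq_zero_iff.1 h2)
  · have hprop : IsProperMap (fun t => toE (g t)) := by
      rw [isProperMap_iff_tendsto_cocompact]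
      refine ⟨hc, ?_⟩
      rw [← Metric.cobounded_eq_cocompact (α := E 3), ← tendsto_norm_atTop_iff_cobounded]
      refine (tendsto_norm_cocompact_atTop (E := ℝ)).congr' ?_
      have h1 : ∀ᶠ t : ℝ in Filter.cocompact ℝ, 1 ≤ ‖t‖ :=
        (tendsto_norm_cocompact_atTop (E := ℝ)).eventually_ge_atTop 1
      filter_upwards [h1] with t ht
      exact (hnorm t ht).symm
    exact (IsClosedEmbedding.of_continuous_injective_isClosedMap hc
      (toE.injective.comp hg.inj) hprop.isClosedMap).isEmbedding
  · intro t ht
    simp only [hg.standard t ht]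
    exact toE_axis t
  · intro t ht
    have h1 := norm_toE_sq (g t)
    have h2 := hg.inBall t ht
    have h3 : 0 ≤ ‖toE (g t)‖ := norm_nonneg _
    nlinarith

/-- The long knot attached to a long knot of the model. -/
noncomputable def mkK {g : ℝ → V} (hg : VKnot g) : LongKnot 3 := ⟨fun t => toE (g t), K0 hg⟩

end LK
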