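import Pool.Agent.H64.LK.CDefs

/-!
# W1: the two rotation paths are realised by the twists; description of the sum

`Tw χ (θ, x) = (x.1, exp(2πi θ χ(x)) x.2)`.

(a) continuity of `Tw chL`, `Tw chR`; inverse: `chL`, `chR` only depend on `x.1` and `‖x.2‖`, which are preserved by
`Tw`, so `Tw χ (-θ, Tw χ (θ, x)) = x`. `Tw χ (0, x) = x`.
(b) For `t ≤ 0`, `TT F (0, 0) (t, 0) = Lmap (-1/4) (c (8 (t + 1/4)))`: `Linv (1/4) (t, 0) = (8 (t - 1/4), 0)` has first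
coordinate `≤ -2`, so `F` fixes it and `cj F (1/4) 0 (t, 0) = (t, 0)`; then
`cj F (-1/4) 0 (t, 0) = Lmap (-1/4) (F (8 (t + 1/4), 0))` (`rot 0 = id`). For `t ≥ 0`: `y = cj F (1/4) 0 (t, 0) = Lmap (1/4) (c (8 (t - 1/4)))` satisfies
`y.1 ≥ 0` (if `|8 (t - 1/4)| ≤ 1`, `box` gives `y.1 ≥ 1/8`; otherwise `y = (t, 0)`), so
`Linv (-1/4) y` has first coordinate `≥ 2` and `cj F (-1/4) 0 y = y`.
(c) `TT F (0, θ) (t, 0) = Tw chL (θ, TT F (0, 0) (t, 0))`. For `t ≥ 0` both sides are `y` of (b): left: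
`cj F (-1/4) θ y = y` since `rot` preserves the first coordinate; right: `chL y = 0` as `y.1 ≥ 0`. For `t ≤ 0`: left:
`rot (-θ) (t, 0) = (t, 0)`, so it is `rot θ z` with `z = Lmap (-1/4) (c (8 (t + 1/4)))`; right:
if `|8 (t + 1/4)| ≤ 1` then by `box` `z.1 ∈ [-3/8, -1/8]`, `‖z.2‖ ≤ 1/2`, so `chL z = 1` and `Tw = rot θ z`; otherwise
`z = (t, 0)` and both sides are `(t, 0)`.
(d) `TT F (1, θ) (t, 0) = Tw chR (θ, TT F (0, 0) (t, 0))`: `TT F (1, θ) = cj F (1/4) θ ∘ cj F (-1/4) 0`. For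
`t ≤ 0`: `z = cj F (-1/4) 0 (t, 0) = Lmap (-1/4) (c (8(t + 1/4)))` has `z.1 ≤ 0`, so `cj F (1/4) θ z = z`
and `chR z = 0`, and by (b) `TT F (0,0) (t,0) = z`. For `t ≥ 0`: `cj F (-1/4) 0 (t, 0) = (t, 0)`, then
`rot θ y` with `y` of (b), and `chR y = 1` if `|8 (t - 1/4)| ≤ 1`, else `y = (t, 0)`.
-/

open scoped ContDiff unitInterval
open Topology Set

namespace LK

theorem W1_norm_exp (r : ℝ) : ‖Complex.exp (2 * Real.pi * (r : ℂ) * Complex.I)‖ = 1 := by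
  have h : (2 * Real.pi * (r : ℂ) * Complex.I) = ((2 * Real.pi * r : ℝ) : ℂ) * Complex.I := by
    push_cast
    ring
  rw [h, Complex.norm_exp_ofReal_mul_I]

theorem W1_rot_zero (x : V) : rot 0 x = x := by
  simp [rot]

theorem W1_rot_axis (θ t : ℝ) : rot θ (t, 0) = (t, 0) := by
  simp [rot]

theorem W1_rot_rot (θ : ℝ) (x : V) : rot θ (rot (-θ) x) = x := by
  have h : Complex.exp (2 * Real.pi * (θ : ℂ) * Complex.I) *
      (Complex.exp (2 * Real.pi * ((-θ : ℝ) : ℂ) * Complex.I) * x.2) = x.2 := by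
    rw [← mul_assoc, ← Complex.exp_add]
    have : (2 * Real.pi * (θ : ℂ) * Complex.I) + (2 * Real.pi * ((-θ : ℝ) : ℂ) * Complex.I) = 0 := by
      push_cast
      ring
    rw [this, Complex.exp_zero, one_mul]
  unfold rot
  exact Prod.ext rfl h

theorem W1_Lmap_Linv (a : ℝ) (x : V) : Lmap a (Linv a x) = x := by
  unfold Lmap Linv
  refine Prod.ext ?_ rfl
  simp only
  ring

theorem W1_cj_std {c : ℝ → V} {F : V → V} (hF : Fat c F) (a θ : ℝ) (x : V)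
    (h : 1 ≤ |8 * (x.1 - a)|) : cj F a θ x = x := by
  unfold cj
  rw [hF.std (Linv a (rot (-θ) x)) h, W1_Lmap_Linv, W1_rot_rot]

theorem W1_cj_axis {c : ℝ → V} {F : V → V} (hF : Fat c F) (a θ t : ℝ) :
    cj F a θ (t, 0) = rot θ (Lmap a (c (8 * (t - a)))) := by
  unfold cj
  rw [W1_rot_axis]
  have : Linv a ((t, 0) : V) = (8 * (t - a), 0) := rfl
  rw [this, hF.core]

theorem W1_axis_mem (s : ℝ) : ((s, 0) : V) ∈ tube := by
  simp [tube]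

theorem W1_c_std {c : ℝ → V} {F : V → V} (hF : Fat c F) (s : ℝ) (h : 1 ≤ |s|) : c s = (s, 0) := by
  rw [← hF.core]
  exact hF.std _ h

theorem W1_c_box {c : ℝ → V} {F : V → V} (hF : Fat c F) (s : ℝ) (h : |s| ≤ 1) :
    |(c s).1| ≤ 1 ∧ ‖(c s).2‖ ≤ 1 / 2 := by
  rw [← hF.core]
  exact hF.box _ (W1_axis_mem s) h

theorem W1_cont (χ : V → ℝ) (hχ : Continuous χ) : Continuous (Tw χ) := by
  unfold Tw
  fun_prop

theorem W1_cl : Continuous cl := by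
  unfold cl
  fun_prop

theorem W1_chL : Continuous chL := by
  have := W1_cl
  unfold chL
  fun_prop

theorem W1_chR : Continuous chR := by
  have := W1_cl
  unfold chR
  fun_prop

theorem W1_Tw_fst (χ : V → ℝ) (θ : ℝ) (x : V) : (Tw χ (θ, x)).1 = x.1 := rfl

theorem W1_Tw_snd (χ : V → ℝ) (θ : ℝ) (x : V) : ‖(Tw χ (θ, x)).2‖ = ‖x.2‖ := by
  unfold Tw
  simp only
  have h := W1_norm_exp (θ * χ x)
  rw [Complex.ofReal_mul] at h
  rw [norm_mul, h, one_mul]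

theorem W1_inv (χ : V → ℝ) (θ : ℝ) (x : V) (h : χ (Tw χ (θ, x)) = χ x) :
    Tw χ (-θ, Tw χ (θ, x)) = x := by
  refine Prod.ext rfl ?_
  show Complex.exp (2 * Real.pi * (((-θ : ℝ) : ℂ) * (χ (Tw χ (θ, x)) : ℂ)) * Complex.I) *
    (Complex.exp (2 * Real.pi * ((θ : ℂ) * (χ x : ℂ)) * Complex.I) * x.2) = x.2
  rw [h, ← mul_assoc, ← Complex.exp_add]
  have : (2 * Real.pi * (((-θ : ℝ) : ℂ) * (χ x : ℂ)) * Complex.I) +
      (2 * Real.pi * ((θ : ℂ) * (χ x : ℂ)) * Complex.I) = 0 := by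
    push_cast
    ring
  rw [this, Complex.exp_zero, one_mul]

theorem W1_invL (θ : ℝ) (x : V) : Tw chL (-θ, Tw chL (θ, x)) = x := by
  refine W1_inv _ _ _ ?_
  show cl (-8 * (Tw chL (θ, x)).1) * cl (2 - 2 * ‖(Tw chL (θ, x)).2‖) = _
  rw [W1_Tw_fst, W1_Tw_snd]
  rfl

theorem W1_invR (θ : ℝ) (x : V) : Tw chR (-θ, Tw chR (θ, x)) = x := by
  refine W1_inv _ _ _ ?_
  show cl (8 * (Tw chR (θ, x)).1) * cl (2 - 2 * ‖(Tw chR (θ, x)).2‖) = _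
  rw [W1_Tw_fst, W1_Tw_snd]
  rfl

theorem W1_cl_one {r : ℝ} (h : 1 ≤ r) : cl r = 1 := by
  unfold cl
  rw [min_eq_left h]
  norm_num

theorem W1_cl_zero {r : ℝ} (h : r ≤ 0) : cl r = 0 := by
  unfold cl
  rw [min_eq_right (by linarith), max_eq_left h]

theorem W1_Tw_zero (χ : V → ℝ) (θ : ℝ) (x : V) (h : χ x = 0) : Tw χ (θ, x) = x := by
  refine Prod.ext rfl ?_
  show Complex.exp (2 * Real.pi * ((θ : ℂ) * (χ x : ℂ)) * Complex.I) * x.2 = x.2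
  rw [h]
  simp

theorem W1_Tw_one (χ : V → ℝ) (θ : ℝ) (x : V) (h : χ x = 1) : Tw χ (θ, x) = rot θ x := by
  refine Prod.ext rfl ?_
  show Complex.exp (2 * Real.pi * ((θ : ℂ) * (χ x : ℂ)) * Complex.I) * x.2 =
    Complex.exp (2 * Real.pi * (θ : ℂ) * Complex.I) * x.2
  rw [h]
  simp

theorem W1_Tw_axis (χ : V → ℝ) (θ t : ℝ) : Tw χ (θ, ((t, 0) : V)) = (t, 0) := by
  refine Prod.ext rfl ?_
  show _ * (0 : ℂ) = 0
  rw [mul_zero]

theorem W1_TT0 (F : V → V) (θ : ℝ) (x : V) :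
    TT F (0, θ) x = cj F (-1 / 4) θ (cj F (1 / 4) 0 x) := by
  unfold TT
  norm_num

theorem W1_TT1 (F : V → V) (θ : ℝ) (x : V) :
    TT F (1, θ) x = cj F (1 / 4) θ (cj F (-1 / 4) 0 x) := by
  unfold TT
  norm_num

/-- the left summand lies in the left half space -/
theorem W1_zneg {c : ℝ → V} {F : V → V} (hF : Fat c F) (t : ℝ) (ht : t ≤ 0) :
    (Lmap (-1 / 4) (c (8 * (t + 1 / 4)))).1 ≤ 0 ∧
      (|8 * (t + 1 / 4)| ≤ 1 → (Lmap (-1 / 4) (c (8 * (t + 1 / 4)))).1 ≤ -1 / 8 ∧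
        ‖(Lmap (-1 / 4) (c (8 * (t + 1 / 4)))).2‖ ≤ 1 / 2) ∧
      (1 ≤ |8 * (t + 1 / 4)| → Lmap (-1 / 4) (c (8 * (t + 1 / 4))) = (t, 0)) := by
  have h1 : |8 * (t + 1 / 4)| ≤ 1 → (Lmap (-1 / 4) (c (8 * (t + 1 / 4)))).1 ≤ -1 / 8 ∧
      ‖(Lmap (-1 / 4) (c (8 * (t + 1 / 4)))).2‖ ≤ 1 / 2 := by
    intro h
    obtain ⟨h2, h3⟩ := W1_c_box hF _ h
    refine ⟨?_, h3⟩
    show (c (8 * (t + 1 / 4))).1 / 8 + -1 / 4 ≤ -1 / 8
    have := (abs_le.1 h2).2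
    linarith
  have h2 : 1 ≤ |8 * (t + 1 / 4)| → Lmap (-1 / 4) (c (8 * (t + 1 / 4))) = (t, 0) := by
    intro h
    rw [W1_c_std hF _ h]
    refine Prod.ext ?_ rfl
    show 8 * (t + 1 / 4) / 8 + -1 / 4 = t
    ring
  refine ⟨?_, h1, h2⟩
  rcases le_total |8 * (t + 1 / 4)| 1 with h | h
  · linarith [(h1 h).1]
  · rw [h2 h]
    exact ht

/-- the right summand lies in the right half space -/
theorem W1_ypos {c : ℝ → V} {F : V → V} (hF : Fat c F) (t : ℝ) (ht : 0 ≤ t) :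
    0 ≤ (Lmap (1 / 4) (c (8 * (t - 1 / 4)))).1 ∧
      (|8 * (t - 1 / 4)| ≤ 1 → 1 / 8 ≤ (Lmap (1 / 4) (c (8 * (t - 1 / 4)))).1 ∧
        ‖(Lmap (1 / 4) (c (8 * (t - 1 / 4)))).2‖ ≤ 1 / 2) ∧
      (1 ≤ |8 * (t - 1 / 4)| → Lmap (1 / 4) (c (8 * (t - 1 / 4))) = (t, 0)) := by
  have h1 : |8 * (t - 1 / 4)| ≤ 1 → 1 / 8 ≤ (Lmap (1 / 4) (c (8 * (t - 1 / 4)))).1 ∧
      ‖(Lmap (1 / 4) (c (8 * (t - 1 / 4)))).2‖ ≤ 1 / 2 := by
    intro h
    obtain ⟨h2, h3⟩ := W1_c_box hF _ h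
    refine ⟨?_, h3⟩
    show 1 / 8 ≤ (c (8 * (t - 1 / 4))).1 / 8 + 1 / 4
    have := (abs_le.1 h2).1
    linarith
  have h2 : 1 ≤ |8 * (t - 1 / 4)| → Lmap (1 / 4) (c (8 * (t - 1 / 4))) = (t, 0) := by
    intro h
    rw [W1_c_std hF _ h]
    refine Prod.ext ?_ rfl
    show 8 * (t - 1 / 4) / 8 + 1 / 4 = t
    ring
  refine ⟨?_, h1, h2⟩
  rcases le_total |8 * (t - 1 / 4)| 1 with h | h
  · linarith [(h1 h).1]
  · rw [h2 h]
    exact ht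

theorem W1_cj_neg {c : ℝ → V} {F : V → V} (hF : Fat c F) (θ t : ℝ) :
    cj F (-1 / 4) θ (t, 0) = rot θ (Lmap (-1 / 4) (c (8 * (t + 1 / 4)))) := by
  rw [W1_cj_axis hF]
  have : t - -1 / 4 = t + 1 / 4 := by ring
  rw [this]

theorem W1_neg {c : ℝ → V} {F : V → V} (hF : Fat c F) (t : ℝ) (ht : t ≤ 0) :
    TT F (0, 0) (t, 0) = Lmap (-1 / 4) (c (8 * (t + 1 / 4))) := by
  rw [W1_TT0, W1_cj_std hF (1 / 4) 0 (t, 0), W1_cj_neg hF, W1_rot_zero]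
  show 1 ≤ |8 * (t - 1 / 4)|
  rw [le_abs]
  right
  linarith

theorem W1_pos {c : ℝ → V} {F : V → V} (hF : Fat c F) (t : ℝ) (ht : 0 ≤ t) :
    TT F (0, 0) (t, 0) = Lmap (1 / 4) (c (8 * (t - 1 / 4))) := by
  rw [W1_TT0, W1_cj_axis hF, W1_rot_zero, W1_cj_std hF]
  rw [le_abs]
  left
  linarith [(W1_ypos hF t ht).1]

theorem W1_L {c : ℝ → V} {F : V → V} (hF : Fat c F) (θ t : ℝ) :
    TT F (0, θ) (t, 0) = Tw chL (θ, TT F (0, 0) (t, 0)) := by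
  rcases le_total 0 t with ht | ht
  · rw [W1_pos hF t ht, W1_TT0, W1_cj_axis hF, W1_rot_zero, W1_cj_std hF, W1_Tw_zero]
    · show cl (-8 * (Lmap (1 / 4) (c (8 * (t - 1 / 4)))).1) * _ = 0
      rw [W1_cl_zero (by linarith [(W1_ypos hF t ht).1]), zero_mul]
    · rw [le_abs]
      left
      linarith [(W1_ypos hF t ht).1]
  · obtain ⟨h0, h1, h2⟩ := W1_zneg hF t ht
    rw [W1_neg hF t ht, W1_TT0, W1_cj_std hF (1 / 4) 0 (t, 0), W1_cj_neg hF]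
    · rcases le_total |8 * (t + 1 / 4)| 1 with h | h
      · obtain ⟨h3, h4⟩ := h1 h
        rw [W1_Tw_one]
        show cl (-8 * (Lmap (-1 / 4) (c (8 * (t + 1 / 4)))).1) *
          cl (2 - 2 * ‖(Lmap (-1 / 4) (c (8 * (t + 1 / 4)))).2‖) = 1
        rw [W1_cl_one (by linarith), W1_cl_one (by linarith), mul_one]
      · rw [h2 h, W1_rot_axis, W1_Tw_axis]
    · show 1 ≤ |8 * (t - 1 / 4)|
      rw [le_abs]
      right
      linarith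

theorem W1_R {c : ℝ → V} {F : V → V} (hF : Fat c F) (θ t : ℝ) :
    TT F (1, θ) (t, 0) = Tw chR (θ, TT F (0, 0) (t, 0)) := by
  rcases le_total 0 t with ht | ht
  · obtain ⟨h0, h1, h2⟩ := W1_ypos hF t ht
    rw [W1_pos hF t ht, W1_TT1, W1_cj_std hF (-1 / 4) 0 (t, 0), W1_cj_axis hF]
    · rcases le_total |8 * (t - 1 / 4)| 1 with h | h
      · obtain ⟨h3, h4⟩ := h1 h
        rw [W1_Tw_one]
        show cl (8 * (Lmap (1 / 4) (c (8 * (t - 1 / 4)))).1) *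
          cl (2 - 2 * ‖(Lmap (1 / 4) (c (8 * (t - 1 / 4)))).2‖) = 1
        rw [W1_cl_one (by linarith), W1_cl_one (by linarith), mul_one]
      · rw [h2 h, W1_rot_axis, W1_Tw_axis]
    · show 1 ≤ |8 * (t - -1 / 4)|
      rw [le_abs]
      left
      linarith
  · obtain ⟨h0, h1, h2⟩ := W1_zneg hF t ht
    rw [W1_neg hF t ht, W1_TT1, W1_cj_neg hF, W1_rot_zero, W1_cj_std hF, W1_Tw_zero]
    · show cl (8 * (Lmap (-1 / 4) (c (8 * (t + 1 / 4)))).1) * _ = 0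
      rw [W1_cl_zero (by linarith), zero_mul]
    · rw [le_abs]
      right
      linarith

end LK
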