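import Pool.Agent.H64.LK.T4
import Pool.Agent.H64.LK.K0
import Pool.Agent.H64.LK.W1

/-!
# T5: transport in the model, for the two twists

Apply T4 to the long knot `mkK hg`, `A(θ, y) = toE (Tw chL (θ, toE.symm y))`, `Ai(θ, y) = toE (Tw chL (-θ, toE.symm y))` (W1_cont, W1_chL, W1_invL; for
the other order use W1_invL with `-θ`), and the same with `chR`; `Tw χ (0, x) = x`. Point `toE xinf`: `‖toE xinf‖² = 25/256 + 29/4 ≥ 4`; `chL xinf = chR xinf = 0`
since `‖xinf.2‖ ≥ 1`, so it is fixed. The homeomorphism `toE` carries `{x // x ∉ range g}` to the complement of `range (toE ∘ g)`; map `γ, γ1, γ2` there,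
get the homotopy from T4, map it back by `toE.symm`.
-/

open scoped ContDiff unitInterval
open Topology Set

namespace LK

private theorem T5_norm2 : 1 ≤ ‖xinf.2‖ := by
  have h1 := Complex.abs_re_le_norm xinf.2
  have h2 : xinf.2.re = 1 := by
    simp [xinf]
  rw [h2] at h1
  simpa using h1

private theorem T5_norm : 2 ≤ ‖toE xinf‖ := by
  have h1 := norm_toE_sq xinf
  have h2 : ‖xinf.2‖ ^ 2 = 29 / 4 := by
    rw [Complex.sq_norm, Complex.normSq_apply]
    simp [xinf]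
    norm_num
  have h3 : xinf.1 = -5 / 16 := rfl
  rw [h2, h3] at h1
  nlinarith [norm_nonneg (toE xinf)]

private theorem T5_chL : chL xinf = 0 := by
  rw [chL, W1_cl_zero (r := 2 - 2 * ‖xinf.2‖) (by linarith [T5_norm2]), mul_zero]

private theorem T5_chR : chR xinf = 0 := by
  rw [chR, W1_cl_zero (r := 2 - 2 * ‖xinf.2‖) (by linarith [T5_norm2]), mul_zero]

private theorem T5_Tw0 (χ : V → ℝ) (x : V) : Tw χ (0, x) = x := by
  refine Prod.ext rfl ?_
  show Complex.exp (2 * Real.pi * (((0 : ℝ) : ℂ) * (χ x : ℂ)) * Complex.I) * x.2 = x.2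
  simp

/-- the ambient isotopy of the twist -/
private noncomputable def T5_A (χ : V → ℝ) (hχ : Continuous χ) (ε : ℝ) : C(I × E 3, E 3) where
  toFun q := toE (Tw χ (ε * (q.1 : ℝ), toE.symm q.2))
  continuous_toFun := by
    have h1 := W1_cont χ hχ
    have h2 : Continuous (fun q : I × E 3 => (ε * (q.1 : ℝ), toE.symm q.2)) := by
      refine Continuous.prodMk ?_ ?_
      · exact continuous_const.mul (continuous_subtype_val.comp continuous_fst)
      · exact toE.symm.continuous.comp continuous_snd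
    exact toE.continuous.comp (h1.comp h2)

private theorem T5_A_apply (χ : V → ℝ) (hχ : Continuous χ) (ε : ℝ) (θ : I) (x : V) :
    T5_A χ hχ ε (θ, toE x) = toE (Tw χ (ε * (θ : ℝ), x)) := by
  show toE (Tw χ (ε * (θ : ℝ), toE.symm (toE x))) = toE (Tw χ (ε * (θ : ℝ), x))
  rw [toE.symm_apply_apply]

private theorem T5_surj (y : E 3) : ∃ x : V, y = toE x := ⟨toE.symm y, (toE.apply_symm_apply y).symm⟩

private theorem T5_inv (χ : V → ℝ) (hχ : Continuous χ)
    (hinv : ∀ (θ : ℝ) (x : V), Tw χ (-θ, Tw χ (θ, x)) = x) (θ : I) (y : E 3) :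
    T5_A χ hχ (-1) (θ, T5_A χ hχ 1 (θ, y)) = y := by
  obtain ⟨x, rfl⟩ := T5_surj y
  rw [T5_A_apply, T5_A_apply, one_mul, neg_one_mul, hinv]

private theorem T5_inv' (χ : V → ℝ) (hχ : Continuous χ)
    (hinv : ∀ (θ : ℝ) (x : V), Tw χ (-θ, Tw χ (θ, x)) = x) (θ : I) (y : E 3) :
    T5_A χ hχ 1 (θ, T5_A χ hχ (-1) (θ, y)) = y := by
  obtain ⟨x, rfl⟩ := T5_surj y
  have h := hinv (-(θ : ℝ)) x
  rw [neg_neg] at h
  rw [T5_A_apply, T5_A_apply, one_mul, neg_one_mul, h]

private theorem T5_A0 (χ : V → ℝ) (hχ : Continuous χ) (y : E 3) : T5_A χ hχ 1 (0, y) = y := by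
  obtain ⟨x, rfl⟩ := T5_surj y
  rw [T5_A_apply]
  have h : (1 : ℝ) * ((0 : I) : ℝ) = 0 := by simp
  rw [h, T5_Tw0]

theorem T5 {g : ℝ → V} (hg : VKnot g) (α β : Path (mkK hg) (mkK hg)) (hαβ : α.Homotopic β)
    (hα : ∀ (θ : I) (t : ℝ), (α θ).1 t = toE (Tw chL (θ, g t)))
    (hβ : ∀ (θ : I) (t : ℝ), (β θ).1 t = toE (Tw chR (θ, g t)))
    (hx : xinf ∉ range g)
    (γ γ1 γ2 : Path (⟨xinf, hx⟩ : {x : V // x ∉ range g}) ⟨xinf, hx⟩)
    (h1 : ∀ u, (γ1 u).1 = Tw chL (1, (γ u).1)) (h2 : ∀ u, (γ2 u).1 = Tw chR (1, (γ u).1)) :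
    γ1.Homotopic γ2 := by
  have hmem : ∀ x : V, x ∉ range g → toE x ∉ range (mkK hg).1 := by
    rintro x hx ⟨t, ht⟩
    exact hx ⟨t, toE.injective ht⟩
  have hmem' : ∀ y : E 3, y ∉ range (mkK hg).1 → toE.symm y ∉ range g := by
    rintro y hy ⟨t, ht⟩
    refine hy ⟨t, ?_⟩
    show toE (g t) = y
    rw [ht, toE.apply_symm_apply]
  let P : {x : V // x ∉ range g} → {y : E 3 // y ∉ range (mkK hg).1} :=
    fun x => ⟨toE x.1, hmem x.1 x.2⟩
  have hP : Continuous P := (toE.continuous.comp continuous_subtype_val).subtype_mk _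
  let R : {y : E 3 // y ∉ range (mkK hg).1} → {x : V // x ∉ range g} :=
    fun y => ⟨toE.symm y.1, hmem' y.1 y.2⟩
  have hR : Continuous R := (toE.symm.continuous.comp continuous_subtype_val).subtype_mk _
  have hRP : ∀ x, R (P x) = x := fun x => Subtype.ext (toE.symm_apply_apply x.1)
  have key : (γ1.map hP).Homotopic (γ2.map hP) := by
    refine T4 (mkK hg) α β hαβ (T5_A chL W1_chL 1) (T5_A chL W1_chL (-1)) (T5_A chR W1_chR 1)
      (T5_A chR W1_chR (-1)) (T5_inv chL W1_chL W1_invL) (T5_inv' chL W1_chL W1_invL)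
      (T5_inv chR W1_chR W1_invR) (T5_inv' chR W1_chR W1_invR) (T5_A0 chL W1_chL)
      (T5_A0 chR W1_chR) ?_ ?_ (toE xinf) T5_norm (hmem xinf hx) ?_ ?_ (γ.map hP) (γ1.map hP)
      (γ2.map hP) ?_ ?_
    · intro θ t
      show (α θ).1 t = T5_A chL W1_chL 1 (θ, toE (g t))
      rw [T5_A_apply, hα, one_mul]
    · intro θ t
      show (β θ).1 t = T5_A chR W1_chR 1 (θ, toE (g t))
      rw [T5_A_apply, hβ, one_mul]
    · intro θ
      rw [T5_A_apply, W1_Tw_zero _ _ _ T5_chL]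
    · intro θ
      rw [T5_A_apply, W1_Tw_zero _ _ _ T5_chR]
    · intro u
      show toE (γ1 u).1 = T5_A chL W1_chL 1 (1, toE (γ u).1)
      rw [T5_A_apply, h1]
      simp
    · intro u
      show toE (γ2 u).1 = T5_A chR W1_chR 1 (1, toE (γ u).1)
      rw [T5_A_apply, h2]
      simp
  obtain ⟨F⟩ := key
  have hF0 : ∀ u, F (0, u) = P (γ1 u) := fun u => F.map_zero_left u
  have hF1 : ∀ u, F (1, u) = P (γ2 u) := fun u => F.map_one_left u
  have hFs : ∀ s, F (s, 0) = P ⟨xinf, hx⟩ := fun s => F.source s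
  have hFt : ∀ s, F (s, 1) = P ⟨xinf, hx⟩ := fun s => F.target s
  refine ⟨{ toFun := fun p => R (F p)
            continuous_toFun := hR.comp F.continuous
            map_zero_left := fun u => ?_
            map_one_left := fun u => ?_
            prop' := ?_ }⟩
  · show R (F (0, u)) = γ1 u
    rw [hF0, hRP]
  · show R (F (1, u)) = γ2 u
    rw [hF1, hRP]
  · intro t u hu
    rcases hu with hu | hu
    · subst hu
      show R (F (t, 0)) = γ1 0
      rw [hFs, hRP, γ1.source]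
    · rw [mem_singleton_iff] at hu
      subst hu
      show R (F (t, 1)) = γ1 1
      rw [hFt, hRP, γ1.target]

end LK
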