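import Pool.Agent.H64.LK.R3
import Pool.Agent.H64.LK.R4
import Pool.Agent.H64.LK.K5
import Pool.Agent.H64.LK.K2
import Pool.Agent.H64.LK.K3
import Pool.Agent.H64.LK.C5
import Pool.Agent.H64.LK.T5
import Pool.Agent.H64.LK.Q2

/-!
# Fin: the fundamental group of the space of (framed) long knots is not abelian at `f # f`
-/

open scoped ContDiff unitInterval
open Topology Set

namespace LK

/-- The key contradiction. -/
theorem Fin_key {F : V → V} (hF : Fat (fun t => (1 / 4 : ℝ) • c1 (4 * t)) F)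
    (hg : VKnot (fun t => TT F ((0 : I), (0 : I)) (t, 0)))
    (α β : Path (mkK hg) (mkK hg))
    (hα : ∀ (θ : I) (t : ℝ), (α θ).1 t = toE (TT F ((0 : I), θ) (t, 0)))
    (hβ : ∀ (θ : I) (t : ℝ), (β θ).1 t = toE (TT F ((1 : I), θ) (t, 0))) :
    ¬ α.Homotopic β := by
  intro hab
  have e00 : ((((0 : I) : ℝ), ((0 : I) : ℝ)) : ℝ × ℝ) = (0, 0) := by simp
  have hL : ∀ t : ℝ, t ≤ 0 → TT F ((0 : I), (0 : I)) (t, 0) =
      ((curve (1280 * (t + 1 / 4))).1 / 1280 - 1 / 4, (curve (1280 * (t + 1 / 4))).2 / 160) := by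
    intro t ht
    rw [e00, W1_neg hF t ht]
    have e1 : 40 * (4 * (8 * (t + 1 / 4))) = 1280 * (t + 1 / 4) := by ring
    simp only [Lmap, c1, e1, Prod.smul_fst, Prod.smul_snd, smul_eq_mul, Prod.mk.injEq]
    refine ⟨by ring, ?_⟩
    simp only [Complex.real_smul]
    push_cast
    ring
  have hR : ∀ t : ℝ, 0 ≤ t → TT F ((0 : I), (0 : I)) (t, 0) =
      ((curve (1280 * (t - 1 / 4))).1 / 1280 + 1 / 4, (curve (1280 * (t - 1 / 4))).2 / 160) := by
    intro t ht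
    rw [e00, W1_pos hF t ht]
    have e1 : 40 * (4 * (8 * (t - 1 / 4))) = 1280 * (t - 1 / 4) := by ring
    simp only [Lmap, c1, e1, Prod.smul_fst, Prod.smul_snd, smul_eq_mul, Prod.mk.injEq]
    refine ⟨by ring, ?_⟩
    simp only [Complex.real_smul]
    push_cast
    ring
  have hx : xinf ∉ range (fun t => TT F ((0 : I), (0 : I)) (t, 0)) := by
    rintro ⟨t, ht⟩
    have hT := K3 hF
    have hn : ‖xinf.2‖ ≤ 1 / 2 := by
      rw [← ht]
      by_cases h : |t| ≤ 1 / 2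
      · exact (hT.box (0, 0) (t, 0) (by simp [tube]) h).2
      · have h0 := hT.std (0, 0) (t, 0) (le_of_lt (not_le.1 h))
        simp only at h0 ⊢
        rw [h0]
        simp
    have h2 : (1 : ℝ) ≤ ‖xinf.2‖ := by
      have h3 := Complex.abs_re_le_norm xinf.2
      have h4 : xinf.2.re = 1 := by simp [xinf]
      rw [h4] at h3
      simpa using h3
    linarith
  refine Q2 _ hL hR hx ?_
  intro γ γ1 γ2 h1 h2
  refine T5 hg α β hab ?_ ?_ hx γ γ1 γ2 h1 h2
  · intro θ t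
    rw [hα, show (((0 : I) : ℝ)) = 0 from rfl, W1_L hF θ t]
  · intro θ t
    rw [hβ, show (((1 : I) : ℝ)) = 1 from rfl, W1_R hF θ t]
    rfl

theorem Fin_data : ∃ (Γ : C(I × I, FramedLongKnot 3)) (F : V → V)
    (_ : Fat (fun t => (1 / 4 : ℝ) • c1 (4 * t)) F),
    (∀ s, Γ (s, 0) = Γ (s, 1)) ∧ Γ (0, 0) = Γ (1, 0) ∧
    (∀ p : I × I, ∀ t, (Γ p).1.1 t = toE (TT F (p.1, p.2) (t, 0))) := by
  obtain ⟨F, hF⟩ := K2 C5
  obtain ⟨Γ, h1, h2⟩ := K5 (K3 hF)
  refine ⟨Γ, F, hF, fun s => h2 _ _ ?_, h2 _ _ ?_, h1⟩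
  · intro x _
    exact congrFun (K3b F s) x
  · intro x hx
    exact K3c hF hx

/-- A path in a space given by a continuous map on the interval. -/
theorem Fin_path {X : Type*} [TopologicalSpace X] (f : C(I, X)) (x : X) (h0 : f 0 = x)
    (h1 : f 1 = x) : ∃ p : Path x x, ∀ θ, p θ = f θ :=
  ⟨⟨f, h0, h1⟩, fun _ => rfl⟩

theorem Fin_unframed : ∃ g : LongKnot 3, ¬ AbAt g := by
  obtain ⟨Γ, F, hF, hs, h10, hΓ⟩ := Fin_data
  have hg : VKnot (fun t => TT F ((0 : I), (0 : I)) (t, 0)) := K4 (K3 hF) (0, 0)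
  have hbase : forget (Γ (0, 0)) = mkK hg := by
    apply Subtype.ext
    funext t
    exact hΓ (0, 0) t
  refine ⟨mkK hg, fun hab => ?_⟩
  let G : C(I × I, LongKnot 3) := ⟨fun p => forget (Γ p), K1_forget.comp Γ.continuous⟩
  have hG : ∀ p, G p = forget (Γ p) := fun _ => rfl
  obtain ⟨α, hα⟩ := Fin_path (G.comp ⟨fun θ : I => ((0 : I), θ), by fun_prop⟩) (mkK hg)
    (by simp [hG, hbase]) (by simp [hG, ← hs, hbase])
  obtain ⟨α', hα'⟩ := Fin_path (G.comp ⟨fun θ : I => ((1 : I), θ), by fun_prop⟩) (mkK hg)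
    (by simp [hG, ← h10, hbase]) (by simp [hG, ← hs, ← h10, hbase])
  obtain ⟨β, hβ⟩ := Fin_path (G.comp ⟨fun s : I => (s, (0 : I)), by fun_prop⟩) (mkK hg)
    (by simp [hG, hbase]) (by simp [hG, ← h10, hbase])
  have h := R4 (mkK hg) G (fun s => by simp [hG, hs]) α α' β hα hα' hβ hab
  refine Fin_key hF hg α α' ?_ ?_ h
  · intro θ t
    rw [hα]
    exact hΓ (0, θ) t
  · intro θ t
    rw [hα']
    exact hΓ (1, θ) t

theorem Fin_framed : ∃ g : FramedLongKnot 3, ¬ AbAt g := by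
  obtain ⟨Γ, F, hF, hs, h10, hΓ⟩ := Fin_data
  have hg : VKnot (fun t => TT F ((0 : I), (0 : I)) (t, 0)) := K4 (K3 hF) (0, 0)
  have hbase : forget (Γ (0, 0)) = mkK hg := by
    apply Subtype.ext
    funext t
    exact hΓ (0, 0) t
  refine ⟨Γ (0, 0), fun hab => ?_⟩
  obtain ⟨α, hα⟩ := Fin_path (Γ.comp ⟨fun θ : I => ((0 : I), θ), by fun_prop⟩) (Γ (0, 0))
    (by simp) (by simp [← hs])
  obtain ⟨α', hα'⟩ := Fin_path (Γ.comp ⟨fun θ : I => ((1 : I), θ), by fun_prop⟩) (Γ (0, 0))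
    (by simp [← h10]) (by simp [← hs, ← h10])
  obtain ⟨β, hβ⟩ := Fin_path (Γ.comp ⟨fun s : I => (s, (0 : I)), by fun_prop⟩) (Γ (0, 0))
    (by simp) (by simp [← h10])
  have h := R4 (Γ (0, 0)) Γ hs α α' β hα hα' hβ hab
  have h' : (α.map K1_forget).Homotopic (α'.map K1_forget) := h.map ⟨forget, K1_forget⟩
  have h'' : ((α.map K1_forget).cast hbase.symm hbase.symm).Homotopic
      ((α'.map K1_forget).cast hbase.symm hbase.symm) := by
    obtain ⟨H⟩ := h'
    exact ⟨H.cast rfl rfl⟩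
  refine Fin_key hF hg _ _ ?_ ?_ h''
  · intro θ t
    have e : ((α.map K1_forget).cast hbase.symm hbase.symm) θ = forget (Γ (0, θ)) := by
      simp [hα]
    rw [e]
    exact hΓ (0, θ) t
  · intro θ t
    have e : ((α'.map K1_forget).cast hbase.symm hbase.symm) θ = forget (Γ (1, θ)) := by
      simp [hα']
    rw [e]
    exact hΓ (1, θ) t

/-- No space homotopy equivalent to a loop space has the space of long knots in `ℝ³`, or of framed
long knots in `ℝ³`, as a homotopy retract. -/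
theorem Fin_main {W Z : Type*} [TopologicalSpace W] [TopologicalSpace Z] (v : W)
    (e : ContinuousMap.HomotopyEquiv Z (Path v v)) :
    ¬ HRetract (LongKnot 3) Z ∧ ¬ HRetract (FramedLongKnot 3) Z := by
  refine ⟨fun h => ?_, fun h => ?_⟩
  · obtain ⟨g, hg⟩ := Fin_unframed
    exact hg (R3 v e h g)
  · obtain ⟨g, hg⟩ := Fin_framed
    exact hg (R3 v e h g)

end LK
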