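import Pool.Agent.H64.LK.Fin

/-!
# Retracts at the level of fundamental groupoids
-/

open CategoryTheory

namespace LK

/-- `X` is a retract of `Z` at the level of fundamental groupoids (up to natural isomorphism). -/
def GRetract (X Z : Type*) [TopologicalSpace X] [TopologicalSpace Z] : Prop :=
  ∃ (I : FundamentalGroupoid X ⥤ FundamentalGroupoid Z)
    (R : FundamentalGroupoid Z ⥤ FundamentalGroupoid X),
    Nonempty (I ⋙ R ≅ 𝟭 (FundamentalGroupoid X))

theorem Grp_self (Z : Type*) [TopologicalSpace Z] : HRetract Z Z :=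
  ⟨ContinuousMap.id Z, ContinuousMap.id Z, ContinuousMap.Homotopic.refl _⟩

theorem Grp_abAt_iff {X : Type*} [TopologicalSpace X] (x : X) :
    AbAt x ↔ ∀ f g : (FundamentalGroupoid.mk x) ⟶ (FundamentalGroupoid.mk x), f ≫ g = g ≫ f := by
  constructor
  · intro h f g
    induction f using Quotient.inductionOn with
    | h p =>
      induction g using Quotient.inductionOn with
      | h q => exact Quotient.sound (h p q)
  · intro h p q
    have := h (Quotient.mk _ p) (Quotient.mk _ q)
    exact Quotient.exact this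

theorem Grp_main {X Z : Type*} [TopologicalSpace X] [TopologicalSpace Z]
    (hZ : ∀ z : Z, AbAt z) (h : GRetract X Z) (x : X) : AbAt x := by
  obtain ⟨I, R, ⟨e⟩⟩ := h
  rw [Grp_abAt_iff]
  intro f g
  have hz := (Grp_abAt_iff _).1 (hZ (I.obj ⟨x⟩).as) (I.map f) (I.map g)
  have h1 : (I ⋙ R).map (f ≫ g) = (I ⋙ R).map (g ≫ f) := by
    simp only [Functor.comp_map, Functor.map_comp]
    rw [← R.map_comp, ← R.map_comp]
    exact congrArg R.map hz
  have h2 := e.hom.naturality (f ≫ g)
  have h3 := e.hom.naturality (g ≫ f)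
  rw [h1] at h2
  have h4 : e.hom.app ⟨x⟩ ≫ (𝟭 (FundamentalGroupoid X)).map (f ≫ g) =
      e.hom.app ⟨x⟩ ≫ (𝟭 (FundamentalGroupoid X)).map (g ≫ f) := h2.symm.trans h3
  exact (cancel_epi (e.hom.app ⟨x⟩)).1 h4

/-- The main theorem. -/
theorem Grp_final {W Z : Type*} [TopologicalSpace W] [TopologicalSpace Z] (v : W)
    (e : ContinuousMap.HomotopyEquiv Z (Path v v)) :
    (¬ HRetract (LongKnot 3) Z ∧ ¬ HRetract (FramedLongKnot 3) Z) ∧
    (¬ GRetract (LongKnot 3) Z ∧ ¬ GRetract (FramedLongKnot 3) Z) := by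
  refine ⟨Fin_main v e, fun h => ?_, fun h => ?_⟩
  · obtain ⟨g, hg⟩ := Fin_unframed
    exact hg (Grp_main (fun z => R3 v e (Grp_self Z) z) h g)
  · obtain ⟨g, hg⟩ := Fin_framed
    exact hg (Grp_main (fun z => R3 v e (Grp_self Z) z) h g)

end LK
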