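import Pool.Agent.H64.LK.Defs

/-!
# K2a: a smooth normal frame, standard at the ends

Statement: for a long knot `c` of the model there is a smooth family `N : ℝ → (ℂ →L[ℝ] V)` with
`N t y = (0, y)` for `|t| ≥ 1` and `r c'(t) + N t y = 0 → r = 0 ∧ y = 0`.

Proof. (1) The map `ℝ × ℝ → V`, `(t, r) ↦ r • c'(t)` is `C^1` and `finrank (ℝ × ℝ) = 2 < 3 = finrank V`,
so the complement of its range is dense (`ContDiff.dense_compl_range_of_finrank_lt_finrank`), in particular
nonempty: choose `v = (v1, v2)` not in the range. Since `c'(t) = (1, 0)` for `t = 2` and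
`v ≠ v1 • (1, 0)`, `v2 ≠ 0`. (2) Cross product on `V`:
`cross (a, p) (b, q) = (Im(conj p * q), i (a q - b p))`, bilinear; it is orthogonal to both factors for the
scalar product `⟨(a, p), (b, q)⟩ = a b + Re(conj p * q)`, and it vanishes only if the factors are
linearly dependent. Precisely, writing `n = cross c'(t) v`: `n ≠ 0` because otherwise, as
`c'(t) ≠ 0`, `v` would be a multiple of `c'(t)`. (3) Put, with `a + i b = y / v2` (complex division),
`N t y = a (v - v1 c'(t)) + b n(t)`. It is real linear in `y`, smooth in `t`; for `|t| > 1`,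
`c'(t) = (1, 0)`, `n = (0, i v2)`, so `N t y = a (0, v2) + b (0, i v2) = (0, (a + i b) v2) = (0, y)`; at `|t| = 1`
by continuity. (4) If `r c' + a (v - v1 c') + b n = 0`, take the scalar product with `n`: `b ⟨n, n⟩ = 0`, so
`b = 0`; then `(r - a v1) c' + a v = 0`; `a ≠ 0` would give `v ∈ ℝ c'(t)`; so `a = 0` and `r = 0`
since `c' ≠ 0`. Hence `y = 0`.
-/

open scoped ContDiff unitInterval
open Topology Set

namespace LK

/-- Cross product with `v` on the right, as a continuous linear map. -/
noncomputable def K2a_cross (v : V) : V →L[ℝ] V :=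
  LinearMap.toContinuousLinearMap
    { toFun := fun x => (x.2.re * v.2.im - x.2.im * v.2.re,
        ⟨x.2.im * v.1 - x.1 * v.2.im, x.1 * v.2.re - x.2.re * v.1⟩)
      map_add' := by
        intro x y
        refine Prod.ext ?_ (Complex.ext ?_ ?_) <;>
          simp only [Prod.fst_add, Prod.snd_add, Complex.add_re, Complex.add_im] <;> ring
      map_smul' := by
        intro r x
        refine Prod.ext ?_ (Complex.ext ?_ ?_) <;>
          simp only [Prod.smul_fst, Prod.smul_snd, smul_eq_mul, Complex.real_smul,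
            Complex.mul_re, Complex.mul_im, Complex.ofReal_re, Complex.ofReal_im,
            RingHom.id_apply] <;> ring }

theorem K2a_cross_apply (v x : V) :
    K2a_cross v x = (x.2.re * v.2.im - x.2.im * v.2.re,
        ⟨x.2.im * v.1 - x.1 * v.2.im, x.1 * v.2.re - x.2.re * v.1⟩) := rfl

/-- If the cross product vanishes then `v` is a multiple of `x`. -/
theorem K2a_dep {v x : V} (hx : x ≠ 0)
    (h1 : x.2.re * v.2.im - x.2.im * v.2.re = 0) (h2 : x.2.im * v.1 - x.1 * v.2.im = 0)
    (h3 : x.1 * v.2.re - x.2.re * v.1 = 0) : ∃ s : ℝ, s • x = v := by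
  have hpos : x.1 ^ 2 + x.2.re ^ 2 + x.2.im ^ 2 ≠ 0 := by
    intro h
    apply hx
    have a1 : x.1 = 0 := by nlinarith [sq_nonneg x.1, sq_nonneg x.2.re, sq_nonneg x.2.im]
    have a2 : x.2.re = 0 := by nlinarith [sq_nonneg x.1, sq_nonneg x.2.re, sq_nonneg x.2.im]
    have a3 : x.2.im = 0 := by nlinarith [sq_nonneg x.1, sq_nonneg x.2.re, sq_nonneg x.2.im]
    exact Prod.ext a1 (Complex.ext a2 a3)
  refine ⟨(x.1 * v.1 + x.2.re * v.2.re + x.2.im * v.2.im) /
    (x.1 ^ 2 + x.2.re ^ 2 + x.2.im ^ 2), ?_⟩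
  refine Prod.ext ?_ (Complex.ext ?_ ?_)
  · simp only [Prod.smul_fst, smul_eq_mul]
    rw [div_mul_eq_mul_div, div_eq_iff hpos]
    linear_combination x.2.re * h3 - x.2.im * h2
  · simp only [Prod.smul_snd, Complex.real_smul, Complex.mul_re, Complex.ofReal_re,
      Complex.ofReal_im, zero_mul, sub_zero]
    rw [div_mul_eq_mul_div, div_eq_iff hpos]
    linear_combination x.2.im * h1 - x.1 * h3
  · simp only [Prod.smul_snd, Complex.real_smul, Complex.mul_im, Complex.ofReal_re,
      Complex.ofReal_im, zero_mul, add_zero]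
    rw [div_mul_eq_mul_div, div_eq_iff hpos]
    linear_combination x.1 * h2 - x.2.re * h1

theorem K2a_deriv {c : ℝ → V} (hc : VKnot c) {t : ℝ} (ht : 1 ≤ |t|) :
    deriv c t = (1, 0) := by
  have hd : DifferentiableAt ℝ c t := (hc.smooth.differentiable (by simp)).differentiableAt
  have h0 : HasDerivAt (fun t : ℝ => ((t, 0) : V)) (1, 0) t :=
    (hasDerivAt_id t).prodMk (hasDerivAt_const t (0 : ℂ))
  rcases le_abs.1 ht with h | h
  · have h1 : HasDerivWithinAt c (deriv c t) (Ici t) t := hd.hasDerivAt.hasDerivWithinAt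
    have h2 : HasDerivWithinAt c (1, 0) (Ici t) t :=
      h0.hasDerivWithinAt.congr (fun y hy => hc.standard y (le_abs.2 (Or.inl (le_trans h hy))))
        (hc.standard t ht)
    exact (uniqueDiffOn_Ici t t self_mem_Ici).eq_deriv _ h1 h2
  · have h1 : HasDerivWithinAt c (deriv c t) (Iic t) t := hd.hasDerivAt.hasDerivWithinAt
    have h2 : HasDerivWithinAt c (1, 0) (Iic t) t :=
      h0.hasDerivWithinAt.congr (fun y hy => hc.standard y (le_abs.2 (Or.inr (by
        have : y ≤ t := hy
        linarith)))) (hc.standard t ht)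
    exact (uniqueDiffOn_Iic t t self_mem_Iic).eq_deriv _ h1 h2

theorem K2a {c : ℝ → V} (hc : VKnot c) :
    ∃ N : ℝ → (ℂ →L[ℝ] V), ContDiff ℝ ∞ N ∧ (∀ t, 1 ≤ |t| → ∀ y, N t y = (0, y)) ∧
      (∀ t (r : ℝ) (y : ℂ), r • deriv c t + N t y = 0 → r = 0 ∧ y = 0) := by
  have hcd : ContDiff ℝ ∞ (deriv c) := (contDiff_infty_iff_deriv.1 hc.smooth).2
  -- choice of `v`
  obtain ⟨v, hv⟩ : ∃ v : V, ∀ (t r : ℝ), r • deriv c t ≠ v := by
    have h1 : ContDiff ℝ 1 (fun q : ℝ × ℝ => q.2 • deriv c q.1) :=
      contDiff_snd.smul ((hcd.of_le (by exact_mod_cast le_top)).comp contDiff_fst)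
    have h2 : Module.finrank ℝ (ℝ × ℝ) < Module.finrank ℝ V := by
      rw [Module.finrank_prod, Module.finrank_prod]; simp
    obtain ⟨v, hv⟩ := (h1.dense_compl_range_of_finrank_lt_finrank h2).nonempty
    exact ⟨v, fun t r h => hv ⟨(t, r), h⟩⟩
  have hv2 : v.2 ≠ 0 := by
    intro h
    have h2 := K2a_deriv hc (t := 2) (by norm_num)
    apply hv 2 v.1
    rw [h2]
    refine Prod.ext (by simp) ?_
    simp [h]
  set M : ℂ →L[ℝ] ℂ := ContinuousLinearMap.mul ℝ ℂ (v.2)⁻¹ with hM
  have hMy : ∀ y, M y = (v.2)⁻¹ * y := fun y => rfl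
  refine ⟨fun t => (Complex.reCLM.comp M).smulRight (v - v.1 • deriv c t) +
    (Complex.imCLM.comp M).smulRight (K2a_cross v (deriv c t)), ?_, ?_, ?_⟩
  · refine ContDiff.add ?_ ?_
    · exact contDiff_const.smulRight (contDiff_const.sub (hcd.const_smul v.1))
    · exact contDiff_const.smulRight ((K2a_cross v).contDiff.comp hcd)
  · intro t ht y
    simp only [add_apply, ContinuousLinearMap.smulRight_apply,
      ContinuousLinearMap.comp_apply, K2a_deriv hc ht, K2a_cross_apply, hMy]
    have hy : v.2 * ((v.2)⁻¹ * y) = y := mul_inv_cancel_left₀ hv2 y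
    have e1 := congrArg Complex.re hy
    have e2 := congrArg Complex.im hy
    rw [Complex.mul_re] at e1
    rw [Complex.mul_im] at e2
    generalize (v.2)⁻¹ * y = w at e1 e2 ⊢
    refine Prod.ext ?_ (Complex.ext ?_ ?_)
    · simp
    · simp
      linarith
    · simp
      linarith
  · intro t r y h
    simp only [add_apply, ContinuousLinearMap.smulRight_apply,
      ContinuousLinearMap.comp_apply, K2a_cross_apply] at h
    set x : V := deriv c t with hx
    set a : ℝ := Complex.reCLM (M y) with ha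
    set b : ℝ := Complex.imCLM (M y) with hb
    have hx0 : x ≠ 0 := hc.immersed t
    have e1 := congrArg (fun z : V => z.1) h
    have e2 := congrArg (fun z : V => z.2.re) h
    have e3 := congrArg (fun z : V => z.2.im) h
    simp only [Prod.fst_add, Prod.snd_add, Prod.smul_fst, Prod.smul_snd, Prod.fst_sub,
      Prod.snd_sub, smul_eq_mul, Complex.real_smul, Complex.add_re, Complex.add_im,
      Complex.sub_re, Complex.sub_im, Complex.mul_re, Complex.mul_im, Complex.ofReal_re,
      Complex.ofReal_im, zero_mul, sub_zero, add_zero, Prod.fst_zero, Prod.snd_zero,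
      Complex.zero_re, Complex.zero_im] at e1 e2 e3
    set n1 := x.2.re * v.2.im - x.2.im * v.2.re with hn1
    set n2 := x.2.im * v.1 - x.1 * v.2.im with hn2
    set n3 := x.1 * v.2.re - x.2.re * v.1 with hn3
    have hbn : b * (n1 ^ 2 + n2 ^ 2 + n3 ^ 2) = 0 := by
      have := congrArg₂ (· + ·) (congrArg₂ (· + ·) (congrArg (n1 * ·) e1) (congrArg (n2 * ·) e2))
        (congrArg (n3 * ·) e3)
      simp only [mul_zero, add_zero] at this
      rw [← this, hn1, hn2, hn3]
      ring
    have hnn : n1 ^ 2 + n2 ^ 2 + n3 ^ 2 ≠ 0 := by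
      intro h0
      have a1 : n1 = 0 := by nlinarith [sq_nonneg n1, sq_nonneg n2, sq_nonneg n3]
      have a2 : n2 = 0 := by nlinarith [sq_nonneg n1, sq_nonneg n2, sq_nonneg n3]
      have a3 : n3 = 0 := by nlinarith [sq_nonneg n1, sq_nonneg n2, sq_nonneg n3]
      obtain ⟨s, hs⟩ := K2a_dep hx0 (hn1 ▸ a1) (hn2 ▸ a2) (hn3 ▸ a3)
      exact hv t s hs
    have hb0 : b = 0 := by
      rcases mul_eq_zero.1 hbn with h0 | h0
      · exact h0
      · exact absurd h0 hnn
    have ha0 : a = 0 := by
      by_contra hne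
      apply hv t ((a * v.1 - r) / a)
      rw [hb0] at e1 e2 e3
      rw [← hx]
      refine Prod.ext ?_ (Complex.ext ?_ ?_)
      · simp only [Prod.smul_fst, smul_eq_mul]
        rw [div_mul_eq_mul_div, div_eq_iff hne]
        linarith
      · simp only [Prod.smul_snd, Complex.real_smul, Complex.mul_re, Complex.ofReal_re,
          Complex.ofReal_im, zero_mul, sub_zero]
        rw [div_mul_eq_mul_div, div_eq_iff hne]
        linarith
      · simp only [Prod.smul_snd, Complex.real_smul, Complex.mul_im, Complex.ofReal_re,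
          Complex.ofReal_im, zero_mul, add_zero]
        rw [div_mul_eq_mul_div, div_eq_iff hne]
        linarith
    constructor
    · rw [ha0, hb0] at h
      simp only [zero_smul, add_zero] at h
      rcases smul_eq_zero.1 h with h0 | h0
      · exact h0
      · exact absurd h0 hx0
    · have hMy0 : M y = 0 := Complex.ext ha0 hb0
      rw [hMy] at hMy0
      rcases mul_eq_zero.1 hMy0 with h0 | h0
      · exact absurd (inv_eq_zero.1 h0) hv2
      · exact h0

end LK
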