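import Pool.Agent.H64.LK.CDefs

/-!
# P1: the roots form a covering

`ff (z, X) = (z, (3 z X - X³)/2)`.
(1) `ff` is continuous and proper, hence closed: if `‖z‖ ≤ R`, `‖w‖ ≤ R` (`R ≥ 0`) and `w = (3 z X - X³)/2` then `‖X‖³ ≤ 3 R ‖X‖ + 2 R`, so
`‖X‖ ≤ 5 R + 1` (if `‖X‖ ≥ 1`, `‖X‖² ≤ 5 R`). So preimages of compact sets are closed and bounded, hence compact
(`isProperMap_iff_isCompact_preimage`, `IsProperMap.isClosedMap`).
(2) fibres are finite: `X` is a root of the nonzero polynomial `X³ - 3 z X + 2 w`.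
(3) local homeomorphism at `e = (z, X)` with `ff e ∈ BB`: the strict derivative is
`(dz, dX) ↦ (dz, (3 X dz + 3 (z - X²) dX)/2)`, invertible when `z ≠ X²`; and
`4 (z³ - w²) = (z - X²)² (4 z - X²)` with `w = (3zX - X³)/2` (ring), so `z ≠ X²` when `z³ ≠ w²`. Use
`HasStrictFDerivAt.toOpenPartialHomeomorph` (or `ContDiffAt.toOpenPartialHomeomorph`).
(4) `IsClosedMap.isCoveringMapOn_of_isLocalHomeomorphOn` gives `IsCoveringMapOn ff BB`, then
`IsCoveringMapOn.isCoveringMap_restrictPreimage`.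
-/

open scoped ContDiff unitInterval
open Topology Set

namespace LK

private theorem P1_cont : Continuous ff := by
  unfold ff
  fun_prop

private theorem P1_bound {R : ℝ} (hR : 0 ≤ R) {z X w : ℂ} (hz : ‖z‖ ≤ R) (hw : ‖w‖ ≤ R)
    (h : w = (3 * z * X - X ^ 3) / 2) : ‖X‖ ≤ 5 * R + 1 := by
  have h1 : X ^ 3 = 3 * z * X - 2 * w := by
    rw [h]
    ring
  have h2 : ‖X‖ ^ 3 ≤ 3 * R * ‖X‖ + 2 * R := by
    calc ‖X‖ ^ 3 = ‖3 * z * X - 2 * w‖ := by rw [← norm_pow, h1]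
      _ ≤ ‖3 * z * X‖ + ‖2 * w‖ := norm_sub_le _ _
      _ = 3 * ‖z‖ * ‖X‖ + 2 * ‖w‖ := by
        rw [norm_mul, norm_mul, norm_mul]
        norm_num
      _ ≤ 3 * R * ‖X‖ + 2 * R := by
        have := norm_nonneg X
        have h3 : ‖z‖ * ‖X‖ ≤ R * ‖X‖ := mul_le_mul_of_nonneg_right hz this
        nlinarith
  by_contra hc
  push Not at hc
  have h4 : 1 < ‖X‖ := by linarith
  have h5 : ‖X‖ * (5 * R + 1) ≤ ‖X‖ * ‖X‖ := mul_le_mul_of_nonneg_left hc.le (by linarith)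
  have h6 : ‖X‖ * ‖X‖ ≤ ‖X‖ ^ 3 := by nlinarith
  have h7 : R ≤ R * ‖X‖ := by nlinarith
  nlinarith

private theorem P1_proper : IsProperMap ff := by
  rw [isProperMap_iff_isCompact_preimage]
  refine ⟨P1_cont, fun K hK => ?_⟩
  refine Metric.isCompact_of_isClosed_isBounded (hK.isClosed.preimage P1_cont) ?_
  obtain ⟨R, hR0, hR⟩ := hK.isBounded.subset_closedBall_lt 0 (0 : ℂ × ℂ)
  refine (Metric.isBounded_closedBall (x := (0 : ℂ × ℂ)) (r := 5 * R + 1)).subset ?_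
  intro e he
  have h1 : ‖ff e‖ ≤ R := by
    have := hR he
    rwa [mem_closedBall_zero_iff] at this
  have h2 : ‖e.1‖ ≤ R := (norm_fst_le (ff e)).trans h1
  have h3 : ‖(3 * e.1 * e.2 - e.2 ^ 3) / 2‖ ≤ R := (norm_snd_le (ff e)).trans h1
  rw [mem_closedBall_zero_iff]
  have h4 := P1_bound hR0.le h2 h3 rfl
  exact max_le (by linarith) h4

private theorem P1_fib (x : ℂ × ℂ) : (ff ⁻¹' {x}).Finite := by
  have hP : (Polynomial.X ^ 3 - Polynomial.C (3 * x.1) * Polynomial.X + Polynomial.C (2 * x.2) :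
      Polynomial ℂ) ≠ 0 := by
    intro h
    have h1 := congrArg (fun p : Polynomial ℂ => p.coeff 3) h
    simp [Polynomial.coeff_X, Polynomial.coeff_C, Polynomial.coeff_X_pow] at h1
  have hfin := Polynomial.finite_setOf_isRoot hP
  refine ((Set.finite_singleton x.1).prod hfin).subset ?_
  rintro ⟨z, X⟩ he
  have he' : ((z, (3 * z * X - X ^ 3) / 2) : ℂ × ℂ) = x := he
  rw [← he']
  refine ⟨rfl, ?_⟩
  show Polynomial.IsRoot _ X
  simp only [Polynomial.IsRoot.def, Polynomial.eval_add, Polynomial.eval_sub, Polynomial.eval_pow,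
    Polynomial.eval_mul, Polynomial.eval_C, Polynomial.eval_X]
  ring

private theorem P1_deriv (e : ℂ × ℂ) :
    HasStrictFDerivAt ff ((ContinuousLinearMap.fst ℂ ℂ ℂ).prod
      ((3 * e.2 / 2) • ContinuousLinearMap.fst ℂ ℂ ℂ +
        (3 * (e.1 - e.2 ^ 2) / 2) • ContinuousLinearMap.snd ℂ ℂ ℂ)) e := by
  have h1 : HasStrictFDerivAt (fun e : ℂ × ℂ => e.1) (ContinuousLinearMap.fst ℂ ℂ ℂ) e :=
    hasStrictFDerivAt_fst
  have h2 : HasStrictFDerivAt (fun e : ℂ × ℂ => e.2) (ContinuousLinearMap.snd ℂ ℂ ℂ) e :=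
    hasStrictFDerivAt_snd
  have h3 := (((h1.const_mul 3).mul h2).sub (h2.pow 3)).mul_const (1 / 2 : ℂ)
  have h4 : HasStrictFDerivAt (fun e : ℂ × ℂ => (3 * e.1 * e.2 - e.2 ^ 3) / 2)
      ((3 * e.2 / 2) • ContinuousLinearMap.fst ℂ ℂ ℂ +
        (3 * (e.1 - e.2 ^ 2) / 2) • ContinuousLinearMap.snd ℂ ℂ ℂ) e := by
    have h5 : (fun e : ℂ × ℂ => (3 * e.1 * e.2 - e.2 ^ 3) / 2) =
        fun e : ℂ × ℂ => (3 * e.1 * e.2 - e.2 ^ 3) * (1 / 2) := by
      funext e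
      ring
    rw [h5]
    refine h3.congr_fderiv ?_
    ext <;> simp <;> ring
  exact h1.prodMk h4

private theorem P1_local : IsLocalHomeomorphOn ff (ff ⁻¹' BB) := by
  intro e he
  have hne : e.1 - e.2 ^ 2 ≠ 0 := by
    intro h
    have h1 : e.1 = e.2 ^ 2 := sub_eq_zero.1 h
    have h2 : (ff e).1 ^ 3 ≠ (ff e).2 ^ 2 := he
    apply h2
    unfold ff
    simp only
    rw [h1]
    ring
  have hβ : (3 * (e.1 - e.2 ^ 2) / 2 : ℂ) ≠ 0 :=
    div_ne_zero (mul_ne_zero (by norm_num) hne) (by norm_num)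
  let L : (ℂ × ℂ) ≃L[ℂ] (ℂ × ℂ) := ContinuousLinearEquiv.equivOfInverse
    ((ContinuousLinearMap.fst ℂ ℂ ℂ).prod
      ((3 * e.2 / 2) • ContinuousLinearMap.fst ℂ ℂ ℂ +
        (3 * (e.1 - e.2 ^ 2) / 2) • ContinuousLinearMap.snd ℂ ℂ ℂ))
    ((ContinuousLinearMap.fst ℂ ℂ ℂ).prod
      ((3 * (e.1 - e.2 ^ 2) / 2)⁻¹ • (ContinuousLinearMap.snd ℂ ℂ ℂ -
        (3 * e.2 / 2) • ContinuousLinearMap.fst ℂ ℂ ℂ)))
    (by
      rintro ⟨a, b⟩
      refine Prod.ext ?_ ?_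
      · simp
      · simp only [ContinuousLinearMap.prod_apply, ContinuousLinearMap.coe_fst',
          ContinuousLinearMap.add_apply, ContinuousLinearMap.smul_apply,
          ContinuousLinearMap.coe_snd', ContinuousLinearMap.sub_apply, smul_eq_mul]
        rw [add_sub_cancel_left, inv_mul_cancel_left₀ hβ])
    (by
      rintro ⟨a, b⟩
      refine Prod.ext ?_ ?_
      · simp
      · simp only [ContinuousLinearMap.prod_apply, ContinuousLinearMap.coe_fst',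
          ContinuousLinearMap.add_apply, ContinuousLinearMap.smul_apply,
          ContinuousLinearMap.coe_snd', ContinuousLinearMap.sub_apply, smul_eq_mul]
        rw [mul_inv_cancel_left₀ hβ]
        ring)
  have hL : HasStrictFDerivAt ff (L : (ℂ × ℂ) →L[ℂ] (ℂ × ℂ)) e := P1_deriv e
  exact ⟨hL.toOpenPartialHomeomorph ff, hL.mem_toOpenPartialHomeomorph_source,
    hL.toOpenPartialHomeomorph_coe.symm⟩

theorem P1 : IsCoveringMap pp := by
  have h : IsCoveringMapOn ff BB :=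
    P1_proper.isClosedMap.isCoveringMapOn_of_isLocalHomeomorphOn (fun x _ => P1_fib x) P1_local
  exact h.isCoveringMap_restrictPreimage

end LK
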