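import Pool.Agent.H64.LK.C4

/-!
# Q1: collapsing the sum onto its first summand

`g` consists of two shrunk copies of `curve`, around `(∓1/4, 0)`. Define `q : V ∖ range g → V`, `x = (s, p)`:
`q x = (1280 (s + 1/4), 160 p)` if `s ≤ -1/8`; `q x = (1280 (s - 1/4), 160 p)` if `s ≥ 1/8`; for `|s| ≤ 1/8`,
`q x = (-1280 s, 160 p + (160 - |1280 s|) p/‖p‖)`. The formulas agree for `s = ±1/8`. For `|s| ≤ 1/8`, `p ≠ 0` when `x ∉ range g`: for `s ≤ 0`,
`u = 1280 (s + 1/4) ≥ 160`, `curve u = (u, 0)`, so `g s = (s, 0)`; same for `s ≥ 0`. Hence `q` is continuous on the complement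
(three closed pieces; for instance `ContinuousOn` on each piece and `Continuous.if_le` twice, with `p ↦ p/‖p‖` continuous where `p ≠ 0`;
or: `q x = (σ s, 160 p + max 0 (160 - 1280 |s|) p/‖p‖)` where `σ` is continuous piecewise linear, continuous at the points with `p ≠ 0`, and near a
point `(s, 0)` of the complement `|s| > 1/8` and the last term vanishes).
`q x ∉ range curve`: suppose `q x = curve u`. (i) `s ≤ -1/8`: put `t = u/1280 - 1/4`. If `t ≤ 0`, `g t = x` by `hL`, contradiction. If `t > 0`, `u > 320`,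
`curve u = (u, 0)` has first coordinate `> 320` but `1280 (s + 1/4) ≤ 160`. (ii) `s ≥ 1/8`: `t = u/1280 + 1/4`; `t ≥ 0`: `g t = x`; `t < 0`: `u < -320`,
`curve u = (u, 0)`, but `1280 (s - 1/4) ≥ -160`. (iii) `|s| ≤ 1/8`: the second coordinate of `q x` is
`(160 + (160 - |1280 s|)/‖p‖) p ≠ 0` of norm `160‖p‖ + 160 - |1280 s|`. If `|u| ≥ 1` the second coordinate of `curve u` is `0`,
contradiction. If `|u| ≤ 1`, by C4_bd both coordinates of `curve u` are at most `26` in norm, so `|1280 s| ≤ 26` and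
`160‖p‖ + 160 - |1280 s| ≥ 134 > 26`, contradiction.
-/

open scoped ContDiff unitInterval
open Topology Set

namespace LK

/-- The formula for the collapse. -/
noncomputable def Q1_F (x : V) : V :=
  (1280 * x.1 - 1280 * (|x.1 + 1 / 8| - |x.1 - 1 / 8|),
    160 * x.2 + (max 0 (160 - 1280 * |x.1|) * ‖x.2‖⁻¹) • x.2)

theorem Q1_left {x : V} (h : x.1 ≤ -1 / 8) : Q1_F x = (1280 * (x.1 + 1 / 4), 160 * x.2) := by
  have h1 : |x.1 + 1 / 8| = -(x.1 + 1 / 8) := abs_of_nonpos (by linarith)
  have h2 : |x.1 - 1 / 8| = -(x.1 - 1 / 8) := abs_of_nonpos (by linarith)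
  have h3 : |x.1| = -x.1 := abs_of_nonpos (by linarith)
  have h4 : max 0 (160 - 1280 * |x.1|) = 0 := max_eq_left (by rw [h3]; linarith)
  unfold Q1_F
  rw [h4, h1, h2, zero_mul, zero_smul, add_zero]
  congr 1
  ring

theorem Q1_right {x : V} (h : 1 / 8 ≤ x.1) : Q1_F x = (1280 * (x.1 - 1 / 4), 160 * x.2) := by
  have h1 : |x.1 + 1 / 8| = (x.1 + 1 / 8) := abs_of_nonneg (by linarith)
  have h2 : |x.1 - 1 / 8| = (x.1 - 1 / 8) := abs_of_nonneg (by linarith)
  have h3 : |x.1| = x.1 := abs_of_nonneg (by linarith)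
  have h4 : max 0 (160 - 1280 * |x.1|) = 0 := max_eq_left (by rw [h3]; linarith)
  unfold Q1_F
  rw [h4, h1, h2, zero_mul, zero_smul, add_zero]
  congr 1
  ring

theorem Q1_mid {x : V} (h : |x.1| ≤ 1 / 8) : (Q1_F x).1 = -1280 * x.1 := by
  obtain ⟨ha, hb⟩ := abs_le.1 h
  have h1 : |x.1 + 1 / 8| = (x.1 + 1 / 8) := abs_of_nonneg (by linarith)
  have h2 : |x.1 - 1 / 8| = -(x.1 - 1 / 8) := abs_of_nonpos (by linarith)
  unfold Q1_F
  simp only
  rw [h1, h2]
  ring

theorem Q1_mid2 {x : V} (h : |x.1| ≤ 1 / 8) (hx : x.2 ≠ 0) :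
    ‖(Q1_F x).2‖ = 160 * ‖x.2‖ + (160 - 1280 * |x.1|) := by
  have h4 : max 0 (160 - 1280 * |x.1|) = 160 - 1280 * |x.1| := max_eq_right (by linarith)
  have hn : 0 < ‖x.2‖ := norm_pos_iff.2 hx
  have e : (Q1_F x).2 = ((160 + (160 - 1280 * |x.1|) * ‖x.2‖⁻¹ : ℝ)) • x.2 := by
    unfold Q1_F
    simp only
    rw [h4, add_smul]
    congr 1
  rw [e, norm_smul, Real.norm_of_nonneg]
  · field_simp
  · have : 0 ≤ (160 - 1280 * |x.1|) * ‖x.2‖⁻¹ := mul_nonneg (by linarith) (by positivity)
    linarith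

theorem Q1_cont {x : V} (hx : |x.1| ≤ 1 / 8 → x.2 ≠ 0) : ContinuousAt Q1_F x := by
  unfold Q1_F
  refine ContinuousAt.prodMk (by fun_prop) (ContinuousAt.add (by fun_prop) ?_)
  by_cases hp : x.2 = 0
  · have hs : 1 / 8 < |x.1| := by
      by_contra hcon
      exact hx (not_lt.1 hcon) hp
    have h4 : max 0 (160 - 1280 * |x.1|) = 0 := max_eq_left (by linarith)
    have ht : Filter.Tendsto (fun y : V => max 0 (160 - 1280 * |y.1|)) (𝓝 x) (𝓝 0) := by
      have hc : ContinuousAt (fun y : V => max 0 (160 - 1280 * |y.1|)) x := by fun_prop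
      have := hc.tendsto
      rwa [h4] at this
    unfold ContinuousAt
    simp only [hp, smul_zero]
    refine squeeze_zero_norm (fun y => ?_) ht
    have hc0 : 0 ≤ max 0 (160 - 1280 * |y.1|) := le_max_left _ _
    rw [norm_smul, Real.norm_of_nonneg (mul_nonneg hc0 (by positivity))]
    by_cases hy : ‖y.2‖ = 0
    · rw [hy]; simp
    · rw [mul_assoc, inv_mul_cancel₀ hy, mul_one]
  · have c1 : ContinuousAt (fun y : V => max 0 (160 - 1280 * |y.1|)) x := by fun_prop
    have c2 : ContinuousAt (fun y : V => ‖y.2‖) x := by fun_prop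
    have c3 : ContinuousAt (fun y : V => y.2) x := by fun_prop
    exact (c1.mul (c2.inv₀ (norm_ne_zero_iff.2 hp))).smul c3

theorem Q1 (g : ℝ → V)
    (hL : ∀ t : ℝ, t ≤ 0 → g t = ((curve (1280 * (t + 1 / 4))).1 / 1280 - 1 / 4,
      (curve (1280 * (t + 1 / 4))).2 / 160))
    (hR : ∀ t : ℝ, 0 ≤ t → g t = ((curve (1280 * (t - 1 / 4))).1 / 1280 + 1 / 4,
      (curve (1280 * (t - 1 / 4))).2 / 160)) :
    ∃ q : C({x : V // x ∉ range g}, NC), ∀ x, x.1.1 ≤ -1 / 8 →
      (q x).1 = (1280 * (x.1.1 + 1 / 4), 160 * x.1.2) := by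
  have key : ∀ x : V, x ∉ range g → |x.1| ≤ 1 / 8 → x.2 ≠ 0 := by
    intro x hx hs h0
    obtain ⟨ha, hb⟩ := abs_le.1 hs
    apply hx
    refine ⟨x.1, ?_⟩
    rcases le_total x.1 0 with h | h
    · rw [hL _ h, C4_std _ (le_trans (by linarith) (le_abs_self (1280 * (x.1 + 1 / 4))))]
      refine Prod.ext ?_ ?_
      · simp only; ring
      · simp [h0]
    · rw [hR _ h, C4_std _ (le_trans (by linarith) (neg_le_abs (1280 * (x.1 - 1 / 4))))]
      refine Prod.ext ?_ ?_
      · simp only; ring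
      · simp [h0]
  have hF : ∀ x : V, x ∉ range g → Q1_F x ∉ Set.range curve := by
    rintro x hx ⟨u, hu⟩
    by_cases hm : |x.1| ≤ 1 / 8
    · have hp := key x hx hm
      have hn : 0 < ‖x.2‖ := norm_pos_iff.2 hp
      have e1 := Q1_mid hm
      have e2 := Q1_mid2 hm hp
      rw [← hu] at e1 e2
      rcases le_total 1 |u| with h | h
      · rw [C4_std u h] at e2
        simp only [norm_zero] at e2
        linarith
      · have hb := C4_bd u h
        have k1 : (curve u).1 ^ 2 ≤ 26 ^ 2 := by nlinarith [sq_nonneg ‖(curve u).2‖]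
        have k2 : ‖(curve u).2‖ ^ 2 ≤ 26 ^ 2 := by nlinarith [sq_nonneg (curve u).1]
        have k3 : |(curve u).1| ≤ 26 := abs_le_of_sq_le_sq k1 (by norm_num)
        have k4 : ‖(curve u).2‖ ≤ 26 := by
          have := abs_le_of_sq_le_sq k2 (by norm_num)
          exact le_trans (le_abs_self _) this
        rw [e1, abs_mul] at k3
        rw [e2] at k4
        have k5 : |(-1280 : ℝ)| = 1280 := by norm_num
        rw [k5] at k3
        linarith
    · rcases lt_or_ge x.1 0 with h | h
      · have hs : x.1 ≤ -1 / 8 := by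
          rw [abs_of_neg h] at hm
          linarith [not_le.1 hm]
        rw [Q1_left hs] at hu
        by_cases ht : u / 1280 - 1 / 4 ≤ 0
        · apply hx
          refine ⟨u / 1280 - 1 / 4, ?_⟩
          have eu : 1280 * (u / 1280 - 1 / 4 + 1 / 4) = u := by ring
          rw [hL _ ht, eu, hu]
          refine Prod.ext ?_ ?_
          · simp only; ring
          · simp only
            rw [mul_comm, mul_div_assoc, div_self (by norm_num), mul_one]
        · have hu1 : 1 ≤ |u| := le_trans (by linarith [not_le.1 ht]) (le_abs_self u)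
          rw [C4_std u hu1] at hu
          have := congrArg Prod.fst hu
          simp only at this
          linarith [not_le.1 ht]
      · have hs : 1 / 8 ≤ x.1 := by
          rw [abs_of_nonneg h] at hm
          linarith [not_le.1 hm]
        rw [Q1_right hs] at hu
        by_cases ht : 0 ≤ u / 1280 + 1 / 4
        · apply hx
          refine ⟨u / 1280 + 1 / 4, ?_⟩
          have eu : 1280 * (u / 1280 + 1 / 4 - 1 / 4) = u := by ring
          rw [hR _ ht, eu, hu]
          refine Prod.ext ?_ ?_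
          · simp only; ring
          · simp only
            rw [mul_comm, mul_div_assoc, div_self (by norm_num), mul_one]
        · have hu1 : 1 ≤ |u| := le_trans (by linarith [not_le.1 ht]) (neg_le_abs u)
          rw [C4_std u hu1] at hu
          have := congrArg Prod.fst hu
          simp only at this
          linarith [not_le.1 ht]
  refine ⟨⟨fun x => ⟨Q1_F x.1, hF x.1 x.2⟩, ?_⟩, ?_⟩
  · refine Continuous.subtype_mk ?_ _
    rw [continuous_iff_continuousAt]
    intro x
    exact (Q1_cont (key x.1 x.2)).comp continuous_subtype_val.continuousAt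
  · intro x hx
    exact Q1_left hx

end LK
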