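import Pool.Agent.H64.LK.Defs

/-!
# R1: an H-space up to homotopy has abelian fundamental groups

Statement: if `m : C(X × X, X)` and both `a ↦ m(a, x)` and `b ↦ m(x, b)` are (freely) homotopic to
the identity, then every two loops at `x` commute up to homotopy.

Proof. Put `y = m(x, x)`. For `p : Path x x` let `L p = (s ↦ m(p s, x))` and `R p = (s ↦ m(x, p s))`,
loops at `y`.
(1) `L p · R q ≃ R q · L p` for all `p, q`: both are homotopic to the diagonal `s ↦ m(p s, q s)`.
(Square lemma: for `G : C(I × I, X)`, `G(s, t) = m(p s, q t)`: `(L p) · (R q)` is the path along the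
bottom and the right side, `(R q) · (L p)` along the left and the top. In Mathlib:
`Path.Homotopic.map_trans_evalAt` / `ContinuousMap.Homotopy.evalAt` in the files
Mathlib/Topology/Homotopy/Product.lean, Mathlib/AlgebraicTopology/FundamentalGroupoid/InducedMaps.lean;
or directly: the square `I × I` is convex, so the two boundary paths are homotopic in `I × I` by the
straight-line homotopy, and then map by `G`.)
(2) If `H : f ≃ id` (free homotopy, `f = m(·, x)`, `f x = y`), `η = H(·, x) : Path y x`, then for all
`p : Path x x`: `L p · η ≃ η · p` (again the square lemma applied to `(s, t) ↦ H(t, p s)`).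
Hence `L p ≃ η · p · η⁻¹`, and every loop `P` at `y` is homotopic to `L p` with `p = η⁻¹ · P · η`.
Same with `R`. (3) So any two loops `P, Q` at `y`: `P ≃ L p`, `Q ≃ R q`, commute by (1).
(4) For loops `p, q` at `x`: `p ≃ η⁻¹ · L p · η`, `q ≃ η⁻¹ · L q · η`, and `L p, L q` commute by (3).
It is convenient to work in `Path.Homotopic.Quotient` or in the fundamental groupoid (a group-like
calculation), and to state the square lemma once.
-/

open scoped ContDiff unitInterval
open Topology Set

namespace LK

private theorem R1_comm {X : Type*} [TopologicalSpace X] (x : X) (m : C(X × X, X))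
    (p q : Path x x) (L R : Path (m (x, x)) (m (x, x)))
    (hL : ∀ t, L t = m (p t, x)) (hR : ∀ t, R t = m (x, q t)) :
    (R.trans L).Homotopic (L.trans R) := by
  let H : (m.comp ((ContinuousMap.const X x).prodMk (ContinuousMap.id X))).Homotopy
      (m.comp ((ContinuousMap.const X x).prodMk (ContinuousMap.id X))) :=
    { toFun := fun s => m (p s.1, s.2)
      continuous_toFun := by fun_prop
      map_zero_left := by intro b; simp
      map_one_left := by intro b; simp }
  have h := Path.Homotopic.map_trans_evalAt H q
  have e1 : L = H.evalAt x := by ext t; exact hL t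
  have e2 : R = q.map (map_continuous
      (m.comp ((ContinuousMap.const X x).prodMk (ContinuousMap.id X)))) := by
    ext t; exact hR t
  rw [e1, e2]
  exact h

private theorem R1_gpd {C : Type*} [CategoryTheory.Groupoid C] {a b : C} (L R : (a ⟶ a) → (b ⟶ b))
    (η θ : b ⟶ a) (hL : ∀ p, CategoryTheory.CategoryStruct.comp (L p) η =
      CategoryTheory.CategoryStruct.comp η p)
    (hR : ∀ p, CategoryTheory.CategoryStruct.comp (R p) θ =
      CategoryTheory.CategoryStruct.comp θ p)
    (hc : ∀ p q, CategoryTheory.CategoryStruct.comp (R q) (L p) =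
      CategoryTheory.CategoryStruct.comp (L p) (R q)) (p q : a ⟶ a) :
    CategoryTheory.CategoryStruct.comp p q = CategoryTheory.CategoryStruct.comp q p := by
  open CategoryTheory in
  have hL' : ∀ p, L p = η ≫ p ≫ inv η := fun p => by
    rw [← Category.assoc, ← hL, Category.assoc, IsIso.hom_inv_id, Category.comp_id]
  have hR' : ∀ p, R p = θ ≫ p ≫ inv θ := fun p => by
    rw [← Category.assoc, ← hR, Category.assoc, IsIso.hom_inv_id, Category.comp_id]
  have hb : ∀ P Q : b ⟶ b, P ≫ Q = Q ≫ P := by
    intro P Q
    have h1 : P = L (inv η ≫ P ≫ η) := by rw [hL']; simp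
    have h2 : Q = R (inv θ ≫ Q ≫ θ) := by rw [hR']; simp
    rw [h1, h2]
    exact (hc _ _).symm
  have h := hb (η ≫ p ≫ inv η) (η ≫ q ≫ inv η)
  simp only [Category.assoc, IsIso.inv_hom_id_assoc] at h
  have h3 := (cancel_epi η).1 h
  rw [← Category.assoc, ← Category.assoc] at h3
  exact (cancel_mono (inv η)).1 h3

theorem R1 {X : Type*} [TopologicalSpace X] (x : X) (m : C(X × X, X))
    (h1 : (m.comp ((ContinuousMap.id X).prodMk (ContinuousMap.const X x))).Homotopic
      (ContinuousMap.id X))
    (h2 : (m.comp ((ContinuousMap.const X x).prodMk (ContinuousMap.id X))).Homotopic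
      (ContinuousMap.id X)) : AbAt x := by
  obtain ⟨H1⟩ := h1
  obtain ⟨H2⟩ := h2
  intro p q
  let a : FundamentalGroupoid X := ⟨x⟩
  let b : FundamentalGroupoid X := ⟨m (x, x)⟩
  let L : (a ⟶ a) → (b ⟶ b) := fun p => Path.Homotopic.Quotient.map (x₀ := x) (x₁ := x) p
    (m.comp ((ContinuousMap.id X).prodMk (ContinuousMap.const X x)))
  let R : (a ⟶ a) → (b ⟶ b) := fun p => Path.Homotopic.Quotient.map (x₀ := x) (x₁ := x) p
    (m.comp ((ContinuousMap.const X x).prodMk (ContinuousMap.id X)))
  let η : b ⟶ a := Path.Homotopic.Quotient.mk (H1.evalAt x)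
  let θ : b ⟶ a := Path.Homotopic.Quotient.mk (H2.evalAt x)
  have key := R1_gpd L R η θ ?_ ?_ ?_ (Path.Homotopic.Quotient.mk p) (Path.Homotopic.Quotient.mk q)
  · exact Path.Homotopic.Quotient.exact key
  · intro p
    obtain ⟨p, rfl⟩ := Path.Homotopic.Quotient.mk_surjective p
    have h := Path.Homotopic.map_trans_evalAt H1 p
    rw [← Path.Homotopic.Quotient.eq] at h
    exact h
  · intro p
    obtain ⟨p, rfl⟩ := Path.Homotopic.Quotient.mk_surjective p
    have h := Path.Homotopic.map_trans_evalAt H2 p
    rw [← Path.Homotopic.Quotient.eq] at h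
    exact h
  · intro p q
    obtain ⟨p, rfl⟩ := Path.Homotopic.Quotient.mk_surjective p
    obtain ⟨q, rfl⟩ := Path.Homotopic.Quotient.mk_surjective q
    exact Path.Homotopic.Quotient.eq.2 (R1_comm x m p q
      (p.map (map_continuous (m.comp ((ContinuousMap.id X).prodMk (ContinuousMap.const X x)))))
      (q.map (map_continuous (m.comp ((ContinuousMap.const X x).prodMk (ContinuousMap.id X)))))
      (fun t => rfl) (fun t => rfl))

end LK
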