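import Pool.Agent.H64.LK.P1
import Pool.Agent.H64.LK.S0
import Pool.Agent.H64.LK.C0

/-!
# S1z: the big circle in the plane `s = -80` has exactly one fixed root

Let `p0 = 1 + 5/2 i`, `‖p0‖² = 29/4`, `P = e^{2πiθ} p0 = y + i q`, `‖P‖ = ‖p0‖`, `|y|, |q| ≤ ‖p0‖ < 27/10`.
(1) `uu (-80, P) = (1, (min (y - 1) 0) + i q)`. Indeed `ph (-80) = 0`, `kout = 1` (`|s| - 1 = 79 ≥ 1`), so `zz = kin + (1 - kin) = 1`.
`Xi`: if `y ≤ 1`, `y - 1`. If `y > 1`: `rho = sqrt (6400 + (10 - y)²) ≥ 80`, `(10 - y)/rho ≤ 9/80 ≤ 1/2`, `hh = (10-y)/rho + 2`,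
`rho * hh = 10 - y + 2 rho ≥ 9`, `Xi = 0`.
(2) Homotopy in `BB`: `H1(τ, θ) = (1, -1 + ω)`, `ω = (1 - τ) (min y 1 + i q) + τ P / (2 ‖p0‖)`. `1 ≠ (ω - 1)²` iff `ω ≠ 0, 2`. `Re ω ≤ 1`, so `ω ≠ 2`. If `q ≠ 0`,
`Im ω = q (1 - τ + τ / (2‖p0‖)) ≠ 0`. If `q = 0`, `y = ± ‖p0‖ ≠ 0` and `Re ω = (1 - τ) min y 1 + τ y / (2 ‖p0‖)` has the sign of `y`.
At `τ = 1`: `ω = ζ(θ) = e^{2πiθ} p0 / (2 ‖p0‖)`, `‖ζ‖ = 1/2`.
(3) Homotopy `H2(τ, θ) = (1 + τ ζ/3, -1 + ζ)`: in `BB` because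
`(1 + τζ/3)³ - (1 - ζ)² = ζ ((2 + τ) + (τ²/3 - 1) ζ + τ³ ζ²/27)` and the second factor has norm `≥ 2 - 1/2 - 1/108 > 0`.
Both homotopies satisfy `H(τ, 0) = H(τ, 1)` (`e^{2πi} = 1`).
(4) The loop `L(θ) = (1 + ζ/3, -1 + ζ)`: `X³ - 3zX + 2w = (X - 2)((X + 1)² - ζ)`. Points over `L(0)`: `(z0, 2)`, and
`(z0, -1 + η)` with `η² = ζ(0)`. `(z0, 2)` is fixed: lift `θ ↦ (1 + ζ(θ)/3, 2)`. `(z0, -1 + η)` is not: the lift starting there is
`θ ↦ (1 + ζ(θ)/3, -1 + η e^{πiθ})` (uniqueness of lifts, `IsCoveringMap.eq_of_comp_eq` on the connected `I`), which ends at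
`-1 - η ≠ -1 + η`. So exactly one fixed point for `L`; conclude with S0b twice.
-/

open scoped ContDiff unitInterval
open Topology Set

namespace LK

/-- the base point `1 + 5/2 i` -/
noncomputable def S1z_p : ℂ := 1 + 5 / 2 * Complex.I

theorem S1z_norm_sq : ‖S1z_p‖ ^ 2 = 29 / 4 := by
  rw [Complex.sq_norm, Complex.normSq_apply]
  unfold S1z_p
  simp
  norm_num

theorem S1z_norm_lt : ‖S1z_p‖ < 27 / 10 := by
  have h := S1z_norm_sq
  have h0 := norm_nonneg S1z_p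
  nlinarith

theorem S1z_norm_gt : 1 < ‖S1z_p‖ := by
  have h := S1z_norm_sq
  have h0 := norm_nonneg S1z_p
  nlinarith

noncomputable def S1z_P (θ : ℝ) : ℂ := Complex.exp (2 * Real.pi * θ * Complex.I) * S1z_p

theorem S1z_P_norm (θ : ℝ) : ‖S1z_P θ‖ = ‖S1z_p‖ := by
  unfold S1z_P
  have h : (2 * Real.pi * θ * Complex.I : ℂ) = ((2 * Real.pi * θ : ℝ) : ℂ) * Complex.I := by
    push_cast
    ring
  rw [norm_mul, h, Complex.norm_exp_ofReal_mul_I, one_mul]

theorem S1z_P_cont : Continuous S1z_P := by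
  unfold S1z_P
  fun_prop

theorem S1z_P01 : S1z_P 0 = S1z_P 1 := by
  unfold S1z_P
  congr 1
  push_cast
  rw [mul_zero, zero_mul, Complex.exp_zero, mul_one, Complex.exp_two_pi_mul_I]

noncomputable def S1z_z (θ : ℝ) : ℂ := S1z_P θ / ((2 * ‖S1z_p‖ : ℝ) : ℂ)

theorem S1z_z_norm (θ : ℝ) : ‖S1z_z θ‖ = 1 / 2 := by
  have h1 := S1z_norm_gt
  unfold S1z_z
  rw [norm_div, S1z_P_norm, Complex.norm_real, Real.norm_eq_abs, abs_of_pos (by linarith)]
  field_simp

theorem S1z_z_cont : Continuous S1z_z := S1z_P_cont.div_const _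

theorem S1z_z01 : S1z_z 0 = S1z_z 1 := by
  unfold S1z_z
  rw [S1z_P01]

theorem S1z_z_exp (θ : ℝ) : S1z_z θ = Complex.exp (2 * Real.pi * θ * Complex.I) * S1z_z 0 := by
  unfold S1z_z S1z_P
  push_cast
  rw [mul_zero, zero_mul, Complex.exp_zero]
  ring

theorem S1z_BB1 {w : ℂ} (h0 : w ≠ 0) (h2 : w ≠ 2) : ((1 : ℂ), -1 + w) ∈ BB := by
  intro h
  have h' : (1:ℂ) ^ 3 = (-1 + w) ^ 2 := h
  have h3 : w * (w - 2) = 0 := by
    linear_combination -h'
  rcases mul_eq_zero.1 h3 with h4 | h4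
  · exact h0 h4
  · exact h2 (sub_eq_zero.1 h4)

theorem S1z_BB2 (τ : I) {w : ℂ} (hw : ‖w‖ = 1 / 2) :
    ((1 : ℂ) + ((τ : ℝ) : ℂ) * w / 3, -1 + w) ∈ BB := by
  obtain ⟨t, ht0, ht1⟩ := τ
  intro h
  have h' : ((1 : ℂ) + (t : ℂ) * w / 3) ^ 3 = (-1 + w) ^ 2 := h
  have hw0 : w ≠ 0 := by
    intro h0
    rw [h0, norm_zero] at hw
    norm_num at hw
  have h3 : w * ((2 + (t : ℂ)) + ((t : ℂ) ^ 2 / 3 - 1) * w + (t : ℂ) ^ 3 * w ^ 2 / 27) = 0 := by
    linear_combination h'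
  have h4 : (2 + (t : ℂ)) + ((t : ℂ) ^ 2 / 3 - 1) * w + (t : ℂ) ^ 3 * w ^ 2 / 27 = 0 :=
    (mul_eq_zero.1 h3).resolve_left hw0
  have h5 : (2 + (t : ℂ)) = -(((t : ℂ) ^ 2 / 3 - 1) * w + (t : ℂ) ^ 3 * w ^ 2 / 27) := by
    linear_combination h4
  have h6 := congrArg norm h5
  rw [norm_neg] at h6
  have h7 : ‖(2 + (t : ℂ))‖ = 2 + t := by
    have : (2 + (t : ℂ)) = ((2 + t : ℝ) : ℂ) := by push_cast; ring
    rw [this, Complex.norm_real, Real.norm_eq_abs, abs_of_nonneg (by linarith)]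
  have h8 : ‖((t : ℂ) ^ 2 / 3 - 1) * w + (t : ℂ) ^ 3 * w ^ 2 / 27‖ ≤ 1 / 2 + 1 / 108 := by
    refine (norm_add_le _ _).trans ?_
    have e1 : ‖((t : ℂ) ^ 2 / 3 - 1) * w‖ ≤ 1 / 2 := by
      have : ((t : ℂ) ^ 2 / 3 - 1) = ((t ^ 2 / 3 - 1 : ℝ) : ℂ) := by push_cast; ring
      rw [norm_mul, hw, this, Complex.norm_real, Real.norm_eq_abs]
      have : |t ^ 2 / 3 - 1| ≤ 1 := by
        rw [abs_le]
        constructor <;> nlinarith
      linarith
    have e2 : ‖(t : ℂ) ^ 3 * w ^ 2 / 27‖ ≤ 1 / 108 := by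
      rw [norm_div, norm_mul, norm_pow, norm_pow, hw, Complex.norm_real, Real.norm_eq_abs,
        abs_of_nonneg ht0]
      have e3 : ‖(27 : ℂ)‖ = 27 := by norm_num
      rw [e3]
      have e4 : t ^ 3 ≤ 1 := pow_le_one₀ ht0 ht1
      linarith
    linarith
  rw [h7] at h6
  linarith

/-- the value of the colouring map on the big circle -/
theorem S1z_uu {P : ℂ} (h1 : |P.re| < 27 / 10) :
    uu (-80, P) = (1, -1 + ((min P.re 1 : ℝ) : ℂ) + (P.im : ℂ) * Complex.I) := by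
  have hab := abs_lt.1 h1
  have hph : ph (-80) = 0 := by
    unfold ph
    rw [C0_st0 (-80) (by norm_num), mul_zero]
  have hkout : kout ((-80, P) : V) = 1 := by
    unfold kout cl
    have e1 : |(-80 : ℝ)| - 1 = 79 := by norm_num
    simp only [e1]
    rw [min_eq_left (by norm_num : (1:ℝ) ≤ 79), max_eq_right zero_le_one]
    exact max_eq_left (max_le zero_le_one (min_le_left _ _))
  have hzz : zz ((-80, P) : V) = 1 := by
    unfold zz
    rw [hkout]
    simp only [hph]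
    simp
  have hXi : Xi ((-80, P) : V) = min (P.re - 1) 0 := by
    unfold Xi
    simp only
    split_ifs with hy
    · rw [min_eq_left (by linarith)]
    · have hy' : 1 < P.re := not_le.1 hy
      have hrho : 80 ≤ rho ((-80, P) : V) := by
        unfold rho
        simp only
        apply Real.le_sqrt_of_sq_le
        nlinarith [sq_nonneg (10 - P.re)]
      have hc : (10 - P.re) / rho ((-80, P) : V) ≤ 1 / 2 := by
        rw [div_le_iff₀ (by linarith)]
        linarith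
      rw [C0_h5 _ hc, mul_add, mul_div_cancel₀ _ (by linarith : rho ((-80, P) : V) ≠ 0)]
      rw [max_eq_left (by linarith), min_eq_right (by linarith)]
  unfold uu
  rw [hzz]
  unfold WW
  rw [hXi]
  refine Prod.ext rfl ?_
  have hmin : min (P.re - 1) 0 = min P.re 1 - 1 := by
    rcases le_total P.re 1 with h | h
    · rw [min_eq_left (by linarith), min_eq_left h]
    · rw [min_eq_right (by linarith), min_eq_right h]
      ring
  apply Complex.ext
  · simp [hmin]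
    ring
  · simp

/-- step (4): the small circle has exactly one fixed root -/
theorem S1z_unique (l : I → BB)
    (hl : ∀ θ : I, (l θ).1 = (1 + S1z_z θ / 3, -1 + S1z_z θ)) : ∃! e, Fixd pp l e := by
  have key : ∀ θ : I, ff (1 + S1z_z θ / 3, 2) = (l θ).1 := by
    intro θ
    rw [hl]
    unfold ff
    refine Prod.ext rfl ?_
    simp only
    ring
  have hz0 : S1z_z 0 ≠ 0 := by
    intro h
    have h1 := S1z_z_norm 0
    rw [h, norm_zero] at h1
    norm_num at h1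
  have hmem : ∀ θ : I, (1 + S1z_z θ / 3, (2:ℂ)) ∈ ff ⁻¹' BB := by
    intro θ
    rw [mem_preimage, key]
    exact (l θ).2
  have hzc : Continuous fun θ : I => S1z_z (θ : ℝ) := S1z_z_cont.comp continuous_subtype_val
  have hc : Continuous fun θ : I => (⟨(1 + S1z_z θ / 3, (2:ℂ)), hmem θ⟩ : ff ⁻¹' BB) :=
    ((continuous_const.add (hzc.div_const 3)).prodMk continuous_const).subtype_mk _
  refine ⟨⟨(1 + S1z_z (0:I) / 3, (2:ℂ)), hmem 0⟩, ⟨⟨_, hc⟩, ?_, ?_, ?_⟩, ?_⟩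
  · intro θ
    apply Subtype.ext
    exact key θ
  · rfl
  · apply Subtype.ext
    show (1 + S1z_z ((1:I) : ℝ) / 3, (2:ℂ)) = (1 + S1z_z ((0:I) : ℝ) / 3, (2:ℂ))
    have e0 : ((0:I) : ℝ) = 0 := rfl
    have e1 : ((1:I) : ℝ) = 1 := rfl
    rw [e0, e1, S1z_z01]
  · rintro e ⟨Γ, hΓ, hΓ0, hΓ1⟩
    have e0 : ((0:I) : ℝ) = 0 := rfl
    have e1 : ((1:I) : ℝ) = 1 := rfl
    have hff : ff e.1 = (1 + S1z_z 0 / 3, -1 + S1z_z 0) := by
      have h1 := congrArg Subtype.val (hΓ 0)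
      rw [hl, hΓ0, e0] at h1
      exact h1
    obtain ⟨⟨a, X⟩, hX⟩ := e
    have ha : a = 1 + S1z_z 0 / 3 := congrArg Prod.fst hff
    have hw : (3 * a * X - X ^ 3) / 2 = -1 + S1z_z 0 := congrArg Prod.snd hff
    have hroot : (X - 2) * ((X + 1) ^ 2 - S1z_z 0) = 0 := by
      rw [ha] at hw
      linear_combination (-2) * hw
    rcases mul_eq_zero.1 hroot with h2 | h2
    · apply Subtype.ext
      refine Prod.ext ?_ ?_
      · show a = 1 + S1z_z ((0:I) : ℝ) / 3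
        rw [e0]
        exact ha
      · show X = 2
        exact sub_eq_zero.1 h2
    · exfalso
      have hη : (X + 1) ^ 2 = S1z_z 0 := sub_eq_zero.1 h2
      obtain ⟨E, hE⟩ : ∃ E : ℝ → ℂ, E = fun θ : ℝ => Complex.exp ((Real.pi : ℂ) * (θ : ℂ) * Complex.I) := ⟨_, rfl⟩
      have hEc : Continuous E := by
        rw [hE]
        fun_prop
      have hE2 : ∀ θ : ℝ, E θ ^ 2 * S1z_z 0 = S1z_z θ := by
        intro θ
        rw [S1z_z_exp θ, hE]
        simp only
        rw [← Complex.exp_nat_mul]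
        congr 2
        push_cast
        ring
      have key2 : ∀ θ : I, ff (1 + S1z_z θ / 3, -1 + (X + 1) * E θ) = (l θ).1 := by
        intro θ
        rw [hl]
        unfold ff
        refine Prod.ext rfl ?_
        simp only
        have h3 := hE2 θ
        rw [← hη] at h3
        rw [← h3]
        ring
      have hmem2 : ∀ θ : I, (1 + S1z_z θ / 3, -1 + (X + 1) * E θ) ∈ ff ⁻¹' BB := by
        intro θ
        rw [mem_preimage, key2]
        exact (l θ).2
      have hc2 : Continuous fun θ : I =>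
          (⟨(1 + S1z_z θ / 3, -1 + (X + 1) * E θ), hmem2 θ⟩ : ff ⁻¹' BB) :=
        ((continuous_const.add (hzc.div_const 3)).prodMk
          (continuous_const.add (continuous_const.mul
            (hEc.comp continuous_subtype_val)))).subtype_mk _
      have heq := P1.eq_of_comp_eq Γ.continuous hc2 (by
        funext θ
        simp only [Function.comp_apply]
        rw [hΓ θ]
        apply Subtype.ext
        exact (key2 θ).symm) 0 (by
        rw [hΓ0]
        apply Subtype.ext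
        refine Prod.ext ?_ ?_
        · show a = 1 + S1z_z ((0:I) : ℝ) / 3
          rw [e0]
          exact ha
        · show X = -1 + (X + 1) * E ((0:I) : ℝ)
          rw [e0, hE]
          simp)
      have h3 := congrFun heq 1
      rw [hΓ1] at h3
      have h4 : X = -1 + (X + 1) * E ((1:I) : ℝ) := congrArg (fun x => x.1.2) h3
      rw [e1, hE] at h4
      simp only [Complex.ofReal_one, mul_one, Complex.exp_pi_mul_I] at h4
      have h5 : X + 1 = 0 := by linear_combination (1 / 2) * h4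
      rw [h5] at hη
      apply hz0
      rw [← hη]
      ring

/-- the second homotopy -/
noncomputable def S1z_H2 : C(I × I, BB) :=
  ⟨fun p => ⟨((1 : ℂ) + ((p.1 : ℝ) : ℂ) * S1z_z p.2 / 3, -1 + S1z_z p.2),
    S1z_BB2 p.1 (S1z_z_norm p.2)⟩, by
    have h1 : Continuous fun p : I × I => S1z_z (p.2 : ℝ) :=
      S1z_z_cont.comp (continuous_subtype_val.comp continuous_snd)
    have h2 : Continuous fun p : I × I => (((p.1 : ℝ)) : ℂ) :=
      Complex.continuous_ofReal.comp (continuous_subtype_val.comp continuous_fst)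
    exact ((continuous_const.add ((h2.mul h1).div_const 3)).prodMk
      (continuous_const.add h1)).subtype_mk _⟩

theorem S1z_small : ∃! e, Fixd pp (fun θ => S1z_H2 (0, θ)) e := by
  apply S0b pp P1 S1z_H2
  · intro τ
    apply Subtype.ext
    show ((1 : ℂ) + ((τ : ℝ) : ℂ) * S1z_z ((0:I) : ℝ) / 3, -1 + S1z_z ((0:I) : ℝ)) =
      ((1 : ℂ) + ((τ : ℝ) : ℂ) * S1z_z ((1:I) : ℝ) / 3, -1 + S1z_z ((1:I) : ℝ))
    have e0 : ((0:I) : ℝ) = 0 := rfl
    have e1 : ((1:I) : ℝ) = 1 := rfl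
    rw [e0, e1, S1z_z01]
  · apply S1z_unique
    intro θ
    show ((1 : ℂ) + (((1:I) : ℝ) : ℂ) * S1z_z θ / 3, -1 + S1z_z θ) = _
    have e1 : ((1:I) : ℝ) = 1 := rfl
    rw [e1, Complex.ofReal_one, one_mul]

/-- the interpolation `ω` -/
noncomputable def S1z_w (τ θ : ℝ) : ℂ :=
  (1 - (τ : ℂ)) * (((min (S1z_P θ).re 1 : ℝ) : ℂ) + ((S1z_P θ).im : ℂ) * Complex.I) +
    (τ : ℂ) * S1z_z θ

theorem S1z_z_re (θ : ℝ) : (S1z_z θ).re = (S1z_P θ).re / (2 * ‖S1z_p‖) := by
  unfold S1z_z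
  rw [Complex.div_ofReal_re]

theorem S1z_z_im (θ : ℝ) : (S1z_z θ).im = (S1z_P θ).im / (2 * ‖S1z_p‖) := by
  unfold S1z_z
  rw [Complex.div_ofReal_im]

theorem S1z_w_re (τ θ : ℝ) : (S1z_w τ θ).re = (1 - τ) * min (S1z_P θ).re 1 +
    τ * ((S1z_P θ).re / (2 * ‖S1z_p‖)) := by
  rw [← S1z_z_re]
  unfold S1z_w
  simp

theorem S1z_w_im (τ θ : ℝ) : (S1z_w τ θ).im = (1 - τ) * (S1z_P θ).im +
    τ * ((S1z_P θ).im / (2 * ‖S1z_p‖)) := by
  rw [← S1z_z_im]
  unfold S1z_w
  simp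

theorem S1z_w_mem (τ : I) (θ : ℝ) : ((1 : ℂ), -1 + S1z_w τ θ) ∈ BB := by
  obtain ⟨t, ht0, ht1⟩ := τ
  have hn := S1z_norm_gt
  have hPn := S1z_P_norm θ
  have habs : |(S1z_P θ).re| ≤ ‖S1z_p‖ := by
    rw [← hPn]
    exact Complex.abs_re_le_norm _
  have hab := abs_le.1 habs
  obtain ⟨N, hN⟩ : ∃ N, N = ‖S1z_p‖ := ⟨_, rfl⟩
  rw [← hN] at hn hab habs hPn
  apply S1z_BB1
  · intro h
    have him := congrArg Complex.im h
    have hre := congrArg Complex.re h
    rw [S1z_w_im, ← hN, Complex.zero_im] at him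
    rw [S1z_w_re, ← hN, Complex.zero_re] at hre
    simp only at him hre
    have hfac : 0 < (1 - t) + t / (2 * N) := by
      have h1 : 0 ≤ t / (2 * N) := by positivity
      rcases eq_or_lt_of_le ht1 with h2 | h2
      · rw [h2]
        have : 0 < 1 / (2 * N) := by positivity
        linarith
      · linarith
    have h3 : (S1z_P θ).im * ((1 - t) + t / (2 * N)) = 0 := by
      rw [← him]
      ring
    have h4 : (S1z_P θ).im = 0 := (mul_eq_zero.1 h3).resolve_right hfac.ne'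
    have h5 : (S1z_P θ).re ^ 2 = N ^ 2 := by
      rw [← hPn, Complex.sq_norm, Complex.normSq_apply, h4]
      ring
    have h6 : (S1z_P θ).re = N ∨ (S1z_P θ).re = -N := sq_eq_sq_iff_eq_or_eq_neg.1 h5
    rcases h6 with h6 | h6
    · rw [h6, min_eq_right hn.le] at hre
      have e1 : N / (2 * N) = 1 / 2 := by field_simp
      rw [e1] at hre
      linarith
    · rw [h6, min_eq_left (by linarith)] at hre
      have e1 : -N / (2 * N) = -(1 / 2) := by field_simp
      rw [e1] at hre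
      nlinarith
  · intro h
    have hre := congrArg Complex.re h
    rw [S1z_w_re, ← hN] at hre
    simp only at hre
    have h1 : min (S1z_P θ).re 1 ≤ 1 := min_le_right _ _
    have h2 : (S1z_P θ).re / (2 * N) ≤ 1 := by
      rw [div_le_one (by positivity)]
      linarith
    have h3 : (2:ℂ).re = 2 := rfl
    rw [h3] at hre
    nlinarith

/-- the first homotopy -/
noncomputable def S1z_H1 : C(I × I, BB) :=
  ⟨fun p => ⟨((1 : ℂ), -1 + S1z_w p.1 p.2), S1z_w_mem p.1 p.2⟩, by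
    have h1 : Continuous fun p : I × I => S1z_P (p.2 : ℝ) :=
      S1z_P_cont.comp (continuous_subtype_val.comp continuous_snd)
    have h2 : Continuous fun p : I × I => (((p.1 : ℝ)) : ℂ) :=
      Complex.continuous_ofReal.comp (continuous_subtype_val.comp continuous_fst)
    have h3 : Continuous fun p : I × I => S1z_z (p.2 : ℝ) :=
      S1z_z_cont.comp (continuous_subtype_val.comp continuous_snd)
    have h4 : Continuous fun p : I × I => S1z_w (p.1 : ℝ) (p.2 : ℝ) := by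
      unfold S1z_w
      refine ((continuous_const.sub h2).mul (Continuous.add ?_ ?_)).add (h2.mul h3)
      · exact Complex.continuous_ofReal.comp ((Complex.continuous_re.comp h1).min continuous_const)
      · exact (Complex.continuous_ofReal.comp (Complex.continuous_im.comp h1)).mul continuous_const
    exact (continuous_const.prodMk (continuous_const.add h4)).subtype_mk _⟩

theorem S1z (l : I → BB)
    (hl : ∀ θ : I, (l θ).1 = uu (-80, Complex.exp (2 * Real.pi * θ * Complex.I) *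
      (1 + 5 / 2 * Complex.I))) : ∃! e, Fixd pp l e := by
  have h0 : l = fun θ => S1z_H1 (0, θ) := by
    funext θ
    apply Subtype.ext
    rw [hl θ]
    show uu (-80, S1z_P θ) = ((1 : ℂ), -1 + S1z_w ((0:I) : ℝ) (θ : ℝ))
    have habs : |(S1z_P θ).re| < 27 / 10 := by
      refine lt_of_le_of_lt (Complex.abs_re_le_norm _) ?_
      rw [S1z_P_norm]
      exact S1z_norm_lt
    rw [S1z_uu habs]
    refine Prod.ext rfl ?_
    have e0 : ((0:I) : ℝ) = 0 := rfl
    unfold S1z_w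
    rw [e0, Complex.ofReal_zero]
    simp only
    ring
  rw [h0]
  apply S0b pp P1 S1z_H1
  · intro τ
    apply Subtype.ext
    show ((1 : ℂ), -1 + S1z_w (τ : ℝ) ((0:I) : ℝ)) = ((1 : ℂ), -1 + S1z_w (τ : ℝ) ((1:I) : ℝ))
    have e0 : ((0:I) : ℝ) = 0 := rfl
    have e1 : ((1:I) : ℝ) = 1 := rfl
    unfold S1z_w
    rw [e0, e1, S1z_z01, S1z_P01]
  · have h1 : (fun θ => S1z_H1 (1, θ)) = fun θ => S1z_H2 (0, θ) := by
      funext θ
      apply Subtype.ext
      show ((1 : ℂ), -1 + S1z_w ((1:I) : ℝ) (θ : ℝ)) =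
        ((1 : ℂ) + (((0:I) : ℝ) : ℂ) * S1z_z θ / 3, -1 + S1z_z θ)
      have e0 : ((0:I) : ℝ) = 0 := rfl
      have e1 : ((1:I) : ℝ) = 1 := rfl
      unfold S1z_w
      rw [e0, e1, Complex.ofReal_zero, Complex.ofReal_one]
      refine Prod.ext ?_ ?_
      · simp
      · simp
    rw [h1]
    exact S1z_small

end LK
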