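import Pool.Agent.H64.LK.Defs

/-!
# T1: uniform bi-Lipschitz constant for a compact family of long knots

Proof. Replace `C(P, LongKnot 3)` by its consequences: `(p, t) ↦ (h p).1 t` and
`(p, t) ↦ deriv (h p).1 t` are continuous on `P × ℝ` (the topology of `LongKnot 3` is induced by the
iterated derivatives in `C(ℝ, E 3)`; evaluation `C(ℝ, E 3) × ℝ → E 3` is continuous as `ℝ` is locally
compact; `iteratedDeriv_zero`, `iteratedDeriv_one`). On the compact space `P × [-2,2] × [-2,2]` put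
`q(p, t, s) = ‖∫ u in 0..1, deriv (h p).1 (s + u (t - s))‖`, continuous (parametric integral of a
jointly continuous function over a compact interval:
`intervalIntegral.continuous_parametric_intervalIntegral_of_continuous'` or similar). For
`t ≠ s`: `(t - s) • ∫ = (h p) t - (h p) s` (`intervalIntegral` substitution + fundamental theorem), so
`q = ‖(h p) t - (h p) s‖ / |t - s| > 0` by injectivity; for `t = s`, `q = ‖deriv (h p) t‖ > 0`.
So `q ≥ δ > 0` on the compact set and `C = max 1 (1/δ)` works. (If `P` is empty take `C = 1`.)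
An alternative without integrals: argue by contradiction with sequences/filters, using strict
differentiability at the limit point - the integral is simpler.
-/

open scoped ContDiff unitInterval
open Topology Set

namespace LK

/-- the mean of the derivative -/
theorem T1_mean (f : ℝ → E 3) (hf : ContDiff ℝ ∞ f) (t s : ℝ) :
    (t - s) • (∫ u in (0:ℝ)..1, deriv f (s + u * (t - s))) = f t - f s := by
  have hd : ∀ x, HasDerivAt f (deriv f x) x := fun x =>
    ((hf.differentiable (by simp)) x).hasDerivAt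
  have hc : Continuous (deriv f) := (hf.continuous_deriv (by simp))
  have h1 : ∀ u ∈ uIcc (0:ℝ) 1, HasDerivAt (fun u => f (s + u * (t - s)))
      ((t - s) • deriv f (s + u * (t - s))) u := by
    intro u _
    have h2 : HasDerivAt (fun u : ℝ => s + u * (t - s)) (t - s) u := by
      simpa using ((hasDerivAt_id u).mul_const (t - s)).const_add s
    exact (hd (s + u * (t - s))).scomp u h2
  have h2 := intervalIntegral.integral_eq_sub_of_hasDerivAt h1
    ((by fun_prop : Continuous fun u : ℝ => (t - s) • deriv f (s + u * (t - s))).intervalIntegrable 0 1)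
  rw [intervalIntegral.integral_smul] at h2
  rw [h2]
  simp

/-- a single long knot is bi-Lipschitz on `[-2, 2]` -/
theorem T1_one (g : LongKnot 3) : ∃ c : ℝ, 0 < c ∧ ∀ t ∈ Icc (-2 : ℝ) 2, ∀ s ∈ Icc (-2 : ℝ) 2,
      c * |t - s| ≤ ‖g.1 t - g.1 s‖ := by
  have hsm := g.2.smooth
  have hc : Continuous (deriv g.1) := (hsm.continuous_deriv (by simp))
  let q : ℝ × ℝ → ℝ := fun z => ‖∫ u in (0:ℝ)..1, deriv g.1 (z.2 + u * (z.1 - z.2))‖
  have hq : Continuous q := by
    refine Continuous.norm ?_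
    apply intervalIntegral.continuous_parametric_intervalIntegral_of_continuous'
    simp only [Function.uncurry_def]
    fun_prop
  have hpos : ∀ z : ℝ × ℝ, 0 < q z := by
    rintro ⟨t, s⟩
    have hm := T1_mean g.1 hsm t s
    rcases eq_or_ne t s with h | h
    · subst h
      have : q (t, t) = ‖deriv g.1 t‖ := by
        simp [q]
      rw [this]
      exact norm_pos_iff.mpr (g.2.immersed t)
    · apply norm_pos_iff.mpr
      intro h0
      simp only at h0
      rw [h0, smul_zero] at hm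
      exact h (g.2.embedded.injective (sub_eq_zero.mp hm.symm))
  obtain ⟨z0, hz0, hmin⟩ := (isCompact_Icc.prod isCompact_Icc :
    IsCompact (Icc (-2 : ℝ) 2 ×ˢ Icc (-2 : ℝ) 2)).exists_isMinOn
    ⟨(0, 0), by simp⟩ hq.continuousOn
  refine ⟨q z0, hpos z0, fun t ht s hs => ?_⟩
  have h1 : q z0 ≤ q (t, s) := hmin ⟨ht, hs⟩
  have h2 : ‖g.1 t - g.1 s‖ = |t - s| * q (t, s) := by
    rw [← T1_mean g.1 hsm t s, norm_smul, Real.norm_eq_abs]
  rw [h2, mul_comm]
  exact mul_le_mul_of_nonneg_left h1 (abs_nonneg _)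

/-- differences of close knots are Lipschitz with a small constant -/
theorem T1_diff (g k : LongKnot 3) (ε : ℝ)
    (h : ∀ t ∈ Icc (-2 : ℝ) 2, ‖deriv k.1 t - deriv g.1 t‖ ≤ ε) :
    ∀ t ∈ Icc (-2 : ℝ) 2, ∀ s ∈ Icc (-2 : ℝ) 2,
      ‖(k.1 t - g.1 t) - (k.1 s - g.1 s)‖ ≤ ε * |t - s| := by
  intro t ht s hs
  have hk := k.2.smooth
  have hg := g.2.smooth
  have hd : ∀ x ∈ Icc (-2 : ℝ) 2, HasDerivWithinAt (fun x => k.1 x - g.1 x)
      (deriv k.1 x - deriv g.1 x) (Icc (-2) 2) x := fun x _ =>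
    ((((hk.differentiable (by simp)) x).hasDerivAt).sub
      (((hg.differentiable (by simp)) x).hasDerivAt)).hasDerivWithinAt
  have := (convex_Icc (-2 : ℝ) 2).norm_image_sub_le_of_norm_hasDerivWithin_le hd h hs ht
  simpa [Real.norm_eq_abs] using this

theorem T1 {P : Type*} [TopologicalSpace P] [CompactSpace P] (h : C(P, LongKnot 3)) :
    ∃ C : ℝ, 1 ≤ C ∧ ∀ p : P, ∀ t ∈ Icc (-2 : ℝ) 2, ∀ s ∈ Icc (-2 : ℝ) 2,
      |t - s| ≤ C * ‖(h p).1 t - (h p).1 s‖ := by
  have hloc : ∀ p0 : P, ∃ U ∈ 𝓝 p0, ∃ C : ℝ, 0 < C ∧ ∀ p ∈ U, ∀ t ∈ Icc (-2 : ℝ) 2,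
      ∀ s ∈ Icc (-2 : ℝ) 2, |t - s| ≤ C * ‖(h p).1 t - (h p).1 s‖ := by
    intro p0
    obtain ⟨c, hc, hc1⟩ := T1_one (h p0)
    have h1 : Continuous (fun f : LongKnot 3 => jets f.1 f.2.smooth) := continuous_induced_dom
    have h2 : Continuous (fun p : P => jets (h p).1 (h p).2.smooth 1) :=
      ((continuous_apply 1).comp h1).comp h.continuous
    have h3 := (ContinuousMap.tendsto_iff_forall_isCompact_tendstoUniformlyOn.mp
      (h2.tendsto p0)) (Icc (-2 : ℝ) 2) isCompact_Icc
    rw [Metric.tendstoUniformlyOn_iff] at h3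
    have h4 := h3 (c / 2) (by positivity)
    refine ⟨_, h4, 2 / c, by positivity, fun p hp t ht s hs => ?_⟩
    have h5 : ∀ t ∈ Icc (-2 : ℝ) 2, ‖deriv (h p).1 t - deriv (h p0).1 t‖ ≤ c / 2 := by
      intro t ht
      have := hp t ht
      rw [dist_comm, dist_eq_norm] at this
      simpa [jets] using this.le
    have h6 := T1_diff (h p0) (h p) _ h5 t ht s hs
    have h7 := hc1 t ht s hs
    have h8 : ‖(h p0).1 t - (h p0).1 s‖ ≤ ‖(h p).1 t - (h p).1 s‖ +
        ‖((h p).1 t - (h p0).1 t) - ((h p).1 s - (h p0).1 s)‖ := by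
      have e : (h p0).1 t - (h p0).1 s = ((h p).1 t - (h p).1 s) -
        (((h p).1 t - (h p0).1 t) - ((h p).1 s - (h p0).1 s)) := by abel
      rw [e]
      exact norm_sub_le _ _
    have h9 : c / 2 * |t - s| ≤ ‖(h p).1 t - (h p).1 s‖ := by linarith
    rw [div_mul_eq_mul_div, le_div_iff₀ hc]
    linarith
  choose U hU C hC hUC using hloc
  obtain ⟨T, hT⟩ := CompactSpace.elim_nhds_subcover U hU
  have hex : ∃ D : ℝ, 1 ≤ D ∧ ∀ p ∈ T, C p ≤ D := by
    refine ⟨1 + ∑ p ∈ T, C p, ?_, fun p hp => ?_⟩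
    · have : 0 ≤ ∑ p ∈ T, C p := Finset.sum_nonneg fun p _ => (hC p).le
      linarith
    · have : C p ≤ ∑ p ∈ T, C p := Finset.single_le_sum (fun p _ => (hC p).le) hp
      linarith
  obtain ⟨D, hD, hD2⟩ := hex
  refine ⟨D, hD, fun p t ht s hs => ?_⟩
  have hp : p ∈ ⋃ x ∈ T, U x := by rw [hT]; trivial
  simp only [mem_iUnion] at hp
  obtain ⟨x, hx, hpx⟩ := hp
  exact (hUC x p hpx t ht s hs).trans
    (mul_le_mul_of_nonneg_right (hD2 x hx) (norm_nonneg _))

end LK
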