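import Pool.Agent.H64.LK.TDefs

/-!
# T2a: properties of `Loc h k`

`h, k` long knots, `C ≥ 1`, `|t - s| ≤ C ‖h t - h s‖` on `[-2, 2]`, `‖k' - h'‖ ≤ 1 / (2C)`.
Put `d_i = k_i - h_i`. It vanishes for `|t| ≥ 1`. By the mean value inequality
`|d_i(t) - d_i(s)| ≤ ‖(k - h)(t) - (k - h)(s)‖ ≤ |t - s| / (2C) ≤ 1/2 ‖h t - h s‖` on `[-2, 2]` (*), and
`|d_i(t)| ≤ 1/2 max(2 - ‖h t‖, 0)` for all `t` (**): for `|t| ≤ 1`, `‖h t‖ ≤ 1` and
`|d_i t| ≤ |t - 1| / (2C)` or `|t + 1| / (2C)`, whichever of `t ∓ 1` has absolute value `≤ 1`, so `≤ 1/2`; for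
`|t| ≥ 1` the left side is `0`.
Let `A(x) = sInf {d_i(t) + 1/2 ‖x - h t‖ : t ∈ [-2,2]}` (the set is nonempty, bounded below by `-1`).
(a) `Loc h k (h u) = k u`. For `|u| ≤ 2`: `A(h u) = d_i(u)` (≤: take `t = u`; ≥: by (*)), and
`d_i(u) ≤ 1/2 max(2 - ‖h u‖, 0)` by (**), so `Dup = d_i(u)`; symmetrically `Ddn = d_i(u)`. For
`|u| ≥ 2`: `‖h u‖ = |u| ≥ 2`, so `Loc = id` there by (c) and `k u = h u`.
(b) `x ↦ Dup` and `x ↦ Ddn` are `1/2`-Lipschitz, so the displacement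
`D = (D_0, D_1, D_2)` satisfies `‖D x - D y‖ ≤ √3/2 ‖x - y‖`; `Loc x = Loc y` gives
`‖x - y‖ = ‖D x - D y‖ ≤ √3/2 ‖x - y‖`, so `x = y`.
(c) For `‖x‖ ≥ 2`: `max(2 - ‖x‖, 0) = 0` and `A(x) ≥ 0`.
(d) If `k = h`: the two parts cancel.
-/

open scoped ContDiff unitInterval
open Topology Set

namespace LK

/-- The upper extension of an arbitrary displacement `d` along `f`. -/
noncomputable def T2a_up (d : ℝ → ℝ) (f : ℝ → E 3) (x : E 3) : ℝ :=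
  min (sInf ((fun t => d t + 1 / 2 * ‖x - f t‖) '' Icc (-2 : ℝ) 2)) (1 / 2 * max (2 - ‖x‖) 0)

theorem T2a_Dup (h k : ℝ → E 3) (i : Fin 3) (x : E 3) :
    Dup h k i x = T2a_up (fun t => k t i - h t i) h x := rfl

theorem T2a_Ddn (h k : ℝ → E 3) (i : Fin 3) (x : E 3) :
    Ddn h k i x = - T2a_up (fun t => -(k t i - h t i)) h x := by
  unfold Ddn T2a_up
  have h1 : ((fun t => -(k t i - h t i) + 1 / 2 * ‖x - h t‖) '' Icc (-2 : ℝ) 2) =
      -((fun t => (k t i - h t i) - 1 / 2 * ‖x - h t‖) '' Icc (-2 : ℝ) 2) := by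
    ext y
    simp only [Set.mem_neg, Set.mem_image]
    constructor
    · rintro ⟨t, ht, rfl⟩
      exact ⟨t, ht, by ring⟩
    · rintro ⟨t, ht, hy⟩
      exact ⟨t, ht, by linarith⟩
  rw [h1, Real.sInf_def, neg_neg]
  rcases le_total (sSup ((fun t => (k t i - h t i) - 1 / 2 * ‖x - h t‖) '' Icc (-2 : ℝ) 2))
    (-(1 / 2 * max (2 - ‖x‖) 0)) with h2 | h2
  · rw [max_eq_right h2, min_eq_right (by linarith)]
  · rw [max_eq_left h2, min_eq_left (by linarith), neg_neg]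

theorem T2a_bdd (d : ℝ → ℝ) (f : ℝ → E 3)
    (h2 : ∀ t, |d t| ≤ 1 / 2 * max (2 - ‖f t‖) 0) (x : E 3) :
    BddBelow ((fun t => d t + 1 / 2 * ‖x - f t‖) '' Icc (-2 : ℝ) 2) := by
  refine ⟨-1, ?_⟩
  rintro _ ⟨t, _, rfl⟩
  have h3 := neg_abs_le (d t)
  have h4 := h2 t
  have h5 : max (2 - ‖f t‖) 0 ≤ 2 := max_le (by linarith [norm_nonneg (f t)]) (by norm_num)
  have h6 := norm_nonneg (x - f t)
  show -1 ≤ d t + 1 / 2 * ‖x - f t‖
  linarith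

theorem T2a_ne (d : ℝ → ℝ) (f : ℝ → E 3) (x : E 3) :
    ((fun t => d t + 1 / 2 * ‖x - f t‖) '' Icc (-2 : ℝ) 2).Nonempty :=
  ⟨_, 0, by norm_num, rfl⟩

theorem T2a_up_at (d : ℝ → ℝ) (f : ℝ → E 3)
    (h1 : ∀ t ∈ Icc (-2 : ℝ) 2, ∀ s ∈ Icc (-2 : ℝ) 2, |d t - d s| ≤ 1 / 2 * ‖f t - f s‖)
    (h2 : ∀ t, |d t| ≤ 1 / 2 * max (2 - ‖f t‖) 0) (u : ℝ) (hu : u ∈ Icc (-2 : ℝ) 2) :
    T2a_up d f (f u) = d u := by
  unfold T2a_up
  have h3 : sInf ((fun t => d t + 1 / 2 * ‖f u - f t‖) '' Icc (-2 : ℝ) 2) = d u := by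
    apply le_antisymm
    · exact csInf_le (T2a_bdd d f h2 _) ⟨u, hu, by simp⟩
    · apply le_csInf (T2a_ne d f _)
      rintro _ ⟨t, ht, rfl⟩
      have h4 := (abs_le.mp (h1 u hu t ht)).2
      show d u ≤ d t + 1 / 2 * ‖f u - f t‖
      linarith
  rw [h3, min_eq_left]
  exact (le_abs_self _).trans (h2 u)

theorem T2a_up_lip1 (d : ℝ → ℝ) (f : ℝ → E 3)
    (h2 : ∀ t, |d t| ≤ 1 / 2 * max (2 - ‖f t‖) 0) (x y : E 3) :
    T2a_up d f x ≤ T2a_up d f y + 1 / 2 * ‖x - y‖ := by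
  unfold T2a_up
  rw [← min_add_add_right]
  apply le_min
  · refine (min_le_left _ _).trans ?_
    rw [← sub_le_iff_le_add]
    apply le_csInf (T2a_ne d f _)
    rintro _ ⟨t, ht, rfl⟩
    have h4 : sInf ((fun t => d t + 1 / 2 * ‖x - f t‖) '' Icc (-2 : ℝ) 2) ≤
      d t + 1 / 2 * ‖x - f t‖ := csInf_le (T2a_bdd d f h2 _) ⟨t, ht, rfl⟩
    have h5 : ‖x - f t‖ ≤ ‖x - y‖ + ‖y - f t‖ := norm_sub_le_norm_sub_add_norm_sub _ _ _
    show _ ≤ d t + 1 / 2 * ‖y - f t‖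
    linarith
  · refine (min_le_right _ _).trans ?_
    have h5 : ‖y‖ ≤ ‖x‖ + ‖x - y‖ := by
      have := norm_sub_norm_le y x
      rw [norm_sub_rev] at this
      linarith
    have h6 : max (2 - ‖x‖) 0 ≤ max (2 - ‖y‖) 0 + ‖x - y‖ := by
      apply max_le
      · linarith [le_max_left (2 - ‖y‖) 0]
      · linarith [le_max_right (2 - ‖y‖) 0, norm_nonneg (x - y)]
    linarith

theorem T2a_up_lip (d : ℝ → ℝ) (f : ℝ → E 3)
    (h2 : ∀ t, |d t| ≤ 1 / 2 * max (2 - ‖f t‖) 0) (x y : E 3) :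
    |T2a_up d f x - T2a_up d f y| ≤ 1 / 2 * ‖x - y‖ := by
  have h3 := T2a_up_lip1 d f h2 x y
  have h4 := T2a_up_lip1 d f h2 y x
  rw [norm_sub_rev] at h4
  rw [abs_le]
  constructor <;> linarith

theorem T2a_up_far (d : ℝ → ℝ) (f : ℝ → E 3)
    (h2 : ∀ t, |d t| ≤ 1 / 2 * max (2 - ‖f t‖) 0) (x : E 3) (hx : 2 ≤ ‖x‖) :
    T2a_up d f x = 0 := by
  unfold T2a_up
  have h3 : max (2 - ‖x‖) 0 = 0 := max_eq_right (by linarith)
  rw [h3, mul_zero, min_eq_right]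
  apply le_csInf (T2a_ne d f _)
  rintro _ ⟨t, ht, rfl⟩
  have h4 := h2 t
  have h5 := neg_abs_le (d t)
  have h6 : max (2 - ‖f t‖) 0 ≤ ‖x - f t‖ := by
    apply max_le
    · have := norm_sub_norm_le x (f t)
      linarith
    · exact norm_nonneg _
  show 0 ≤ d t + 1 / 2 * ‖x - f t‖
  linarith

theorem T2a_Loc (h k : ℝ → E 3) (x : E 3) (i : Fin 3) :
    Loc h k x i = x i + (T2a_up (fun t => k t i - h t i) h x -
      T2a_up (fun t => -(k t i - h t i)) h x) / 2 := by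
  have h1 : Loc h k x i = x i + (Dup h k i x + Ddn h k i x) / 2 := by
    unfold Loc
    simp
  rw [h1, T2a_Dup, T2a_Ddn]
  ring

theorem T2a_mv (h k : LongKnot 3) (C : ℝ)
    (hd : ∀ t, ‖deriv k.1 t - deriv h.1 t‖ ≤ 1 / (2 * C)) (t s : ℝ) :
    ‖(k.1 t - h.1 t) - (k.1 s - h.1 s)‖ ≤ 1 / (2 * C) * |t - s| := by
  have hk : ∀ t, DifferentiableAt ℝ k.1 t := fun t => k.2.smooth.differentiable (by simp) t
  have hh : ∀ t, DifferentiableAt ℝ h.1 t := fun t => h.2.smooth.differentiable (by simp) t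
  have h1 := Convex.norm_image_sub_le_of_norm_deriv_le (𝕜 := ℝ) (f := fun t => k.1 t - h.1 t)
    (C := 1 / (2 * C)) (s := Set.univ) (x := s) (y := t)
    (fun u _ => (hk u).sub (hh u)) (fun u _ => by
      rw [show deriv (fun t => k.1 t - h.1 t) u = deriv k.1 u - deriv h.1 u from
        deriv_sub (hk u) (hh u)]
      exact hd u) convex_univ (Set.mem_univ _) (Set.mem_univ _)
  simpa using h1

theorem T2a_star (h k : LongKnot 3) (C : ℝ) (hC : 1 ≤ C)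
    (hbi : ∀ t ∈ Icc (-2 : ℝ) 2, ∀ s ∈ Icc (-2 : ℝ) 2, |t - s| ≤ C * ‖h.1 t - h.1 s‖)
    (hd : ∀ t, ‖deriv k.1 t - deriv h.1 t‖ ≤ 1 / (2 * C)) (i : Fin 3) :
    ∀ t ∈ Icc (-2 : ℝ) 2, ∀ s ∈ Icc (-2 : ℝ) 2,
      |(k.1 t i - h.1 t i) - (k.1 s i - h.1 s i)| ≤ 1 / 2 * ‖h.1 t - h.1 s‖ := by
  intro t ht s hs
  have h1 := T2a_mv h k C hd t s
  have h2 := hbi t ht s hs
  have h3 : |(k.1 t i - h.1 t i) - (k.1 s i - h.1 s i)| ≤
      ‖(k.1 t - h.1 t) - (k.1 s - h.1 s)‖ := by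
    have := PiLp.norm_apply_le ((k.1 t - h.1 t) - (k.1 s - h.1 s)) i
    simpa using this
  have hC0 : 0 < C := by linarith
  calc |(k.1 t i - h.1 t i) - (k.1 s i - h.1 s i)|
      ≤ 1 / (2 * C) * |t - s| := h3.trans h1
    _ ≤ 1 / (2 * C) * (C * ‖h.1 t - h.1 s‖) := by gcongr
    _ = 1 / 2 * ‖h.1 t - h.1 s‖ := by field_simp

theorem T2a_star2 (h k : LongKnot 3) (C : ℝ) (hC : 1 ≤ C)
    (hd : ∀ t, ‖deriv k.1 t - deriv h.1 t‖ ≤ 1 / (2 * C)) (i : Fin 3) (t : ℝ) :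
    |k.1 t i - h.1 t i| ≤ 1 / 2 * max (2 - ‖h.1 t‖) 0 := by
  rcases le_total 1 |t| with ht | ht
  · rw [k.2.standard t ht, h.2.standard t ht, sub_self, abs_zero]
    positivity
  · have hin := h.2.inBall t ht
    have hC0 : 0 < C := by linarith
    have h0 : ∃ s : ℝ, 1 ≤ |s| ∧ |t - s| ≤ 1 := by
      rcases le_total 0 t with h0 | h0
      · refine ⟨1, by simp, ?_⟩
        rw [abs_of_nonneg h0] at ht
        rw [abs_le]; constructor <;> linarith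
      · refine ⟨-1, by simp, ?_⟩
        rw [abs_of_nonpos h0] at ht
        rw [abs_le]; constructor <;> linarith
    obtain ⟨s, hs, hts⟩ := h0
    have h1 := T2a_mv h k C hd t s
    have h3 : |(k.1 t i - h.1 t i) - (k.1 s i - h.1 s i)| ≤
        ‖(k.1 t - h.1 t) - (k.1 s - h.1 s)‖ := by
      have := PiLp.norm_apply_le ((k.1 t - h.1 t) - (k.1 s - h.1 s)) i
      simpa using this
    simp only [k.2.standard s hs, h.2.standard s hs, sub_self, sub_zero] at h3 h1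
    have h4 : 1 / (2 * C) * |t - s| ≤ 1 / 2 := by
      calc 1 / (2 * C) * |t - s| ≤ 1 / (2 * C) * 1 := by gcongr
        _ ≤ 1 / 2 := by
          rw [mul_one]
          apply one_div_le_one_div_of_le (by norm_num)
          linarith
    have h5 : 1 ≤ max (2 - ‖h.1 t‖) 0 := le_max_of_le_left (by linarith)
    linarith

theorem T2a (h k : LongKnot 3) (C : ℝ) (hC : 1 ≤ C)
    (hbi : ∀ t ∈ Icc (-2 : ℝ) 2, ∀ s ∈ Icc (-2 : ℝ) 2, |t - s| ≤ C * ‖h.1 t - h.1 s‖)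
    (hd : ∀ t, ‖deriv k.1 t - deriv h.1 t‖ ≤ 1 / (2 * C)) :
    (∀ u, Loc h.1 k.1 (h.1 u) = k.1 u) ∧ Function.Injective (Loc h.1 k.1) ∧
      (∀ x, 2 ≤ ‖x‖ → Loc h.1 k.1 x = x) := by
  have s1 := T2a_star h k C hC hbi hd
  have s2 := T2a_star2 h k C hC hd
  have s1' : ∀ i : Fin 3, ∀ t ∈ Icc (-2 : ℝ) 2, ∀ s ∈ Icc (-2 : ℝ) 2,
      |(-(k.1 t i - h.1 t i)) - (-(k.1 s i - h.1 s i))| ≤ 1 / 2 * ‖h.1 t - h.1 s‖ := by
    intro i t ht s hs
    have := s1 i t ht s hs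
    rwa [show (-(k.1 t i - h.1 t i)) - (-(k.1 s i - h.1 s i)) =
      -((k.1 t i - h.1 t i) - (k.1 s i - h.1 s i)) by ring, abs_neg]
  have s2' : ∀ i : Fin 3, ∀ t, |-(k.1 t i - h.1 t i)| ≤ 1 / 2 * max (2 - ‖h.1 t‖) 0 := by
    intro i t
    rw [abs_neg]; exact s2 i t
  have far : ∀ x, 2 ≤ ‖x‖ → Loc h.1 k.1 x = x := by
    intro x hx
    ext i
    rw [T2a_Loc, T2a_up_far _ _ (s2 i) x hx, T2a_up_far _ _ (s2' i) x hx]
    simp
  refine ⟨?_, ?_, far⟩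
  · intro u
    rcases le_total |u| 2 with hu | hu
    · have hu' : u ∈ Icc (-2 : ℝ) 2 := ⟨by linarith [neg_abs_le u], by linarith [le_abs_self u]⟩
      ext i
      rw [T2a_Loc, T2a_up_at _ _ (s1 i) (s2 i) u hu', T2a_up_at _ _ (s1' i) (s2' i) u hu']
      ring
    · have h1 : (1 : ℝ) ≤ |u| := by linarith
      have h2 : h.1 u = k.1 u := by rw [k.2.standard u h1, h.2.standard u h1]
      rw [far _ ?_, h2]
      rw [h.2.standard u h1, axis, PiLp.norm_single]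
      simpa using hu
  · intro x y hxy
    have hD : ∀ i : Fin 3, |x i - y i| ≤ 1 / 2 * ‖x - y‖ := by
      intro i
      have h1 := congrArg (fun z : E 3 => z i) hxy
      simp only [T2a_Loc] at h1
      have h2 := abs_le.mp (T2a_up_lip _ _ (s2 i) x y)
      have h3 := abs_le.mp (T2a_up_lip _ _ (s2' i) x y)
      rw [abs_le]
      constructor <;> linarith [h2.1, h2.2, h3.1, h3.2]
    have h5 : ‖x - y‖ ^ 2 ≤ 3 / 4 * ‖x - y‖ ^ 2 := by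
      have h6 : ‖x - y‖ ^ 2 = ∑ i : Fin 3, |x i - y i| ^ 2 := by
        rw [EuclideanSpace.norm_eq, Real.sq_sqrt (by positivity)]
        simp
      have h7 : ∑ i : Fin 3, |x i - y i| ^ 2 ≤ ∑ i : Fin 3, (1 / 2 * ‖x - y‖) ^ 2 :=
        Finset.sum_le_sum (fun i _ => pow_le_pow_left₀ (abs_nonneg _) (hD i) 2)
      calc ‖x - y‖ ^ 2 = ∑ i : Fin 3, |x i - y i| ^ 2 := h6
        _ ≤ ∑ i : Fin 3, (1 / 2 * ‖x - y‖) ^ 2 := h7
        _ = 3 / 4 * ‖x - y‖ ^ 2 := by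
          simp only [Finset.sum_const, Finset.card_univ, Fintype.card_fin]
          simp only [nsmul_eq_mul]
          push_cast
          ring
    have h8 : ‖x - y‖ = 0 := by
      have : ‖x - y‖ ^ 2 = 0 := le_antisymm (by nlinarith [sq_nonneg ‖x - y‖]) (sq_nonneg _)
      exact pow_eq_zero_iff (two_ne_zero) |>.mp this
    exact sub_eq_zero.mp (norm_eq_zero.mp h8)

theorem T2a_self (h : ℝ → E 3) (x : E 3) : Loc h h x = x := by
  ext i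
  rw [T2a_Loc]
  simp

end LK
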