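import Pool.Agent.H64.LK.TDefs

/-!
# T2b: joint continuity of `Loc`

`(h, t) ↦ h.1 t` is continuous on `LongKnot 3 × ℝ` (the topology of `LongKnot 3` is induced from
`ℕ → C(ℝ, E 3)`, take the component `0`, `iteratedDeriv_zero`, and evaluation is continuous). Hence
`((h, k), x, t) ↦ (k t i - h t i) + 1/2 ‖x - h t‖` is continuous, and the infimum over the compact set
`[-2, 2]` is continuous: `IsCompact.continuous_sInf`, `IsCompact.continuous_sSup`
(Mathlib/Topology/Order/Compact.lean or Mathlib/Topology/Algebra/Order/Compact.lean). Then min, max, and the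
coordinates (continuity of `WithLp.toLp 2` : `PiLp.continuous_toLp`).
-/

open scoped ContDiff unitInterval
open Topology Set

namespace LK

theorem T2b_eval : Continuous (fun q : LongKnot 3 × ℝ => q.1.1 q.2) := by
  have h1 : Continuous (fun f : LongKnot 3 => jets f.1 f.2.smooth) := continuous_induced_dom
  have h2 : Continuous (fun f : LongKnot 3 => jets f.1 f.2.smooth 0) :=
    (continuous_apply 0).comp h1
  have h3 : Continuous (fun q : LongKnot 3 × ℝ => (jets q.1.1 q.1.2.smooth 0) q.2) :=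
    (h2.comp continuous_fst).eval continuous_snd
  refine h3.congr fun q => ?_
  simp [jets]

theorem T2b_up (i : Fin 3) :
    Continuous (fun q : (LongKnot 3 × LongKnot 3) × E 3 => Dup q.1.1.1 q.1.2.1 i q.2) := by
  unfold Dup
  refine Continuous.min ?_ (by fun_prop)
  refine IsCompact.continuous_sInf
    (f := fun (q : (LongKnot 3 × LongKnot 3) × E 3) (t : ℝ) =>
      (q.1.2.1 t i - q.1.1.1 t i) + 1 / 2 * ‖q.2 - q.1.1.1 t‖) isCompact_Icc ?_
  have hh : Continuous (fun r : ((LongKnot 3 × LongKnot 3) × E 3) × ℝ => r.1.1.1.1 r.2) :=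
    T2b_eval.comp (by fun_prop :
      Continuous fun r : ((LongKnot 3 × LongKnot 3) × E 3) × ℝ => (r.1.1.1, r.2))
  have hk : Continuous (fun r : ((LongKnot 3 × LongKnot 3) × E 3) × ℝ => r.1.1.2.1 r.2) :=
    T2b_eval.comp (by fun_prop :
      Continuous fun r : ((LongKnot 3 × LongKnot 3) × E 3) × ℝ => (r.1.1.2, r.2))
  show Continuous (fun r : ((LongKnot 3 × LongKnot 3) × E 3) × ℝ =>
    (r.1.1.2.1 r.2 i - r.1.1.1.1 r.2 i) + 1 / 2 * ‖r.1.2 - r.1.1.1.1 r.2‖)
  have c1 : Continuous (fun r : ((LongKnot 3 × LongKnot 3) × E 3) × ℝ => r.1.1.2.1 r.2 i) :=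
    (PiLp.continuous_apply 2 _ i).comp hk
  have c2 : Continuous (fun r : ((LongKnot 3 × LongKnot 3) × E 3) × ℝ => r.1.1.1.1 r.2 i) :=
    (PiLp.continuous_apply 2 _ i).comp hh
  have c3 : Continuous (fun r : ((LongKnot 3 × LongKnot 3) × E 3) × ℝ =>
      ‖r.1.2 - r.1.1.1.1 r.2‖) :=
    (((continuous_snd.comp continuous_fst)).sub hh).norm
  exact (c1.sub c2).add (continuous_const.mul c3)

theorem T2b_dn (i : Fin 3) :
    Continuous (fun q : (LongKnot 3 × LongKnot 3) × E 3 => Ddn q.1.1.1 q.1.2.1 i q.2) := by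
  unfold Ddn
  refine Continuous.max ?_ (by fun_prop)
  refine IsCompact.continuous_sSup
    (f := fun (q : (LongKnot 3 × LongKnot 3) × E 3) (t : ℝ) =>
      (q.1.2.1 t i - q.1.1.1 t i) - 1 / 2 * ‖q.2 - q.1.1.1 t‖) isCompact_Icc ?_
  have hh : Continuous (fun r : ((LongKnot 3 × LongKnot 3) × E 3) × ℝ => r.1.1.1.1 r.2) :=
    T2b_eval.comp (by fun_prop :
      Continuous fun r : ((LongKnot 3 × LongKnot 3) × E 3) × ℝ => (r.1.1.1, r.2))
  have hk : Continuous (fun r : ((LongKnot 3 × LongKnot 3) × E 3) × ℝ => r.1.1.2.1 r.2) :=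
    T2b_eval.comp (by fun_prop :
      Continuous fun r : ((LongKnot 3 × LongKnot 3) × E 3) × ℝ => (r.1.1.2, r.2))
  show Continuous (fun r : ((LongKnot 3 × LongKnot 3) × E 3) × ℝ =>
    (r.1.1.2.1 r.2 i - r.1.1.1.1 r.2 i) - 1 / 2 * ‖r.1.2 - r.1.1.1.1 r.2‖)
  have c1 : Continuous (fun r : ((LongKnot 3 × LongKnot 3) × E 3) × ℝ => r.1.1.2.1 r.2 i) :=
    (PiLp.continuous_apply 2 _ i).comp hk
  have c2 : Continuous (fun r : ((LongKnot 3 × LongKnot 3) × E 3) × ℝ => r.1.1.1.1 r.2 i) :=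
    (PiLp.continuous_apply 2 _ i).comp hh
  have c3 : Continuous (fun r : ((LongKnot 3 × LongKnot 3) × E 3) × ℝ =>
      ‖r.1.2 - r.1.1.1.1 r.2‖) :=
    (((continuous_snd.comp continuous_fst)).sub hh).norm
  exact (c1.sub c2).sub (continuous_const.mul c3)

theorem T2b : Continuous (fun q : (LongKnot 3 × LongKnot 3) × E 3 => Loc q.1.1.1 q.1.2.1 q.2) := by
  unfold Loc
  refine continuous_snd.add ?_
  refine (PiLp.continuous_toLp 2 _).comp ?_
  refine continuous_pi fun i => ?_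
  exact ((T2b_up i).add (T2b_dn i)).div_const 2

end LK
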