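import Pool.Agent.H64.LK.T1
import Pool.Agent.H64.LK.T2a
import Pool.Agent.H64.LK.T2b

/-!
# T3: lifting a homotopy of long knots to ambient maps

Proof. By T1 for the compact family `H` get `C`. The map `(s, t, u) ↦ deriv (H (s,t)).1 u` is
continuous on the compact space `I × I × [-1, 1]`, hence uniformly continuous: there is `N ≥ 1` with
`‖deriv (H (s,t)).1 u - deriv (H (s,t')).1 u‖ ≤ 1 / (2C)` whenever `|t - t'| ≤ 1/N`, `|u| ≤ 1`; for `|u| ≥ 1`
the two derivatives are equal (for `|u| > 1` both curves are standard near `u`; at `u = ±1` use `|u| ≤ 1`).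
For `j ≤ N` define `Φ_j : (I × I) × E 3 → E 3` by `Φ_0 (p, x) = x` and
`Φ_{j+1} ((s, t), x) = Loc (H (s, min t (j/N))) (H (s, min t ((j+1)/N))) (Φ_j ((s, t), x))`.
By induction on `j ≤ N`: `Φ_j` is continuous (T2b), `Φ_j ((s,t), g u) = H (s, min t (j/N)) u` (T2a, the
two times differ by at most `1/N`; for `j = 0`, `min t 0 = 0` and `H (s, 0) = g`), `Φ_j (p, ·)` is
injective, equal to the identity for `‖x‖ ≥ 2`, and `Φ_j ((s, 0), x) = x` (`Loc h h = id`, T2a_self).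
Take `Φ = Φ_N` (`min t 1 = t`).
-/

open scoped ContDiff unitInterval
open Topology Set

namespace LK

theorem T3_deriv (h k : LongKnot 3) (u : ℝ) (hu : 1 < |u|) : deriv h.1 u = deriv k.1 u := by
  apply Filter.EventuallyEq.deriv_eq
  have h1 : ∀ᶠ t in 𝓝 u, 1 < |t| := (continuous_abs.tendsto u).eventually (lt_mem_nhds hu)
  filter_upwards [h1] with t ht
  rw [h.2.standard t ht.le, k.2.standard t ht.le]

theorem T3_contDeriv : Continuous (fun q : LongKnot 3 × ℝ => deriv q.1.1 q.2) := by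
  have h1 : Continuous (fun f : LongKnot 3 => jets f.1 f.2.smooth) := continuous_induced_dom
  have h2 : Continuous (fun f : LongKnot 3 => jets f.1 f.2.smooth 1) :=
    (continuous_apply 1).comp h1
  have h3 : Continuous (fun q : LongKnot 3 × ℝ => (jets q.1.1 q.1.2.smooth 1) q.2) :=
    (h2.comp continuous_fst).eval continuous_snd
  refine h3.congr fun q => ?_
  simp [jets, iteratedDeriv_one]

theorem T3_unif (H : C(I × I, LongKnot 3)) (ε : ℝ) (hε : 0 < ε) :
    ∃ N : ℕ, 0 < N ∧ ∀ s t t' : I, |(t : ℝ) - t'| ≤ 1 / N → ∀ u : ℝ,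
      ‖deriv (H (s, t)).1 u - deriv (H (s, t')).1 u‖ ≤ ε := by
  have hc : Continuous (fun q : (I × I) × Icc (-1 : ℝ) 1 => deriv (H q.1).1 (q.2 : ℝ)) :=
    T3_contDeriv.comp ((H.continuous.comp continuous_fst).prodMk
      (continuous_subtype_val.comp continuous_snd))
  have hu := CompactSpace.uniformContinuous_of_continuous hc
  obtain ⟨δ, hδ, hδ'⟩ := Metric.uniformContinuous_iff.1 hu ε hε
  obtain ⟨N, hN⟩ := exists_nat_gt (1 / δ)
  have hN0 : (0 : ℝ) < N := (one_div_pos.2 hδ).trans hN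
  refine ⟨N, by exact_mod_cast hN0, fun s t t' htt' u => ?_⟩
  have h1N : 1 / (N : ℝ) < δ := by
    rw [div_lt_iff₀ hN0]
    rw [div_lt_iff₀ hδ] at hN
    linarith
  by_cases hu1 : |u| ≤ 1
  · have hmem : u ∈ Icc (-1 : ℝ) 1 := abs_le.1 hu1
    have := hδ' (a := ((s, t), ⟨u, hmem⟩)) (b := ((s, t'), ⟨u, hmem⟩)) (by
      rw [Prod.dist_eq, Prod.dist_eq]
      simp only [dist_self, max_lt_iff]
      refine ⟨⟨hδ, ?_⟩, hδ⟩
      rw [Subtype.dist_eq, Real.dist_eq]
      exact htt'.trans_lt h1N)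
    rw [dist_eq_norm] at this
    exact this.le
  · rw [T3_deriv (H (s, t)) (H (s, t')) u (not_le.1 hu1), sub_self, norm_zero]
    exact hε.le

/-- the intermediate times -/
noncomputable def T3_c (N j : ℕ) : I := projIcc 0 1 zero_le_one ((j : ℝ) / N)

theorem T3_c_zero (N : ℕ) : T3_c N 0 = 0 := by
  simp [T3_c, projIcc, Subtype.ext_iff]

theorem T3_c_N (N : ℕ) (hN : 0 < N) : T3_c N N = 1 := by
  have : (N : ℝ) ≠ 0 := by positivity
  simp [T3_c, projIcc, Subtype.ext_iff, div_self this]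

theorem T3_c_step (N j : ℕ) (t : I) :
    |((min t (T3_c N j) : I) : ℝ) - (min t (T3_c N (j + 1)) : I)| ≤ 1 / N := by
  have h1 : |((T3_c N j : I) : ℝ) - (T3_c N (j + 1) : I)| ≤ |(j : ℝ) / N - ((j + 1 : ℕ) : ℝ) / N| := by
    exact abs_projIcc_sub_projIcc zero_le_one
  have h2 : |(j : ℝ) / N - ((j + 1 : ℕ) : ℝ) / N| = 1 / N := by
    push_cast
    rw [show (j : ℝ) / N - ((j : ℝ) + 1) / N = -(1 / N) by ring, abs_neg, abs_of_nonneg (by positivity)]
  have h3 : ∀ c : I, ((min t c : I) : ℝ) = min (t : ℝ) c := fun c => by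
    rcases le_total t c with h | h
    · rw [min_eq_left h, min_eq_left (Subtype.coe_le_coe.2 h)]
    · rw [min_eq_right h, min_eq_right (Subtype.coe_le_coe.2 h)]
  rw [h3, h3]
  refine (abs_min_sub_min_le_max _ _ _ _).trans ?_
  rw [sub_self, abs_zero]
  exact max_le (by positivity) (h1.trans h2.le)

theorem T3_step (H : C(I × I, LongKnot 3)) (g : LongKnot 3) (h0 : ∀ s, H (s, 0) = g)
    (C : ℝ) (hC : 1 ≤ C)
    (hbi : ∀ p : I × I, ∀ t ∈ Icc (-2 : ℝ) 2, ∀ s ∈ Icc (-2 : ℝ) 2,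
      |t - s| ≤ C * ‖(H p).1 t - (H p).1 s‖)
    (N : ℕ) (hN : ∀ s t t' : I, |(t : ℝ) - t'| ≤ 1 / N → ∀ u : ℝ,
      ‖deriv (H (s, t)).1 u - deriv (H (s, t')).1 u‖ ≤ 1 / (2 * C)) (j : ℕ) :
    ∃ Φ : C((I × I) × E 3, E 3), (∀ s x, Φ ((s, 0), x) = x) ∧
      (∀ p u, Φ (p, g.1 u) = (H (p.1, min p.2 (T3_c N j))).1 u) ∧
      (∀ p, Function.Injective fun x => Φ (p, x)) ∧
      (∀ p x, 2 ≤ ‖x‖ → Φ (p, x) = x) := by
  induction j with
  | zero =>
    refine ⟨⟨fun q => q.2, continuous_snd⟩, fun _ _ => rfl, fun p u => ?_, fun p => ?_,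
      fun _ _ _ => rfl⟩
    · have : min p.2 (0 : I) = 0 := min_eq_right unitInterval.nonneg'
      rw [T3_c_zero, this, h0]
      rfl
    · exact fun x y hxy => hxy
  | succ j ih =>
    obtain ⟨Φ, i1, i2, i3, i4⟩ := ih
    have hT : ∀ p : I × I, _ := fun p => T2a (H (p.1, min p.2 (T3_c N j)))
      (H (p.1, min p.2 (T3_c N (j + 1)))) C hC (hbi _) (fun u => by
        rw [norm_sub_rev]
        exact hN _ _ _ (T3_c_step N j p.2) u)
    have hm : ∀ c : I, Continuous (fun q : (I × I) × E 3 => H (q.1.1, min q.1.2 c)) := fun c => by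
      refine H.continuous.comp ?_
      fun_prop
    refine ⟨⟨fun q => Loc (H (q.1.1, min q.1.2 (T3_c N j))).1
      (H (q.1.1, min q.1.2 (T3_c N (j + 1)))).1 (Φ q), ?_⟩, fun s x => ?_, fun p u => ?_,
      fun p => ?_, fun p x hx => ?_⟩
    · exact T2b.comp (((hm _).prodMk (hm _)).prodMk Φ.continuous)
    · have : ∀ c : I, min (0 : I) c = 0 := fun c => min_eq_left unitInterval.nonneg'
      simp only [ContinuousMap.coe_mk, this, h0, i1]
      exact T2a_self _ _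
    · simp only [ContinuousMap.coe_mk]
      rw [i2]
      exact (hT p).1 u
    · intro x y hxy
      simp only [ContinuousMap.coe_mk] at hxy
      exact i3 p ((hT p).2.1 hxy)
    · simp only [ContinuousMap.coe_mk]
      rw [i4 p x hx]
      exact (hT p).2.2 x hx

theorem T3 (H : C(I × I, LongKnot 3)) (g : LongKnot 3) (h0 : ∀ s, H (s, 0) = g) :
    ∃ Φ : C((I × I) × E 3, E 3), (∀ s x, Φ ((s, 0), x) = x) ∧
      (∀ p u, Φ (p, g.1 u) = (H p).1 u) ∧ (∀ p, Function.Injective fun x => Φ (p, x)) ∧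
      (∀ p x, 2 ≤ ‖x‖ → Φ (p, x) = x) := by
  obtain ⟨C, hC, hbi⟩ := T1 H
  obtain ⟨N, hN0, hN⟩ := T3_unif H (1 / (2 * C)) (by positivity)
  obtain ⟨Φ, i1, i2, i3, i4⟩ := T3_step H g h0 C hC hbi N hN N
  refine ⟨Φ, i1, fun p u => ?_, i3, i4⟩
  have : min p.2 (1 : I) = p.2 := min_eq_left unitInterval.le_one'
  rw [i2, T3_c_N N hN0, this]

end LK
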