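import Pool.Agent.H64.LK.T3

/-!
# T4: the transport of loops of the complement only depends on the homotopy class

`α, β` loops at `g` in the space of long knots, homotopic (rel. endpoints). `A`, `A'` are ambient
isotopies (with inverses `Ai`, `Ai'`) with `A_0 = id`, `A_θ ∘ g = α_θ`, `A'_0 = id`, `A'_θ ∘ g = β_θ`, both fixing
the point `x` with `‖x‖ ≥ 2`. Then for a loop `γ` at `x` in the complement `M` of `g`, the loops
`γ1 = A_1 ∘ γ` and `γ2 = A'_1 ∘ γ` are homotopic in `M`.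

Proof. Let `F` be the homotopy from `α` to `β`, `F(0, t) = α t`, `F(1, t) = β t`, `F(s, 0) = F(s, 1) = g`
(`Path.Homotopy`, a continuous map `I × I → LongKnot 3`), and `Φ` from T3 applied to it.
For each `p = (s, t)` the map `Φ_p` is injective and carries `g u` to `F(p) u`; so
`Φ_p x ∈ range F(p)` iff `x ∈ range g`. (1) The family `t ↦ (u ↦ Ai (t, Φ ((0, t), γ u)))`, `t ∈ I`, is
a homotopy of loops in `M`: if `Ai(t, Φ((0,t), y)) = g w` then `Φ((0,t), y) = A(t, g w) = α_t w`, so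
`y ∈ range g`. It fixes the base point `x` (`Φ = id` for `‖x‖ ≥ 2`, `Ai(t, x) = x`). At `t = 0` it is `γ`,
at `t = 1` it is `Ai_1 ∘ Φ_(0,1) ∘ γ`. Applying `A_1 : M → M` (it maps the complement of `g` to the
complement of `α_1 = g`): `γ1 = A_1 ∘ γ ≃ Φ_(0,1) ∘ γ` in `M`. (2) Similarly `γ2 = A'_1 ∘ γ ≃ Φ_(1,1) ∘ γ`.
(3) `s ↦ Φ_(s,1) ∘ γ` is a homotopy in `M` (the complement of `F(s,1) = g`) with fixed base point from
`Φ_(0,1) ∘ γ` to `Φ_(1,1) ∘ γ`.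
-/

open scoped ContDiff unitInterval
open Topology Set

namespace LK

theorem T4_mk {S : Set (E 3)} {x : E 3} {hx : x ∉ S}
    (γ1 γ2 : Path (⟨x, hx⟩ : {y : E 3 // y ∉ S}) ⟨x, hx⟩) (K : I × I → E 3)
    (hK : Continuous K) (hmem : ∀ p, K p ∉ S) (h0 : ∀ u, K (0, u) = (γ1 u).1)
    (h1 : ∀ u, K (1, u) = (γ2 u).1) (hb0 : ∀ t, K (t, 0) = x) (hb1 : ∀ t, K (t, 1) = x) :
    γ1.Homotopic γ2 := by
  refine ⟨{ toFun := fun p => ⟨K p, hmem p⟩
            continuous_toFun := hK.subtype_mk _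
            map_zero_left := fun u => Subtype.ext (h0 u)
            map_one_left := fun u => Subtype.ext (h1 u)
            prop' := ?_ }⟩
  intro t u hu
  apply Subtype.ext
  rcases hu with hu | hu
  · subst hu
    simp [hb0]
  · rw [mem_singleton_iff] at hu
    subst hu
    simp [hb1]

theorem T4_half (g : LongKnot 3) (α : Path g g) (A Ai : C(I × E 3, E 3))
    (hAi : ∀ θ x, Ai (θ, A (θ, x)) = x) (hAi2 : ∀ θ x, A (θ, Ai (θ, x)) = x)
    (hA0 : ∀ x, A (0, x) = x) (hα : ∀ θ t, (α θ).1 t = A (θ, g.1 t))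
    (x : E 3) (hx : x ∉ range g.1) (hfix : ∀ θ, A (θ, x) = x)
    (γ γ1 δ : Path (⟨x, hx⟩ : {y : E 3 // y ∉ range g.1}) ⟨x, hx⟩)
    (h1 : ∀ u, (γ1 u).1 = A (1, (γ u).1)) (Ψ : I × E 3 → E 3) (hΨ : Continuous Ψ)
    (hΨ0 : ∀ y, Ψ (0, y) = y) (hΨg : ∀ t u, Ψ (t, g.1 u) = (α t).1 u)
    (hΨi : ∀ t, Function.Injective fun y => Ψ (t, y)) (hΨx : ∀ t, Ψ (t, x) = x)
    (hδ : ∀ u, (δ u).1 = Ψ (1, (γ u).1)) : γ1.Homotopic δ := by
  have hAx : ∀ θ, Ai (θ, x) = x := fun θ => by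
    have := hAi θ x
    rwa [hfix θ] at this
  have hA00 : ∀ y, Ai (0, y) = y := fun y => by
    have := hAi 0 y
    rwa [hA0 y] at this
  refine T4_mk γ1 δ (fun p => A (1, Ai (p.1, Ψ (p.1, (γ p.2).1)))) ?_ ?_ ?_ ?_ ?_ ?_
  · fun_prop
  · rintro ⟨t, u⟩ ⟨v, hv⟩
    have hv' : g.1 v = A (1, Ai (t, Ψ (t, (γ u).1))) := hv
    have e1 : g.1 v = A (1, g.1 v) := by
      rw [← hα 1 v, α.target]
    have e2 : Ai (t, Ψ (t, (γ u).1)) = g.1 v := by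
      have h2 := hAi 1 (Ai (t, Ψ (t, (γ u).1)))
      have h3 := hAi 1 (g.1 v)
      rw [← h2, ← hv', e1, h3, ← e1]
    have e3 : Ψ (t, (γ u).1) = Ψ (t, g.1 v) := by
      rw [hΨg, hα, ← e2, hAi2]
    exact (γ u).2 ⟨v, (hΨi t e3).symm⟩
  · intro u
    simp only [h1, hΨ0, hA00]
  · intro u
    simp only [hδ, hAi2]
  · intro t
    have : (γ 0).1 = x := by rw [γ.source]
    simp only [this, hΨx, hAx, hfix]
  · intro t
    have : (γ 1).1 = x := by rw [γ.target]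
    simp only [this, hΨx, hAx, hfix]

theorem T4 (g : LongKnot 3) (α β : Path g g) (hαβ : α.Homotopic β)
    (A Ai A' Ai' : C(I × E 3, E 3))
    (hAi : ∀ θ x, Ai (θ, A (θ, x)) = x) (hAi2 : ∀ θ x, A (θ, Ai (θ, x)) = x)
    (hAi' : ∀ θ x, Ai' (θ, A' (θ, x)) = x) (hAi2' : ∀ θ x, A' (θ, Ai' (θ, x)) = x)
    (hA0 : ∀ x, A (0, x) = x) (hA0' : ∀ x, A' (0, x) = x)
    (hα : ∀ θ t, (α θ).1 t = A (θ, g.1 t)) (hβ : ∀ θ t, (β θ).1 t = A' (θ, g.1 t))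
    (x : E 3) (hx2 : 2 ≤ ‖x‖) (hx : x ∉ range g.1) (hfix : ∀ θ, A (θ, x) = x)
    (hfix' : ∀ θ, A' (θ, x) = x)
    (γ γ1 γ2 : Path (⟨x, hx⟩ : {y : E 3 // y ∉ range g.1}) ⟨x, hx⟩)
    (h1 : ∀ u, (γ1 u).1 = A (1, (γ u).1)) (h2 : ∀ u, (γ2 u).1 = A' (1, (γ u).1)) :
    γ1.Homotopic γ2 := by
  obtain ⟨F⟩ := hαβ
  obtain ⟨Φ, hΦ0, hΦg, hΦi, hΦx⟩ := T3 F.toContinuousMap g (fun s => by
    have := F.source s
    exact this)
  have hF0 : ∀ t, F (0, t) = α t := fun t => F.map_zero_left t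
  have hF1 : ∀ t, F (1, t) = β t := fun t => F.map_one_left t
  have hFt : ∀ s, F (s, 1) = g := fun s => F.target s
  have hΦg' : ∀ p u, Φ (p, g.1 u) = (F p).1 u := hΦg
  -- the maps preserve the complement
  have hmem : ∀ s : I, ∀ y, y ∉ range g.1 → Φ ((s, 1), y) ∉ range g.1 := by
    rintro s y hy ⟨v, hv⟩
    have e : Φ ((s, 1), y) = Φ ((s, 1), g.1 v) := by rw [hΦg', hFt, hv]
    exact hy ⟨v, (hΦi (s, 1) e).symm⟩
  have hcont : ∀ s : I, Continuous fun u => Φ ((s, 1), (γ u).1) := fun s => by fun_prop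
  have hγ0 : (γ 0).1 = x := by rw [γ.source]
  have hγ1 : (γ 1).1 = x := by rw [γ.target]
  let δ : I → Path (⟨x, hx⟩ : {y : E 3 // y ∉ range g.1}) ⟨x, hx⟩ := fun s =>
    { toFun := fun u => ⟨Φ ((s, 1), (γ u).1), hmem s _ (γ u).2⟩
      continuous_toFun := (hcont s).subtype_mk _
      source' := Subtype.ext (by simp only [hγ0, hΦx _ x hx2])
      target' := Subtype.ext (by simp only [hγ1, hΦx _ x hx2]) }
  have hδ : ∀ s u, (δ s u).1 = Φ ((s, 1), (γ u).1) := fun s u => rfl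
  have k1 : γ1.Homotopic (δ 0) :=
    T4_half g α A Ai hAi hAi2 hA0 hα x hx hfix γ γ1 (δ 0) h1
      (fun q => Φ ((0, q.1), q.2)) (by fun_prop) (fun y => hΦ0 0 y)
      (fun t u => by rw [hΦg', hF0]) (fun t => hΦi (0, t)) (fun t => hΦx _ x hx2)
      (fun u => hδ 0 u)
  have k2 : γ2.Homotopic (δ 1) :=
    T4_half g β A' Ai' hAi' hAi2' hA0' hβ x hx hfix' γ γ2 (δ 1) h2
      (fun q => Φ ((1, q.1), q.2)) (by fun_prop) (fun y => hΦ0 1 y)
      (fun t u => by rw [hΦg', hF1]) (fun t => hΦi (1, t)) (fun t => hΦx _ x hx2)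
      (fun u => hδ 1 u)
  have k3 : (δ 0).Homotopic (δ 1) := by
    refine T4_mk (δ 0) (δ 1) (fun p => Φ ((p.1, 1), (γ p.2).1)) (by fun_prop) ?_ ?_ ?_ ?_ ?_
    · rintro ⟨s, u⟩
      exact hmem s _ (γ u).2
    · intro u; rw [hδ]
    · intro u; rw [hδ]
    · intro s; simp only [hγ0, hΦx _ x hx2]
    · intro s; simp only [hγ1, hΦx _ x hx2]
  exact k1.trans (k3.trans k2.symm)

end LK
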