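import Pool.Agent.H64.LK.Defs

/-!
# The local ambient maps `Loc h k` (definitions)
-/

open scoped ContDiff unitInterval
open Topology Set

namespace LK

/-- Upper McShane extension, cut off at distance `2`. -/
noncomputable def Dup (h k : ℝ → E 3) (i : Fin 3) (x : E 3) : ℝ :=
  min (sInf ((fun t => (k t i - h t i) + 1 / 2 * ‖x - h t‖) '' Icc (-2 : ℝ) 2))
    (1 / 2 * max (2 - ‖x‖) 0)

/-- Lower McShane extension, cut off at distance `2`. -/
noncomputable def Ddn (h k : ℝ → E 3) (i : Fin 3) (x : E 3) : ℝ :=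
  max (sSup ((fun t => (k t i - h t i) - 1 / 2 * ‖x - h t‖) '' Icc (-2 : ℝ) 2))
    (-(1 / 2 * max (2 - ‖x‖) 0))

/-- The ambient map carrying `h` to `k`. -/
noncomputable def Loc (h k : ℝ → E 3) (x : E 3) : E 3 :=
  x + WithLp.toLp 2 (fun i => (Dup h k i x + Ddn h k i x) / 2)

end LK
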